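import Mathlib

/-! Four functions theorem for the Lebesgue integral, on abstract product spaces. -/

open Set Filter Topology MeasureTheory
open scoped ENNReal

namespace Pool.Agent.Helper55.BD

/-- The four functions property of a measure with respect to two binary operations. -/
def HasFour {X : Type*} [MeasurableSpace X] (μ : Measure X) (op₁ op₂ : X → X → X) : Prop :=
  ∀ f₁ f₂ f₃ f₄ : X → ℝ≥0∞, Measurable f₁ → Measurable f₂ → Measurable f₃ → Measurable f₄ →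
    (∀ x y, f₁ x * f₂ y ≤ f₃ (op₁ x y) * f₄ (op₂ x y)) →
    (∫⁻ x, f₁ x ∂μ) * (∫⁻ x, f₂ x ∂μ) ≤ (∫⁻ x, f₃ x ∂μ) * (∫⁻ x, f₄ x ∂μ)

theorem HasFour.symm {X : Type*} [MeasurableSpace X] {μ : Measure X} {op₁ op₂ : X → X → X}
    (h : HasFour μ op₁ op₂) : HasFour μ op₂ op₁ := by
  intro f₁ f₂ f₃ f₄ h₁ h₂ h₃ h₄ H
  rw [mul_comm (∫⁻ x, f₃ x ∂μ)]
  refine h f₁ f₂ f₄ f₃ h₁ h₂ h₄ h₃ ?_
  intro x y
  rw [mul_comm (f₄ _)]
  exact H x y

theorem HasFour.prod {X Y : Type*} [MeasurableSpace X] [MeasurableSpace Y]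
    {μ : Measure X} {ν : Measure Y} [SFinite μ] [SFinite ν]
    {op₁ op₂ : X → X → X} {oq₁ oq₂ : Y → Y → Y}
    (h : HasFour μ op₁ op₂) (h' : HasFour ν oq₁ oq₂) :
    HasFour (μ.prod ν) (fun p q => (op₁ p.1 q.1, oq₁ p.2 q.2))
      (fun p q => (op₂ p.1 q.1, oq₂ p.2 q.2)) := by
  intro f₁ f₂ f₃ f₄ h₁ h₂ h₃ h₄ H
  rw [lintegral_prod _ h₁.aemeasurable, lintegral_prod _ h₂.aemeasurable,
    lintegral_prod _ h₃.aemeasurable, lintegral_prod _ h₄.aemeasurable]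
  refine h _ _ _ _ h₁.lintegral_prod_right' h₂.lintegral_prod_right' h₃.lintegral_prod_right'
    h₄.lintegral_prod_right' ?_
  intro x y
  refine h' _ _ _ _ (h₁.comp measurable_prodMk_left) (h₂.comp measurable_prodMk_left)
    (h₃.comp measurable_prodMk_left) (h₄.comp measurable_prodMk_left) ?_
  intro a b
  exact H (x, a) (y, b)

/-- `a, b ≤ c` and `a b ≤ c d` imply `a + b ≤ c + d`. -/
theorem add_le_add_of_mul_le {a b c d : ℝ≥0∞} (ha : a ≤ c) (hb : b ≤ c) (hab : a * b ≤ c * d) :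
    a + b ≤ c + d := by
  by_cases hc : c = ∞
  · simp [hc]
  by_cases hd : d = ∞
  · simp [hd]
  have ha' : a ≠ ∞ := ne_top_of_le_ne_top hc ha
  have hb' : b ≠ ∞ := ne_top_of_le_ne_top hc hb
  lift a to NNReal using ha'
  lift b to NNReal using hb'
  lift c to NNReal using hc
  lift d to NNReal using hd
  norm_cast at ha hb hab ⊢
  rcases eq_or_lt_of_le (show (0 : NNReal) ≤ c from bot_le) with h0 | h0
  · have h1 : a = 0 := le_antisymm (ha.trans h0.symm.le) bot_le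
    have h2 : b = 0 := le_antisymm (hb.trans h0.symm.le) bot_le
    simp [h1, h2]
  · rw [← NNReal.coe_le_coe] at ha hb hab ⊢
    rw [← NNReal.coe_pos] at h0
    push_cast at *
    have h3 : (0 : ℝ) ≤ ((c : ℝ) - a) * (c - b) := mul_nonneg (by linarith) (by linarith)
    have h4 : (0 : ℝ) ≤ c * ((c : ℝ) + d - (a + b)) := by nlinarith
    have h5 := nonneg_of_mul_nonneg_right h4 h0
    linarith

/-- the one-dimensional case, for an arbitrary linear order -/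
theorem hasFour_linear {X : Type*} [MeasurableSpace X] [LinearOrder X]
    (μ : Measure X) [SFinite μ] : HasFour μ (fun x y => x ⊔ y) (fun x y => x ⊓ y) := by
  intro f₁ f₂ f₃ f₄ h₁ h₂ h₃ h₄ H
  have key : ∀ x y : X, y ≤ x → f₁ x * f₂ y + f₁ y * f₂ x ≤ f₃ x * f₄ y + f₃ y * f₄ x := by
    intro x y hxy
    have e1 := H x y
    have e2 := H y x
    have e3 := H x x
    have e4 := H y y
    simp only [sup_eq_left.2 hxy, inf_eq_right.2 hxy, sup_eq_right.2 hxy, inf_eq_left.2 hxy,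
      sup_idem, inf_idem] at e1 e2 e3 e4
    refine add_le_add_of_mul_le e1 e2 ?_
    calc f₁ x * f₂ y * (f₁ y * f₂ x) = (f₁ x * f₂ x) * (f₁ y * f₂ y) := by ring
      _ ≤ (f₃ x * f₄ x) * (f₃ y * f₄ y) := mul_le_mul' e3 e4
      _ = f₃ x * f₄ y * (f₃ y * f₄ x) := by ring
  have key' : ∀ p : X × X, f₁ p.1 * f₂ p.2 + f₂ p.1 * f₁ p.2 ≤
      f₃ p.1 * f₄ p.2 + f₄ p.1 * f₃ p.2 := by
    intro p
    rcases le_total p.2 p.1 with h | h
    · have := key p.1 p.2 h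
      rw [mul_comm (f₂ p.1), mul_comm (f₄ p.1)]
      exact this
    · have := key p.2 p.1 h
      rw [mul_comm (f₂ p.1), mul_comm (f₄ p.1), add_comm, add_comm (f₃ p.1 * _)]
      exact this
  have hI : ∀ g₁ g₂ : X → ℝ≥0∞, Measurable g₁ → Measurable g₂ →
      ∫⁻ p, (g₁ p.1 * g₂ p.2 + g₂ p.1 * g₁ p.2) ∂(μ.prod μ) =
        (∫⁻ x, g₁ x ∂μ) * (∫⁻ x, g₂ x ∂μ) + (∫⁻ x, g₁ x ∂μ) * (∫⁻ x, g₂ x ∂μ) := by
    intro g₁ g₂ hg₁ hg₂
    have hm : Measurable fun p : X × X => g₁ p.1 * g₂ p.2 :=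
      (hg₁.comp measurable_fst).mul (hg₂.comp measurable_snd)
    rw [lintegral_add_left hm, lintegral_prod_mul hg₁.aemeasurable hg₂.aemeasurable,
      lintegral_prod_mul hg₂.aemeasurable hg₁.aemeasurable, mul_comm (∫⁻ x, g₂ x ∂μ)]
  have h5 := lintegral_mono (μ := μ.prod μ) key'
  rw [hI f₁ f₂ h₁ h₂, hI f₃ f₄ h₃ h₄] at h5
  rw [← two_mul, ← two_mul] at h5
  exact (ENNReal.mul_le_mul_iff_right (by norm_num) (by norm_num)).1 h5

/-- transport along a measure preserving equivalence -/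
theorem HasFour.of_measurePreserving {X Y : Type*} [MeasurableSpace X] [MeasurableSpace Y]
    {μ : Measure X} {ν : Measure Y} (e : X ≃ᵐ Y) (he : MeasurePreserving e μ ν)
    {op₁ op₂ : X → X → X} {oq₁ oq₂ : Y → Y → Y}
    (h1 : ∀ x y, e (op₁ x y) = oq₁ (e x) (e y)) (h2 : ∀ x y, e (op₂ x y) = oq₂ (e x) (e y))
    (h : HasFour ν oq₁ oq₂) : HasFour μ op₁ op₂ := by
  intro f₁ f₂ f₃ f₄ g₁ g₂ g₃ g₄ H
  have hI : ∀ g : X → ℝ≥0∞, Measurable g → ∫⁻ y, g (e.symm y) ∂ν = ∫⁻ x, g x ∂μ := by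
    intro g hg
    have hm : Measurable fun y : Y => g (e.symm y) := hg.comp e.symm.measurable
    rw [← he.map_eq, lintegral_map hm e.measurable]
    simp
  rw [← hI f₁ g₁, ← hI f₂ g₂, ← hI f₃ g₃, ← hI f₄ g₄]
  refine h _ _ _ _ (g₁.comp e.symm.measurable) (g₂.comp e.symm.measurable)
    (g₃.comp e.symm.measurable) (g₄.comp e.symm.measurable) ?_
  intro x y
  have e1 : e.symm (oq₁ x y) = op₁ (e.symm x) (e.symm y) := by
    rw [MeasurableEquiv.symm_apply_eq, h1]; simp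
  have e2 : e.symm (oq₂ x y) = op₂ (e.symm x) (e.symm y) := by
    rw [MeasurableEquiv.symm_apply_eq, h2]; simp
  simp only [e1, e2]
  exact H _ _

theorem hasFour_pi {n : ℕ} (μ : Fin n → Measure ℝ) [∀ i, SigmaFinite (μ i)] :
    HasFour (Measure.pi μ) (fun x y => x ⊔ y) (fun x y => x ⊓ y) := by
  induction n with
  | zero =>
    intro f₁ f₂ f₃ f₄ h₁ h₂ h₃ h₄ H
    have hI : ∀ g : (Fin 0 → ℝ) → ℝ≥0∞, ∫⁻ x, g x ∂(Measure.pi μ) = g default := by
      intro g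
      rw [Measure.pi_of_empty μ default, lintegral_dirac]
    rw [hI, hI, hI, hI]
    have := H default default
    simpa using this
  | succ n ih =>
    have h1 := (hasFour_linear (μ 0)).prod (ih fun i => μ i.succ)
    have hmp := measurePreserving_piFinSuccAbove μ 0
    refine HasFour.of_measurePreserving (MeasurableEquiv.piFinSuccAbove (fun _ => ℝ) 0) hmp
      ?_ ?_ h1
    · intro x y
      rfl
    · intro x y
      rfl

theorem four_functions_lintegral {n : ℕ} (μ : Fin n → Measure ℝ) [∀ i, SigmaFinite (μ i)]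
    (f₁ f₂ f₃ f₄ : (Fin n → ℝ) → ℝ≥0∞) (h₁ : Measurable f₁) (h₂ : Measurable f₂)
    (h₃ : Measurable f₃) (h₄ : Measurable f₄)
    (h : ∀ x y, f₁ x * f₂ y ≤ f₃ (x ⊔ y) * f₄ (x ⊓ y)) :
    (∫⁻ x, f₁ x ∂(Measure.pi μ)) * (∫⁻ x, f₂ x ∂(Measure.pi μ)) ≤
      (∫⁻ x, f₃ x ∂(Measure.pi μ)) * (∫⁻ x, f₄ x ∂(Measure.pi μ)) :=
  hasFour_pi μ f₁ f₂ f₃ f₄ h₁ h₂ h₃ h₄ h

/-- the lattice order `(u, -v)` on `(Fin n → ℝ) × (Fin m → ℝ)` -/
theorem hasFour_mixed {n m : ℕ} (μ : Fin n → Measure ℝ) [∀ i, SigmaFinite (μ i)]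
    (ν : Fin m → Measure ℝ) [∀ i, SigmaFinite (ν i)] :
    HasFour ((Measure.pi μ).prod (Measure.pi ν))
      (fun p q => (p.1 ⊔ q.1, p.2 ⊓ q.2)) (fun p q => (p.1 ⊓ q.1, p.2 ⊔ q.2)) :=
  (hasFour_pi μ).prod (hasFour_pi ν).symm

end Pool.Agent.Helper55.BD
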