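import Pool.Agent.Helper55.BD.Defs

/-! Module B3 (blueprint (Bo)): Borchardt identity (helper28). -/

open Set Filter Topology MeasureTheory Finset

namespace Pool.Agent.Helper28.BD

/-- expansion of the permanent along column `0` -/
theorem permanent_succ_column_zero {N : ℕ} (B : Matrix (Fin (N + 1)) (Fin (N + 1)) ℝ) :
    B.permanent = ∑ p : Fin (N + 1), B p 0 * (B.submatrix p.succAbove Fin.succ).permanent := by
  classical
  have hexp : B.permanent = ∑ p : Fin (N + 1), ∑ e : Equiv.Perm (Fin N),
      B p 0 * ∏ x : Fin N, B (Equiv.swap 0 p (e x).succ) x.succ := by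
    unfold Matrix.permanent
    rw [← Equiv.sum_comp Equiv.Perm.decomposeFin.symm, Fintype.sum_prod_type]
    refine Finset.sum_congr rfl fun p _ => Finset.sum_congr rfl fun e _ => ?_
    rw [Fin.prod_univ_succ, Equiv.Perm.decomposeFin_symm_apply_zero]
    congr 1
    refine Finset.prod_congr rfl fun x _ => ?_
    rw [Equiv.Perm.decomposeFin_symm_apply_succ]
  rw [hexp]
  refine Finset.sum_congr rfl fun p _ => ?_
  rw [← Finset.mul_sum]
  congr 1
  have hsw : ∀ a : Fin (N + 1), a ≠ 0 ↔ Equiv.swap 0 p a ≠ p := by
    intro a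
    rw [not_iff_not]
    constructor
    · rintro rfl; simp
    · intro h
      have := congrArg (Equiv.swap 0 p) h
      simpa using this
  let ρ : Equiv.Perm (Fin N) := (finSuccAboveEquiv 0).trans
    (((Equiv.swap 0 p).subtypeEquiv hsw).trans (finSuccAboveEquiv p).symm)
  have hρ : ∀ k : Fin N, p.succAbove (ρ k) = Equiv.swap 0 p k.succ := by
    intro k
    have h1 : ((finSuccAboveEquiv p) (ρ k) : Fin (N + 1)) = Equiv.swap 0 p k.succ := by
      simp [ρ, finSuccAboveEquiv_apply]
    rw [← h1, finSuccAboveEquiv_apply]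
  unfold Matrix.permanent
  rw [← Equiv.sum_comp (Equiv.mulLeft ρ)
    (fun e : Equiv.Perm (Fin N) => ∏ x, (B.submatrix p.succAbove Fin.succ) (e x) x)]
  refine Finset.sum_congr rfl fun e _ => Finset.prod_congr rfl fun x _ => ?_
  simp only [Equiv.coe_mulLeft, Matrix.submatrix_apply, Equiv.Perm.coe_mul, Function.comp_apply]
  rw [hρ]

open Polynomial in
theorem borchardt_aux : ∀ (n : ℕ) (x b : Fin n → ℝ), (∀ i j, x i + b j ≠ 0) →
    Function.Injective x →
    (Matrix.of fun i j => 1 / (x i + b j) ^ 2).det =
      (Matrix.of fun i j => 1 / (x i + b j)).det *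
        (Matrix.of fun i j => 1 / (x i + b j)).permanent := by
  classical
  intro n
  induction n with
  | zero => intro x b _ _; rw [Matrix.det_isEmpty, Matrix.det_isEmpty, Matrix.permanent_isEmpty, one_mul]
  | succ n ih =>
    intro x b h hx
    by_cases hb : Function.Injective b
    swap
    · rw [Function.Injective] at hb
      push Not at hb
      obtain ⟨j, k, hjk, hne⟩ := hb
      rw [Matrix.det_zero_of_column_eq (M := Matrix.of fun i j => 1 / (x i + b j) ^ 2) hne
        (fun i => by simp only [Matrix.of_apply, hjk]),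
        Matrix.det_zero_of_column_eq (M := Matrix.of fun i j => 1 / (x i + b j)) hne
        (fun i => by simp only [Matrix.of_apply, hjk]), zero_mul]
    -- minors
    let c : Fin n → ℝ := fun j => b j.succ
    let M2 : Fin (n + 1) → ℝ := fun i =>
      (Matrix.of fun (k : Fin n) (j : Fin n) => 1 / (x (i.succAbove k) + c j) ^ 2).det
    let M1 : Fin (n + 1) → ℝ := fun i =>
      (Matrix.of fun (k : Fin n) (j : Fin n) => 1 / (x (i.succAbove k) + c j)).det
    let P1 : Fin (n + 1) → ℝ := fun i =>
      (Matrix.of fun (k : Fin n) (j : Fin n) => 1 / (x (i.succAbove k) + c j)).permanent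
    have hM : ∀ i, M2 i = M1 i * P1 i := fun i =>
      ih (fun k => x (i.succAbove k)) c (fun k j => h _ _)
        (hx.comp Fin.succAbove_right_injective)
    -- the column as a function of t
    let bt : ℝ → Fin (n + 1) → ℝ := fun t => Fin.cons t c
    let A2 : ℝ → ℝ := fun t => (Matrix.of fun i j => 1 / (x i + bt t j) ^ 2).det
    let A1 : ℝ → ℝ := fun t => (Matrix.of fun i j => 1 / (x i + bt t j)).det
    let Q1 : ℝ → ℝ := fun t => (Matrix.of fun i j => 1 / (x i + bt t j)).permanent
    have eA2 : ∀ t, A2 t = ∑ i : Fin (n + 1), (-1) ^ (i : ℕ) * (1 / (x i + t) ^ 2) * M2 i := by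
      intro t
      simp only [A2]
      rw [Matrix.det_succ_column_zero]
      refine Finset.sum_congr rfl fun i _ => ?_
      simp only [Matrix.of_apply, bt, Fin.cons_zero]
      congr 1
    have eA1 : ∀ t, A1 t = ∑ i : Fin (n + 1), (-1) ^ (i : ℕ) * (1 / (x i + t)) * M1 i := by
      intro t
      simp only [A1]
      rw [Matrix.det_succ_column_zero]
      refine Finset.sum_congr rfl fun i _ => ?_
      simp only [Matrix.of_apply, bt, Fin.cons_zero]
      congr 1
    have eQ1 : ∀ t, Q1 t = ∑ i, (1 / (x i + t)) * P1 i := by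
      intro t
      simp only [Q1]
      rw [permanent_succ_column_zero]
      refine Finset.sum_congr rfl fun i _ => ?_
      simp only [Matrix.of_apply, bt, Fin.cons_zero]
      congr 1
    -- polynomials
    let W : Fin (n + 1) → ℝ[X] := fun i => ∏ k ∈ Finset.univ.erase i, (X + C (x k))
    let L : ℝ[X] := ∑ i : Fin (n + 1), C ((-1) ^ (i : ℕ) * M2 i) * (W i) ^ 2
    let R1 : ℝ[X] := ∑ i : Fin (n + 1), C ((-1) ^ (i : ℕ) * M1 i) * W i
    let R2 : ℝ[X] := ∑ i, C (P1 i) * W i
    have hW : ∀ (i : Fin (n + 1)) (t : ℝ), (W i).eval t = ∏ k ∈ Finset.univ.erase i, (x k + t) := by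
      intro i t
      simp only [W, eval_prod, eval_add, eval_X, eval_C]
      exact Finset.prod_congr rfl fun k _ => add_comm _ _
    have hWp : ∀ (t : ℝ), (∀ k, x k + t ≠ 0) → ∀ i, (W i).eval t =
        (1 / (x i + t)) * ∏ k, (x k + t) := by
      intro t ht i
      rw [hW, ← Finset.mul_prod_erase Finset.univ _ (Finset.mem_univ i)]
      have := ht i
      field_simp
    have hL : ∀ t : ℝ, (∀ k, x k + t ≠ 0) → L.eval t = A2 t * (∏ k, (x k + t)) ^ 2 := by
      intro t ht
      simp only [L, eval_finsetSum, eval_mul, eval_C, eval_pow]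
      rw [eA2, Finset.sum_mul]
      refine Finset.sum_congr rfl fun i _ => ?_
      rw [hWp t ht]
      have := ht i
      field_simp
    have hR1 : ∀ t : ℝ, (∀ k, x k + t ≠ 0) → R1.eval t = A1 t * (∏ k, (x k + t)) := by
      intro t ht
      simp only [R1, eval_finsetSum, eval_mul, eval_C]
      rw [eA1, Finset.sum_mul]
      refine Finset.sum_congr rfl fun i _ => ?_
      rw [hWp t ht]
      ring
    have hR2 : ∀ t : ℝ, (∀ k, x k + t ≠ 0) → R2.eval t = Q1 t * (∏ k, (x k + t)) := by
      intro t ht
      simp only [R2, eval_finsetSum, eval_mul, eval_C]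
      rw [eQ1, Finset.sum_mul]
      refine Finset.sum_congr rfl fun i _ => ?_
      rw [hWp t ht]
      ring
    have hW0 : ∀ i j, i ≠ j → (W i).eval (-(x j)) = 0 := by
      intro i j hij
      rw [hW]
      refine Finset.prod_eq_zero (i := j) (by simp [Ne.symm hij]) (by ring)
    have hdegW : ∀ i, (W i).natDegree ≤ n := by
      intro i
      refine (natDegree_prod_le _ _).trans ?_
      have h1 := Finset.sum_le_card_nsmul (Finset.univ.erase i)
        (fun k => (X + C (x k) : ℝ[X]).natDegree) 1 (fun k _ => (natDegree_X_add_C (x k)).le)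
      have h2 : (Finset.univ.erase i : Finset (Fin (n + 1))).card = n := by
        rw [Finset.card_erase_of_mem (Finset.mem_univ i), Finset.card_univ, Fintype.card_fin]
        rfl
      rw [h2, nsmul_eq_mul, mul_one] at h1
      exact h1
    have hdegL : L.natDegree ≤ 2 * n := by
      refine natDegree_sum_le_of_forall_le _ _ fun i _ => ?_
      refine (natDegree_C_mul_le _ _).trans ?_
      refine natDegree_pow_le.trans ?_
      exact Nat.mul_le_mul_left 2 (hdegW i)
    have hdegR1 : R1.natDegree ≤ n :=
      natDegree_sum_le_of_forall_le _ _ fun i _ => (natDegree_C_mul_le _ _).trans (hdegW i)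
    have hdegR2 : R2.natDegree ≤ n :=
      natDegree_sum_le_of_forall_le _ _ fun i _ => (natDegree_C_mul_le _ _).trans (hdegW i)
    have hdegR : (R1 * R2).natDegree ≤ 2 * n := by
      refine natDegree_mul_le.trans ?_
      omega
    have hLR : L = R1 * R2 := by
      let s : Finset ℝ := (Finset.univ.image fun i => -(x i)) ∪ (Finset.univ.image fun j => c j)
      have hdisj : Disjoint (Finset.univ.image fun i => -(x i)) (Finset.univ.image fun j => c j) := by
        rw [Finset.disjoint_left]
        intro t ht1 ht2
        simp only [Finset.mem_image, Finset.mem_univ, true_and] at ht1 ht2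
        obtain ⟨i, hi⟩ := ht1
        obtain ⟨j, hj⟩ := ht2
        apply h i j.succ
        have : b j.succ = t := hj
        rw [this, ← hi]; ring
      have hcard : s.card = 2 * n + 1 := by
        rw [Finset.card_union_of_disjoint hdisj,
          Finset.card_image_of_injective _ (fun i j hij => hx (neg_injective hij)),
          Finset.card_image_of_injective _ (fun i j hij => Fin.succ_injective _ (hb hij))]
        simp
        omega
      refine Polynomial.eq_of_degree_sub_lt_of_eval_finset_eq s ?_ ?_
      · refine lt_of_le_of_lt degree_le_natDegree ?_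
        rw [hcard]
        have h1 : (L - R1 * R2).natDegree ≤ 2 * n :=
          (natDegree_sub_le _ _).trans (max_le hdegL hdegR)
        exact_mod_cast Nat.lt_succ_of_le h1
      · intro t ht
        rcases Finset.mem_union.1 ht with ht | ht
        · simp only [Finset.mem_image, Finset.mem_univ, true_and] at ht
          obtain ⟨i, rfl⟩ := ht
          simp only [L, R1, R2, eval_mul, eval_finsetSum, eval_C, eval_pow]
          rw [Finset.sum_eq_single i (fun k _ hk => by rw [hW0 k i hk]; ring) (by simp),
            Finset.sum_eq_single i (fun k _ hk => by rw [hW0 k i hk]; ring) (by simp),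
            Finset.sum_eq_single i (fun k _ hk => by rw [hW0 k i hk]; ring) (by simp), hM]
          ring
        · simp only [Finset.mem_image, Finset.mem_univ, true_and] at ht
          obtain ⟨j, rfl⟩ := ht
          have ht' : ∀ k, x k + c j ≠ 0 := fun k => h k j.succ
          have hj0 : (0 : Fin (n + 1)) ≠ j.succ := (Fin.succ_ne_zero j).symm
          have z2 : A2 (c j) = 0 := Matrix.det_zero_of_column_eq hj0 fun i => by
            simp [bt]
          have z1 : A1 (c j) = 0 := Matrix.det_zero_of_column_eq hj0 fun i => by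
            simp [bt]
          rw [eval_mul, hL _ ht', hR1 _ ht', z2, z1]
          ring
    have hb0 : bt (b 0) = b := by
      funext j
      refine Fin.cases ?_ (fun j => ?_) j <;> simp [bt, c]
    have ht0 : ∀ k, x k + b 0 ≠ 0 := fun k => h k 0
    have hfin := congrArg (eval (b 0)) hLR
    rw [eval_mul, hL _ ht0, hR1 _ ht0, hR2 _ ht0] at hfin
    have hP : (∏ k, (x k + b 0)) ≠ 0 := Finset.prod_ne_zero_iff.2 fun k _ => ht0 k
    have h3 : A2 (b 0) = A1 (b 0) * Q1 (b 0) := by
      have : A2 (b 0) * (∏ k, (x k + b 0)) ^ 2 = (A1 (b 0) * Q1 (b 0)) * (∏ k, (x k + b 0)) ^ 2 := by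
        rw [hfin]; ring
      exact mul_right_cancel₀ (pow_ne_zero 2 hP) this
    simp only [A2, A1, Q1, hb0] at h3
    exact h3

end Pool.Agent.Helper28.BD

namespace Pool.Agent.Helper55.BD

theorem borchardt {n : ℕ} (x b : Fin n → ℝ) (h : ∀ i j, x i + b j ≠ 0) :
    (Matrix.of fun i j => 1 / (x i + b j) ^ 2).det =
      (Matrix.of fun i j => 1 / (x i + b j)).det *
        (Matrix.of fun i j => 1 / (x i + b j)).permanent := by
  by_cases hx : Function.Injective x
  · exact Pool.Agent.Helper28.BD.borchardt_aux n x b h hx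
  · rw [Function.Injective] at hx
    push Not at hx
    obtain ⟨j, k, hjk, hne⟩ := hx
    rw [Matrix.det_zero_of_row_eq (M := Matrix.of fun i j => 1 / (x i + b j) ^ 2) hne
      (by funext i; simp only [Matrix.of_apply, hjk]),
      Matrix.det_zero_of_row_eq (M := Matrix.of fun i j => 1 / (x i + b j)) hne
      (by funext i; simp only [Matrix.of_apply, hjk]), zero_mul]

theorem kk_one_eq {N : ℕ} {x y : Fin N → ℝ} (hx : ∀ i, 0 < x i) (hy : ∀ i, 0 < y i) :
    kd (kk 1) x y = kd (kk 0) x y * (Matrix.of fun i j => 1 / (1 + x i * y j)).permanent := by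
  have hb := borchardt x (fun j => 1 / y j) (fun i j => by
    have h1 := hx i
    have h2 : 0 < 1 / y j := one_div_pos.2 (hy j)
    positivity)
  have e1 : (Matrix.of fun i j => 1 / (x i + 1 / y j)) =
      Matrix.of fun i j => y j * (Matrix.of fun i j => 1 / (1 + x i * y j)) i j := by
    ext i j
    simp only [Matrix.of_apply]
    have h1 := hx i
    have h2 := hy j
    have h3 : x i + 1 / y j ≠ 0 := by positivity
    have h4 : 1 + x i * y j ≠ 0 := by positivity
    field_simp
    ring
  have e2 : (Matrix.of fun i j => 1 / (x i + 1 / y j) ^ 2) =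
      Matrix.of fun i j => (y j) ^ 2 * (Matrix.of fun i j => 1 / (1 + x i * y j) ^ 2) i j := by
    ext i j
    simp only [Matrix.of_apply]
    have h1 := hx i
    have h2 := hy j
    have h3 : x i + 1 / y j ≠ 0 := by positivity
    have h4 : 1 + x i * y j ≠ 0 := by positivity
    field_simp
    ring
  have e3 : (Matrix.of fun i j => y j * (Matrix.of fun i j => 1 / (1 + x i * y j)) i j).permanent =
      (∏ j, y j) * (Matrix.of fun i j => 1 / (1 + x i * y j)).permanent := by
    unfold Matrix.permanent
    rw [Finset.mul_sum]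
    refine Finset.sum_congr rfl fun σ _ => ?_
    simp only [Matrix.of_apply]
    rw [Finset.prod_mul_distrib]
  rw [e1, e2, Matrix.det_mul_row (fun j => y j), Matrix.det_mul_row (fun j => y j ^ 2), e3,
    Finset.prod_pow] at hb
  have hP : 0 < ∏ j, y j := Finset.prod_pos fun j _ => hy j
  have h1 : (Matrix.of fun i j => 1 / (1 + x i * y j) ^ 2).det =
      (Matrix.of fun i j => 1 / (1 + x i * y j)).det *
        (Matrix.of fun i j => 1 / (1 + x i * y j)).permanent := by
    have h2 : (∏ j, y j) ^ 2 * (Matrix.of fun i j => 1 / (1 + x i * y j) ^ 2).det =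
        (∏ j, y j) ^ 2 * ((Matrix.of fun i j => 1 / (1 + x i * y j)).det *
        (Matrix.of fun i j => 1 / (1 + x i * y j)).permanent) := by
      rw [hb]; ring
    exact mul_left_cancel₀ (pow_ne_zero 2 hP.ne') h2
  have f0 : (Matrix.of fun i j => kk 0 (x i * y j)) = Matrix.of fun i k =>
      x i * (Matrix.of fun i k => y k *
        (Matrix.of fun i j => 1 / (1 + x i * y j)) i k) i k := by
    ext i j
    simp only [Matrix.of_apply, kk, Nat.factorial_zero, Nat.cast_one, one_mul, zero_add, pow_one]
    ring
  have f1 : (Matrix.of fun i j => kk 1 (x i * y j)) = Matrix.of fun i k =>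
      x i * (Matrix.of fun i k => y k *
        (Matrix.of fun i j => 1 / (1 + x i * y j) ^ 2) i k) i k := by
    ext i j
    simp only [Matrix.of_apply, kk, Nat.factorial_one, Nat.cast_one, one_mul]
    ring
  have hperm : 0 ≤ (Matrix.of fun i j => 1 / (1 + x i * y j)).permanent := by
    unfold Matrix.permanent
    refine Finset.sum_nonneg fun σ _ => Finset.prod_nonneg fun i _ => ?_
    simp only [Matrix.of_apply]
    have h1 := hx (σ i)
    have h2 := hy i
    positivity
  unfold kd
  rw [f0, f1, Matrix.det_mul_column x, Matrix.det_mul_column x, Matrix.det_mul_row y,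
    Matrix.det_mul_row y, h1, ← abs_of_nonneg hperm, ← abs_mul, abs_of_nonneg hperm]
  congr 1
  ring

end Pool.Agent.Helper55.BD
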