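import Pool.Agent.Helper55.BD.Defs

/-! Module B1 (blueprint B (R),(I1p)): total positivity, recursion, inequality (I1p). -/

open Set Filter Topology MeasureTheory

namespace Pool.Agent.Helper55.BD

open Pool.Agent.Helper28.Eta (eta sg vdm mup nu)

/-! ### determinants of integrals -/

theorem integrable_det {N : ℕ} (μ : Fin N → Measure ℝ) [∀ i, SigmaFinite (μ i)]
    (f : Fin N → ℝ → ℝ) (hf : ∀ i j, Integrable (f j) (μ i)) :
    Integrable (fun z : Fin N → ℝ => (Matrix.of fun i j => f j (z i)).det) (Measure.pi μ) := by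
  simp only [Matrix.det_apply', Matrix.of_apply]
  refine integrable_finsetSum _ fun σ _ => Integrable.const_mul ?_ _
  -- ∏ i, f i (z (σ i))
  have h : (fun z : Fin N → ℝ => ∏ i, f i (z (σ i))) =
      fun z : Fin N → ℝ => ∏ i, f (σ.symm i) (z i) := by
    funext z
    rw [← Equiv.prod_comp σ (fun i => f (σ.symm i) (z i))]
    simp
  rw [h]
  exact Integrable.fintype_prod (f := fun i x => f (σ.symm i) x) (fun i => hf i _)

theorem integral_det {N : ℕ} (μ : Fin N → Measure ℝ) [∀ i, SigmaFinite (μ i)]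
    (f : Fin N → ℝ → ℝ) (hf : ∀ i j, Integrable (f j) (μ i)) :
    ∫ z : Fin N → ℝ, (Matrix.of fun i j => f j (z i)).det ∂(Measure.pi μ) =
      (Matrix.of fun i j => ∫ x, f j x ∂(μ i)).det := by
  have h : ∀ (σ : Equiv.Perm (Fin N)), (fun z : Fin N → ℝ => ∏ i, f i (z (σ i))) =
      fun z : Fin N → ℝ => ∏ i, f (σ.symm i) (z i) := by
    intro σ
    funext z
    rw [← Equiv.prod_comp σ (fun i => f (σ.symm i) (z i))]
    simp
  have hi : ∀ (σ : Equiv.Perm (Fin N)), Integrable
      (fun z : Fin N → ℝ => ∏ i, f i (z (σ i))) (Measure.pi μ) := by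
    intro σ
    rw [h σ]
    exact Integrable.fintype_prod (f := fun i x => f (σ.symm i) x) (fun i => hf i _)
  simp only [Matrix.det_apply', Matrix.of_apply]
  rw [integral_finsetSum _ (fun σ _ => (hi σ).const_mul _)]
  refine Finset.sum_congr rfl fun σ _ => ?_
  rw [integral_const_mul, h σ,
    integral_fintype_prod_eq_prod (f := fun i x => f (σ.symm i) x)]
  congr 1
  rw [← Equiv.prod_comp σ]
  simp

/-- the measure on the interlacing box -/
noncomputable def box {N : ℕ} (x : Fin (N + 1) → ℝ) : Measure (Fin N → ℝ) :=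
  Measure.pi fun i => volume.restrict (Ioc (x i.castSucc) (x i.succ))

instance {N : ℕ} (x : Fin (N + 1) → ℝ) : SigmaFinite (box x) := by
  unfold box; infer_instance

theorem box_ae {N : ℕ} (x : Fin (N + 1) → ℝ) :
    ∀ᵐ z ∂(box x), ∀ i : Fin N, x i.castSucc < z i ∧ z i ≤ x i.succ := by
  unfold box
  rw [ae_all_iff]
  intro i
  have h1 : ∀ᵐ t ∂(volume.restrict (Ioc (x i.castSucc) (x i.succ))),
      x i.castSucc < t ∧ t ≤ x i.succ := ae_restrict_mem measurableSet_Ioc
  exact (Measure.quasiMeasurePreserving_eval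
    (μ := fun i : Fin N => volume.restrict (Ioc (x i.castSucc) (x i.succ))) i).ae h1

theorem box_ne_zero {N : ℕ} {x : Fin (N + 1) → ℝ} (hx : StrictMono x) : box x ≠ 0 := by
  intro h
  have h1 : (box x) univ = 0 := by rw [h]; simp
  unfold box at h1
  rw [Measure.pi_univ, Finset.prod_eq_zero_iff] at h1
  obtain ⟨i, _, hi⟩ := h1
  rw [Measure.restrict_apply_univ, Real.volume_Ioc, ENNReal.ofReal_eq_zero] at hi
  have := hx (Fin.castSucc_lt_succ (i := i))
  linarith

/-! ### the signed determinants and the recursion -/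

/-- signed determinant of `s!/(1+x_i y_j)^{s+1}` -/
noncomputable def gd (s N : ℕ) (x y : Fin N → ℝ) : ℝ :=
  sg N * (Matrix.of fun i j => (s.factorial : ℝ) * (1 / (1 + x i * y j)) ^ (s + 1)).det

theorem sg_succ (N : ℕ) : sg (N + 1) = (-1) ^ N * sg N := by
  unfold Pool.Agent.Helper28.Eta.sg
  rw [Fin.prod_univ_succ]
  congr 1
  · rw [Fin.prod_Ioi_zero]
    simp
  · refine Finset.prod_congr rfl fun i _ => ?_
    rw [Fin.prod_Ioi_succ]

theorem sg_mul_self (N : ℕ) : sg N * sg N = 1 := Pool.Agent.Helper28.Eta.sg_mul_sg N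

theorem abs_sg (N : ℕ) : |sg N| = 1 := by
  have h := sg_mul_self N
  have h2 : |sg N| * |sg N| = 1 := by rw [← abs_mul, h, abs_one]
  nlinarith [abs_nonneg (sg N)]

/-- the column functions -/
noncomputable def colf (s : ℕ) (b y t : ℝ) : ℝ :=
  ((s + 1).factorial : ℝ) * ((1 + t * b) ^ s * (1 / (1 + t * y)) ^ (s + 2))

theorem colf_deriv (s : ℕ) {b y t : ℝ} (hb : 0 ≤ b) (hy : 0 ≤ y) (ht : 0 ≤ t) :
    HasDerivAt (fun t => (s.factorial : ℝ) * ((1 + t * b) / (1 + t * y)) ^ (s + 1))
      ((b - y) * colf s b y t) t := by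
  have h1 : (1 : ℝ) + t * y ≠ 0 := by positivity
  have hd1 : HasDerivAt (fun t : ℝ => 1 + t * b) b t := by
    simpa using ((hasDerivAt_id t).mul_const b).const_add 1
  have hd2 : HasDerivAt (fun t : ℝ => 1 + t * y) y t := by
    simpa using ((hasDerivAt_id t).mul_const y).const_add 1
  have h := ((hd1.div hd2 h1).pow (s + 1)).const_mul (s.factorial : ℝ)
  refine h.congr_deriv ?_
  unfold colf
  rw [Nat.factorial_succ]
  simp only [Nat.add_sub_cancel, Pi.div_apply, div_pow, one_pow]
  push_cast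
  field_simp
  ring

theorem colf_continuousOn (s : ℕ) {b y lo hi : ℝ} (_hb : 0 ≤ b) (hy : 0 ≤ y) (hlo : 0 ≤ lo) :
    ContinuousOn (colf s b y) (Icc lo hi) := by
  unfold colf
  have : ∀ t ∈ Icc lo hi, (1 : ℝ) + t * y ≠ 0 := by
    intro t ht
    have : 0 ≤ t := hlo.trans ht.1
    positivity
  fun_prop (disch := assumption)

theorem colf_integrable (s : ℕ) {b y lo hi : ℝ} (hb : 0 ≤ b) (hy : 0 ≤ y) (hlo : 0 ≤ lo) :
    Integrable (colf s b y) (volume.restrict (Ioc lo hi)) :=
  ((colf_continuousOn s hb hy hlo).integrableOn_Icc).mono_set Ioc_subset_Icc_self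

theorem colf_integral (s : ℕ) {b y lo hi : ℝ} (hb : 0 ≤ b) (hy : 0 ≤ y) (hlo : 0 ≤ lo)
    (hlh : lo ≤ hi) :
    (s.factorial : ℝ) * ((1 + hi * b) / (1 + hi * y)) ^ (s + 1) -
      (s.factorial : ℝ) * ((1 + lo * b) / (1 + lo * y)) ^ (s + 1) =
      (b - y) * ∫ t, colf s b y t ∂(volume.restrict (Ioc lo hi)) := by
  rw [← integral_const_mul, ← intervalIntegral.integral_of_le hlh]
  have := intervalIntegral.integral_eq_sub_of_hasDerivAt
    (f := fun t => (s.factorial : ℝ) * ((1 + t * b) / (1 + t * y)) ^ (s + 1))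
    (f' := fun t => (b - y) * colf s b y t) (a := lo) (b := hi) ?_ ?_
  · rw [this]
  · intro t ht
    rw [uIcc_of_le hlh] at ht
    exact colf_deriv s hb hy (hlo.trans ht.1)
  · refine ContinuousOn.intervalIntegrable ?_
    rw [uIcc_of_le hlh]
    exact continuousOn_const.mul (colf_continuousOn s hb hy hlo)

theorem gd_integrand (s N : ℕ) (b : ℝ) (y z : Fin N → ℝ) :
    (∏ i, (1 + z i * b) ^ s) * gd (s + 1) N z y =
      sg N * (Matrix.of fun i j => colf s b (y j) (z i)).det := by
  unfold gd colf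
  rw [mul_left_comm, ← Matrix.det_mul_column]
  congr 2
  ext i j
  simp only [Matrix.of_apply]
  ring

theorem gd_integrable (s N : ℕ) {b : ℝ} {x : Fin (N + 1) → ℝ} {y : Fin N → ℝ} (hb : 0 ≤ b)
    (hx : ∀ i, 0 ≤ x i) (hy : ∀ i, 0 ≤ y i) :
    Integrable (fun z : Fin N → ℝ => (∏ i, (1 + z i * b) ^ s) * gd (s + 1) N z y) (box x) := by
  simp only [gd_integrand]
  refine Integrable.const_mul ?_ _
  unfold box
  exact integrable_det _ (fun j t => colf s b (y j) t)
    (fun i j => colf_integrable s hb (hy j) (hx _))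

theorem gd_rec (s N : ℕ) {x y : Fin (N + 1) → ℝ} (hx : ∀ i, 0 ≤ x i) (hy : ∀ i, 0 ≤ y i)
    (hxm : Monotone x) :
    gd s (N + 1) x y = (s.factorial : ℝ) * (∏ j : Fin N, (y j.succ - y 0)) *
      (∏ i, (1 / (1 + x i * y 0)) ^ (s + 1)) *
      ∫ z, (∏ i, (1 + z i * y 0) ^ s) * gd (s + 1) N z (fun j => y j.succ) ∂(box x) := by
  have hne : ∀ i j, (1 : ℝ) + x i * y j ≠ 0 := fun i j => by
    have := mul_nonneg (hx i) (hy j); positivity
  simp only [gd_integrand]
  rw [integral_const_mul]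
  unfold box
  rw [integral_det _ (fun j t => colf s (y 0) (y j.succ) t)
    (fun i j => colf_integrable s (hy 0) (hy _) (hx _))]
  unfold gd
  set A : Matrix (Fin (N + 1)) (Fin (N + 1)) ℝ := Matrix.of fun i j =>
    (s.factorial : ℝ) * ((1 + x i * y 0) / (1 + x i * y j)) ^ (s + 1) with hA
  have h1 : (Matrix.of fun i j => (s.factorial : ℝ) * (1 / (1 + x i * y j)) ^ (s + 1)).det =
      (∏ i, (1 / (1 + x i * y 0)) ^ (s + 1)) * A.det := by
    rw [← Matrix.det_mul_column]
    congr 1
    ext i j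
    simp only [Matrix.of_apply, hA]
    have e1 := hne i 0
    have e2 := hne i j
    rw [mul_left_comm, ← mul_pow]
    congr 2
    field_simp
  have h2 : A.det = (s.factorial : ℝ) * (Matrix.of fun i j : Fin N =>
      A i.succ j.succ - A i.castSucc j.succ).det := by
    set B : Matrix (Fin (N + 1)) (Fin (N + 1)) ℝ := Matrix.of fun i j =>
      Fin.cases (motive := fun _ => ℝ) (A 0 j) (fun i => A i.succ j - A i.castSucc j) i with hB
    have hAB : A.det = B.det := by
      refine Matrix.det_eq_of_forall_row_eq_smul_add_pred (fun _ => 1) ?_ ?_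
      · intro j; simp [hB]
      · intro i j; simp [hB]
    rw [hAB, Matrix.det_succ_column_zero, Fin.sum_univ_succ]
    have hz : ∀ i : Fin N, B i.succ 0 = 0 := by
      intro i
      simp only [hB, hA, Matrix.of_apply, Fin.cases_succ]
      rw [div_self (hne _ _), div_self (hne _ _)]
      simp
    have h00 : B 0 0 = (s.factorial : ℝ) := by
      simp only [hB, hA, Matrix.of_apply, Fin.cases_zero]
      rw [div_self (hne _ _)]
      simp
    simp only [hz, mul_zero, zero_mul, Finset.sum_const_zero, add_zero, h00, Fin.val_zero,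
      pow_zero, one_mul]
    congr 2
  have h3 : (Matrix.of fun i j : Fin N => A i.succ j.succ - A i.castSucc j.succ).det =
      (∏ j : Fin N, (y 0 - y j.succ)) * (Matrix.of fun i j : Fin N =>
        ∫ t, colf s (y 0) (y j.succ) t ∂(volume.restrict (Ioc (x i.castSucc) (x i.succ)))).det := by
    rw [← Matrix.det_mul_row]
    congr 1
    ext i j
    simp only [Matrix.of_apply, hA]
    exact colf_integral s (hy 0) (hy _) (hx _) (hxm (Fin.castSucc_lt_succ (i := i)).le)
  have h4 : (∏ j : Fin N, (y 0 - y j.succ)) = (-1) ^ N * ∏ j : Fin N, (y j.succ - y 0) := by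
    have : ∀ j : Fin N, y 0 - y j.succ = (-1) * (y j.succ - y 0) := fun j => by ring
    simp only [this, Finset.prod_mul_distrib]
    simp
  rw [h1, h2, h3, h4, sg_succ]
  have h5 : ((-1 : ℝ) ^ N) * (-1) ^ N = 1 := by
    rw [← mul_pow]; norm_num
  linear_combination (sg N * (∏ i, (1 / (1 + x i * y 0)) ^ (s + 1)) * (s.factorial : ℝ) *
    (∏ j : Fin N, (y j.succ - y 0)) * (Matrix.of fun i j : Fin N =>
        ∫ t, colf s (y 0) (y j.succ) t
          ∂(volume.restrict (Ioc (x i.castSucc) (x i.succ)))).det) * h5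

/-- ae facts on the box -/
theorem box_ae' {N : ℕ} {x : Fin (N + 1) → ℝ} (hx : ∀ i, 0 ≤ x i) :
    ∀ᵐ z ∂(box x), (∀ i, 0 ≤ z i) ∧ StrictMono z := by
  filter_upwards [box_ae x] with z hz
  refine ⟨fun i => (hx _).trans (hz i).1.le, ?_⟩
  rcases N with _ | N
  · intro i; exact i.elim0
  · rw [Fin.strictMono_iff_lt_succ]
    intro i
    have h1 := (hz i.castSucc).2
    have h2 := (hz i.succ).1
    have : (i.castSucc.succ : Fin (N + 2)) = i.succ.castSucc := Fin.succ_castSucc i
    rw [this] at h1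
    exact lt_of_le_of_lt h1 h2

theorem gd_pos (N : ℕ) : ∀ (s : ℕ) {x y : Fin N → ℝ}, (∀ i, 0 ≤ x i) → (∀ i, 0 ≤ y i) →
    StrictMono x → StrictMono y → 0 < gd s N x y := by
  induction N with
  | zero =>
    intro s x y _ _ _ _
    unfold gd Pool.Agent.Helper28.Eta.sg
    simp
  | succ N ih =>
    intro s x y hx hy hxm hym
    rw [gd_rec s N hx hy hxm.monotone]
    have hp1 : 0 < ∏ j : Fin N, (y j.succ - y 0) :=
      Finset.prod_pos fun j _ => sub_pos.2 (hym (Fin.succ_pos j))
    have hp2 : 0 < ∏ i, (1 / (1 + x i * y 0)) ^ (s + 1) :=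
      Finset.prod_pos fun i _ => by
        have := mul_nonneg (hx i) (hy 0); positivity
    have hp3 : 0 < ∫ z, (∏ i, (1 + z i * y 0) ^ s) * gd (s + 1) N z (fun j => y j.succ)
        ∂(box x) := by
      have hpos : ∀ᵐ z ∂(box x),
          0 < (∏ i, (1 + z i * y 0) ^ s) * gd (s + 1) N z (fun j => y j.succ) := by
        filter_upwards [box_ae' hx] with z hz
        refine mul_pos (Finset.prod_pos fun i _ => ?_) (ih (s + 1) hz.1 (fun j => hy _) hz.2
          (fun a b hab => hym (Fin.succ_lt_succ_iff.2 hab)))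
        have := mul_nonneg (hz.1 i) (hy 0); positivity
      rw [integral_pos_iff_support_of_nonneg_ae (hpos.mono fun z hz => hz.le)
        (gd_integrable s N (hy 0) hx (fun j => hy _))]
      refine pos_iff_ne_zero.2 fun h0 => box_ne_zero hxm ?_
      rw [← ae_eq_bot, ← Filter.eventually_false_iff_eq_bot]
      have h1 := measure_eq_zero_iff_ae_notMem.1 h0
      filter_upwards [h1, hpos] with z h1 h2
      exact h1 (Function.mem_support.2 h2.ne')
    positivity

/-! ### (I1p) -/

/-- Cauchy-Schwarz in the form used here -/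
theorem cs_integral {α : Type*} [MeasurableSpace α] (μ : Measure α) {A B C : α → ℝ} {κ : ℝ}
    (hκ : 0 ≤ κ) (hA : Integrable A μ) (hB : Integrable B μ) (hC : Integrable C μ)
    (hA0 : ∀ᵐ z ∂μ, 0 ≤ A z) (hB0 : ∀ᵐ z ∂μ, 0 ≤ B z) (hC0 : ∀ᵐ z ∂μ, 0 ≤ C z)
    (h : ∀ᵐ z ∂μ, κ * C z ^ 2 ≤ A z * B z) :
    κ * (∫ z, C z ∂μ) ^ 2 ≤ (∫ z, A z ∂μ) * ∫ z, B z ∂μ := by
  have hq : ∀ t : ℝ, 0 ≤ (∫ z, A z ∂μ) * (t * t) + (2 * Real.sqrt κ * ∫ z, C z ∂μ) * t +
      ∫ z, B z ∂μ := by
    intro t
    have h1 : (∫ z, A z ∂μ) * (t * t) + (2 * Real.sqrt κ * ∫ z, C z ∂μ) * t + ∫ z, B z ∂μ =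
        ∫ z, ((t * t) * A z + (2 * Real.sqrt κ * t) * C z + B z) ∂μ := by
      rw [integral_add (f := fun z => (t * t) * A z + (2 * Real.sqrt κ * t) * C z) (g := B)
          ((hA.const_mul _).add (hC.const_mul _)) hB,
        integral_add (f := fun z => (t * t) * A z) (g := fun z => (2 * Real.sqrt κ * t) * C z)
          (hA.const_mul _) (hC.const_mul _), integral_const_mul, integral_const_mul]
      ring
    rw [h1]
    refine integral_nonneg_of_ae ?_
    filter_upwards [hA0, hB0, hC0, h] with z a b c hh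
    have hs : Real.sqrt κ ^ 2 = κ := Real.sq_sqrt hκ
    show 0 ≤ (t * t) * A z + (2 * Real.sqrt κ * t) * C z + B z
    rcases eq_or_lt_of_le a with ha | ha
    · have hk : κ * C z ^ 2 = 0 := by
        refine le_antisymm ?_ (by positivity)
        rw [← ha] at hh; simpa using hh
      have : Real.sqrt κ * C z = 0 := by
        have : (Real.sqrt κ * C z) ^ 2 = 0 := by rw [mul_pow, hs, hk]
        exact pow_eq_zero_iff (two_ne_zero) |>.1 this
      have e : (t * t) * A z + (2 * Real.sqrt κ * t) * C z + B z =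
        (t * t) * A z + 2 * t * (Real.sqrt κ * C z) + B z := by ring
      rw [e, this, ← ha]
      simpa using b
    · have e : A z * ((t * t) * A z + (2 * Real.sqrt κ * t) * C z + B z) =
          (t * A z + Real.sqrt κ * C z) ^ 2 + (A z * B z - Real.sqrt κ ^ 2 * C z ^ 2) := by ring
      have e2 : 0 ≤ A z * ((t * t) * A z + (2 * Real.sqrt κ * t) * C z + B z) := by
        rw [e, hs]
        have := sq_nonneg (t * A z + Real.sqrt κ * C z)
        linarith
      exact nonneg_of_mul_nonneg_right e2 ha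
  have hd := discrim_le_zero hq
  unfold discrim at hd
  have hs : Real.sqrt κ ^ 2 = κ := Real.sq_sqrt hκ
  nlinarith [hd, hs]

theorem gd_I1 (N : ℕ) : ∀ (s : ℕ) {x y : Fin N → ℝ}, (∀ i, 0 ≤ x i) → (∀ i, 0 ≤ y i) →
    StrictMono x → StrictMono y →
    (((N : ℝ) + s + 1) / ((s : ℝ) + 1)) * gd (s + 1) N x y ^ 2 ≤
      gd s N x y * gd (s + 2) N x y := by
  induction N with
  | zero =>
    intro s x y _ _ _ _
    unfold gd Pool.Agent.Helper28.Eta.sg
    have : (s : ℝ) + 1 ≠ 0 := by positivity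
    simp [this]
  | succ N ih =>
    intro s x y hx hy hxm hym
    rw [gd_rec s N hx hy hxm.monotone, gd_rec (s + 1) N hx hy hxm.monotone,
      gd_rec (s + 2) N hx hy hxm.monotone]
    set P : ℝ := ∏ j : Fin N, (y j.succ - y 0) with hP
    have hys : StrictMono (fun j : Fin N => y j.succ) :=
      fun a b hab => hym (Fin.succ_lt_succ_iff.2 hab)
    have hP0 : 0 < P := Finset.prod_pos fun j _ => sub_pos.2 (hym (Fin.succ_pos j))
    set I0 := ∫ z, (∏ i, (1 + z i * y 0) ^ s) * gd (s + 1) N z (fun j => y j.succ) ∂(box x)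
      with hI0
    set I1 := ∫ z, (∏ i, (1 + z i * y 0) ^ (s + 1)) *
      gd (s + 1 + 1) N z (fun j => y j.succ) ∂(box x) with hI1
    set I2 := ∫ z, (∏ i, (1 + z i * y 0) ^ (s + 2)) *
      gd (s + 2 + 1) N z (fun j => y j.succ) ∂(box x) with hI2
    have hcs : (((N : ℝ) + (s + 1 : ℕ) + 1) / (((s + 1 : ℕ) : ℝ) + 1)) * I1 ^ 2 ≤ I0 * I2 := by
      rw [hI0, hI1, hI2]
      refine cs_integral (box x) (by positivity) (gd_integrable s N (hy 0) hx (fun j => hy _))
        (gd_integrable (s + 2) N (hy 0) hx (fun j => hy _))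
        (gd_integrable (s + 1) N (hy 0) hx (fun j => hy _)) ?_ ?_ ?_ ?_
      · filter_upwards [box_ae' hx] with z hz
        refine mul_nonneg (Finset.prod_nonneg fun i _ => ?_)
          (gd_pos N _ hz.1 (fun j => hy _) hz.2 hys).le
        have := mul_nonneg (hz.1 i) (hy 0); positivity
      · filter_upwards [box_ae' hx] with z hz
        refine mul_nonneg (Finset.prod_nonneg fun i _ => ?_)
          (gd_pos N _ hz.1 (fun j => hy _) hz.2 hys).le
        have := mul_nonneg (hz.1 i) (hy 0); positivity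
      · filter_upwards [box_ae' hx] with z hz
        refine mul_nonneg (Finset.prod_nonneg fun i _ => ?_)
          (gd_pos N _ hz.1 (fun j => hy _) hz.2 hys).le
        have := mul_nonneg (hz.1 i) (hy 0); positivity
      · filter_upwards [box_ae' hx] with z hz
        have hI := ih (s + 1) hz.1 (fun j => hy j.succ) hz.2 hys
        have hQ : (∏ i, (1 + z i * y 0) ^ s) * (∏ i, (1 + z i * y 0) ^ (s + 2)) =
            (∏ i, (1 + z i * y 0) ^ (s + 1)) ^ 2 := by
          rw [← Finset.prod_mul_distrib, ← Finset.prod_pow]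
          refine Finset.prod_congr rfl fun i _ => ?_
          ring
        have hQ2 : 0 ≤ (∏ i, (1 + z i * y 0) ^ (s + 1)) ^ 2 := sq_nonneg _
        calc _ = (∏ i, (1 + z i * y 0) ^ (s + 1)) ^ 2 *
              ((((N : ℝ) + (s + 1 : ℕ) + 1) / (((s + 1 : ℕ) : ℝ) + 1)) *
                gd (s + 1 + 1) N z (fun j => y j.succ) ^ 2) := by ring
          _ ≤ (∏ i, (1 + z i * y 0) ^ (s + 1)) ^ 2 *
              (gd (s + 1) N z (fun j => y j.succ) * gd (s + 1 + 2) N z (fun j => y j.succ)) :=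
              mul_le_mul_of_nonneg_left hI hQ2
          _ = _ := by rw [← hQ]; ring
    set K0 := ∏ i, (1 / (1 + x i * y 0)) ^ (s + 1) with hK0
    set K1 := ∏ i, (1 / (1 + x i * y 0)) ^ (s + 1 + 1) with hK1
    set K2 := ∏ i, (1 / (1 + x i * y 0)) ^ (s + 2 + 1) with hK2
    have hK : K0 * K2 = K1 ^ 2 := by
      rw [hK0, hK1, hK2, ← Finset.prod_mul_distrib, ← Finset.prod_pow]
      refine Finset.prod_congr rfl fun i _ => ?_
      ring
    have hf1 : ((s + 1).factorial : ℝ) = ((s : ℝ) + 1) * (s.factorial : ℝ) := by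
      rw [Nat.factorial_succ]; push_cast; ring
    have hf2 : ((s + 2).factorial : ℝ) = ((s : ℝ) + 2) * (((s : ℝ) + 1) * (s.factorial : ℝ)) := by
      rw [Nat.factorial_succ, Nat.factorial_succ]; push_cast; ring
    push_cast at hcs ⊢
    rw [hf1, hf2]
    have hmul := mul_le_mul_of_nonneg_left hcs
      (show 0 ≤ (s.factorial : ℝ) ^ 2 * ((s : ℝ) + 1) * ((s : ℝ) + 2) * P ^ 2 * K1 ^ 2 by positivity)
    have hs1 : (s : ℝ) + 1 ≠ 0 := by positivity
    have hs2 : (s : ℝ) + 1 + 1 ≠ 0 := by positivity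
    calc _ = (s.factorial : ℝ) ^ 2 * ((s : ℝ) + 1) * ((s : ℝ) + 2) * P ^ 2 * K1 ^ 2 *
          ((((N : ℝ) + ((s : ℝ) + 1) + 1) / (((s : ℝ) + 1) + 1)) * I1 ^ 2) := by
            field_simp
            ring
      _ ≤ _ := hmul
      _ = _ := by rw [← hK]; ring

/-! ### general (unordered) variables -/

theorem gd_perm (s N : ℕ) (x y : Fin N → ℝ) (σ π : Equiv.Perm (Fin N)) :
    gd s N (x ∘ σ) (y ∘ π) = ((Equiv.Perm.sign σ : ℤ) : ℝ) * ((Equiv.Perm.sign π : ℤ) : ℝ) *
      gd s N x y := by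
  unfold gd
  have h : (Matrix.of fun i j => (s.factorial : ℝ) *
      (1 / (1 + (x ∘ σ) i * (y ∘ π) j)) ^ (s + 1)) =
      ((Matrix.of fun i j => (s.factorial : ℝ) *
        (1 / (1 + x i * y j)) ^ (s + 1)).submatrix σ id).submatrix id π := by
    ext i j; simp
  rw [h, Matrix.det_permute', Matrix.det_permute]
  ring

theorem gd_zero_left {s N : ℕ} {x y : Fin N → ℝ} (h : ¬ Function.Injective x) :
    gd s N x y = 0 := by
  unfold Function.Injective at h
  push Not at h
  obtain ⟨i, j, hij, hne⟩ := h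
  unfold gd
  rw [Matrix.det_zero_of_row_eq hne (by ext k; simp [hij]), mul_zero]

theorem gd_zero_right {s N : ℕ} {x y : Fin N → ℝ} (h : ¬ Function.Injective y) :
    gd s N x y = 0 := by
  unfold Function.Injective at h
  push Not at h
  obtain ⟨i, j, hij, hne⟩ := h
  unfold gd
  rw [Matrix.det_zero_of_column_eq hne (by intro k; simp [hij]), mul_zero]

theorem strictMono_sort {N : ℕ} {x : Fin N → ℝ} (h : Function.Injective x) :
    StrictMono (x ∘ Tuple.sort x) :=
  (Tuple.monotone_sort x).strictMono_of_injective (h.comp (Tuple.sort x).injective)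

theorem abs_sign {N : ℕ} (σ : Equiv.Perm (Fin N)) : |((Equiv.Perm.sign σ : ℤ) : ℝ)| = 1 := by
  rcases Int.units_eq_one_or (Equiv.Perm.sign σ) with h | h <;> rw [h] <;> simp

theorem abs_gd_sort (s : ℕ) {N : ℕ} (x y : Fin N → ℝ) :
    |gd s N (x ∘ Tuple.sort x) (y ∘ Tuple.sort y)| = |gd s N x y| := by
  rw [gd_perm, abs_mul, abs_mul, abs_sign, abs_sign, one_mul, one_mul]

theorem abs_gd_I1 {s N : ℕ} {x y : Fin N → ℝ} (hx : ∀ i, 0 ≤ x i) (hy : ∀ i, 0 ≤ y i) :
    (((N : ℝ) + s + 1) / ((s : ℝ) + 1)) * |gd (s + 1) N x y| ^ 2 ≤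
      |gd s N x y| * |gd (s + 2) N x y| := by
  by_cases hxi : Function.Injective x
  · by_cases hyi : Function.Injective y
    · have h := gd_I1 N s (x := x ∘ Tuple.sort x) (y := y ∘ Tuple.sort y)
        (fun i => hx _) (fun i => hy _) (strictMono_sort hxi) (strictMono_sort hyi)
      have hp : ∀ t, 0 ≤ gd t N (x ∘ Tuple.sort x) (y ∘ Tuple.sort y) := fun t =>
        (gd_pos N t (fun i => hx _) (fun i => hy _) (strictMono_sort hxi)
          (strictMono_sort hyi)).le
      rw [← abs_gd_sort, ← abs_gd_sort s, ← abs_gd_sort (s + 2), abs_of_nonneg (hp _),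
        abs_of_nonneg (hp _), abs_of_nonneg (hp _)]
      exact h
    · simp [gd_zero_right hyi]
  · simp [gd_zero_left hxi]

theorem det_kk (s : ℕ) {N : ℕ} (x y : Fin N → ℝ) :
    sg N * (Matrix.of fun i j => kk s (x i * y j)).det =
      (∏ i, x i) * (∏ j, y j) * gd s N x y := by
  unfold gd
  have h : (Matrix.of fun i j => kk s (x i * y j)) = Matrix.of fun i j => x i *
      (Matrix.of fun i j => y j * (Matrix.of fun i j => (s.factorial : ℝ) *
        (1 / (1 + x i * y j)) ^ (s + 1)) i j) i j := by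
    ext i j
    simp only [Matrix.of_apply, kk]
    rw [one_div, inv_pow]
    ring
  rw [h, Matrix.det_mul_column, Matrix.det_mul_row]
  ring

theorem kd_kk (s : ℕ) {N : ℕ} {x y : Fin N → ℝ} (hx : ∀ i, 0 < x i) (hy : ∀ i, 0 < y i) :
    kd (kk s) x y = (∏ i, x i) * (∏ j, y j) * |gd s N x y| := by
  unfold kd
  have h := congrArg abs (det_kk s x y)
  rw [abs_mul, abs_sg, one_mul, abs_mul, abs_mul,
    abs_of_nonneg (Finset.prod_nonneg fun i _ => (hx i).le),
    abs_of_nonneg (Finset.prod_nonneg fun i _ => (hy i).le)] at h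
  exact h

/-! ### Vandermonde signs -/

theorem vdm_eq_det {N : ℕ} (w : Fin N → ℝ) : vdm w = (Matrix.vandermonde w).det :=
  (Matrix.det_vandermonde w).symm

theorem vdm_perm {N : ℕ} (w : Fin N → ℝ) (σ : Equiv.Perm (Fin N)) :
    vdm (w ∘ σ) = ((Equiv.Perm.sign σ : ℤ) : ℝ) * vdm w := by
  rw [vdm_eq_det, vdm_eq_det, ← Matrix.det_permute]
  congr 1

theorem vdm_eq_zero {N : ℕ} {w : Fin N → ℝ} (h : ¬ Function.Injective w) : vdm w = 0 := by
  rw [vdm_eq_det]
  by_contra h0
  exact h (Matrix.det_vandermonde_ne_zero_iff.1 h0)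

theorem vdm_anti {N : ℕ} {w : Fin N → ℝ} (h : Antitone w) : 0 ≤ sg N * vdm w := by
  unfold Pool.Agent.Helper28.Eta.sg Pool.Agent.Helper28.Eta.vdm
  rw [← Finset.prod_mul_distrib]
  refine Finset.prod_nonneg fun i _ => ?_
  rw [← Finset.prod_mul_distrib]
  refine Finset.prod_nonneg fun j hj => ?_
  have := h (Finset.mem_Ioi.1 hj).le
  linarith

/-- sign of an alternating function which is nonnegative on increasing positive vectors -/
theorem alt_sign {N : ℕ} (D : (Fin N → ℝ) → (Fin N → ℝ) → ℝ)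
    (hperm : ∀ x y (σ π : Equiv.Perm (Fin N)), D (x ∘ σ) (y ∘ π) =
      ((Equiv.Perm.sign σ : ℤ) : ℝ) * ((Equiv.Perm.sign π : ℤ) : ℝ) * D x y)
    (hpos : ∀ x y, (∀ i, 0 < x i) → (∀ i, 0 < y i) → StrictMono x → StrictMono y → 0 ≤ D x y)
    {u v : Fin N → ℝ} (hu : ∀ i, 0 < u i) (hv : ∀ i, 0 < v i) :
    0 ≤ vdm (fun i => Real.log (u i)) * vdm (fun i => Real.log (v i)) * D (em u) (em v) := by
  have hinj : ∀ w : Fin N → ℝ, (∀ i, 0 < w i) → ¬ Function.Injective w →
      vdm (fun i => Real.log (w i)) = 0 := by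
    intro w hw h
    refine vdm_eq_zero fun h2 => h fun i j hij => h2 ?_
    simp [hij]
  by_cases hui : Function.Injective u
  · by_cases hvi : Function.Injective v
    · have hXi : Function.Injective (em u) := by
        intro i j hij
        unfold em at hij
        exact hui (neg_injective (Real.exp_injective hij))
      have hYi : Function.Injective (em v) := by
        intro i j hij
        unfold em at hij
        exact hvi (neg_injective (Real.exp_injective hij))
      set σ := Tuple.sort (em u) with hσ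
      set π := Tuple.sort (em v) with hπ
      have h1 := hpos (em u ∘ σ) (em v ∘ π) (fun i => Real.exp_pos _) (fun i => Real.exp_pos _)
        (strictMono_sort hXi) (strictMono_sort hYi)
      have hanti : ∀ w : Fin N → ℝ, (∀ i, 0 < w i) → 
          Antitone ((fun i => Real.log (w i)) ∘ Tuple.sort (em w)) := by
        intro w hw i j hij
        have := Tuple.monotone_sort (em w) hij
        simp only [Function.comp_apply, em, Real.exp_le_exp, neg_le_neg_iff] at this
        exact Real.log_le_log (hw _) this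
      have h2 := vdm_anti (hanti u hu)
      have h3 := vdm_anti (hanti v hv)
      rw [← hσ, vdm_perm] at h2
      rw [← hπ, vdm_perm] at h3
      rw [hperm] at h1
      have h4 := mul_nonneg (mul_nonneg h2 h3) h1
      have e1 : ((Equiv.Perm.sign σ : ℤ) : ℝ) * ((Equiv.Perm.sign σ : ℤ) : ℝ) = 1 := by
        rcases Int.units_eq_one_or (Equiv.Perm.sign σ) with h | h <;> rw [h] <;> simp
      have e2 : ((Equiv.Perm.sign π : ℤ) : ℝ) * ((Equiv.Perm.sign π : ℤ) : ℝ) = 1 := by
        rcases Int.units_eq_one_or (Equiv.Perm.sign π) with h | h <;> rw [h] <;> simp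
      have e3 := sg_mul_self N
      have e4 : sg N * (((Equiv.Perm.sign σ : ℤ) : ℝ) * vdm fun i => Real.log (u i)) *
          (sg N * (((Equiv.Perm.sign π : ℤ) : ℝ) * vdm fun i => Real.log (v i))) *
          (((Equiv.Perm.sign σ : ℤ) : ℝ) * ((Equiv.Perm.sign π : ℤ) : ℝ) * D (em u) (em v)) =
          (sg N * sg N) * (((Equiv.Perm.sign σ : ℤ) : ℝ) * ((Equiv.Perm.sign σ : ℤ) : ℝ)) *
          (((Equiv.Perm.sign π : ℤ) : ℝ) * ((Equiv.Perm.sign π : ℤ) : ℝ)) *
          (vdm (fun i => Real.log (u i)) * vdm (fun i => Real.log (v i)) * D (em u) (em v)) := by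
        ring
      rw [e4, e1, e2, e3] at h4
      simpa using h4
    · rw [hinj v hv hvi]; simp
  · rw [hinj u hu hui]; simp

/-- sign of the determinant of `(1 + x_i y_j)^{-(s+1)}`: for increasing `x`, `y` it is `sg N`. -/
theorem pow_sign {s N : ℕ} {x y : Fin N → ℝ} (hx : ∀ i, 0 < x i) (hy : ∀ i, 0 < y i)
    (hxm : StrictMono x) (hym : StrictMono y) :
    0 < sg N * (Matrix.of fun i j => (1 / (1 + x i * y j)) ^ (s + 1)).det := by
  have h := gd_pos N s (fun i => (hx i).le) (fun i => (hy i).le) hxm hym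
  unfold gd at h
  have h2 : (Matrix.of fun i j => (s.factorial : ℝ) * (1 / (1 + x i * y j)) ^ (s + 1)) =
      (s.factorial : ℝ) • (Matrix.of fun i j => (1 / (1 + x i * y j)) ^ (s + 1)) := by
    ext i j; simp
  rw [h2, Matrix.det_smul, mul_left_comm] at h
  exact (mul_pos_iff_of_pos_left (show (0 : ℝ) < (s.factorial : ℝ) ^ Fintype.card (Fin N) by
    positivity)).1 h

theorem kk_sign {s N : ℕ} {u v : Fin N → ℝ} (hu : ∀ i, 0 < u i) (hv : ∀ i, 0 < v i) :
    0 ≤ sg N * (vdm (fun i => Real.log (u i)) * vdm (fun i => Real.log (v i)) *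
      (Matrix.of fun i j => kk s (em u i * em v j)).det) := by
  have h := alt_sign (fun x y : Fin N → ℝ => (∏ i, x i) * (∏ j, y j) * gd s N x y) ?_ ?_ hu hv
  · rw [← det_kk] at h
    calc (0 : ℝ) ≤ _ := h
      _ = _ := by ring
  · intro x y σ π
    simp only [gd_perm, Function.comp_apply]
    rw [Equiv.prod_comp σ (fun i => x i), Equiv.prod_comp π (fun i => y i)]
    ring
  · intro x y hx hy hxm hym
    exact mul_nonneg (mul_nonneg (Finset.prod_nonneg fun i _ => (hx i).le)
      (Finset.prod_nonneg fun i _ => (hy i).le))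
      (gd_pos N s (fun i => (hx i).le) (fun i => (hy i).le) hxm hym).le

theorem kk_pos {s N : ℕ} {x y : Fin N → ℝ} (hx : ∀ i, 0 < x i) (hy : ∀ i, 0 < y i)
    (hxi : Function.Injective x) (hyi : Function.Injective y) : 0 < kd (kk s) x y := by
  rw [kd_kk s hx hy, ← abs_gd_sort]
  have h := gd_pos N s (x := x ∘ Tuple.sort x) (y := y ∘ Tuple.sort y)
        (fun i => (hx _).le) (fun i => (hy _).le) (strictMono_sort hxi) (strictMono_sort hyi)
  exact mul_pos (mul_pos (Finset.prod_pos fun i _ => hx i) (Finset.prod_pos fun i _ => hy i))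
    (abs_pos.2 h.ne')

/-- `kb` from `gd` with the point `0` added -/
theorem det_kb (s : ℕ) {N : ℕ} (x y : Fin N → ℝ) :
    (s.factorial : ℝ) * (sg N * (Matrix.of fun i j => kb s (x i * y j)).det) =
      gd s (N + 1) (Fin.cons 0 x) (Fin.cons 0 y) := by
  unfold gd
  set x' : Fin (N + 1) → ℝ := Fin.cons 0 x with hx'
  set y' : Fin (N + 1) → ℝ := Fin.cons 0 y with hy'
  set A : Matrix (Fin (N + 1)) (Fin (N + 1)) ℝ := Matrix.of fun i j =>
    (s.factorial : ℝ) * (1 / (1 + x' i * y' j)) ^ (s + 1) with hA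
  set B : Matrix (Fin (N + 1)) (Fin (N + 1)) ℝ := Matrix.of fun i j =>
      Fin.cases (motive := fun _ => ℝ) (A 0 j) (fun i => A i.succ j - A 0 j) i with hB
  have hAB : A.det = B.det := by
    refine Matrix.det_eq_of_forall_row_eq_smul_add_const
      (Fin.cases (motive := fun _ => ℝ) 0 (fun _ => 1)) 0 (by simp) ?_
    intro i j
    refine Fin.cases ?_ (fun i => ?_) i
    · simp [hB]
    · simp [hB]
  have hz : ∀ i : Fin N, B i.succ 0 = 0 := by
    intro i
    simp [hB, hA, hx', hy']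
  have h00 : B 0 0 = (s.factorial : ℝ) := by
    simp [hB, hA, hx', hy']
  rw [hAB, Matrix.det_succ_column_zero, Fin.sum_univ_succ]
  simp only [hz, mul_zero, zero_mul, Finset.sum_const_zero, add_zero, h00, Fin.val_zero,
    pow_zero, one_mul]
  have h1 : B.submatrix (Fin.succAbove 0) Fin.succ =
      -(Matrix.of fun i j => kb s (x i * y j)) := by
    ext i j
    simp [hB, hA, hx', hy', kb]
    ring
  rw [h1, Matrix.det_neg, sg_succ, Fintype.card_fin]
  have h5 : ((-1 : ℝ) ^ N) * (-1) ^ N = 1 := by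
    rw [← mul_pow]; norm_num
  linear_combination (-(s.factorial : ℝ) * (sg N *
    (Matrix.of fun i j => kb s (x i * y j)).det)) * h5

theorem kb_sign {s N : ℕ} {u v : Fin N → ℝ} (hu : ∀ i, 0 < u i) (hv : ∀ i, 0 < v i) :
    0 ≤ sg N * (vdm (fun i => Real.log (u i)) * vdm (fun i => Real.log (v i)) *
      (Matrix.of fun i j => kb s (em u i * em v j)).det) := by
  have h := alt_sign (fun x y : Fin N → ℝ => sg N *
    (Matrix.of fun i j => kb s (x i * y j)).det) ?_ ?_ hu hv
  · calc (0 : ℝ) ≤ _ := h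
      _ = _ := by ring
  · intro x y σ π
    have h : (Matrix.of fun i j => kb s ((x ∘ σ) i * (y ∘ π) j)) =
        ((Matrix.of fun i j => kb s (x i * y j)).submatrix σ id).submatrix id π := by
      ext i j; simp
    rw [h, Matrix.det_permute', Matrix.det_permute]
    ring
  · intro x y hx hy hxm hym
    have hcm : ∀ w : Fin N → ℝ, (∀ i, 0 < w i) → StrictMono w →
        StrictMono (Fin.cons 0 w : Fin (N + 1) → ℝ) := by
      intro w hw hwm i j hij
      induction i using Fin.cases with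
      | zero =>
        induction j using Fin.cases with
        | zero => exact absurd hij (lt_irrefl _)
        | succ j => simpa using hw j
      | succ i =>
        induction j using Fin.cases with
        | zero => exact absurd hij (by simp)
        | succ j => simpa using hwm (Fin.succ_lt_succ_iff.1 hij)
    have hc0 : ∀ w : Fin N → ℝ, (∀ i, 0 < w i) → ∀ i, 0 ≤ (Fin.cons 0 w : Fin (N + 1) → ℝ) i := by
      intro w hw i
      induction i using Fin.cases with
      | zero => simp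
      | succ i => simpa using (hw i).le
    have hp := gd_pos (N + 1) s (hc0 x hx) (hc0 y hy) (hcm x hx hxm) (hcm y hy hym)
    rw [← det_kb] at hp
    exact ((mul_pos_iff_of_pos_left (show (0 : ℝ) < (s.factorial : ℝ) by positivity)).1 hp).le

theorem kk_I1 {s N : ℕ} {x y : Fin N → ℝ} (hx : ∀ i, 0 < x i) (hy : ∀ i, 0 < y i) :
    (((N : ℝ) + s + 1) / ((s : ℝ) + 1)) * kd (kk (s + 1)) x y ^ 2 ≤
      kd (kk s) x y * kd (kk (s + 2)) x y := by
  rw [kd_kk _ hx hy, kd_kk _ hx hy, kd_kk _ hx hy]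
  have h := abs_gd_I1 (s := s) (fun i => (hx i).le) (fun i => (hy i).le)
  have h2 := mul_le_mul_of_nonneg_left h (sq_nonneg ((∏ i, x i) * (∏ j, y j)))
  calc _ = ((∏ i, x i) * (∏ j, y j)) ^ 2 *
        ((((N : ℝ) + s + 1) / ((s : ℝ) + 1)) * |gd (s + 1) N x y| ^ 2) := by ring
    _ ≤ _ := h2
    _ = _ := by ring

end Pool.Agent.Helper55.BD
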