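import Pool.Agent.Helper55.BD.Defs

/-! Module B2 (blueprint B (I2p)). -/

open Set Filter Topology MeasureTheory

namespace Pool.Agent.Helper55.BD

open Pool.Agent.Helper28.Eta (eta sg vdm mup nu)

namespace Upp

/-- determinant of a matrix of integrals, each row integrated over its own variable -/
theorem det_integral_rows {N : ℕ} (f : Fin N → ℝ → ℝ) (μ : Fin N → Measure ℝ)
    [∀ i, SigmaFinite (μ i)] (h : ∀ i j, Integrable (f j) (μ i)) :
    (Matrix.of fun i j : Fin N => ∫ z, f j z ∂(μ i)).det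
      = ∫ z : Fin N → ℝ, (Matrix.of fun i j : Fin N => f j (z i)).det ∂(Measure.pi μ) := by
  have hexp : ∀ z : Fin N → ℝ, (Matrix.of fun i j : Fin N => f j (z i)).det
      = ∑ σ : Equiv.Perm (Fin N), ((Equiv.Perm.sign σ : ℤ) : ℝ) * ∏ i, f (σ i) (z i) := by
    intro z
    rw [← Matrix.det_transpose, Matrix.det_apply']
    rfl
  simp_rw [hexp]
  rw [integral_finsetSum _ (fun σ _ => (Integrable.fintype_prod (f := fun i z => f (σ i) z)
    (fun i => h i (σ i))).const_mul _)]
  rw [← Matrix.det_transpose, Matrix.det_apply']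
  refine Finset.sum_congr rfl fun σ _ => ?_
  rw [integral_const_mul, integral_fintype_prod_eq_prod (f := fun i z => f (σ i) z)]
  rfl

theorem integrable_det_rows {N : ℕ} (f : Fin N → ℝ → ℝ) (μ : Fin N → Measure ℝ)
    [∀ i, SigmaFinite (μ i)] (h : ∀ i j, Integrable (f j) (μ i)) :
    Integrable (fun z : Fin N → ℝ => (Matrix.of fun i j : Fin N => f j (z i)).det)
      (Measure.pi μ) := by
  have hexp : (fun z : Fin N → ℝ => (Matrix.of fun i j : Fin N => f j (z i)).det)
      = fun z => ∑ σ : Equiv.Perm (Fin N), ((Equiv.Perm.sign σ : ℤ) : ℝ) * ∏ i, f (σ i) (z i) := by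
    funext z
    rw [← Matrix.det_transpose, Matrix.det_apply']
    rfl
  rw [hexp]
  exact integrable_finsetSum _ (fun σ _ => (Integrable.fintype_prod (f := fun i z => f (σ i) z)
    (fun i => h i (σ i))).const_mul _)

/-- the previous point (`0` before the first one) -/
noncomputable def prv {N : ℕ} (x : Fin N → ℝ) (i : Fin N) : ℝ :=
  if h : (i : ℕ) = 0 then 0 else x ⟨i - 1, by omega⟩

theorem prv_zero {N : ℕ} (x : Fin (N + 1) → ℝ) : prv x 0 = 0 := by simp [prv]

theorem prv_succ {N : ℕ} (x : Fin (N + 1) → ℝ) (i : Fin N) : prv x i.succ = x i.castSucc := by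
  simp only [prv, Fin.val_succ, Nat.add_one_ne_zero, dite_false]
  congr 1

theorem prv_le {N : ℕ} {x : Fin N → ℝ} (hx : ∀ i, 0 ≤ x i) (hm : Monotone x) (i : Fin N) :
    prv x i ≤ x i := by
  unfold prv
  split_ifs with h
  · exact hx i
  · exact hm (by rw [Fin.le_def]; simp)

theorem prv_nonneg {N : ℕ} {x : Fin N → ℝ} (hx : ∀ i, 0 ≤ x i) (i : Fin N) :
    0 ≤ prv x i := by
  unfold prv
  split_ifs with h
  · exact le_rfl
  · exact hx _

theorem det_sub_prv {N : ℕ} (h : Fin N → ℝ → ℝ) (h0 : ∀ j, h j 0 = 0) (x : Fin N → ℝ) :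
    (Matrix.of fun i j : Fin N => h j (x i)).det
      = (Matrix.of fun i j : Fin N => h j (x i) - h j (prv x i)).det := by
  cases N with
  | zero => simp
  | succ n =>
    refine Matrix.det_eq_of_forall_row_eq_smul_add_pred (fun _ => 1) ?_ ?_
    · intro j
      simp [prv_zero, h0]
    · intro i j
      simp [prv_succ]

/-- the measure on the interlacing box -/
noncomputable def bx {N : ℕ} (x : Fin N → ℝ) (i : Fin N) : Measure ℝ :=
  volume.restrict (Ioc (prv x i) (x i))

instance {N : ℕ} (x : Fin N → ℝ) (i : Fin N) : IsFiniteMeasure (bx x i) := by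
  unfold bx; infer_instance

/-- a determinant as an integral over the interlacing box -/
theorem det_eq_box {N : ℕ} (h h' : Fin N → ℝ → ℝ) (h0 : ∀ j, h j 0 = 0) {x : Fin N → ℝ}
    (hx : ∀ i, 0 ≤ x i) (hm : Monotone x) {b : ℝ} (hb : ∀ i, x i < b)
    (hd : ∀ j, ∀ z ∈ Ico 0 b, HasDerivAt (h j) (h' j z) z)
    (hc : ∀ j, ContinuousOn (h' j) (Ico 0 b)) :
    (Matrix.of fun i j : Fin N => h j (x i)).det
      = ∫ z : Fin N → ℝ, (Matrix.of fun i j : Fin N => h' j (z i)).det ∂(Measure.pi (bx x)) := by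
  have hsub : ∀ i, Icc (prv x i) (x i) ⊆ Ico 0 b := fun i z hz =>
    ⟨(prv_nonneg hx i).trans hz.1, hz.2.trans_lt (hb i)⟩
  have hint : ∀ i j, Integrable (h' j) (bx x i) := by
    intro i j
    exact (((hc j).mono (hsub i)).integrableOn_compact isCompact_Icc).mono_set Ioc_subset_Icc_self
  rw [det_sub_prv h h0 x, ← det_integral_rows h' (bx x) hint]
  congr 1
  ext i j
  simp only [Matrix.of_apply, bx]
  rw [← intervalIntegral.integral_of_le (prv_le hx hm i)]
  refine (intervalIntegral.integral_eq_sub_of_hasDerivAt ?_ ?_).symm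
  · intro z hz
    rw [uIcc_of_le (prv_le hx hm i)] at hz
    exact hd j z (hsub i hz)
  · rw [intervalIntegrable_iff_integrableOn_Ioc_of_le (prv_le hx hm i)]
    exact hint i j

theorem ae_box {N : ℕ} (x : Fin N → ℝ) :
    ∀ᵐ z ∂(Measure.pi (bx x)), ∀ i, z i ∈ Ioc (prv x i) (x i) := by
  rw [ae_all_iff]
  intro i
  have h1 : ∀ᵐ t ∂(bx x i), t ∈ Ioc (prv x i) (x i) := by
    unfold bx
    exact ae_restrict_mem measurableSet_Ioc
  exact (Measure.quasiMeasurePreserving_eval (bx x) i).ae h1

theorem box_mono {N : ℕ} {x : Fin N → ℝ} (hm : Monotone x) {z : Fin N → ℝ}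
    (hz : ∀ i, z i ∈ Ioc (prv x i) (x i)) : Monotone z := by
  intro i j hij
  rcases eq_or_lt_of_le hij with h | h
  · rw [h]
  · have hj : (j : ℕ) ≠ 0 := by
      have := Fin.lt_def.1 h
      omega
    have h1 : x i ≤ prv x j := by
      simp only [prv, hj, dite_false]
      refine hm ?_
      rw [Fin.le_def]
      have := Fin.lt_def.1 h
      simp only
      omega
    exact ((hz i).2.trans h1).trans (hz j).1.le

/-- generalised Vandermonde determinants are nonnegative -/
theorem gv_nonneg {N : ℕ} : ∀ {x : Fin N → ℝ} {m : Fin N → ℕ}, (∀ i, 0 ≤ x i) → Monotone x →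
    Monotone m → 0 ≤ (Matrix.of fun i k : Fin N => x i ^ m k).det := by
  induction N with
  | zero => intro x m _ _ _; simp
  | succ n ih =>
    intro x m hx hxm hmm
    -- factor out
    have h1 : (Matrix.of fun i k : Fin (n + 1) => x i ^ m k).det
        = (∏ i, x i ^ m 0) * (Matrix.of fun i k : Fin (n + 1) => x i ^ (m k - m 0)).det := by
      rw [← Matrix.det_mul_column]
      congr 1
      ext i k
      simp only [Matrix.of_apply]
      rw [← pow_add]
      congr 1
      have := hmm (Fin.zero_le k)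
      omega
    rw [h1]
    refine mul_nonneg (Finset.prod_nonneg fun i _ => pow_nonneg (hx i) _) ?_
    -- subtract rows
    have h2 : (Matrix.of fun i k : Fin (n + 1) => x i ^ (m k - m 0)).det
        = (Matrix.of fun i k : Fin (n + 1) => x i ^ (m k - m 0) -
            (Fin.cases (motive := fun _ => ℝ) 0 (fun i' => x i'.castSucc ^ (m k - m 0)) i)).det := by
      refine Matrix.det_eq_of_forall_row_eq_smul_add_pred (fun _ => 1) ?_ ?_
      · intro j
        simp
      · intro i j
        simp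
    rw [h2, Matrix.det_succ_column_zero, Fin.sum_univ_succ]
    have h3 : ∀ i : Fin n, (Matrix.of fun i k : Fin (n + 1) => x i ^ (m k - m 0) -
            (Fin.cases (motive := fun _ => ℝ) 0 (fun i' => x i'.castSucc ^ (m k - m 0)) i))
              i.succ 0 = 0 := by
      intro i
      simp
    simp only [h3, mul_zero, zero_mul, Finset.sum_const_zero, add_zero]
    have h4 : (Matrix.of fun i k : Fin (n + 1) => x i ^ (m k - m 0) -
            (Fin.cases (motive := fun _ => ℝ) 0 (fun i' => x i'.castSucc ^ (m k - m 0)) i))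
              0 0 = 1 := by
      simp
    rw [h4]
    simp only [Fin.val_zero, pow_zero, one_mul]
    have h5 : ((Matrix.of fun i k : Fin (n + 1) => x i ^ (m k - m 0) -
            (Fin.cases (motive := fun _ => ℝ) 0 (fun i' => x i'.castSucc ^ (m k - m 0)) i)).submatrix
              (Fin.succAbove 0) Fin.succ)
        = Matrix.of fun i k : Fin n => ∫ t, ((m k.succ - m 0 : ℕ) : ℝ) * t ^ (m k.succ - m 0 - 1)
            ∂(volume.restrict (Ioc (x i.castSucc) (x i.succ))) := by
      ext i k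
      simp only [Matrix.submatrix_apply, Fin.succAbove_zero, Matrix.of_apply, Fin.cases_succ]
      have hle : x i.castSucc ≤ x i.succ := hxm (Fin.castSucc_lt_succ).le
      rw [← intervalIntegral.integral_of_le hle]
      symm
      refine intervalIntegral.integral_eq_sub_of_hasDerivAt (f := fun t => t ^ (m k.succ - m 0))
        (fun t _ => hasDerivAt_pow _ t) ?_
      exact (Continuous.intervalIntegrable (by fun_prop) _ _)
    rw [h5, det_integral_rows (fun k t => ((m k.succ - m 0 : ℕ) : ℝ) * t ^ (m k.succ - m 0 - 1))]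
    · refine integral_nonneg_of_ae ?_
      have hae : ∀ᵐ z ∂(Measure.pi fun i : Fin n =>
          volume.restrict (Ioc (x i.castSucc) (x i.succ))), ∀ i, z i ∈
            Ioc (x i.castSucc) (x i.succ) := by
        rw [ae_all_iff]
        intro i
        exact (Measure.quasiMeasurePreserving_eval (fun i : Fin n =>
          volume.restrict (Ioc (x i.castSucc) (x i.succ))) i).ae
          (ae_restrict_mem measurableSet_Ioc)
      filter_upwards [hae] with z hz
      have h6 : (Matrix.of fun i k : Fin n => ((m k.succ - m 0 : ℕ) : ℝ) *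
          z i ^ (m k.succ - m 0 - 1)).det
          = (∏ k : Fin n, ((m k.succ - m 0 : ℕ) : ℝ)) *
            (Matrix.of fun i k : Fin n => z i ^ (m k.succ - m 0 - 1)).det := by
        rw [← Matrix.det_mul_row]
        rfl
      simp only [Pi.zero_apply]
      rw [h6]
      refine mul_nonneg (Finset.prod_nonneg fun k _ => by positivity) ?_
      refine ih ?_ ?_ ?_
      · intro i
        exact (hx _).trans (hz i).1.le
      · intro i j hij
        rcases eq_or_lt_of_le hij with h | h
        · rw [h]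
        · refine ((hz i).2.trans (hxm ?_)).trans (hz j).1.le
          rw [Fin.le_def]
          have := Fin.lt_def.1 h
          simp only [Fin.val_succ, Fin.val_castSucc]
          omega
      · intro i j hij
        have := hmm (Fin.succ_le_succ_iff.2 hij)
        simp only
        omega
    · intro i k
      exact (Continuous.integrableOn_Icc (by fun_prop)).mono_set Ioc_subset_Icc_self


/-! ### Infinite Cauchy-Binet -/

/-- the product of two generalised Vandermonde determinants -/
noncomputable def gvp {N : ℕ} (x y : Fin N → ℝ) (m : Fin N → ℕ) : ℝ :=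
  (Matrix.of fun i k : Fin N => x i ^ m k).det * (Matrix.of fun i k : Fin N => y i ^ m k).det

theorem gvp_perm {N : ℕ} (x y : Fin N → ℝ) (m : Fin N → ℕ) (σ : Equiv.Perm (Fin N)) :
    gvp x y (m ∘ σ) = gvp x y m := by
  unfold gvp
  have h : ∀ x : Fin N → ℝ, (Matrix.of fun i k : Fin N => x i ^ (m ∘ σ) k).det
      = ((Equiv.Perm.sign σ : ℤ) : ℝ) * (Matrix.of fun i k : Fin N => x i ^ m k).det := by
    intro x
    have := Matrix.det_permute' σ (Matrix.of fun i k : Fin N => x i ^ m k)
    rw [← this]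
    rfl
  rw [h x, h y]
  have : ((Equiv.Perm.sign σ : ℤ) : ℝ) * ((Equiv.Perm.sign σ : ℤ) : ℝ) = 1 := by
    rcases Int.units_eq_one_or (Equiv.Perm.sign σ) with h | h <;> simp [h]
  linear_combination ((Matrix.of fun i k : Fin N => x i ^ m k).det *
    (Matrix.of fun i k : Fin N => y i ^ m k).det) * this

theorem gvp_nonneg {N : ℕ} {x y : Fin N → ℝ} (hx : ∀ i, 0 ≤ x i) (hy : ∀ i, 0 ≤ y i)
    (hxm : Monotone x) (hym : Monotone y) (m : Fin N → ℕ) : 0 ≤ gvp x y m := by
  rw [← gvp_perm x y m (Tuple.sort m)]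
  exact mul_nonneg (gv_nonneg hx hxm (Tuple.monotone_sort m))
    (gv_nonneg hy hym (Tuple.monotone_sort m))

theorem gvp_eq_zero {N : ℕ} {x y : Fin N → ℝ} {m : Fin N → ℕ} (hm : ¬ Function.Injective m) :
    gvp x y m = 0 := by
  unfold gvp
  simp only [Function.Injective, not_forall] at hm
  obtain ⟨k, l, hkl, hne⟩ := hm
  rw [Matrix.det_zero_of_column_eq hne (fun i => by simp [hkl]), zero_mul]

/-- distinct naturals, sorted, dominate `0, 1, 2, ...` -/
theorem le_of_strictMono {N : ℕ} {m : Fin N → ℕ} (hm : StrictMono m) (l : Fin N) :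
    (l : ℕ) ≤ m l := by
  obtain ⟨l, hl⟩ := l
  induction l with
  | zero => exact Nat.zero_le _
  | succ l ih =>
    have h1 := ih (by omega)
    have h2 : m ⟨l, by omega⟩ < m ⟨l + 1, hl⟩ := hm (by simp [Fin.lt_def])
    simp only at h1 ⊢
    omega

theorem choose_step (m s : ℕ) :
    ((m + 1 + s).choose s : ℝ) = ((m + s).choose s : ℝ) * (((m : ℝ) + 1 + s) / ((m : ℝ) + 1)) := by
  have h := Nat.choose_mul_succ_eq (m + s) s
  have h1 : m + s + 1 - s = m + 1 := by omega
  rw [h1] at h
  have h2 : ((m + s).choose s : ℝ) * ((m : ℝ) + s + 1) = ((m + s + 1).choose s : ℝ) * ((m : ℝ) + 1) := by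
    exact_mod_cast h
  have h3 : m + 1 + s = m + s + 1 := by omega
  rw [h3]
  have h4 : ((m : ℝ) + 1) ≠ 0 := by positivity
  field_simp
  linarith

theorem prod_ratio (N s : ℕ) :
    ∏ l : Fin N, ((((l : ℕ) : ℝ) + 1 + s) / (((l : ℕ) : ℝ) + 1)) = ((N + s).choose s : ℝ) := by
  induction N with
  | zero => simp
  | succ n ih =>
    rw [Fin.prod_univ_castSucc, choose_step]
    simp only [Fin.val_castSucc, Fin.val_last]
    rw [ih]

theorem prod_choose_le {N : ℕ} (s : ℕ) {m : Fin N → ℕ} (hm : Function.Injective m) :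
    ∏ l, ((m l + 1 + s).choose s : ℝ) ≤ ((N + s).choose s : ℝ) * ∏ l, ((m l + s).choose s : ℝ) := by
  have h1 : ∏ l, ((m l + 1 + s).choose s : ℝ)
      = (∏ l, ((m l + s).choose s : ℝ)) * ∏ l, (((m l : ℝ) + 1 + s) / ((m l : ℝ) + 1)) := by
    rw [← Finset.prod_mul_distrib]
    exact Finset.prod_congr rfl fun l _ => choose_step _ _
  have h2 : ∏ l, (((m l : ℝ) + 1 + s) / ((m l : ℝ) + 1)) ≤ ((N + s).choose s : ℝ) := by
    rw [← prod_ratio N s, ← Equiv.prod_comp (Tuple.sort m)]
    have hsm : StrictMono (m ∘ Tuple.sort m) :=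
      (Tuple.monotone_sort m).strictMono_of_injective (hm.comp (Tuple.sort m).injective)
    refine Finset.prod_le_prod (fun l _ => by positivity) fun l _ => ?_
    have h3 := le_of_strictMono hsm l
    simp only [Function.comp] at h3
    have h4 : ((l : ℕ) : ℝ) ≤ (m (Tuple.sort m l) : ℝ) := by exact_mod_cast h3
    rw [div_le_div_iff₀ (by positivity) (by positivity)]
    nlinarith [h4, (Nat.cast_nonneg s : (0 : ℝ) ≤ s)]
  rw [h1, mul_comm]
  exact mul_le_mul_of_nonneg_right h2 (Finset.prod_nonneg fun l _ => by positivity)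

/-- infinite Cauchy-Binet with weights `c` -/
theorem det_series {N : ℕ} (c : ℕ → ℝ) (x y : Fin N → ℝ)
    (hs : ∀ i j, Summable fun k => ‖c k * (x i * y j) ^ k‖) :
    Integrable (fun m : Fin N → ℕ => (∏ l, c (m l)) * gvp x y m)
      (Measure.pi fun _ => Measure.count) ∧
    (N.factorial : ℝ) * (Matrix.of fun i j : Fin N => ∑' k, c k * (x i * y j) ^ k).det
      = ∫ m : Fin N → ℕ, (∏ l, c (m l)) * gvp x y m ∂(Measure.pi fun _ => Measure.count) := by
  have hi : ∀ i j : Fin N, Integrable (fun k : ℕ => (c k * x i ^ k) * y j ^ k) Measure.count := by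
    intro i j
    rw [integrable_count_iff]
    have := hs i j
    refine this.congr fun k => ?_
    rw [mul_pow, mul_assoc]
  have hpt : ∀ m : Fin N → ℕ, (Matrix.of fun i k => (fun k : ℕ => c k * x i ^ k) (m k)).det *
      (Matrix.of fun i k => (fun k : ℕ => y i ^ k) (m k)).det = (∏ l, c (m l)) * gvp x y m := by
    intro m
    unfold gvp
    rw [← mul_assoc, ← Matrix.det_mul_row]
    rfl
  refine ⟨?_, ?_⟩
  · have hexp : (fun m : Fin N → ℕ => (∏ l, c (m l)) * gvp x y m)
      = fun m => ∑ π : Equiv.Perm (Fin N), ∑ σ : Equiv.Perm (Fin N),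
          (((Equiv.Perm.sign σ : ℤ) : ℝ) * ((Equiv.Perm.sign π : ℤ) : ℝ)) *
          ∏ k, (c (m k) * x (σ k) ^ m k * y (π k) ^ m k) := by
      funext m
      rw [← hpt m, Matrix.det_apply', Matrix.det_apply', Finset.sum_mul_sum, Finset.sum_comm]
      refine Finset.sum_congr rfl fun π _ => Finset.sum_congr rfl fun σ _ => ?_
      rw [Finset.prod_mul_distrib]
      simp only [Matrix.of_apply]
      ring
    rw [hexp]
    refine integrable_finsetSum _ fun π _ => integrable_finsetSum _ fun σ _ => ?_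
    exact (Integrable.fintype_prod (f := fun k (t : ℕ) => c t * x (σ k) ^ t * y (π k) ^ t)
      (fun k => hi (σ k) (π k))).const_mul _
  · have h1 := Pool.Agent.Helper28.Eta.andreief (Measure.count : Measure ℕ)
      (fun i k => c k * x i ^ k) (fun j k => y j ^ k) hi
    simp_rw [hpt] at h1
    rw [h1]
    congr 2
    ext i j
    simp only [Matrix.of_apply]
    rw [integral_countable (hi i j)]
    refine tsum_congr fun k => ?_
    simp [mul_pow, mul_assoc]

theorem hasSum_pow_inv (s : ℕ) {w : ℝ} (hw : |w| < 1) :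
    HasSum (fun k : ℕ => ((k + s).choose s : ℝ) * w ^ k) (1 / (1 - w) ^ (s + 1)) := by
  have h := hasSum_choose_mul_geometric_of_norm_lt_one' (R := ℝ) s (r := w) (by simpa using hw)
  have h1 : (1 - w) ≠ 0 := by
    have := (abs_lt.1 hw).2
    linarith
  rw [Ring.inverse_eq_inv', inv_pow, ← one_div] at h
  exact h

theorem hasSum_pow_inv_succ (s : ℕ) {w : ℝ} (hw : |w| < 1) :
    HasSum (fun k : ℕ => ((k + 1 + s).choose s : ℝ) * w ^ (k + 1)) (1 / (1 - w) ^ (s + 1) - 1) := by
  have h := hasSum_pow_inv s hw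
  have h1 := (hasSum_nat_add_iff' (f := fun k : ℕ => ((k + s).choose s : ℝ) * w ^ k) 1).2 h
  simpa using h1

theorem summable_abs (s : ℕ) {w : ℝ} (hw : |w| < 1) :
    Summable (fun k : ℕ => ‖((k + s).choose s : ℝ) * w ^ k‖) := by
  have h := (hasSum_pow_inv s (w := |w|) (by simpa using hw)).summable
  refine h.congr fun k => ?_
  rw [norm_mul, norm_pow,
    Real.norm_of_nonneg (by positivity : (0 : ℝ) ≤ ((k + s).choose s : ℝ)), Real.norm_eq_abs]

theorem det_pow_nonneg {N : ℕ} (s : ℕ) {x y : Fin N → ℝ} (hx : ∀ i, 0 ≤ x i) (hy : ∀ i, 0 ≤ y i)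
    (hx1 : ∀ i, x i < 1) (hy1 : ∀ i, y i < 1) (hxm : Monotone x) (hym : Monotone y) :
    0 ≤ (Matrix.of fun i j : Fin N => 1 / (1 - x i * y j) ^ (s + 1)).det := by
  have hw : ∀ i j, |x i * y j| < 1 := fun i j => by
    rw [abs_of_nonneg (mul_nonneg (hx i) (hy j))]
    exact mul_lt_one_of_nonneg_of_lt_one_left (hx i) (hx1 i) (hy1 j).le
  have h := (det_series (fun k => ((k + s).choose s : ℝ)) x y
    (fun i j => summable_abs s (hw i j))).2
  have h1 : (Matrix.of fun i j : Fin N => ∑' k : ℕ, ((k + s).choose s : ℝ) * (x i * y j) ^ k)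
      = Matrix.of fun i j : Fin N => 1 / (1 - x i * y j) ^ (s + 1) := by
    ext i j
    simp only [Matrix.of_apply]
    exact (hasSum_pow_inv s (hw i j)).tsum_eq
  rw [h1] at h
  have h2 : 0 ≤ (N.factorial : ℝ) *
      (Matrix.of fun i j : Fin N => 1 / (1 - x i * y j) ^ (s + 1)).det := by
    rw [h]
    refine integral_nonneg fun m => ?_
    exact mul_nonneg (Finset.prod_nonneg fun l _ => by positivity) (gvp_nonneg hx hy hxm hym m)
  exact nonneg_of_mul_nonneg_right h2 (by positivity)

theorem det_pow_le {N : ℕ} (s : ℕ) {x y : Fin N → ℝ} (hx : ∀ i, 0 ≤ x i) (hy : ∀ i, 0 ≤ y i)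
    (hx1 : ∀ i, x i < 1) (hy1 : ∀ i, y i < 1) (hxm : Monotone x) (hym : Monotone y) :
    (Matrix.of fun i j : Fin N => 1 / (1 - x i * y j) ^ (s + 1) - 1).det ≤
      ((N + s).choose s : ℝ) * ((∏ i, x i) * (∏ i, y i)) *
        (Matrix.of fun i j : Fin N => 1 / (1 - x i * y j) ^ (s + 1)).det := by
  have hw : ∀ i j, |x i * y j| < 1 := fun i j => by
    rw [abs_of_nonneg (mul_nonneg (hx i) (hy j))]
    exact mul_lt_one_of_nonneg_of_lt_one_left (hx i) (hx1 i) (hy1 j).le
  have h := det_series (fun k => ((k + s).choose s : ℝ)) x y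
    (fun i j => summable_abs s (hw i j))
  have h1 : (Matrix.of fun i j : Fin N => ∑' k : ℕ, ((k + s).choose s : ℝ) * (x i * y j) ^ k)
      = Matrix.of fun i j : Fin N => 1 / (1 - x i * y j) ^ (s + 1) := by
    ext i j
    simp only [Matrix.of_apply]
    exact (hasSum_pow_inv s (hw i j)).tsum_eq
  rw [h1] at h
  have hs' : ∀ i j, Summable fun k : ℕ => ‖((k + 1 + s).choose s : ℝ) * (x i * y j) ^ k‖ := by
    intro i j
    have hle : ∀ k : ℕ, ((k + 1 + s).choose s : ℝ) ≤ ((k + s).choose s : ℝ) * (1 + s) := by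
      intro k
      rw [choose_step]
      refine mul_le_mul_of_nonneg_left ?_ (by positivity)
      rw [div_le_iff₀ (by positivity)]
      have : (0 : ℝ) ≤ (s : ℝ) * k := by positivity
      nlinarith
    refine Summable.of_nonneg_of_le (fun k => norm_nonneg _) (fun k => ?_)
      ((summable_abs s (hw i j)).mul_left (1 + (s : ℝ)))
    rw [norm_mul, norm_mul, Real.norm_of_nonneg (by positivity : (0 : ℝ) ≤ ((k + 1 + s).choose s : ℝ)),
      Real.norm_of_nonneg (by positivity : (0 : ℝ) ≤ ((k + s).choose s : ℝ))]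
    have := mul_le_mul_of_nonneg_right (hle k) (norm_nonneg ((x i * y j) ^ k))
    linarith
  have h' := det_series (fun k => ((k + 1 + s).choose s : ℝ)) x y hs'
  have h2 : (Matrix.of fun i j : Fin N => 1 / (1 - x i * y j) ^ (s + 1) - 1).det
      = ((∏ i, x i) * (∏ i, y i)) * (Matrix.of fun i j : Fin N =>
          ∑' k : ℕ, ((k + 1 + s).choose s : ℝ) * (x i * y j) ^ k).det := by
    rw [mul_assoc, ← Matrix.det_mul_row, ← Matrix.det_mul_column]
    congr 1
    ext i j
    simp only [Matrix.of_apply]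
    rw [← (hasSum_pow_inv_succ s (hw i j)).tsum_eq, ← tsum_mul_left, ← tsum_mul_left]
    refine tsum_congr fun k => ?_
    rw [pow_succ]
    ring
  have h3 : (N.factorial : ℝ) * (Matrix.of fun i j : Fin N =>
          ∑' k : ℕ, ((k + 1 + s).choose s : ℝ) * (x i * y j) ^ k).det ≤
      ((N + s).choose s : ℝ) * ((N.factorial : ℝ) *
        (Matrix.of fun i j : Fin N => 1 / (1 - x i * y j) ^ (s + 1)).det) := by
    rw [h'.2, h.2, ← integral_const_mul]
    refine integral_mono h'.1 (h.1.const_mul _) fun m => ?_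
    simp only
    by_cases hm : Function.Injective m
    · rw [← mul_assoc]
      exact mul_le_mul_of_nonneg_right (prod_choose_le s hm) (gvp_nonneg hx hy hxm hym m)
    · rw [gvp_eq_zero hm]
      simp
  have h4 : (Matrix.of fun i j : Fin N =>
          ∑' k : ℕ, ((k + 1 + s).choose s : ℝ) * (x i * y j) ^ k).det ≤
      ((N + s).choose s : ℝ) *
        (Matrix.of fun i j : Fin N => 1 / (1 - x i * y j) ^ (s + 1)).det := by
    have hf : (0 : ℝ) < (N.factorial : ℝ) := by positivity
    refine le_of_mul_le_mul_left ?_ hf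
    linarith
  rw [h2]
  have h5 := mul_le_mul_of_nonneg_left h4 (mul_nonneg (Finset.prod_nonneg fun i _ => hx i)
    (Finset.prod_nonneg fun i _ => hy i) : (0 : ℝ) ≤ (∏ i, x i) * (∏ i, y i))
  linarith

/-- the key inequality in the variables `x' = x / (1 + x)`, `y' = 1 - y`, sorted -/
theorem core {N : ℕ} (s : ℕ) {x y : Fin N → ℝ} (hx : ∀ i, 0 ≤ x i) (hy : ∀ i, 0 < y i)
    (hx1 : ∀ i, x i < 1 / 2) (hy1 : ∀ i, y i < 1) (hxm : Monotone x) (hym : Monotone y) :
    |(Matrix.of fun i j : Fin N => 1 - ((1 - x i) / (1 - x i * y j)) ^ (s + 1)).det| ≤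
      2 ^ s * ((N + s).choose s : ℝ) * ((∏ i, (1 - y i)) * (∏ i, (1 - x i)) ^ s * (∏ i, x i)) *
        (Matrix.of fun i j : Fin N => 1 / (1 - x i * y j) ^ (s + 1)).det := by
  have hx1' : ∀ i, x i < 1 := fun i => (hx1 i).trans (by norm_num)
  have hpos : ∀ z ∈ Ico (0 : ℝ) 1, ∀ j, 0 < 1 - z * y j := by
    intro z hz j
    have : z * y j < 1 := mul_lt_one_of_nonneg_of_lt_one_left hz.1 hz.2 (hy1 j).le
    linarith
  -- first representation
  have hA := det_eq_box (N := N) (fun j z => 1 - ((1 - z) / (1 - z * y j)) ^ (s + 1))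
    (fun j z => ((s : ℝ) + 1) * (1 - y j) * ((1 - z) ^ s * (1 / (1 - z * y j) ^ (s + 1 + 1))))
    (fun j => by simp) hx hxm (b := 1) hx1' (by
      intro j z hz
      have hp := (hpos z hz j).ne'
      have h1 : HasDerivAt (fun z => (1 - z) / (1 - z * y j))
          ((-1 * (1 - z * y j) - (1 - z) * (-(1 * y j))) / (1 - z * y j) ^ 2) z :=
        ((hasDerivAt_id' z).const_sub 1).div (((hasDerivAt_id' z).mul_const (y j)).const_sub 1) hp
      have h2 := (h1.pow (s + 1)).const_sub 1
      refine h2.congr_deriv ?_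
      rw [div_pow]
      simp only [Nat.add_sub_cancel]
      push_cast
      field_simp
      ring) (by
      intro j
      refine ContinuousOn.mul continuousOn_const (ContinuousOn.mul (by fun_prop) ?_)
      refine ContinuousOn.div continuousOn_const (by fun_prop) fun z hz => ?_
      exact (pow_pos (hpos z hz j) _).ne')
  have hB := det_eq_box (N := N)
    (fun j z => (1 / (1 - z * y j) ^ (s + 1) - 1) * (1 / (((s : ℝ) + 1) * y j)))
    (fun j z => 1 / (1 - z * y j) ^ (s + 1 + 1))
    (fun j => by simp) hx hxm (b := 1) hx1' (by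
      intro j z hz
      have hp := (hpos z hz j).ne'
      have hyj := (hy j).ne'
      have h1 : HasDerivAt (fun z => (1 - z * y j)) (-(1 * y j)) z :=
        (((hasDerivAt_id' z).mul_const (y j)).const_sub 1)
      have h2 := (((h1.pow (s + 1)).inv (pow_ne_zero _ hp)).sub_const 1).mul_const
        (1 / (((s : ℝ) + 1) * y j))
      simp only [one_div] at h2 ⊢
      refine h2.congr_deriv ?_
      simp only [Nat.add_sub_cancel, Pi.pow_apply]
      push_cast
      field_simp
      ring) (by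
      intro j
      refine ContinuousOn.div continuousOn_const (by fun_prop) fun z hz => ?_
      exact (pow_pos (hpos z hz j) _).ne')
  have hIB : Integrable (fun z : Fin N → ℝ => (Matrix.of fun i j : Fin N =>
      1 / (1 - z i * y j) ^ (s + 1 + 1)).det) (Measure.pi (bx x)) := by
    refine integrable_det_rows (fun j z => 1 / (1 - z * y j) ^ (s + 1 + 1)) (bx x) fun i j => ?_
    have hsub : Icc (prv x i) (x i) ⊆ Ico 0 1 := fun z hz =>
      ⟨(prv_nonneg hx i).trans hz.1, hz.2.trans_lt (hx1' i)⟩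
    have hc : ContinuousOn (fun z => 1 / (1 - z * y j) ^ (s + 1 + 1)) (Ico 0 1) := by
      refine ContinuousOn.div continuousOn_const (by fun_prop) fun z hz => ?_
      exact (pow_pos (hpos z hz j) _).ne'
    exact ((hc.mono hsub).integrableOn_compact isCompact_Icc).mono_set Ioc_subset_Icc_self
  -- the constant
  set K : ℝ := ((s : ℝ) + 1) ^ N * (∏ i, (1 - y i)) * (2 ^ s * (∏ i, (1 - x i)) ^ s) with hK
  have hstep : |(Matrix.of fun i j : Fin N => 1 - ((1 - x i) / (1 - x i * y j)) ^ (s + 1)).det| ≤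
      K * (Matrix.of fun i j : Fin N =>
        (1 / (1 - x i * y j) ^ (s + 1) - 1) * (1 / (((s : ℝ) + 1) * y j))).det := by
    rw [hA, hB, ← integral_const_mul]
    refine (abs_integral_le_integral_abs).trans ?_
    refine integral_mono_of_nonneg (Filter.Eventually.of_forall fun z => abs_nonneg _)
      (hIB.const_mul _) ?_
    filter_upwards [ae_box x] with z hz
    have hz0 : ∀ i, 0 ≤ z i := fun i => (prv_nonneg hx i).trans (hz i).1.le
    have hz1 : ∀ i, z i < 1 := fun i => (hz i).2.trans_lt (hx1' i)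
    have hzm := box_mono hxm hz
    have hd := det_pow_nonneg (s + 1) hz0 (fun i => (hy i).le) hz1 hy1 hzm hym
    have h1 : (Matrix.of fun i j : Fin N => ((s : ℝ) + 1) * (1 - y j) *
        ((1 - z i) ^ s * (1 / (1 - z i * y j) ^ (s + 1 + 1)))).det
        = (((s : ℝ) + 1) ^ N * (∏ i, (1 - y i))) * ((∏ i, (1 - z i)) ^ s *
          (Matrix.of fun i j : Fin N => 1 / (1 - z i * y j) ^ (s + 1 + 1)).det) := by
      rw [← Finset.prod_pow, ← Matrix.det_mul_column]
      have h2 : ((s : ℝ) + 1) ^ N * (∏ i, (1 - y i)) = ∏ i : Fin N, (((s : ℝ) + 1) * (1 - y i)) := by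
        rw [Finset.prod_mul_distrib]
        simp
      rw [h2, ← Matrix.det_mul_row]
      rfl
    have hyn : 0 ≤ ∏ i, (1 - y i) := Finset.prod_nonneg fun i _ => by linarith [hy1 i]
    have hzn : 0 ≤ ∏ i, (1 - z i) := Finset.prod_nonneg fun i _ => by linarith [hz1 i]
    have hle : ∏ i, (1 - z i) ≤ 2 * ∏ i, (1 - x i) := by
      have h3 : ∏ i, (1 - z i) ≤ ∏ i, (1 - prv x i) :=
        Finset.prod_le_prod (fun i _ => by linarith [hz1 i]) fun i _ => by linarith [(hz i).1]
      refine h3.trans ?_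
      cases N with
      | zero => simp
      | succ n =>
        rw [Fin.prod_univ_succ, Fin.prod_univ_castSucc (fun i => 1 - x i)]
        simp only [prv_zero, prv_succ]
        have h4 : 0 ≤ ∏ i : Fin n, (1 - x i.castSucc) :=
          Finset.prod_nonneg fun i _ => by linarith [hx1' i.castSucc]
        have h5 := hx1 (Fin.last n)
        nlinarith
    rw [h1, abs_of_nonneg (by positivity), hK]
    have h6 : (∏ i, (1 - z i)) ^ s ≤ 2 ^ s * (∏ i, (1 - x i)) ^ s := by
      rw [← mul_pow]
      exact pow_le_pow_left₀ hzn hle s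
    have h7 := mul_le_mul_of_nonneg_right h6 hd
    have h8 := mul_le_mul_of_nonneg_left h7 (by positivity :
      (0 : ℝ) ≤ ((s : ℝ) + 1) ^ N * (∏ i, (1 - y i)))
    refine h8.trans (le_of_eq ?_)
    ring
  have hC : (Matrix.of fun i j : Fin N =>
        (1 / (1 - x i * y j) ^ (s + 1) - 1) * (1 / (((s : ℝ) + 1) * y j))).det
      = (1 / (((s : ℝ) + 1) ^ N * ∏ i, y i)) *
        (Matrix.of fun i j : Fin N => 1 / (1 - x i * y j) ^ (s + 1) - 1).det := by
    have h2 : (1 / (((s : ℝ) + 1) ^ N * ∏ i, y i)) = ∏ i : Fin N, (1 / (((s : ℝ) + 1) * y i)) := by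
      rw [Finset.prod_div_distrib, Finset.prod_mul_distrib]
      simp
    rw [h2, ← Matrix.det_mul_row]
    congr 1
    ext i j
    simp only [Matrix.of_apply]
    ring
  refine hstep.trans ?_
  rw [hC]
  have hD := det_pow_le s hx (fun i => (hy i).le) hx1' hy1 hxm hym
  have hyp : 0 < ∏ i, y i := Finset.prod_pos fun i _ => hy i
  have hyn : 0 ≤ ∏ i, (1 - y i) := Finset.prod_nonneg fun i _ => by linarith [hy1 i]
  have hxn : 0 ≤ ∏ i, (1 - x i) := Finset.prod_nonneg fun i _ => by linarith [hx1' i]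
  have hE := mul_le_mul_of_nonneg_left hD (by positivity :
    (0 : ℝ) ≤ K * (1 / (((s : ℝ) + 1) ^ N * ∏ i, y i)))
  rw [mul_assoc] at hE
  refine hE.trans (le_of_eq ?_)
  rw [hK]
  have h9 : ((s : ℝ) + 1) ^ N ≠ 0 := by positivity
  field_simp

theorem kd_perm {N : ℕ} (κ : ℝ → ℝ) (x y : Fin N → ℝ) (σ τ : Equiv.Perm (Fin N)) :
    kd κ (x ∘ σ) (y ∘ τ) = kd κ x y := by
  unfold kd
  have h1 : (Matrix.of fun i j : Fin N => κ ((x ∘ σ) i * (y ∘ τ) j))
      = (Matrix.of fun i j : Fin N => κ (x i * y j)).submatrix σ τ := rfl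
  have h2 : (Matrix.of fun i j : Fin N => κ (x i * y j)).submatrix σ τ
      = ((Matrix.of fun i j : Fin N => κ (x i * y j)).submatrix σ id).submatrix id τ := rfl
  rw [h1, h2, Matrix.det_permute', Matrix.det_permute, abs_mul, abs_mul]
  have h3 : ∀ σ : Equiv.Perm (Fin N), |((Equiv.Perm.sign σ : ℤ) : ℝ)| = 1 := by
    intro σ
    rcases Int.units_eq_one_or (Equiv.Perm.sign σ) with h | h <;> simp [h]
  rw [h3, h3, one_mul, one_mul]

end Upp

theorem kb_I2 {s N : ℕ} {x y : Fin N → ℝ} (hx : ∀ i, 0 < x i) (hy : ∀ i, 0 < y i)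
    (hx1 : ∀ i, x i < 1) (hy1 : ∀ i, y i < 1) :
    kd (kb s) x y ≤ 2 ^ s * ((N + s).choose s : ℝ) * kd (kk s) x y := by
  -- sort
  rw [← Upp.kd_perm (kb s) x y (Tuple.sort x) (Tuple.sort fun i => 1 - y i),
    ← Upp.kd_perm (kk s) x y (Tuple.sort x) (Tuple.sort fun i => 1 - y i)]
  have hxm := Tuple.monotone_sort x
  have hym := Tuple.monotone_sort fun i => 1 - y i
  set x₁ : Fin N → ℝ := x ∘ Tuple.sort x with hx₁
  set y₁ : Fin N → ℝ := y ∘ (Tuple.sort fun i => 1 - y i) with hy₁
  have hx0 : ∀ i, 0 < x₁ i := fun i => hx _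
  have hy0 : ∀ i, 0 < y₁ i := fun i => hy _
  have hx1' : ∀ i, x₁ i < 1 := fun i => hx1 _
  have hy1' : ∀ i, y₁ i < 1 := fun i => hy1 _
  set X : Fin N → ℝ := fun i => x₁ i / (1 + x₁ i) with hX
  set Y : Fin N → ℝ := fun i => 1 - y₁ i with hY
  have hXm : Monotone X := by
    intro i j hij
    have h1 := hxm hij
    simp only [hX]
    rw [div_le_div_iff₀ (by linarith [hx0 i]) (by linarith [hx0 j])]
    nlinarith [hx0 i, hx0 j]
  have hYm : Monotone Y := hym
  have hcore := Upp.core s (x := X) (y := Y) (fun i => by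
      have := hx0 i
      simp only [hX]
      positivity) (fun i => by
      have := hy1' i
      simp only [hY]
      linarith) (fun i => by
      simp only [hX]
      rw [div_lt_div_iff₀ (by linarith [hx0 i]) (by norm_num)]
      linarith [hx1' i]) (fun i => by
      simp only [hY]
      linarith [hy0 i]) hXm hYm
  have hq : ∀ i j, (1 - X i) / (1 - X i * Y j) = 1 / (1 + x₁ i * y₁ j) := by
    intro i j
    simp only [hX, hY]
    have h1 : 1 + x₁ i ≠ 0 := by linarith [hx0 i]
    have h2 : 0 < x₁ i * y₁ j := mul_pos (hx0 i) (hy0 j)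
    have h3 : 1 - x₁ i / (1 + x₁ i) = 1 / (1 + x₁ i) := by field_simp; ring
    have h4 : 1 - x₁ i / (1 + x₁ i) * (1 - y₁ j) = (1 + x₁ i * y₁ j) / (1 + x₁ i) := by
      field_simp
      ring
    rw [h3, h4]
    have h5 : 1 + x₁ i * y₁ j ≠ 0 := by linarith
    field_simp
  simp_rw [hq] at hcore
  have hkb : kd (kb s) x₁ y₁ = (s.factorial : ℝ) ^ N *
      |(Matrix.of fun i j : Fin N => 1 - (1 / (1 + x₁ i * y₁ j)) ^ (s + 1)).det| := by
    unfold kd kb
    have h1 : (Matrix.of fun i j : Fin N => (s.factorial : ℝ) *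
        (1 - (1 / (1 + x₁ i * y₁ j)) ^ (s + 1)))
        = (s.factorial : ℝ) • (Matrix.of fun i j : Fin N =>
            1 - (1 / (1 + x₁ i * y₁ j)) ^ (s + 1)) := by
      ext i j
      simp
    rw [h1, Matrix.det_smul, abs_mul, Fintype.card_fin, abs_of_nonneg (by positivity)]
  have hkk : kd (kk s) x₁ y₁ = (s.factorial : ℝ) ^ N *
      ((∏ i, x₁ i) * ((∏ i, y₁ i) * ((∏ i, (1 - X i)) ^ (s + 1) *
      (Matrix.of fun i j : Fin N => 1 / (1 - X i * Y j) ^ (s + 1)).det))) := by
    unfold kd kk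
    have h1 : (Matrix.of fun i j : Fin N => (s.factorial : ℝ) *
        (x₁ i * y₁ j) / (1 + x₁ i * y₁ j) ^ (s + 1))
        = (s.factorial : ℝ) • (Matrix.of fun i j : Fin N =>
            x₁ i * (y₁ j * ((1 - X i) ^ (s + 1) * (1 / (1 - X i * Y j) ^ (s + 1))))) := by
      ext i j
      simp only [Matrix.smul_apply, Matrix.of_apply, smul_eq_mul]
      have h2 : (1 - X i) ^ (s + 1) * (1 / (1 - X i * Y j) ^ (s + 1))
          = 1 / (1 + x₁ i * y₁ j) ^ (s + 1) := by
        rw [mul_one_div, ← div_pow, hq, one_div, one_div, inv_pow]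
      rw [h2]
      ring
    have h3 : (Matrix.of fun i j : Fin N =>
            x₁ i * (y₁ j * ((1 - X i) ^ (s + 1) * (1 / (1 - X i * Y j) ^ (s + 1))))).det
        = (∏ i, x₁ i) * ((∏ i, y₁ i) * ((∏ i, (1 - X i) ^ (s + 1)) *
      (Matrix.of fun i j : Fin N => 1 / (1 - X i * Y j) ^ (s + 1)).det)) := by
      rw [← Matrix.det_mul_column, ← Matrix.det_mul_row, ← Matrix.det_mul_column]
      rfl
    have h4 := Upp.det_pow_nonneg s (x := X) (y := Y) (fun i => by
      have := hx0 i
      simp only [hX]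
      positivity) (fun i => by
      have := hy1' i
      simp only [hY]
      linarith) (fun i => by
      simp only [hX]
      rw [div_lt_one (by linarith [hx0 i])]
      linarith [hx1' i]) (fun i => by
      simp only [hY]
      linarith [hy0 i]) hXm hYm
    have h5 : ∀ i, 0 ≤ 1 - X i := fun i => by
      have h6 : X i < 1 := by
        simp only [hX]
        rw [div_lt_one (by linarith [hx0 i])]
        linarith [hx1' i]
      linarith
    have h7 : 0 ≤ ∏ i, x₁ i := Finset.prod_nonneg fun i _ => (hx0 i).le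
    have h8 : 0 ≤ ∏ i, y₁ i := Finset.prod_nonneg fun i _ => (hy0 i).le
    have h9 : 0 ≤ ∏ i, (1 - X i) := Finset.prod_nonneg fun i _ => h5 i
    rw [h1, Matrix.det_smul, Fintype.card_fin, h3, Finset.prod_pow, abs_of_nonneg (by positivity)]
  rw [hkb, hkk]
  have hfin := mul_le_mul_of_nonneg_left hcore (by positivity : (0 : ℝ) ≤ (s.factorial : ℝ) ^ N)
  refine hfin.trans (le_of_eq ?_)
  have h10 : ∏ i, X i = (∏ i, x₁ i) * ∏ i, (1 - X i) := by
    rw [← Finset.prod_mul_distrib]
    refine Finset.prod_congr rfl fun i _ => ?_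
    simp only [hX]
    have h1 : 1 + x₁ i ≠ 0 := by linarith [hx0 i]
    field_simp
    ring
  have h11 : ∏ i, (1 - Y i) = ∏ i, y₁ i := Finset.prod_congr rfl fun i _ => by simp [hY]
  rw [h10, h11]
  ring

end Pool.Agent.Helper55.BD
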