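import Pool.Agent.Helper55.BD.Mellin
import Pool.Agent.Helper55.BD.TP
import Pool.Agent.Helper55.BD.Upper

/-! Module C (blueprint C): consequences for `tau`. -/

open Set Filter Topology MeasureTheory

namespace Pool.Agent.Helper55.BD

open Pool.Agent.Helper28.Eta (eta sg vdm mup nu sg_mul_sg sg_abs ae_nunu nunu_eq OO mem_OO)

theorem tau_zero (s : ℕ) (c : ℝ) : tau s 0 c = 1 := by
  unfold tau hank sg
  simp

theorem tau_base (N : ℕ) (c : ℝ) : tau 1 N (c + 1) = tau 0 N c := by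
  have h : ∀ k, mm 1 (c + 1) k = mm 0 c k := by
    intro k
    unfold mm
    have h1 : ff 1 = fun z => eta (z - 1) := by
      funext z
      simp [ff]
    have h2 : ff 0 = eta := rfl
    rw [h1, h2]
    have h3 := iteratedDeriv_comp_add_const k eta (-1)
    have h4 : (fun z : ℂ => eta (z - 1)) = fun z => eta (z + -1) := by
      funext z; rw [sub_eq_add_neg]
    rw [h4, h3]
    show (iteratedDeriv k eta (((c + 1 : ℝ) : ℂ) + -1)).re = _
    congr 2
    push_cast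
    ring
  unfold tau
  have : mm 1 (c + 1) = mm 0 c := funext h
  rw [this]

/-- the normalising constant -/
noncomputable def cst (N : ℕ) (c₁ c₂ : ℝ) : ℝ :=
  (Real.Gamma c₁ * Real.Gamma c₂) ^ N * (N.factorial : ℝ) ^ 2

theorem cst_pos (N : ℕ) {c₁ c₂ : ℝ} (h₁ : 0 < c₁) (h₂ : 0 < c₂) : 0 < cst N c₁ c₂ := by
  unfold cst
  have := Real.Gamma_pos_of_pos h₁
  have := Real.Gamma_pos_of_pos h₂
  positivity

/-- the pointwise identity between the signed and the absolute integrand -/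
theorem sint_abs {N : ℕ} (κ : ℝ → ℝ) (c₁ c₂ : ℝ) {u v : Fin N → ℝ} (hu : ∀ i, 0 < u i)
    (hv : ∀ i, 0 < v i)
    (hs : 0 ≤ sg N * (vdm (fun i => Real.log (u i)) * vdm (fun i => Real.log (v i)) *
      (Matrix.of fun i j => κ (em u i * em v j)).det)) :
    sg N * sint κ c₁ c₂ u v = wgt c₁ c₂ u v * kd κ (em u) (em v) := by
  have hP : 0 ≤ ∏ i, u i ^ (c₁ - 1) := Finset.prod_nonneg fun i _ => Real.rpow_nonneg (hu i).le _
  have hQ : 0 ≤ ∏ i, v i ^ (c₂ - 1) := Finset.prod_nonneg fun i _ => Real.rpow_nonneg (hv i).le _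
  have h1 := abs_of_nonneg hs
  rw [abs_mul, sg_abs, one_mul, abs_mul, abs_mul] at h1
  unfold sint wgt kd
  calc sg N * (vdm (fun i => Real.log (u i)) * vdm (fun i => Real.log (v i)) *
        (∏ i, u i ^ (c₁ - 1)) * (∏ i, v i ^ (c₂ - 1)) *
        (Matrix.of fun i j => κ (em u i * em v j)).det)
      = (sg N * (vdm (fun i => Real.log (u i)) * vdm (fun i => Real.log (v i)) *
      (Matrix.of fun i j => κ (em u i * em v j)).det)) *
        ((∏ i, u i ^ (c₁ - 1)) * (∏ i, v i ^ (c₂ - 1))) := by ring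
    _ = (|vdm (fun i => Real.log (u i))| * |vdm (fun i => Real.log (v i))| *
      |(Matrix.of fun i j => κ (em u i * em v j)).det|) *
        ((∏ i, u i ^ (c₁ - 1)) * (∏ i, v i ^ (c₂ - 1))) := by rw [h1]
    _ = _ := by ring

theorem ae_sint_kk (s N : ℕ) (c₁ c₂ : ℝ) :
    ∀ᵐ p ∂((nu N).prod (nu N)), sg N * sint (kk s) c₁ c₂ p.1 p.2 =
      wgt c₁ c₂ p.1 p.2 * kd (kk s) (em p.1) (em p.2) := by
  filter_upwards [ae_nunu N] with p hp
  exact sint_abs _ _ _ hp.1 hp.2 (kk_sign hp.1 hp.2)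

theorem ae_sint_kb (s N : ℕ) (c₁ c₂ : ℝ) :
    ∀ᵐ p ∂((nu N).prod (nu N)), sg N * sint (kb s) c₁ c₂ p.1 p.2 =
      wgt c₁ c₂ p.1 p.2 * kd (kb s) (em p.1) (em p.2) := by
  filter_upwards [ae_nunu N] with p hp
  exact sint_abs _ _ _ hp.1 hp.2 (kb_sign hp.1 hp.2)

theorem tau_eq_ZZ (s N : ℕ) {c₁ c₂ : ℝ} (h₁ : 0 < c₁) (h₂ : 0 < c₂) :
    tau s N (c₁ + c₂) * ((Real.Gamma c₁ * Real.Gamma c₂) ^ N * (N.factorial : ℝ) ^ 2) =
      ZZ (kk s) N c₁ c₂ := by
  unfold tau ZZ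
  rw [mul_assoc, hank_kk s N h₁ h₂, ← integral_const_mul]
  exact integral_congr_ae (ae_sint_kk s N c₁ c₂)

theorem tau_succ_eq_ZZ (s N : ℕ) {c₁ c₂ : ℝ} (h₁ : 0 < c₁) (h₂ : 0 < c₂) :
    tau (s + 1) N (c₁ + c₂ + 1) *
        ((Real.Gamma c₁ * Real.Gamma c₂) ^ N * (N.factorial : ℝ) ^ 2) =
      ZZ (kb s) N c₁ c₂ := by
  unfold tau ZZ
  rw [mul_assoc, hank_kb s N h₁ h₂, ← integral_const_mul]
  exact integral_congr_ae (ae_sint_kb s N c₁ c₂)

theorem integrable_ZZ (s N : ℕ) {c₁ c₂ : ℝ} (h₁ : 0 < c₁) (h₂ : 0 < c₂) :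
    Integrable (fun p : (Fin N → ℝ) × (Fin N → ℝ) => wgt c₁ c₂ p.1 p.2 *
      kd (kk s) (em p.1) (em p.2)) ((nu N).prod (nu N)) :=
  ((integrable_kk s N h₁ h₂).const_mul (sg N)).congr (ae_sint_kk s N c₁ c₂)

theorem integrable_ZZb (s N : ℕ) {c₁ c₂ : ℝ} (h₁ : 0 < c₁) (h₂ : 0 < c₂) :
    Integrable (fun p : (Fin N → ℝ) × (Fin N → ℝ) => wgt c₁ c₂ p.1 p.2 *
      kd (kb s) (em p.1) (em p.2)) ((nu N).prod (nu N)) :=
  ((integrable_kb s N h₁ h₂).const_mul (sg N)).congr (ae_sint_kb s N c₁ c₂)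

theorem wgt_nonneg {N : ℕ} (c₁ c₂ : ℝ) {u v : Fin N → ℝ} (hu : ∀ i, 0 < u i)
    (hv : ∀ i, 0 < v i) : 0 ≤ wgt c₁ c₂ u v := by
  unfold wgt
  have hP : 0 ≤ ∏ i, u i ^ (c₁ - 1) := Finset.prod_nonneg fun i _ => Real.rpow_nonneg (hu i).le _
  have hQ : 0 ≤ ∏ i, v i ^ (c₂ - 1) := Finset.prod_nonneg fun i _ => Real.rpow_nonneg (hv i).le _
  positivity

theorem kd_nonneg (κ : ℝ → ℝ) {N : ℕ} (x y : Fin N → ℝ) : 0 ≤ kd κ x y := abs_nonneg _

theorem vdm_ne_zero {N : ℕ} {u : Fin N → ℝ} (h : ∀ i j, i < j → u i < u j) : vdm u ≠ 0 := by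
  unfold vdm
  refine Finset.prod_ne_zero_iff.2 fun i _ => Finset.prod_ne_zero_iff.2 fun j hj => ?_
  exact (sub_pos.2 (h i j (Finset.mem_Ioi.1 hj))).ne'

theorem wgt_pos {N : ℕ} (c₁ c₂ : ℝ) {u v : Fin N → ℝ} (hu : ∀ i, 0 < u i)
    (hv : ∀ i, 0 < v i) (hu' : ∀ i j, i < j → u i < u j) (hv' : ∀ i j, i < j → v i < v j) :
    0 < wgt c₁ c₂ u v := by
  unfold wgt
  have hP : 0 < ∏ i, u i ^ (c₁ - 1) := Finset.prod_pos fun i _ => Real.rpow_pos_of_pos (hu i) _
  have hQ : 0 < ∏ i, v i ^ (c₂ - 1) := Finset.prod_pos fun i _ => Real.rpow_pos_of_pos (hv i) _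
  have hA : 0 < |vdm (fun i => Real.log (u i))| :=
    abs_pos.2 (vdm_ne_zero fun i j hij => Real.log_lt_log (hu i) (hu' i j hij))
  have hB : 0 < |vdm (fun i => Real.log (v i))| :=
    abs_pos.2 (vdm_ne_zero fun i j hij => Real.log_lt_log (hv i) (hv' i j hij))
  positivity

theorem em_pos {N : ℕ} (u : Fin N → ℝ) (i : Fin N) : 0 < em u i := Real.exp_pos _

theorem em_lt_one {N : ℕ} {u : Fin N → ℝ} (hu : ∀ i, 0 < u i) (i : Fin N) : em u i < 1 := by
  unfold em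
  exact Real.exp_lt_one_iff.2 (by linarith [hu i])

theorem em_injective {N : ℕ} {u : Fin N → ℝ} (h : ∀ i j, i < j → u i < u j) :
    Function.Injective (em u) := by
  have h1 : StrictMono u := fun i j hij => h i j hij
  intro i j hij
  unfold em at hij
  have := Real.exp_injective hij
  exact h1.injective (by linarith)

theorem ZZ_pos (s N : ℕ) {c₁ c₂ : ℝ} (h₁ : 0 < c₁) (h₂ : 0 < c₂) : 0 < ZZ (kk s) N c₁ c₂ := by
  unfold ZZ
  have hnn : 0 ≤ᵐ[(nu N).prod (nu N)]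
      (fun p : (Fin N → ℝ) × (Fin N → ℝ) => wgt c₁ c₂ p.1 p.2 *
        kd (kk s) (em p.1) (em p.2)) := by
    filter_upwards [ae_nunu N] with p hp
    exact mul_nonneg (wgt_nonneg _ _ hp.1 hp.2) (kd_nonneg _ _ _)
  rw [integral_pos_iff_support_of_nonneg_ae hnn (integrable_ZZ s N h₁ h₂)]
  set U : Set ((Fin N → ℝ) × (Fin N → ℝ)) :=
    {p | ((∀ i, 0 < p.1 i) ∧ (∀ i j, i < j → p.1 i < p.1 j)) ∧
      ((∀ i, 0 < p.2 i) ∧ (∀ i j, i < j → p.2 i < p.2 j))} with hU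
  have hopen1 : IsOpen {x : Fin N → ℝ | (∀ i, 0 < x i) ∧ (∀ i j, i < j → x i < x j)} := by
    simp only [Set.ofPred_and, Set.ofPred_forall]
    refine IsOpen.inter ?_ ?_
    · exact isOpen_iInter_of_finite fun i => isOpen_lt continuous_const (continuous_apply i)
    · refine isOpen_iInter_of_finite fun i => isOpen_iInter_of_finite fun j =>
        isOpen_iInter_of_finite fun _ => isOpen_lt (continuous_apply i) (continuous_apply j)
  have hopen : IsOpen U := (hopen1.preimage continuous_fst).inter (hopen1.preimage continuous_snd)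
  have hne : U.Nonempty := by
    refine ⟨(fun i => (i : ℝ) + 1, fun i => (i : ℝ) + 1), ?_⟩
    have h1 : (∀ i : Fin N, (0 : ℝ) < (i : ℝ) + 1) ∧
        (∀ i j : Fin N, i < j → (i : ℝ) + 1 < (j : ℝ) + 1) := by
      refine ⟨fun i => by positivity, fun i j hij => ?_⟩
      have : (i : ℕ) < (j : ℕ) := hij
      have h2 : ((i : ℕ) : ℝ) < ((j : ℕ) : ℝ) := by exact_mod_cast this
      linarith
    exact ⟨h1, h1⟩
  have hpos := hopen.measure_pos (volume : Measure ((Fin N → ℝ) × (Fin N → ℝ))) hne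
  rw [nunu_eq]
  refine lt_of_lt_of_le hpos ?_
  have hsub : U ⊆ OO N ×ˢ OO N := fun p hp => ⟨mem_OO.mpr hp.1.1, mem_OO.mpr hp.2.1⟩
  have hres : volume.restrict (OO N ×ˢ OO N) U = volume U :=
    Measure.restrict_eq_self _ hsub
  rw [← hres]
  refine measure_mono fun p hp => ?_
  rw [Function.mem_support]
  refine (mul_pos (wgt_pos _ _ hp.1.1 hp.2.1 hp.1.2 hp.2.2) ?_).ne'
  exact kk_pos (em_pos _) (em_pos _) (em_injective hp.1.2) (em_injective hp.2.2)

theorem tau_pos (s N : ℕ) {c : ℝ} (hc : 0 < c) : 0 < tau s N c := by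
  have h2 : 0 < c / 2 := by linarith
  have h := tau_eq_ZZ s N h2 h2
  have hz := ZZ_pos s N h2 h2
  rw [add_halves] at h
  rw [← h] at hz
  exact pos_of_mul_pos_left hz (cst_pos N h2 h2).le

theorem tau_I1 (s N : ℕ) {c : ℝ} (hc : 0 < c) :
    (((N : ℝ) + s + 1) / ((s : ℝ) + 1)) * tau (s + 1) N c ^ 2 ≤ tau s N c * tau (s + 2) N c := by
  have h2 : 0 < c / 2 := by linarith
  set K : ℝ := ((N : ℝ) + s + 1) / ((s : ℝ) + 1) with hK
  have hK0 : 0 < K := by rw [hK]; positivity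
  set M := cst N (c / 2) (c / 2) with hM
  have hM0 : 0 < M := cst_pos N h2 h2
  have e0 : tau s N c * M = ZZ (kk s) N (c / 2) (c / 2) := by
    have := tau_eq_ZZ s N h2 h2
    rwa [add_halves] at this
  have e1 : tau (s + 1) N c * M = ZZ (kk (s + 1)) N (c / 2) (c / 2) := by
    have := tau_eq_ZZ (s + 1) N h2 h2
    rwa [add_halves] at this
  have e2 : tau (s + 2) N c * M = ZZ (kk (s + 2)) N (c / 2) (c / 2) := by
    have := tau_eq_ZZ (s + 2) N h2 h2
    rwa [add_halves] at this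
  have p0 := ZZ_pos s N h2 h2
  have p1 := ZZ_pos (s + 1) N h2 h2
  have p2 := ZZ_pos (s + 2) N h2 h2
  set A := ZZ (kk s) N (c / 2) (c / 2) with hA
  set B := ZZ (kk (s + 1)) N (c / 2) (c / 2) with hB
  set D := ZZ (kk (s + 2)) N (c / 2) (c / 2) with hD
  -- the key inequality, with a parameter
  have key : ∀ t : ℝ, 0 < t → 2 * Real.sqrt K * B ≤ t * A + t⁻¹ * D := by
    intro t ht
    rw [hA, hB, hD]
    unfold ZZ
    rw [← integral_const_mul, ← integral_const_mul, ← integral_const_mul,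
      ← integral_add ((integrable_ZZ s N h2 h2).const_mul t)
        ((integrable_ZZ (s + 2) N h2 h2).const_mul t⁻¹)]
    refine integral_mono_ae ((integrable_ZZ (s + 1) N h2 h2).const_mul _)
      (((integrable_ZZ s N h2 h2).const_mul t).add
        ((integrable_ZZ (s + 2) N h2 h2).const_mul t⁻¹)) ?_
    filter_upwards [ae_nunu N] with p hp
    have hw := wgt_nonneg (c / 2) (c / 2) hp.1 hp.2
    have hI := kk_I1 (s := s) (N := N) (em_pos p.1) (em_pos p.2)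
    rw [← hK] at hI
    set a := kd (kk s) (em p.1) (em p.2) with ha
    set b := kd (kk (s + 1)) (em p.1) (em p.2) with hb
    set d := kd (kk (s + 2)) (em p.1) (em p.2) with hd
    have a0 : 0 ≤ a := kd_nonneg _ _ _
    have b0 : 0 ≤ b := kd_nonneg _ _ _
    have d0 : 0 ≤ d := kd_nonneg _ _ _
    have hpt : 2 * Real.sqrt K * b ≤ t * a + t⁻¹ * d := by
      have h3 : (2 * Real.sqrt K * b) ^ 2 ≤ (t * a + t⁻¹ * d) ^ 2 := by
        have h4 : (2 * Real.sqrt K * b) ^ 2 = 4 * (K * b ^ 2) := by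
          rw [mul_pow, mul_pow, Real.sq_sqrt hK0.le]; ring
        have h5 : (t * a + t⁻¹ * d) ^ 2 = (t * a - t⁻¹ * d) ^ 2 + 4 * (a * d) := by
          have : t * t⁻¹ = 1 := mul_inv_cancel₀ ht.ne'
          linear_combination (4 * a * d) * this
        rw [h4, h5]
        nlinarith [sq_nonneg (t * a - t⁻¹ * d)]
      have h6 : 0 ≤ t * a + t⁻¹ * d := by positivity
      exact abs_le_of_sq_le_sq' h3 h6 |>.2
    show 2 * Real.sqrt K * (wgt (c / 2) (c / 2) p.1 p.2 * b) ≤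
      t * (wgt (c / 2) (c / 2) p.1 p.2 * a) + t⁻¹ * (wgt (c / 2) (c / 2) p.1 p.2 * d)
    nlinarith [mul_le_mul_of_nonneg_left hpt hw]
  have hfin : K * B ^ 2 ≤ A * D := by
    set t := Real.sqrt D / Real.sqrt A with ht
    have sA := Real.sqrt_pos.2 p0
    have sD := Real.sqrt_pos.2 p2
    have ht0 : 0 < t := div_pos sD sA
    have h3 := key t ht0
    have h4 : t * A = Real.sqrt A * Real.sqrt D := by
      rw [ht]
      have := Real.mul_self_sqrt p0.le
      field_simp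
      nlinarith
    have h5 : t⁻¹ * D = Real.sqrt A * Real.sqrt D := by
      rw [ht]
      have := Real.mul_self_sqrt p2.le
      field_simp
      nlinarith
    rw [h4, h5] at h3
    have h6 : Real.sqrt K * B ≤ Real.sqrt A * Real.sqrt D := by linarith
    have h7 : (Real.sqrt K * B) ^ 2 ≤ (Real.sqrt A * Real.sqrt D) ^ 2 :=
      pow_le_pow_left₀ (by positivity) h6 2
    rwa [mul_pow, mul_pow, Real.sq_sqrt hK0.le, Real.sq_sqrt p0.le, Real.sq_sqrt p2.le] at h7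
  rw [← e0, ← e1, ← e2] at hfin
  have h8 : (K * tau (s + 1) N c ^ 2) * (M * M) ≤ (tau s N c * tau (s + 2) N c) * (M * M) := by
    nlinarith
  exact le_of_mul_le_mul_right h8 (by positivity)

theorem tau_I2 (s N : ℕ) {c : ℝ} (hc : 0 < c) :
    tau (s + 1) N (c + 1) ≤ 2 ^ s * ((N + s).choose s : ℝ) * tau s N c := by
  have h2 : 0 < c / 2 := by linarith
  set M := cst N (c / 2) (c / 2) with hM
  have hM0 : 0 < M := cst_pos N h2 h2
  have e0 : tau s N c * M = ZZ (kk s) N (c / 2) (c / 2) := by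
    have := tau_eq_ZZ s N h2 h2
    rwa [add_halves] at this
  have e1 : tau (s + 1) N (c + 1) * M = ZZ (kb s) N (c / 2) (c / 2) := by
    have := tau_succ_eq_ZZ s N h2 h2
    rwa [add_halves] at this
  have h3 : ZZ (kb s) N (c / 2) (c / 2) ≤
      (2 ^ s * ((N + s).choose s : ℝ)) * ZZ (kk s) N (c / 2) (c / 2) := by
    unfold ZZ
    rw [← integral_const_mul]
    refine integral_mono_ae (integrable_ZZb s N h2 h2) ((integrable_ZZ s N h2 h2).const_mul _) ?_
    filter_upwards [ae_nunu N] with p hp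
    have hw := wgt_nonneg (c / 2) (c / 2) hp.1 hp.2
    have hI := kb_I2 (s := s) (N := N) (em_pos p.1) (em_pos p.2) (em_lt_one hp.1) (em_lt_one hp.2)
    show wgt (c / 2) (c / 2) p.1 p.2 * kd (kb s) (em p.1) (em p.2) ≤
      (2 ^ s * ((N + s).choose s : ℝ)) * (wgt (c / 2) (c / 2) p.1 p.2 *
        kd (kk s) (em p.1) (em p.2))
    calc wgt (c / 2) (c / 2) p.1 p.2 * kd (kb s) (em p.1) (em p.2)
        ≤ wgt (c / 2) (c / 2) p.1 p.2 * (2 ^ s * ((N + s).choose s : ℝ) *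
          kd (kk s) (em p.1) (em p.2)) := mul_le_mul_of_nonneg_left hI hw
      _ = _ := by ring
  rw [← e0, ← e1, ← mul_assoc] at h3
  exact le_of_mul_le_mul_right h3 hM0

end Pool.Agent.Helper55.BD
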