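import Pool.Agent.Helper55.BD.Ens
import Pool.Agent.Helper55.BD.Borchardt
import Pool.Agent.Helper55.BD.FourFun
import Pool.Agent.Helper32.BD.Asm

/-! Module E2 (blueprint E): the FKG bound (Q). -/

open Set Filter Topology MeasureTheory

namespace Pool.Agent.Helper55.BD

open Pool.Agent.Helper28.Eta (eta sg vdm mup nu)

theorem ZZ_Q_lower (N : ℕ) {c₁ c₂ : ℝ} (h₁ : 0 < c₁) (h₂ : 0 < c₂) :
    (((N : ℝ) + 2) / 4) * (ZZ (kk 1) N c₁ c₂ * ZZ (kk 0) (N + 1) c₁ c₂) ≤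
      ZZ (kk 1) (N + 1) c₁ c₂ * ZZ (kk 0) N c₁ c₂ :=
  (Pool.Agent.Helper32.BD.QQ h₁ h₂ N).1

theorem ZZ_Q_upper (N : ℕ) {c₁ c₂ : ℝ} (h₁ : 0 < c₁) (h₂ : 0 < c₂) :
    ZZ (kk 1) (N + 1) c₁ c₂ * ZZ (kk 0) N c₁ c₂ ≤
      (4 * (N : ℝ) + 2) * (ZZ (kk 1) N c₁ c₂ * ZZ (kk 0) (N + 1) c₁ c₂) :=
  (Pool.Agent.Helper32.BD.QQ h₁ h₂ N).2

theorem tau_Q (N : ℕ) {c : ℝ} (hc : 0 < c) :
    (((N : ℝ) + 2) / 4) * (tau 1 N c * tau 0 (N + 1) c) ≤ tau 1 (N + 1) c * tau 0 N c ∧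
    tau 1 (N + 1) c * tau 0 N c ≤ (4 * (N : ℝ) + 2) * (tau 1 N c * tau 0 (N + 1) c) := by
  have h : 0 < c / 2 := by positivity
  have hl := ZZ_Q_lower N h h
  have hu := ZZ_Q_upper N h h
  have hG := Real.Gamma_pos_of_pos h
  rw [← tau_eq_ZZ 1 N h h, ← tau_eq_ZZ 0 N h h, ← tau_eq_ZZ 1 (N + 1) h h,
    ← tau_eq_ZZ 0 (N + 1) h h, add_halves] at hl hu
  have k1 : 0 < (Real.Gamma (c / 2) * Real.Gamma (c / 2)) ^ N * (N.factorial : ℝ) ^ 2 := by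
    have : (0 : ℝ) < (N.factorial : ℝ) := by exact_mod_cast N.factorial_pos
    positivity
  have k2 : 0 < (Real.Gamma (c / 2) * Real.Gamma (c / 2)) ^ (N + 1) *
      ((N + 1).factorial : ℝ) ^ 2 := by
    have : (0 : ℝ) < ((N + 1).factorial : ℝ) := by exact_mod_cast (N + 1).factorial_pos
    positivity
  set K := (Real.Gamma (c / 2) * Real.Gamma (c / 2)) ^ N * (N.factorial : ℝ) ^ 2
  set K' := (Real.Gamma (c / 2) * Real.Gamma (c / 2)) ^ (N + 1) * ((N + 1).factorial : ℝ) ^ 2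
  constructor
  · have : (((N : ℝ) + 2) / 4) * (tau 1 N c * tau 0 (N + 1) c) * (K * K') ≤
        tau 1 (N + 1) c * tau 0 N c * (K * K') := by
      calc _ = (((N : ℝ) + 2) / 4) * (tau 1 N c * K * (tau 0 (N + 1) c * K')) := by ring
        _ ≤ _ := hl
        _ = _ := by ring
    exact le_of_mul_le_mul_right this (by positivity)
  · have : tau 1 (N + 1) c * tau 0 N c * (K * K') ≤
        (4 * (N : ℝ) + 2) * (tau 1 N c * tau 0 (N + 1) c) * (K * K') := by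
      calc _ = tau 1 (N + 1) c * K' * (tau 0 N c * K) := by ring
        _ ≤ _ := hu
        _ = _ := by ring
    exact le_of_mul_le_mul_right this (by positivity)

end Pool.Agent.Helper55.BD
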