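import Pool.Agent.Helper55.BD.CplxAux

/-! Module L (blueprint L): the complex part. -/

open Set Filter Topology MeasureTheory

namespace Pool.Agent.Helper55.BD

theorem P_lower {β a : ℕ → ℝ} {A B : ℝ} (hJ : JB β a A B)
    (g : ℕ → ℝ) (C : ℝ) (hg : ∀ N, |g N| ≤ C)
    (hP : ∀ t : ℝ, |t| ≤ 1 → Tendsto (fun N : ℕ => (Em β a (t : ℂ) N).det *
      (Em β a (-(t : ℂ)) N).det - (Real.exp (-(g N * t ^ 2)) : ℂ)) atTop (𝓝 0)) (t : ℂ) :
    ∃ c : ℝ, 0 < c ∧ ∀ᶠ N : ℕ in atTop, c ≤ ‖(Em β a t N).det * (Em β a (-t) N).det‖ := by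
  have hC0 : 0 ≤ C := (abs_nonneg _).trans (hg 0)
  have hlim := vitali_zero (fun N t => (Em β a t N).det * (Em β a (-t) N).det -
      Complex.exp (-(g N * t ^ 2))) ?_ ?_ ?_ t
  · refine ⟨Real.exp (-(C * ‖t‖ ^ 2)) / 2, by positivity, ?_⟩
    have hev := (Metric.tendsto_nhds.1 hlim) (Real.exp (-(C * ‖t‖ ^ 2)) / 2) (by positivity)
    filter_upwards [hev] with N hN
    rw [dist_zero_right] at hN
    have h1 : Real.exp (-(C * ‖t‖ ^ 2)) ≤ ‖Complex.exp (-(g N * t ^ 2))‖ := by
      rw [Complex.norm_exp, Real.exp_le_exp]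
      have h2 : |(-(g N * t ^ 2 : ℂ)).re| ≤ C * ‖t‖ ^ 2 := by
        refine (Complex.abs_re_le_norm _).trans ?_
        rw [norm_neg, norm_mul, Complex.norm_real, Real.norm_eq_abs, norm_pow]
        exact mul_le_mul_of_nonneg_right (hg N) (by positivity)
      exact (abs_le.1 h2).1
    have h3 : ‖Complex.exp (-(g N * t ^ 2))‖ ≤ ‖(Em β a t N).det * (Em β a (-t) N).det‖ +
        ‖(Em β a t N).det * (Em β a (-t) N).det - Complex.exp (-(g N * t ^ 2))‖ := by
      have := norm_sub_le ((Em β a t N).det * (Em β a (-t) N).det)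
        ((Em β a t N).det * (Em β a (-t) N).det - Complex.exp (-(g N * t ^ 2)))
      rwa [sub_sub_cancel] at this
    linarith
  · intro N
    refine Differentiable.sub ?_ ?_
    · exact (Em_det_differentiable hJ N).mul ((Em_det_differentiable hJ N).comp differentiable_neg)
    · exact ((differentiable_id.pow 2).const_mul _).neg.cexp
  · intro R hR
    obtain ⟨M, hM0, hM⟩ := P_bound hJ R
    refine ⟨M + Real.exp (C * R ^ 2), by positivity, fun N t ht => ?_⟩
    refine (norm_sub_le _ _).trans (add_le_add (hM N t ht) ?_)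
    rw [Complex.norm_exp, Real.exp_le_exp]
    refine (Complex.re_le_norm _).trans ?_
    rw [norm_neg, norm_mul, Complex.norm_real, Real.norm_eq_abs, norm_pow]
    exact mul_le_mul (hg N) (pow_le_pow_left₀ (norm_nonneg _) ht 2) (by positivity) hC0
  · intro t ht
    refine (hP t ht).congr fun N => ?_
    push_cast
    rfl

theorem complex_final {β a : ℕ → ℝ} {A B : ℝ} (hJ : JB β a A B) (v : ℕ → ℝ)
    (hv : Jop β a (fun j => (((-1) ^ j * v j : ℝ) : ℂ)) = 0)
    (hv1 : Tendsto (fun N : ℕ => ∑ j ∈ Finset.range N, (-1 : ℝ) ^ j * v j ^ 2) atTop (𝓝 1))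
    (g : ℕ → ℝ) (C : ℝ) (hg : ∀ N, |g N| ≤ C)
    (hP : ∀ t : ℝ, |t| ≤ 1 → Tendsto (fun N : ℕ => (Em β a (t : ℂ) N).det *
      (Em β a (-(t : ℂ)) N).det - (Real.exp (-(g N * t ^ 2)) : ℂ)) atTop (𝓝 0)) (t : ℂ) :
    (∀ᶠ N : ℕ in atTop, (Em β a t N).det ≠ 0) ∧
    Tendsto (fun N : ℕ => (∑ j : Fin N, ∑ k : Fin N,
          (v j : ℂ) * (Em β a t N).adjugate j k * (((-1) ^ (k : ℕ) * v k : ℝ) : ℂ)) /
        (Em β a t N).det) atTop (𝓝 1) := by
  obtain ⟨c, hc0, hc⟩ := P_lower hJ g C hg hP t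
  set w : ℕ → ℂ := fun j => (((-1) ^ j * v j : ℝ) : ℂ) with hw
  -- `v` is bounded
  have hwn : ∀ j, ‖w j‖ = |v j| := by
    intro j
    rw [hw]
    simp only [Complex.norm_real, Real.norm_eq_abs, abs_mul, abs_pow, abs_neg, abs_one, one_pow,
      one_mul]
  obtain ⟨V, hV0, hV⟩ : ∃ V : ℝ, 0 ≤ V ∧ ∀ j, |v j| ≤ V := by
    have h1 : Tendsto (fun N : ℕ => (∑ j ∈ Finset.range (N + 1), (-1 : ℝ) ^ j * v j ^ 2) -
        ∑ j ∈ Finset.range N, (-1 : ℝ) ^ j * v j ^ 2) atTop (𝓝 (1 - 1)) :=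
      (hv1.comp (tendsto_add_atTop_nat 1)).sub hv1
    have h2 := h1.abs.isBoundedUnder_le.bddAbove_range
    obtain ⟨V, hV⟩ := h2
    refine ⟨max V 0 + 1, by positivity, fun j => ?_⟩
    have h3 : |(∑ j ∈ Finset.range (j + 1), (-1 : ℝ) ^ j * v j ^ 2) -
        ∑ j ∈ Finset.range j, (-1 : ℝ) ^ j * v j ^ 2| ≤ V := hV ⟨j, rfl⟩
    rw [Finset.sum_range_succ, add_sub_cancel_left, abs_mul, abs_pow, abs_neg, abs_one, one_pow,
      one_mul, abs_pow] at h3
    have h4 := le_max_left V 0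
    have h5 := le_max_right V 0
    nlinarith [abs_nonneg (v j)]
  set R := ‖t‖ with hR
  set n := ⌈R⌉₊ with hn
  have hre : |t.re| ≤ (n : ℝ) := (Complex.abs_re_le_norm t).trans (Nat.le_ceil R)
  obtain ⟨K, hK1, hK⟩ := col_bound hJ R
  obtain ⟨K', hK'0, hK'⟩ := EE_bound hJ R (1 / 2) (by norm_num) (by norm_num)
  obtain ⟨K2, hK20, hK2⟩ := poly_geom n
  have hK0 : 0 < K := by linarith
  set q : ℝ := 1 / (2 * K ^ 2) with hq
  have hq0 : 0 < q := by positivity
  have hq1 : q ≤ 1 := by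
    rw [hq, div_le_one (by positivity)]
    nlinarith
  obtain ⟨Kw, hKw0, hKw⟩ := superexp hJ w hv V (fun j => by rw [hwn]; exact hV j) (q / 4)
    (by positivity) (by linarith)
  -- the remainder
  have hwd : ∀ q' : ℝ, 0 < q' → ∃ C : ℝ, ∀ k, ‖w k‖ ≤ C * q' ^ k := by
    intro q' hq'
    obtain ⟨C', _, hC'⟩ := superexp hJ w hv V (fun j => by rw [hwn]; exact hV j) (min q' 1)
      (by positivity) (min_le_right _ _)
    refine ⟨C', fun k => (hC' k).trans ?_⟩
    exact mul_le_mul_of_nonneg_left (pow_le_pow_left₀ (by positivity) (min_le_left _ _) k) (by assumption)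
  have hE := EE_eigen hJ w hv hwd t
  set ρ : ∀ N : ℕ, Fin N → ℂ := fun N j => ∑' m : ℕ, EE β a t j (m + N) * w (m + N) with hρ
  have hρ1 : ∀ N (j : Fin N), ‖ρ N j‖ ≤ 2 * (K' * Kw * K2) * q ^ N := by
    intro N j
    have hg2 := (hasSum_geometric_two).mul_left ((K' * Kw * K2) * q ^ N)
    have hb : ∀ m : ℕ, ‖EE β a t j (m + N) * w (m + N)‖ ≤ ((K' * Kw * K2) * q ^ N) * (1 / 2) ^ m := by
      intro m
      rw [norm_mul]
      have h1 := hK' t le_rfl j (m + N)
      have h2 := hKw (m + N)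
      have h3 := hK2 (m + N)
      have h4 : (((m + N : ℕ) : ℝ) + 1) ^ (-t.re) ≤ (((m + N : ℕ) : ℝ) + 1) ^ n := by
        rw [← Real.rpow_natCast]
        exact Real.rpow_le_rpow_of_exponent_le (by linarith [(Nat.cast_nonneg (m + N) : (0 : ℝ) ≤ _)])
          (by linarith [(abs_le.1 hre).1])
      calc ‖EE β a t j (m + N)‖ * ‖w (m + N)‖
          ≤ (K' * (((m + N : ℕ) : ℝ) + 1) ^ n * 1) * (Kw * (q / 4) ^ (m + N)) := by
            refine mul_le_mul (h1.trans ?_) h2 (norm_nonneg _) (by positivity)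
            refine mul_le_mul (mul_le_mul_of_nonneg_left h4 hK'0) ?_ (by positivity) (by positivity)
            exact pow_le_one₀ (by norm_num) (by norm_num)
        _ = (K' * Kw * q ^ (m + N)) * ((((m + N : ℕ) : ℝ) + 1) ^ n * (1 / 4) ^ (m + N)) := by
            rw [div_eq_mul_one_div q 4, mul_pow]; ring
        _ ≤ (K' * Kw * q ^ N) * (K2 * (1 / 2) ^ m) := by
            refine mul_le_mul ?_ (h3.trans ?_) (by positivity) (by positivity)
            · refine mul_le_mul_of_nonneg_left ?_ (by positivity)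
              exact pow_le_pow_of_le_one hq0.le hq1 (by omega)
            · refine mul_le_mul_of_nonneg_left ?_ hK20
              exact pow_le_pow_of_le_one (by norm_num) (by norm_num) (by omega)
        _ = _ := by ring
    have := tsum_of_norm_bounded hg2 hb
    refine this.trans (le_of_eq ?_)
    ring
  have hEw : ∀ N, Matrix.mulVec (Em β a t N) (fun k : Fin N => w k) + ρ N = fun j : Fin N => w j := by
    intro N
    funext j
    have h2 := (hE j).summable.sum_add_tsum_nat_add N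
    rw [(hE j).tsum_eq] at h2
    rw [Pi.add_apply, ← h2]
    congr 1
    simp only [Matrix.mulVec, dotProduct]
    rw [← Fin.sum_univ_eq_sum_range (fun k => EE β a t j k * w k)]
    rfl
  have hadj : ∀ N, Matrix.mulVec (Em β a t N).adjugate (fun k : Fin N => w k) =
      (Em β a t N).det • (fun k : Fin N => w k) + Matrix.mulVec (Em β a t N).adjugate (ρ N) := by
    intro N
    conv_lhs => rw [← hEw N]
    rw [Matrix.mulVec_add, Matrix.mulVec_mulVec, Matrix.adjugate_mul, Matrix.smul_mulVec,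
      Matrix.one_mulVec]
  -- bounds on the adjugate
  have hquot : ∀ᶠ N : ℕ in atTop, (Em β a t N).det ≠ 0 ∧ ∀ j k : Fin N,
      ‖(Em β a t N).adjugate j k‖ / ‖(Em β a t N).det‖ ≤ (K ^ 2) ^ N * (1 + (N : ℝ) ^ n) / c := by
    filter_upwards [hc] with N hN
    have hd0 : 0 < ‖(Em β a t N).det‖ := by
      rw [norm_mul] at hN
      rcases (norm_nonneg (Em β a t N).det).lt_or_eq with h | h
      · exact h
      · rw [← h, zero_mul] at hN; linarith
    refine ⟨norm_pos_iff.1 hd0, fun j k => ?_⟩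
    have h1 := adj_bound hK1 hre (hK N t le_rfl) j k
    have h2 := det_bound (hK N (-t) (by rw [norm_neg]))
    rw [div_le_div_iff₀ hd0 hc0]
    set W := ∏ k : Fin N, ((k : ℕ) + 1 : ℝ) ^ (-t.re) with hW
    set W' := ∏ k : Fin N, ((k : ℕ) + 1 : ℝ) ^ (-(-t).re) with hW'
    have hWW : W * W' = 1 := by
      rw [hW, hW', ← Finset.prod_mul_distrib]
      refine Finset.prod_eq_one fun k _ => ?_
      rw [← Real.rpow_add (by positivity)]
      simp
    have hW0 : 0 ≤ W := Finset.prod_nonneg fun k _ => by positivity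
    have h3 : c ≤ ‖(Em β a t N).det‖ * (K ^ N * W') := by
      rw [norm_mul] at hN
      exact hN.trans (mul_le_mul_of_nonneg_left h2 (norm_nonneg _))
    calc ‖(Em β a t N).adjugate j k‖ * c
        ≤ (K ^ N * W * (1 + (N : ℝ) ^ n)) * (‖(Em β a t N).det‖ * (K ^ N * W')) :=
          mul_le_mul h1 h3 hc0.le (by positivity)
      _ = (K ^ N * K ^ N) * (W * W') * (1 + (N : ℝ) ^ n) * ‖(Em β a t N).det‖ := by ring
      _ = _ := by rw [hWW, mul_one, ← pow_add, ← two_mul, pow_mul]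
  refine ⟨hquot.mono fun N h => h.1, ?_⟩
  have hmain : ∀ᶠ N : ℕ in atTop, ‖(∑ j : Fin N, ∑ k : Fin N,
          (v j : ℂ) * (Em β a t N).adjugate j k * w k) / (Em β a t N).det -
        ((∑ j ∈ Finset.range N, (-1 : ℝ) ^ j * v j ^ 2 : ℝ) : ℂ)‖ ≤
      (V * (2 * (K' * Kw * K2)) / c) * ((N : ℝ) ^ 2 * (1 + (N : ℝ) ^ n) * (1 / 2) ^ N) := by
    filter_upwards [hquot] with N hN
    obtain ⟨hd, hq'⟩ := hN
    have e1 : (∑ j : Fin N, ∑ k : Fin N, (v j : ℂ) * (Em β a t N).adjugate j k * w k) =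
        (Em β a t N).det * ((∑ j ∈ Finset.range N, (-1 : ℝ) ^ j * v j ^ 2 : ℝ) : ℂ) +
        ∑ j : Fin N, ∑ k : Fin N, (v j : ℂ) * (Em β a t N).adjugate j k * ρ N k := by
      have h1 : ∀ j : Fin N, ∑ k : Fin N, (v j : ℂ) * (Em β a t N).adjugate j k * w k =
          (v j : ℂ) * ((Em β a t N).det * w j) +
          ∑ k : Fin N, (v j : ℂ) * (Em β a t N).adjugate j k * ρ N k := by
        intro j
        have h2 := congrFun (hadj N) j
        simp only [Matrix.mulVec, dotProduct, Pi.add_apply, Pi.smul_apply, smul_eq_mul] at h2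
        have h3 : ∑ k : Fin N, (v j : ℂ) * (Em β a t N).adjugate j k * w k =
            (v j : ℂ) * ∑ k : Fin N, (Em β a t N).adjugate j k * w k := by
          rw [Finset.mul_sum]
          exact Finset.sum_congr rfl fun k _ => by ring
        rw [h3, h2, mul_add, Finset.mul_sum]
        congr 1
        exact Finset.sum_congr rfl fun k _ => by ring
      rw [Finset.sum_congr rfl fun j _ => h1 j, Finset.sum_add_distrib]
      congr 1
      rw [← Fin.sum_univ_eq_sum_range (fun j => (-1 : ℝ) ^ j * v j ^ 2), Complex.ofReal_sum,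
        Finset.mul_sum]
      refine Finset.sum_congr rfl fun j _ => ?_
      rw [hw]
      push_cast
      ring
    rw [e1, add_div, mul_div_cancel_left₀ _ hd, add_sub_cancel_left, norm_div]
    have h4 : ‖∑ j : Fin N, ∑ k : Fin N, (v j : ℂ) * (Em β a t N).adjugate j k * ρ N k‖ ≤
        ∑ j : Fin N, ∑ k : Fin N, (V * (2 * (K' * Kw * K2) * q ^ N)) * ‖(Em β a t N).adjugate j k‖ := by
      refine (norm_sum_le _ _).trans (Finset.sum_le_sum fun j _ => ?_)
      refine (norm_sum_le _ _).trans (Finset.sum_le_sum fun k _ => ?_)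
      rw [norm_mul, norm_mul, Complex.norm_real, Real.norm_eq_abs]
      calc |v j| * ‖(Em β a t N).adjugate j k‖ * ‖ρ N k‖
          ≤ V * ‖(Em β a t N).adjugate j k‖ * (2 * (K' * Kw * K2) * q ^ N) :=
            mul_le_mul (mul_le_mul_of_nonneg_right (hV j) (norm_nonneg _)) (hρ1 N k)
              (norm_nonneg _) (by positivity)
        _ = _ := by ring
    have hd0 : 0 < ‖(Em β a t N).det‖ := norm_pos_iff.2 hd
    calc ‖∑ j : Fin N, ∑ k : Fin N, (v j : ℂ) * (Em β a t N).adjugate j k * ρ N k‖ /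
          ‖(Em β a t N).det‖
        ≤ (∑ j : Fin N, ∑ k : Fin N, (V * (2 * (K' * Kw * K2) * q ^ N)) *
            ‖(Em β a t N).adjugate j k‖) / ‖(Em β a t N).det‖ :=
          div_le_div_of_nonneg_right h4 hd0.le
      _ = ∑ j : Fin N, ∑ k : Fin N, (V * (2 * (K' * Kw * K2) * q ^ N)) *
            (‖(Em β a t N).adjugate j k‖ / ‖(Em β a t N).det‖) := by
          rw [Finset.sum_div]
          refine Finset.sum_congr rfl fun j _ => ?_
          rw [Finset.sum_div]
          exact Finset.sum_congr rfl fun k _ => by ring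
      _ ≤ ∑ j : Fin N, ∑ k : Fin N, (V * (2 * (K' * Kw * K2) * q ^ N)) *
            ((K ^ 2) ^ N * (1 + (N : ℝ) ^ n) / c) := by
          refine Finset.sum_le_sum fun j _ => Finset.sum_le_sum fun k _ => ?_
          exact mul_le_mul_of_nonneg_left (hq' j k) (by positivity)
      _ = _ := by
          simp only [Finset.sum_const, Finset.card_univ, Fintype.card_fin, nsmul_eq_mul]
          have hqK : q ^ N * (K ^ 2) ^ N = (1 / 2) ^ N := by
            rw [← mul_pow]
            congr 1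
            rw [hq]; field_simp
          calc (N : ℝ) * ((N : ℝ) * (V * (2 * (K' * Kw * K2) * q ^ N) *
                ((K ^ 2) ^ N * (1 + (N : ℝ) ^ n) / c)))
              = (V * (2 * (K' * Kw * K2)) / c) * ((N : ℝ) ^ 2 * (1 + (N : ℝ) ^ n) *
                  (q ^ N * (K ^ 2) ^ N)) := by ring
            _ = _ := by rw [hqK]
  have hzero : Tendsto (fun N : ℕ => (V * (2 * (K' * Kw * K2)) / c) *
      ((N : ℝ) ^ 2 * (1 + (N : ℝ) ^ n) * (1 / 2) ^ N)) atTop (𝓝 0) := by
    have h1 := tendsto_pow_const_mul_const_pow_of_abs_lt_one 2 (r := (1 / 2 : ℝ))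
      (by rw [abs_of_pos] <;> norm_num)
    have h2 := tendsto_pow_const_mul_const_pow_of_abs_lt_one (2 + n) (r := (1 / 2 : ℝ))
      (by rw [abs_of_pos] <;> norm_num)
    have h3 := (h1.add h2).const_mul (V * (2 * (K' * Kw * K2)) / c)
    rw [add_zero, mul_zero] at h3
    refine h3.congr fun N => ?_
    rw [pow_add (N : ℝ) 2 n]
    ring
  have hdiff := squeeze_zero_norm' hmain hzero
  have hv1' : Tendsto (fun N : ℕ => ((∑ j ∈ Finset.range N, (-1 : ℝ) ^ j * v j ^ 2 : ℝ) : ℂ)) atTop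
      (𝓝 1) := by
    have := (Complex.continuous_ofReal.tendsto 1).comp hv1
    rw [Complex.ofReal_one] at this
    exact this
  have := hdiff.add hv1'
  simp only [sub_add_cancel, zero_add] at this
  exact this

end Pool.Agent.Helper55.BD
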