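import Mathlib

/-! Auxiliary linear algebra for Module I. -/

open Set Filter Topology

namespace Pool.Agent.Helper55.BD

/-- the distance of two natural numbers -/
def nd (j k : ℕ) : ℕ := ((j : ℤ) - k).natAbs

theorem nd_comm (j k : ℕ) : nd j k = nd k j := by unfold nd; omega

theorem nd_self (j : ℕ) : nd j j = 0 := by unfold nd; omega

theorem norm_det_le_prod_col {n : ℕ} (M : Matrix (Fin n) (Fin n) ℂ) :
    ‖M.det‖ ≤ ∏ k, ∑ i, ‖M i k‖ := by
  classical
  rw [Matrix.det_apply]
  calc ‖∑ σ : Equiv.Perm (Fin n), Equiv.Perm.sign σ • ∏ i, M (σ i) i‖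
      ≤ ∑ σ : Equiv.Perm (Fin n), ‖Equiv.Perm.sign σ • ∏ i, M (σ i) i‖ := norm_sum_le _ _
    _ = ∑ σ : Equiv.Perm (Fin n), ∏ i, ‖M (σ i) i‖ := by
        refine Finset.sum_congr rfl fun σ _ => ?_
        rw [← norm_prod]
        rcases Int.units_eq_one_or (Equiv.Perm.sign σ) with h | h <;> simp [h]
    _ ≤ ∑ p : Fin n → Fin n, ∏ i, ‖M (p i) i‖ := by
        have hinj : Function.Injective (fun σ : Equiv.Perm (Fin n) => (σ : Fin n → Fin n)) :=
          fun a b h => Equiv.ext fun x => congrFun h x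
        rw [← Finset.sum_image (f := fun p : Fin n → Fin n => ∏ i, ‖M (p i) i‖)
          (s := Finset.univ) (g := fun σ : Equiv.Perm (Fin n) => (σ : Fin n → Fin n))
          (fun a _ b _ h => hinj h)]
        refine Finset.sum_le_sum_of_subset_of_nonneg (Finset.subset_univ _) ?_
        intro p _ _
        exact Finset.prod_nonneg fun i _ => norm_nonneg _
    _ = ∏ k, ∑ i, ‖M i k‖ := by
        rw [Finset.prod_univ_sum]
        simp [Fintype.piFinset_univ]

theorem sum_pow_nd {r : ℝ} (h0 : 0 ≤ r) (h1 : r < 1) (j N : ℕ) :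
    ∑ k ∈ Finset.range N, r ^ nd j k ≤ 2 / (1 - r) := by
  have hg : ∀ m : ℕ, ∑ i ∈ Finset.range m, r ^ i ≤ 1 / (1 - r) := by
    intro m
    rw [one_div]
    have := Summable.sum_le_tsum (Finset.range m) (fun i _ => pow_nonneg h0 i)
      (summable_geometric_of_lt_one h0 h1)
    rwa [tsum_geometric_of_lt_one h0 h1] at this
  have h2 : ∀ k ∈ Finset.range N, r ^ nd j k ≤
      (if k ≤ j then r ^ (j - k) else 0) + (if j ≤ k then r ^ (k - j) else 0) := by
    intro k _
    rcases le_total k j with h | h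
    · have : nd j k = j - k := by unfold nd; omega
      rw [this, if_pos h]
      split_ifs
      · exact le_add_of_nonneg_right (pow_nonneg h0 _)
      · simp
    · have : nd j k = k - j := by unfold nd; omega
      rw [this, if_pos h]
      split_ifs
      · exact le_add_of_nonneg_left (pow_nonneg h0 _)
      · simp
  refine (Finset.sum_le_sum h2).trans ?_
  rw [Finset.sum_add_distrib]
  have h3 : ∑ k ∈ Finset.range N, (if k ≤ j then r ^ (j - k) else 0) ≤ 1 / (1 - r) := by
    calc ∑ k ∈ Finset.range N, (if k ≤ j then r ^ (j - k) else 0)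
        ≤ ∑ k ∈ Finset.range (j + 1), r ^ (j - k) := by
          rw [← Finset.sum_filter]
          refine Finset.sum_le_sum_of_subset_of_nonneg ?_ (fun i _ _ => pow_nonneg h0 _)
          intro k hk
          simp only [Finset.mem_filter, Finset.mem_range] at hk ⊢
          omega
      _ = ∑ i ∈ Finset.range (j + 1), r ^ i := by
          rw [← Finset.sum_range_reflect]
          refine Finset.sum_congr rfl fun i hi => ?_
          congr 1
          simp only [Finset.mem_range] at hi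
          omega
      _ ≤ 1 / (1 - r) := hg _
  have h4 : ∑ k ∈ Finset.range N, (if j ≤ k then r ^ (k - j) else 0) ≤ 1 / (1 - r) := by
    calc ∑ k ∈ Finset.range N, (if j ≤ k then r ^ (k - j) else 0)
        = ∑ k ∈ Finset.Ico j N, r ^ (k - j) := by
          rw [← Finset.sum_filter]
          refine Finset.sum_congr ?_ fun _ _ => rfl
          ext k
          simp only [Finset.mem_filter, Finset.mem_range, Finset.mem_Ico]
          omega
      _ = ∑ i ∈ Finset.range (N - j), r ^ i := by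
          rw [Finset.sum_Ico_eq_sum_range]
          refine Finset.sum_congr rfl fun i _ => ?_
          congr 1
          omega
      _ ≤ 1 / (1 - r) := hg _
  calc _ ≤ 1 / (1 - r) + 1 / (1 - r) := add_le_add h3 h4
    _ = 2 / (1 - r) := by ring

/-- weighted version: `θ = r^2`, weight `r^k`. -/
theorem sum_pow_nd_weight {r : ℝ} (h0 : 0 < r) (h1 : r < 1) (j N : ℕ) :
    ∑ k ∈ Finset.range N, (r ^ 2) ^ nd j k * r ^ k ≤ r ^ j * (2 / (1 - r)) := by
  refine le_trans (Finset.sum_le_sum (g := fun k => r ^ j * r ^ nd j k) ?_) ?_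
  · intro k _
    rw [← pow_mul, ← pow_add, ← pow_add]
    refine pow_le_pow_of_le_one h0.le h1.le ?_
    unfold nd; omega
  · rw [← Finset.mul_sum]
    exact mul_le_mul_of_nonneg_left (sum_pow_nd h0.le h1 j N) (pow_nonneg h0.le _)

theorem det_succ_of_solution {n : ℕ} (M : Matrix (Fin (n + 1)) (Fin (n + 1)) ℂ) (x : Fin n → ℂ)
    (hx : ∀ i : Fin n, ∑ j, M i.castSucc j.castSucc * x j = M i.castSucc (Fin.last n)) :
    M.det = (M.submatrix Fin.castSucc Fin.castSucc).det *
      (M (Fin.last n) (Fin.last n) - ∑ j, M (Fin.last n) (Fin.castSucc j) * x j) := by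
  classical
  -- subtract the combination of the first columns from the last one
  set M' : Matrix (Fin (n + 1)) (Fin (n + 1)) ℂ := M.updateCol (Fin.last n)
    (fun i => M i (Fin.last n) - ∑ j, M i (Fin.castSucc j) * x j) with hM'
  have hdet : M'.det = M.det := by
    let y : Fin (n + 1) → ℂ := Fin.snoc (fun j => -x j) 1
    have h := Matrix.det_updateCol_sum M (Fin.last n) y
    have hy : y (Fin.last n) = 1 := by simp [y]
    rw [hy, one_smul] at h
    rw [← h, hM']
    congr 2
    ext i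
    rw [Fin.sum_univ_castSucc]
    simp only [y, Fin.snoc_castSucc, Fin.snoc_last]
    simp only [Matrix.transpose_apply, smul_eq_mul, one_mul, neg_mul]
    rw [Finset.sum_neg_distrib]
    simp only [mul_comm (x _)]
    ring
  rw [← hdet, Matrix.det_succ_column M' (Fin.last n), Fin.sum_univ_castSucc]
  have hzero : ∀ i : Fin n, M' i.castSucc (Fin.last n) = 0 := by
    intro i
    rw [hM', Matrix.updateCol_self]
    rw [hx i, sub_self]
  simp only [hzero, mul_zero, zero_mul, Finset.sum_const_zero, zero_add]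
  have h1 : M' (Fin.last n) (Fin.last n) =
      M (Fin.last n) (Fin.last n) - ∑ j, M (Fin.last n) (Fin.castSucc j) * x j := by
    rw [hM', Matrix.updateCol_self]
  have h2 : M'.submatrix (Fin.last n).succAbove (Fin.last n).succAbove =
      M.submatrix Fin.castSucc Fin.castSucc := by
    ext i j
    simp only [Matrix.submatrix_apply, Fin.succAbove_last, hM']
    rw [Matrix.updateCol_ne (Fin.castSucc_lt_last j).ne]
  rw [h1, h2]
  have h3 : (-1 : ℂ) ^ (((Fin.last n : Fin (n + 1)) : ℕ) + ((Fin.last n : Fin (n + 1)) : ℕ)) = 1 := by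
    rw [← two_mul, pow_mul]; simp
  rw [h3]
  ring

theorem one_add_mul_pow_le {q : ℝ} (h0 : 0 ≤ q) (h1 : q < 1) (d : ℕ) :
    (1 + (d : ℝ)) * q ^ d ≤ 1 / (1 - q) := by
  have h2 : (1 + (d : ℝ)) * q ^ d ≤ ∑ i ∈ Finset.range (d + 1), q ^ i := by
    have h3 : ∑ i ∈ Finset.range (d + 1), q ^ d ≤ ∑ i ∈ Finset.range (d + 1), q ^ i :=
      Finset.sum_le_sum fun i hi => pow_le_pow_of_le_one h0 h1.le
        (by simp only [Finset.mem_range] at hi; omega)
    simpa [add_comm] using h3
  refine h2.trans ?_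
  rw [one_div]
  have := Summable.sum_le_tsum (Finset.range (d + 1)) (fun i _ => pow_nonneg h0 i)
    (summable_geometric_of_lt_one h0 h1)
  rwa [tsum_geometric_of_lt_one h0 h1] at this

theorem two_sided (E : ℕ → ℕ → ℂ) (C θ : ℝ) (hC : 0 ≤ C) (hθ : 0 < θ) (hθ1 : θ < 1)
    (hE : ∀ j k : ℕ, ‖E j k‖ ≤ C / ((k : ℝ) + 1) * θ ^ nd j k) :
    ∃ D r : ℝ, 0 ≤ D ∧ 0 < r ∧ r < 1 ∧
      (∀ j k : ℕ, ‖E j k‖ ≤ D / ((k : ℝ) + 1) * (r ^ 2) ^ nd j k) ∧
      (∀ j k : ℕ, ‖E j k‖ ≤ D / ((j : ℝ) + 1) * (r ^ 2) ^ nd j k) := by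
  set q := Real.sqrt θ with hq
  have hq0 : 0 < q := Real.sqrt_pos.2 hθ
  have hq2 : q ^ 2 = θ := Real.sq_sqrt hθ.le
  have hq1 : q < 1 := by
    by_contra h
    push Not at h
    have : 1 ≤ q ^ 2 := one_le_pow₀ h
    linarith
  set r := Real.sqrt q with hr
  have hr0 : 0 < r := Real.sqrt_pos.2 hq0
  have hr2 : r ^ 2 = q := Real.sq_sqrt hq0.le
  have hr1 : r < 1 := by
    by_contra h
    push Not at h
    have : 1 ≤ r ^ 2 := one_le_pow₀ h
    linarith
  have h1q : 0 < 1 - q := by linarith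
  have hD1 : C ≤ C * (1 / (1 - q)) := by
    have : 1 ≤ 1 / (1 - q) := by rw [le_div_iff₀ h1q]; linarith
    nlinarith
  refine ⟨C * (1 / (1 - q)), r, by positivity, hr0, hr1, ?_, ?_⟩
  · intro j k
    refine (hE j k).trans ?_
    rw [hr2]
    have h1 : θ ^ nd j k ≤ q ^ nd j k := pow_le_pow_left₀ hθ.le (by nlinarith) _
    gcongr
  · intro j k
    refine (hE j k).trans ?_
    rw [hr2, ← hq2, ← pow_mul, two_mul, pow_add]
    have h2 : 1 / ((k : ℝ) + 1) ≤ (1 + (nd j k : ℝ)) / ((j : ℝ) + 1) := by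
      rw [div_le_div_iff₀ (by positivity) (by positivity)]
      have : (j : ℝ) ≤ k + nd j k := by
        have : j ≤ k + nd j k := by unfold nd; omega
        exact_mod_cast this
      have h3 : (0 : ℝ) ≤ nd j k := Nat.cast_nonneg _
      have h4 : (0 : ℝ) ≤ k := Nat.cast_nonneg _
      nlinarith
    have h3 := one_add_mul_pow_le hq0.le hq1 (nd j k)
    calc C / ((k : ℝ) + 1) * (q ^ nd j k * q ^ nd j k)
        = C * (1 / ((k : ℝ) + 1)) * (q ^ nd j k * q ^ nd j k) := by ring
      _ ≤ C * ((1 + (nd j k : ℝ)) / ((j : ℝ) + 1)) * (q ^ nd j k * q ^ nd j k) := by gcongr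
      _ = C / ((j : ℝ) + 1) * ((1 + (nd j k : ℝ)) * q ^ nd j k) * q ^ nd j k := by ring
      _ ≤ C / ((j : ℝ) + 1) * (1 / (1 - q)) * q ^ nd j k := by gcongr
      _ = C * (1 / (1 - q)) / ((j : ℝ) + 1) * q ^ nd j k := by ring

theorem prod_one_add_le (P N : ℕ) :
    ∏ j : Fin N, (1 + (P : ℝ) / (((j : ℕ) : ℝ) + 1)) ≤ ((N : ℝ) + 1) ^ P := by
  rw [Fin.prod_univ_eq_prod_range (fun j : ℕ => 1 + (P : ℝ) / ((j : ℝ) + 1)) N]
  induction N with
  | zero => simp
  | succ N ih =>
    rw [Finset.prod_range_succ]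
    have h1 : 1 + (P : ℝ) / ((N : ℝ) + 1) ≤ (1 + 1 / ((N : ℝ) + 1)) ^ P := by
      have := one_add_mul_le_pow (a := 1 / ((N : ℝ) + 1)) (by
        have : 0 ≤ 1 / ((N : ℝ) + 1) := by positivity
        linarith) P
      refine le_trans (le_of_eq ?_) this
      ring
    calc _ ≤ ((N : ℝ) + 1) ^ P * (1 + 1 / ((N : ℝ) + 1)) ^ P := by
          refine mul_le_mul ih h1 (by positivity) (by positivity)
      _ = (((N + 1 : ℕ) : ℝ) + 1) ^ P := by
          rw [← mul_pow]; congr 1; push_cast; field_simp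

end Pool.Agent.Helper55.BD
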