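import Pool.Agent.Helper55.BD.TriExp
import Pool.Agent.Helper55.BD.RatioAux

/-! Auxiliary results for module L (blueprint L). -/

open Set Filter Topology MeasureTheory

namespace Pool.Agent.Helper55.BD

/-- A locally bounded sequence of entire functions tending to zero on `[-1,1]` tends to zero
everywhere. -/
theorem vitali_zero (F : ℕ → ℂ → ℂ) (hd : ∀ N, Differentiable ℂ (F N))
    (hb : ∀ R : ℝ, 0 < R → ∃ M : ℝ, 0 ≤ M ∧ ∀ N t, ‖t‖ ≤ R → ‖F N t‖ ≤ M)
    (h0 : ∀ t : ℝ, |t| ≤ 1 → Tendsto (fun N => F N (t : ℂ)) atTop (𝓝 0)) (t : ℂ) :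
    Tendsto (fun N => F N t) atTop (𝓝 0) := by
  set d : ℕ → ℕ → ℂ := fun N k => (k.factorial : ℂ)⁻¹ * iteratedDeriv k (F N) 0 with hdd
  have hs : ∀ N z, HasSum (fun k => d N k * z ^ k) (F N z) := by
    intro N z
    have h := Complex.hasSum_taylorSeries_of_entire (hd N) 0 z
    refine h.congr_fun ?_ |> fun h => h
    intro k
    simp only [hdd, smul_eq_mul, sub_zero]
    ring
  have hdb : ∀ R : ℝ, 0 < R → ∃ M : ℝ, 0 ≤ M ∧ ∀ N k, ‖d N k‖ ≤ M / R ^ k := by
    intro R hR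
    obtain ⟨M, hM0, hM⟩ := hb R hR
    refine ⟨M, hM0, fun N k => ?_⟩
    have h := Complex.norm_iteratedDeriv_le_of_forall_mem_sphere_norm_le (c := 0) (f := F N)
      (C := M) k hR (hd N).diffContOnCl (fun z hz => hM N z (by
        rw [mem_sphere_zero_iff_norm] at hz; exact hz.le))
    have hk : (0 : ℝ) < k.factorial := by exact_mod_cast k.factorial_pos
    rw [hdd]
    simp only [norm_mul, norm_inv, Complex.norm_natCast]
    rw [inv_mul_le_iff₀ hk]
    calc _ ≤ _ := h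
      _ = _ := by ring
  have hd0 : ∀ k, Tendsto (fun N => d N k) atTop (𝓝 0) := by
    intro k
    induction k using Nat.strong_induction_on with
    | _ k ih =>
      obtain ⟨M, hM0, hM⟩ := hdb 2 (by norm_num)
      rw [Metric.tendsto_atTop]
      intro ε hε
      set τ : ℝ := min 1 (ε / (2 * (M + 1))) with hτ
      have hτ0 : 0 < τ := lt_min one_pos (by positivity)
      have hτ1 : τ ≤ 1 := min_le_left _ _
      have hτ2 : (M + 1) * τ < ε := by
        calc (M + 1) * τ ≤ (M + 1) * (ε / (2 * (M + 1))) :=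
              mul_le_mul_of_nonneg_left (min_le_right _ _) (by positivity)
          _ = ε / 2 := by field_simp
          _ < ε := by linarith
      have hlim : Tendsto (fun N => F N (τ : ℂ) - ∑ m ∈ Finset.range k, d N m * (τ : ℂ) ^ m)
          atTop (𝓝 0) := by
        have h1 := h0 τ (by rw [abs_of_pos hτ0]; exact hτ1)
        have h2 : Tendsto (fun N => ∑ m ∈ Finset.range k, d N m * (τ : ℂ) ^ m) atTop
            (𝓝 (∑ m ∈ Finset.range k, 0 * (τ : ℂ) ^ m)) :=
          tendsto_finsetSum _ fun m hm => (ih m (Finset.mem_range.1 hm)).mul_const _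
        simpa using h1.sub h2
      have hev := (Metric.tendsto_atTop.1 hlim) (τ ^ (k + 1)) (by positivity)
      obtain ⟨N0, hN0⟩ := hev
      refine ⟨N0, fun N hN => ?_⟩
      have h3 := hN0 N hN
      rw [dist_zero_right] at h3 ⊢
      have hsN := hs N (τ : ℂ)
      have hsum := hsN.summable
      have h4 := hsum.sum_add_tsum_nat_add (k + 1)
      rw [hsN.tsum_eq, Finset.sum_range_succ] at h4
      have h5 : ‖∑' m, d N (m + (k + 1)) * (τ : ℂ) ^ (m + (k + 1))‖ ≤ M * τ ^ (k + 1) := by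
        refine tsum_of_norm_bounded (hasSum_geometric_two' (M * τ ^ (k + 1))) fun m => ?_
        rw [norm_mul, norm_pow, Complex.norm_real, Real.norm_eq_abs, abs_of_pos hτ0]
        have e1 : τ ^ (m + (k + 1)) ≤ τ ^ (k + 1) := pow_le_pow_of_le_one hτ0.le hτ1 (by omega)
        have e2 : M / 2 ^ (m + (k + 1)) ≤ M / 2 ^ (m + 1) :=
          div_le_div_of_nonneg_left hM0 (by positivity)
            (pow_le_pow_right₀ (by norm_num) (by omega))
        calc ‖d N (m + (k + 1))‖ * τ ^ (m + (k + 1))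
            ≤ (M / 2 ^ (m + 1)) * τ ^ (k + 1) :=
              mul_le_mul ((hM N _).trans e2) e1 (by positivity) (by positivity)
          _ = _ := by rw [pow_succ 2 m]; field_simp
      have h6 : ‖d N k * (τ : ℂ) ^ k‖ ≤ τ ^ (k + 1) + M * τ ^ (k + 1) := by
        have e : d N k * (τ : ℂ) ^ k = (F N (τ : ℂ) - ∑ m ∈ Finset.range k, d N m * (τ : ℂ) ^ m)
            - ∑' m, d N (m + (k + 1)) * (τ : ℂ) ^ (m + (k + 1)) := by
          rw [← h4]; ring
        rw [e]
        exact (norm_sub_le _ _).trans (add_le_add h3.le h5)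
      rw [norm_mul, norm_pow, Complex.norm_real, Real.norm_eq_abs, abs_of_pos hτ0] at h6
      have hτk : 0 < τ ^ k := by positivity
      have h7 : ‖d N k‖ * τ ^ k ≤ ((M + 1) * τ) * τ ^ k := by
        refine h6.trans (le_of_eq ?_)
        ring
      exact (le_of_mul_le_mul_right h7 hτk).trans_lt hτ2
  obtain ⟨M, hM0, hM⟩ := hdb (2 * (‖t‖ + 1)) (by positivity)
  have hfin := tendsto_tsum_of_dominated_convergence (𝓕 := (atTop : Filter ℕ))
    (f := fun N k => d N k * t ^ k) (g := fun k => 0) (bound := fun k : ℕ => M * (1 / 2) ^ k)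
    (summable_geometric_two.mul_left M)
    (fun k => by simpa using (hd0 k).mul_const (t ^ k))
    (Eventually.of_forall fun N k => ?_)
  · rw [tsum_zero] at hfin
    exact hfin.congr fun N => (hs N t).tsum_eq
  · rw [norm_mul, norm_pow]
    have e1 : ‖t‖ ^ k ≤ (‖t‖ + 1) ^ k := pow_le_pow_left₀ (norm_nonneg _) (by linarith) k
    calc ‖d N k‖ * ‖t‖ ^ k ≤ (M / (2 * (‖t‖ + 1)) ^ k) * (‖t‖ + 1) ^ k :=
          mul_le_mul (hM N k) e1 (by positivity) (by positivity)
      _ = _ := by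
          rw [mul_pow, one_div, inv_pow]
          field_simp

/-- a bounded solution of `J w = 0` decays superexponentially -/
theorem superexp {β a : ℕ → ℝ} {A B : ℝ} (hJ : JB β a A B) (w : ℕ → ℂ) (hw : Jop β a w = 0)
    (V : ℝ) (hV : ∀ j, ‖w j‖ ≤ V) (q : ℝ) (hq : 0 < q) (hq1 : q ≤ 1) :
    ∃ K : ℝ, 0 ≤ K ∧ ∀ k, ‖w k‖ ≤ K * q ^ k := by
  have hV0 : 0 ≤ V := (norm_nonneg _).trans (hV 0)
  -- choose `J` with `2 A ≤ q |β_j|` for `j ≥ J`
  have hlog : Tendsto (fun j : ℕ => Real.log ((j : ℝ) + 1)) atTop atTop :=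
    Real.tendsto_log_atTop.comp
      (tendsto_atTop_add_const_right _ _ tendsto_natCast_atTop_atTop)
  obtain ⟨J, hJ1⟩ := (hlog.eventually_ge_atTop (B + 2 * A / q + 1)).exists_forall_of_atTop
  have hstep : ∀ j, J ≤ j → ∀ x : ℝ, (∀ i, j - 1 ≤ i → ‖w i‖ ≤ x) → ‖w j‖ ≤ q * x := by
    intro j hj x hx
    have hx0 : 0 ≤ x := (norm_nonneg _).trans (hx (j - 1) le_rfl)
    have hb : 2 * A / q + 1 ≤ β j := by
      have h1 := abs_le.1 (hJ.hb j)
      have h2 := hJ1 j hj
      linarith [h1.1]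
    have hb0 : 0 < β j := by
      have : 0 ≤ 2 * A / q := div_nonneg (by linarith [hJ.hA]) hq.le
      linarith
    have h1 := congrFun hw j
    simp only [Jop, Pi.zero_apply] at h1
    have h2 : (β j : ℂ) * w j = (a (j + 1) : ℂ) * w (j + 1) -
        (if j = 0 then 0 else (a j : ℂ) * w (j - 1)) := by
      linear_combination h1
    have h3 : β j * ‖w j‖ ≤ A * x + A * x := by
      calc β j * ‖w j‖ = ‖(β j : ℂ) * w j‖ := by
            rw [norm_mul, Complex.norm_real, Real.norm_eq_abs, abs_of_pos hb0]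
        _ = ‖(a (j + 1) : ℂ) * w (j + 1) - (if j = 0 then 0 else (a j : ℂ) * w (j - 1))‖ := by
            rw [h2]
        _ ≤ ‖(a (j + 1) : ℂ) * w (j + 1)‖ + ‖(if j = 0 then 0 else (a j : ℂ) * w (j - 1))‖ :=
            norm_sub_le _ _
        _ ≤ A * x + A * x := by
            refine add_le_add ?_ ?_
            · rw [norm_mul, Complex.norm_real, Real.norm_eq_abs]
              exact mul_le_mul (hJ.ha _) (hx _ (by omega)) (norm_nonneg _) hJ.hA
            · split_ifs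
              · rw [norm_zero]; exact mul_nonneg hJ.hA hx0
              · rw [norm_mul, Complex.norm_real, Real.norm_eq_abs]
                exact mul_le_mul (hJ.ha _) (hx _ (by omega)) (norm_nonneg _) hJ.hA
    have h4 : 2 * A ≤ q * β j := by
      have : 2 * A = q * (2 * A / q) := by field_simp
      rw [this]
      exact mul_le_mul_of_nonneg_left (by linarith) hq.le
    have h5 : β j * ‖w j‖ ≤ β j * (q * x) := by
      calc _ ≤ A * x + A * x := h3
        _ = (2 * A) * x := by ring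
        _ ≤ (q * β j) * x := mul_le_mul_of_nonneg_right h4 hx0
        _ = _ := by ring
    exact le_of_mul_le_mul_left h5 hb0
  have hind : ∀ n i, J + n ≤ i → ‖w i‖ ≤ V * q ^ n := by
    intro n
    induction n with
    | zero => intro i _; simpa using hV i
    | succ n ih =>
      intro i hi
      have := hstep i (by omega) (V * q ^ n) (fun i' hi' => ih i' (by omega))
      calc _ ≤ _ := this
        _ = _ := by ring
  refine ⟨V * (q⁻¹) ^ J, by positivity, fun k => ?_⟩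
  rcases le_total k J with h | h
  · refine (hV k).trans ?_
    rw [mul_assoc]
    refine le_mul_of_one_le_right hV0 ?_
    have e : (q⁻¹) ^ J * q ^ k = (q⁻¹) ^ (J - k) := by
      have : (q⁻¹) ^ J = (q⁻¹) ^ (J - k) * (q⁻¹) ^ k := by
        rw [← pow_add]; congr 1; omega
      rw [this, mul_assoc, ← mul_pow, inv_mul_cancel₀ hq.ne', one_pow, mul_one]
    rw [e]
    exact one_le_pow₀ ((one_le_inv₀ hq).2 hq1)
  · have h1 := hind (k - J) k (by omega)
    refine h1.trans (le_of_eq ?_)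
    have : q ^ k = q ^ J * q ^ (k - J) := by rw [← pow_add]; congr 1; omega
    rw [this]
    have : (q⁻¹) ^ J * q ^ J = 1 := by rw [← mul_pow, inv_mul_cancel₀ hq.ne', one_pow]
    calc V * q ^ (k - J) = V * ((q⁻¹) ^ J * q ^ J) * q ^ (k - J) := by rw [this, mul_one]
      _ = _ := by ring

theorem rpow_ratio_le {x : ℝ} {n j l : ℕ} (hx : |x| ≤ n) (hjl : j ≤ l) :
    ((l : ℝ) + 1) ^ (-x) * ((j : ℝ) + 1) ^ x ≤ ((l - j : ℕ) + 1 : ℝ) ^ n := by
  have hl : (0 : ℝ) < (l : ℝ) + 1 := by positivity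
  have hj : (0 : ℝ) < (j : ℝ) + 1 := by positivity
  have hjl' : (j : ℝ) ≤ l := by exact_mod_cast hjl
  have hd1 : (1 : ℝ) ≤ ((l - j : ℕ) + 1 : ℝ) := by
    have : (0 : ℝ) ≤ ((l - j : ℕ) : ℝ) := by positivity
    linarith
  rcases le_total 0 x with h | h
  · have h1 : ((j : ℝ) + 1) ^ x ≤ ((l : ℝ) + 1) ^ x :=
      Real.rpow_le_rpow hj.le (by linarith) h
    calc ((l : ℝ) + 1) ^ (-x) * ((j : ℝ) + 1) ^ x
        ≤ ((l : ℝ) + 1) ^ (-x) * ((l : ℝ) + 1) ^ x :=
          mul_le_mul_of_nonneg_left h1 (by positivity)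
      _ = 1 := by rw [← Real.rpow_add hl]; simp
      _ ≤ _ := one_le_pow₀ hd1
  · have h1 : ((j : ℝ) + 1) ^ x = (((j : ℝ) + 1) ^ (-x))⁻¹ := by
      rw [Real.rpow_neg hj.le, inv_inv]
    have h2 : ((l : ℝ) + 1) / ((j : ℝ) + 1) ≤ ((l - j : ℕ) + 1 : ℝ) := by
      rw [div_le_iff₀ hj, Nat.cast_sub hjl]
      have : 0 ≤ ((l : ℝ) - j) * j := mul_nonneg (by linarith) (by positivity)
      nlinarith
    calc ((l : ℝ) + 1) ^ (-x) * ((j : ℝ) + 1) ^ x
        = (((l : ℝ) + 1) / ((j : ℝ) + 1)) ^ (-x) := by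
          rw [h1, Real.div_rpow hl.le hj.le, div_eq_mul_inv]
      _ ≤ ((l - j : ℕ) + 1 : ℝ) ^ (-x) :=
          Real.rpow_le_rpow (by positivity) h2 (by linarith)
      _ ≤ ((l - j : ℕ) + 1 : ℝ) ^ (n : ℝ) :=
          Real.rpow_le_rpow_of_exponent_le hd1 (by linarith [(abs_le.1 hx).1])
      _ = _ := Real.rpow_natCast _ _

theorem poly_geom (n : ℕ) : ∃ K : ℝ, 0 ≤ K ∧ ∀ d : ℕ, ((d : ℝ) + 1) ^ n * (1 / 4 : ℝ) ^ d ≤
    K * (1 / 2 : ℝ) ^ d := by
  have h := tendsto_pow_const_mul_const_pow_of_abs_lt_one n (r := (1 / 2 : ℝ))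
    (by rw [abs_of_pos] <;> norm_num)
  have h' := h.comp (tendsto_add_atTop_nat 1)
  obtain ⟨K, hK⟩ := h'.isBoundedUnder_le.bddAbove_range
  refine ⟨max K 0 * 2, by positivity, fun d => ?_⟩
  have h1 : ((d + 1 : ℕ) : ℝ) ^ n * (1 / 2 : ℝ) ^ (d + 1) ≤ K := hK ⟨d, rfl⟩
  have h2 : ((d : ℝ) + 1) ^ n * (1 / 2 : ℝ) ^ d ≤ max K 0 * 2 := by
    push_cast at h1
    rw [pow_succ] at h1
    have := le_max_left K 0
    linarith
  calc ((d : ℝ) + 1) ^ n * (1 / 4 : ℝ) ^ d = (((d : ℝ) + 1) ^ n * (1 / 2 : ℝ) ^ d) * (1 / 2) ^ d := by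
        rw [show (1 / 4 : ℝ) = 1 / 2 * (1 / 2) by norm_num, mul_pow]; ring
    _ ≤ _ := mul_le_mul_of_nonneg_right h2 (by positivity)

theorem half_sum (N : ℕ) : ∑ i : Fin N, (1 / 2 : ℝ) ^ (N - (i : ℕ)) ≤ 1 := by
  induction N with
  | zero => simp
  | succ N ih =>
    rw [Fin.sum_univ_castSucc]
    have : ∑ i : Fin N, (1 / 2 : ℝ) ^ (N + 1 - ((i.castSucc : Fin (N + 1)) : ℕ)) =
        1 / 2 * ∑ i : Fin N, (1 / 2 : ℝ) ^ (N - (i : ℕ)) := by
      rw [Finset.mul_sum]
      refine Finset.sum_congr rfl fun i _ => ?_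
      have := i.2
      rw [Fin.val_castSucc, ← pow_succ']
      congr 1; omega
    rw [this, Fin.val_last]
    have e : N + 1 - N = 1 := by omega
    rw [e]
    linarith

variable {β a : ℕ → ℝ} {A B : ℝ}

theorem Em_mul_apply (hJ : JB β a A B) (t : ℂ) (N : ℕ) (i j : Fin N) :
    (Em β a t N * Em β a (-t) N) i j = (if i = j then 1 else 0) -
      ∑' m : ℕ, EE β a t i (m + N) * EE β a (-t) (m + N) j := by
  have h := EE_add hJ t (-t) i j
  rw [add_neg_cancel, EE_zero] at h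
  have h2 := h.summable.sum_add_tsum_nat_add N
  rw [h.tsum_eq] at h2
  rw [Matrix.mul_apply]
  have h3 : ∑ k : Fin N, Em β a t N i k * Em β a (-t) N k j =
      ∑ l ∈ Finset.range N, EE β a t i l * EE β a (-t) l j := by
    rw [← Fin.sum_univ_eq_sum_range]
    rfl
  rw [h3]
  simp only [Fin.ext_iff]
  rw [← h2]
  ring

theorem P_bound (hJ : JB β a A B) (R : ℝ) :
    ∃ M : ℝ, 0 ≤ M ∧ ∀ (N : ℕ) (t : ℂ), ‖t‖ ≤ R →
      ‖(Em β a t N).det * (Em β a (-t) N).det‖ ≤ M := by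
  obtain ⟨K, hK0, hK⟩ := EE_bound hJ R (1 / 4) (by norm_num) (by norm_num)
  obtain ⟨K2, hK20, hK2⟩ := poly_geom ⌈R⌉₊
  set D := 2 * (K * K * K2) with hD
  have hD0 : 0 ≤ D := by positivity
  refine ⟨Real.exp D, (Real.exp_pos _).le, fun N t ht => ?_⟩
  have hre : |t.re| ≤ (⌈R⌉₊ : ℝ) := (Complex.abs_re_le_norm t).trans (ht.trans (Nat.le_ceil R))
  have hterm : ∀ (i j : Fin N) (m : ℕ), ‖EE β a t i (m + N) * EE β a (-t) (m + N) j‖ ≤
      K * K * K2 * ((1 / 2 : ℝ) ^ (N - (i : ℕ)) * (1 / 2) ^ (N - (j : ℕ))) * (1 / 2) ^ m := by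
    intro i j m
    have hi := i.2
    have hj := j.2
    have h1 := hK t ht i (m + N)
    have h2 := hK (-t) (by rwa [norm_neg]) (m + N) j
    have e1 : (((i : ℕ) : ℤ) - ((m + N : ℕ) : ℤ)).natAbs = m + (N - i) := by omega
    have e2 : (((m + N : ℕ) : ℤ) - ((j : ℕ) : ℤ)).natAbs = m + N - j := by omega
    rw [e1] at h1
    rw [e2, Complex.neg_re, neg_neg] at h2
    rw [norm_mul]
    have h3 := rpow_ratio_le hre (show (j : ℕ) ≤ m + N by omega)
    have h4 := hK2 (m + N - j)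
    calc ‖EE β a t i (m + N)‖ * ‖EE β a (-t) (m + N) j‖
        ≤ (K * (((m + N : ℕ) : ℝ) + 1) ^ (-t.re) * (1 / 4) ^ (m + (N - i))) *
          (K * (((j : ℕ) : ℝ) + 1) ^ t.re * (1 / 4) ^ (m + N - j)) :=
          mul_le_mul h1 h2 (norm_nonneg _) (by positivity)
      _ = K * K * (1 / 4) ^ (m + (N - i)) * (((((m + N : ℕ) : ℝ) + 1) ^ (-t.re) *
            (((j : ℕ) : ℝ) + 1) ^ t.re) * (1 / 4) ^ (m + N - j)) := by ring
      _ ≤ K * K * (1 / 2) ^ (N - (i : ℕ)) * ((((m + N - j : ℕ) : ℝ) + 1) ^ ⌈R⌉₊ *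
            (1 / 4) ^ (m + N - j)) := by
          refine mul_le_mul ?_ (mul_le_mul_of_nonneg_right h3 (by positivity)) (by positivity)
            (by positivity)
          refine mul_le_mul_of_nonneg_left ?_ (by positivity)
          calc (1 / 4 : ℝ) ^ (m + (N - i)) ≤ (1 / 4 : ℝ) ^ (N - (i : ℕ)) :=
                pow_le_pow_of_le_one (by norm_num) (by norm_num) (by omega)
            _ ≤ _ := pow_le_pow_left₀ (by norm_num) (by norm_num) _
      _ ≤ K * K * (1 / 2) ^ (N - (i : ℕ)) * (K2 * (1 / 2) ^ (m + N - j)) :=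
          mul_le_mul_of_nonneg_left h4 (by positivity)
      _ = _ := by
          have : m + N - (j : ℕ) = m + (N - j) := by omega
          rw [this, pow_add]
          ring
  have hX : ∀ i j : Fin N, ‖∑' m : ℕ, EE β a t i (m + N) * EE β a (-t) (m + N) j‖ ≤
      D * ((1 / 2 : ℝ) ^ (N - (i : ℕ)) * (1 / 2) ^ (N - (j : ℕ))) := by
    intro i j
    have hg := (hasSum_geometric_two).mul_left
      (K * K * K2 * ((1 / 2 : ℝ) ^ (N - (i : ℕ)) * (1 / 2) ^ (N - (j : ℕ))))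
    have := tsum_of_norm_bounded hg (hterm i j)
    refine this.trans (le_of_eq ?_)
    rw [hD]; ring
  rw [← Matrix.det_mul]
  refine (norm_det_le_prod_col _).trans ?_
  have hcol : ∀ j : Fin N, ∑ i, ‖(Em β a t N * Em β a (-t) N) i j‖ ≤
      Real.exp (D * (1 / 2) ^ (N - (j : ℕ))) := by
    intro j
    calc ∑ i, ‖(Em β a t N * Em β a (-t) N) i j‖
        ≤ ∑ i : Fin N, ((if i = j then 1 else 0) +
            D * ((1 / 2 : ℝ) ^ (N - (i : ℕ)) * (1 / 2) ^ (N - (j : ℕ)))) := by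
          refine Finset.sum_le_sum fun i _ => ?_
          rw [Em_mul_apply hJ]
          refine (norm_sub_le _ _).trans (add_le_add ?_ (hX i j))
          split_ifs <;> simp
      _ = 1 + D * (1 / 2) ^ (N - (j : ℕ)) * ∑ i : Fin N, (1 / 2 : ℝ) ^ (N - (i : ℕ)) := by
          rw [Finset.sum_add_distrib, Finset.mul_sum]
          congr 1
          · simp
          · exact Finset.sum_congr rfl fun i _ => by ring
      _ ≤ 1 + D * (1 / 2) ^ (N - (j : ℕ)) * 1 := by
          have := half_sum N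
          gcongr
      _ ≤ _ := by
          rw [mul_one, add_comm]
          exact Real.add_one_le_exp _
  refine (Finset.prod_le_prod (fun j _ => Finset.sum_nonneg fun i _ => norm_nonneg _)
    (fun j _ => hcol j)).trans ?_
  rw [← Real.exp_sum, Real.exp_le_exp, ← Finset.mul_sum]
  exact mul_le_of_le_one_right hD0 (half_sum N)

theorem col_bound (hJ : JB β a A B) (R : ℝ) :
    ∃ K : ℝ, 1 ≤ K ∧ ∀ (N : ℕ) (t : ℂ), ‖t‖ ≤ R → ∀ k : Fin N,
      ∑ j : Fin N, ‖Em β a t N j k‖ ≤ K * ((k : ℕ) + 1 : ℝ) ^ (-t.re) := by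
  obtain ⟨K, hK0, hK⟩ := EE_bound hJ R (1 / 2) (by norm_num) (by norm_num)
  refine ⟨max 1 (4 * K), le_max_left _ _, fun N t ht k => ?_⟩
  have h1 : ∑ j : Fin N, ‖Em β a t N j k‖ ≤
      ∑ j : Fin N, K * ((k : ℕ) + 1 : ℝ) ^ (-t.re) * (1 / 2) ^ nd k j := by
    refine Finset.sum_le_sum fun j _ => ?_
    rw [nd_comm]
    exact hK t ht j k
  refine h1.trans ?_
  rw [← Finset.mul_sum, Fin.sum_univ_eq_sum_range (fun j => (1 / 2 : ℝ) ^ nd k j)]
  have h2 := sum_pow_nd (r := 1 / 2) (by norm_num) (by norm_num) k N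
  norm_num at h2
  have hp : 0 ≤ ((k : ℕ) + 1 : ℝ) ^ (-t.re) := by positivity
  calc K * ((k : ℕ) + 1 : ℝ) ^ (-t.re) * ∑ j ∈ Finset.range N, (1 / 2 : ℝ) ^ nd k j
      ≤ K * ((k : ℕ) + 1 : ℝ) ^ (-t.re) * 4 := by
        refine mul_le_mul_of_nonneg_left ?_ (by positivity)
        simpa using h2
    _ = 4 * K * ((k : ℕ) + 1 : ℝ) ^ (-t.re) := by ring
    _ ≤ _ := mul_le_mul_of_nonneg_right (le_max_right _ _) hp

theorem det_bound {K : ℝ} {N : ℕ} {t : ℂ}
    (h : ∀ k : Fin N, ∑ j : Fin N, ‖Em β a t N j k‖ ≤ K * ((k : ℕ) + 1 : ℝ) ^ (-t.re)) :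
    ‖(Em β a t N).det‖ ≤ K ^ N * ∏ k : Fin N, ((k : ℕ) + 1 : ℝ) ^ (-t.re) := by
  refine (norm_det_le_prod_col _).trans ?_
  refine (Finset.prod_le_prod (fun j _ => Finset.sum_nonneg fun i _ => norm_nonneg _)
    (fun j _ => h j)).trans ?_
  rw [Finset.prod_mul_distrib, Finset.prod_const, Finset.card_univ, Fintype.card_fin]

theorem adj_bound {K : ℝ} (hK1 : 1 ≤ K) {N n : ℕ} {t : ℂ} (hre : |t.re| ≤ n)
    (h : ∀ k : Fin N, ∑ j : Fin N, ‖Em β a t N j k‖ ≤ K * ((k : ℕ) + 1 : ℝ) ^ (-t.re))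
    (j k : Fin N) :
    ‖(Em β a t N).adjugate j k‖ ≤
      K ^ N * (∏ k : Fin N, ((k : ℕ) + 1 : ℝ) ^ (-t.re)) * (1 + (N : ℝ) ^ n) := by
  rw [Matrix.adjugate_apply]
  refine (norm_det_le_prod_col _).trans ?_
  have hcol : ∀ l : Fin N, ∑ i, ‖((Em β a t N).updateRow k (Pi.single j 1)) i l‖ ≤
      K * ((l : ℕ) + 1 : ℝ) ^ (-t.re) * (if l = j then 1 + (N : ℝ) ^ n else 1) := by
    intro l
    have hp : (0 : ℝ) < ((l : ℕ) + 1 : ℝ) := by positivity
    have h1 : ∑ i, ‖((Em β a t N).updateRow k (Pi.single j 1)) i l‖ ≤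
        ∑ i, (‖Em β a t N i l‖ + (if i = k then (if l = j then 1 else 0) else 0)) := by
      refine Finset.sum_le_sum fun i _ => ?_
      rw [Matrix.updateRow_apply]
      split_ifs with h1 h2
      · subst h2; simp
      · simp [Pi.single_eq_of_ne h2]
      · simp
    refine h1.trans ?_
    rw [Finset.sum_add_distrib]
    simp only [Finset.sum_ite_eq', Finset.mem_univ, if_true]
    split_ifs with h2
    · have hN : ((l : ℕ) + 1 : ℝ) ≤ N := by
        have := l.2
        exact_mod_cast this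
      have hl1 : (1 : ℝ) ≤ ((l : ℕ) + 1 : ℝ) := by
        have : (0 : ℝ) ≤ ((l : ℕ) : ℝ) := by positivity
        linarith
      have h3 : (1 : ℝ) ≤ K * ((l : ℕ) + 1 : ℝ) ^ (-t.re) * (N : ℝ) ^ n := by
        have e1 : (((l : ℕ) : ℝ) + 1) ^ t.re ≤ (N : ℝ) ^ n := by
          calc (((l : ℕ) : ℝ) + 1) ^ t.re ≤ (((l : ℕ) : ℝ) + 1) ^ (n : ℝ) :=
                Real.rpow_le_rpow_of_exponent_le hl1 ((le_abs_self _).trans hre)
            _ = (((l : ℕ) : ℝ) + 1) ^ n := Real.rpow_natCast _ _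
            _ ≤ _ := pow_le_pow_left₀ hp.le hN n
        have e2 : (((l : ℕ) : ℝ) + 1) ^ (-t.re) * (((l : ℕ) : ℝ) + 1) ^ t.re = 1 := by
          rw [← Real.rpow_add hp]; simp
        calc (1 : ℝ) = 1 * ((((l : ℕ) : ℝ) + 1) ^ (-t.re) * (((l : ℕ) : ℝ) + 1) ^ t.re) := by
              rw [e2, one_mul]
          _ ≤ K * ((((l : ℕ) : ℝ) + 1) ^ (-t.re) * (N : ℝ) ^ n) :=
              mul_le_mul hK1 (mul_le_mul_of_nonneg_left e1 (by positivity)) (by positivity)
                (by linarith)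
          _ = _ := by ring
      have := h l
      rw [mul_add, mul_one]
      exact add_le_add this h3
    · simpa using h l
  refine (Finset.prod_le_prod (fun j _ => Finset.sum_nonneg fun i _ => norm_nonneg _)
    (fun j _ => hcol j)).trans ?_
  rw [Finset.prod_mul_distrib, Finset.prod_mul_distrib, Finset.prod_const, Finset.card_univ,
    Fintype.card_fin]
  simp

theorem Em_det_differentiable (hJ : JB β a A B) (N : ℕ) :
    Differentiable ℂ fun t => (Em β a t N).det := by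
  simp only [Matrix.det_apply]
  refine Differentiable.fun_sum fun σ _ => ?_
  refine Differentiable.const_smul ?_ _
  refine Differentiable.fun_finsetProd fun i _ => ?_
  exact EE_differentiable hJ _ _

end Pool.Agent.Helper55.BD
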