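import Mathlib
import Pool.Agent.Helper28.EtaFinal

/-!
# MP_bd7e56_nt: common definitions for the full theorem
Blueprint: BD-blueprint.md in the team store.
-/

open Set Filter Topology MeasureTheory

namespace Pool.Agent.Helper55.BD

open Pool.Agent.Helper28.Eta (eta sg vdm mup nu)

/-- `f_0 = η`, `f_{s+1}(z) = f_s(z-1) + s f_s(z)`; so `f_s(z) = ∑ (-1)^{n+1} (n)_s n^{-z}`. -/
noncomputable def ff : ℕ → ℂ → ℂ
  | 0 => eta
  | s + 1 => fun z => ff s (z - 1) + (s : ℂ) * ff s z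

/-- Hankel determinant of a sequence. -/
noncomputable def hank {R : Type*} [CommRing R] (m : ℕ → R) (N : ℕ) : R :=
  (Matrix.of fun j k : Fin N => m ((j : ℕ) + (k : ℕ))).det

/-- Hankel determinant of size `N + 1` with the last column shifted by one. -/
noncomputable def hank1 {R : Type*} [CommRing R] (m : ℕ → R) : ℕ → R
  | 0 => 0
  | N + 1 => (Matrix.of fun j k : Fin (N + 1) =>
      m ((j : ℕ) + (if (k : ℕ) = N then N + 1 else (k : ℕ)))).det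

/-- The (real) moments of `f_s` at `c`. -/
noncomputable def mm (s : ℕ) (c : ℝ) (k : ℕ) : ℝ := (iteratedDeriv k (ff s) (c : ℂ)).re

/-- `τ_s(N,c)`: the absolute value of the Hankel determinant (for `c > 0`). -/
noncomputable def tau (s N : ℕ) (c : ℝ) : ℝ := sg N * hank (mm s c) N

noncomputable def TT (s N : ℕ) (c : ℝ) : ℝ := Real.log (tau s N c)

/-- `ν_s(N,c)`. -/
noncomputable def nuu (s N : ℕ) (c : ℝ) : ℝ :=
  if N = 0 then 0 else tau s (N + 1) c * tau s (N - 1) c / tau s N c ^ 2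

/-- `β_s(N,c) = T_s(N)'(c) - T_s(N+1)'(c)`. -/
noncomputable def bet (s N : ℕ) (c : ℝ) : ℝ := deriv (TT s N) c - deriv (TT s (N + 1)) c

/-- kernel of `(n)_s` -/
noncomputable def kk (s : ℕ) (z : ℝ) : ℝ := (s.factorial : ℝ) * z / (1 + z) ^ (s + 1)

/-- kernel of `(n)_{s+1}/n` -/
noncomputable def kb (s : ℕ) (z : ℝ) : ℝ := (s.factorial : ℝ) * (1 - (1 / (1 + z)) ^ (s + 1))

/-- absolute value of the determinant of `κ(x_i y_j)` -/
noncomputable def kd (κ : ℝ → ℝ) {N : ℕ} (x y : Fin N → ℝ) : ℝ :=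
  |(Matrix.of fun i j => κ (x i * y j)).det|

/-- `e^{-u}` coordinatewise -/
noncomputable def em {N : ℕ} (u : Fin N → ℝ) : Fin N → ℝ := fun i => Real.exp (-(u i))

/-- the density of the ensemble -/
noncomputable def wgt (c₁ c₂ : ℝ) {N : ℕ} (u v : Fin N → ℝ) : ℝ :=
  |vdm (fun i => Real.log (u i))| * |vdm (fun i => Real.log (v i))| *
    (∏ i, u i ^ (c₁ - 1)) * (∏ i, v i ^ (c₂ - 1))

/-- `Z_κ(N) = ∫∫ wgt * |det κ(e^{-(u_i+v_j)})|` over `(0,∞)^N × (0,∞)^N`. -/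
noncomputable def ZZ (κ : ℝ → ℝ) (N : ℕ) (c₁ c₂ : ℝ) : ℝ :=
  ∫ p, wgt c₁ c₂ p.1 p.2 * kd κ (em p.1) (em p.2) ∂((nu N).prod (nu N))

/-! ### Tridiagonal matrix and its exponential -/

/-- `(J φ)_j = β_j φ_j + a_j φ_{j-1} - a_{j+1} φ_{j+1}`. -/
noncomputable def Jop (β a : ℕ → ℝ) (φ : ℕ → ℂ) (j : ℕ) : ℂ :=
  (β j : ℂ) * φ j + (if j = 0 then 0 else (a j : ℂ) * φ (j - 1)) - (a (j + 1) : ℂ) * φ (j + 1)

/-- column `k` of `J^m` -/
noncomputable def Jcol (β a : ℕ → ℝ) : ℕ → ℕ → ℕ → ℂ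
  | 0, k => Pi.single k 1
  | m + 1, k => Jop β a (Jcol β a m k)

/-- `(e^{-tJ})_{jk}` -/
noncomputable def EE (β a : ℕ → ℝ) (t : ℂ) (j k : ℕ) : ℂ :=
  ∑' m : ℕ, (-t) ^ m / (m.factorial : ℂ) * Jcol β a m k j

/-- the truncation of `e^{-tJ}` -/
noncomputable def Em (β a : ℕ → ℝ) (t : ℂ) (N : ℕ) : Matrix (Fin N) (Fin N) ℂ :=
  Matrix.of fun j k => EE β a t j k

/-- boundedness hypotheses on the Jacobi data -/
structure JB (β a : ℕ → ℝ) (A B : ℝ) : Prop where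
  hA : 0 ≤ A
  hB : 0 ≤ B
  ha : ∀ k, |a k| ≤ A
  hb : ∀ k, |β k - Real.log ((k : ℝ) + 1)| ≤ B

end Pool.Agent.Helper55.BD
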