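import Pool.Agent.Helper55.BD.Defs

/-! Module H (blueprint H): orthogonal polynomials and the Gram matrix. -/

open Set Filter Topology MeasureTheory

namespace Pool.Agent.Helper55.BD

open Pool.Agent.Helper28.Eta (eta sg vdm mup nu)

noncomputable def betaOf (m : ℕ → ℝ) (k : ℕ) : ℝ :=
  hank1 m k / hank m k - hank1 m (k + 1) / hank m (k + 1)

noncomputable def aOf (m : ℕ → ℝ) (k : ℕ) : ℝ :=
  if k = 0 then 0 else Real.sqrt (-(hank m (k + 1) * hank m (k - 1)) / hank m k ^ 2)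

namespace Gram

open Polynomial

theorem sg_succ (n : ℕ) : sg (n + 1) = (-1) ^ n * sg n := by
  unfold sg
  rw [Fin.prod_univ_succ]
  congr 1
  · rw [Finset.prod_const, Fin.card_Ioi]
    simp
  · refine Finset.prod_congr rfl fun i _ => ?_
    rw [Finset.prod_const, Finset.prod_const, Fin.card_Ioi, Fin.card_Ioi]
    congr 1
    simp only [Fin.val_succ]
    omega

/-- the functional with moments `g` -/
noncomputable def Phi {V : Type*} [AddCommGroup V] [Module ℝ V] (g : ℕ → V) : ℝ[X] →ₗ[ℝ] V :=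
  Polynomial.lsum fun i => LinearMap.toSpanSingleton ℝ V (g i)

section
variable {V : Type*} [AddCommGroup V] [Module ℝ V]

theorem Phi_apply (g : ℕ → V) (p : ℝ[X]) : Phi g p = p.sum fun i a => a • g i := rfl

theorem Phi_eq_sum (g : ℕ → V) (p : ℝ[X]) {N : ℕ} (h : p.natDegree < N) :
    Phi g p = ∑ i ∈ Finset.range N, p.coeff i • g i := by
  rw [Phi_apply, Polynomial.sum_over_range' p (fun i => by simp) N h]

theorem Phi_monomial (g : ℕ → V) (i : ℕ) (a : ℝ) : Phi g (monomial i a) = a • g i := by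
  rw [Phi_apply, Polynomial.sum_monomial_index _ _ (by simp)]

theorem Phi_X_pow (g : ℕ → V) (i : ℕ) : Phi g (X ^ i) = g i := by
  rw [← Polynomial.monomial_one_right_eq_X_pow, Phi_monomial, one_smul]

theorem Phi_X_pow_mul (g : ℕ → V) (n : ℕ) (p : ℝ[X]) :
    Phi g (X ^ n * p) = Phi (fun i => g (n + i)) p := by
  induction p using Polynomial.induction_on' with
  | add p q hp hq => rw [mul_add, map_add, map_add, hp, hq]
  | monomial i a =>
    rw [← Polynomial.monomial_one_right_eq_X_pow, Polynomial.monomial_mul_monomial,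
      Phi_monomial, Phi_monomial, one_mul]

theorem Phi_mul (g : ℕ → V) (p q : ℝ[X]) {N : ℕ} (hp : p.natDegree < N) (hq : q.natDegree < N) :
    Phi g (p * q) = ∑ i : Fin N, ∑ l : Fin N, (p.coeff i * q.coeff l) • g ((i : ℕ) + l) := by
  conv_lhs => rw [Polynomial.as_sum_range' p N hp]
  rw [Finset.sum_mul, map_sum, ← Fin.sum_univ_eq_sum_range
    (fun i => Phi g (monomial i (p.coeff i) * q)) N]
  refine Finset.sum_congr rfl fun i _ => ?_
  have h1 : (monomial (i : ℕ) (p.coeff i) : ℝ[X]) = p.coeff i • X ^ (i : ℕ) := by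
    rw [Polynomial.smul_X_eq_monomial]
  rw [h1, smul_mul_assoc, map_smul, Phi_X_pow_mul, Phi_eq_sum _ q hq,
    ← Fin.sum_univ_eq_sum_range (fun l => q.coeff l • g ((i : ℕ) + l)) N, Finset.smul_sum]
  refine Finset.sum_congr rfl fun l _ => ?_
  rw [smul_smul]

end

/-! ### Orthogonal polynomials -/

/-- Hankel matrix -/
def Hm {R : Type*} (m : ℕ → R) (N : ℕ) : Matrix (Fin N) (Fin N) R :=
  Matrix.of fun j k => m ((j : ℕ) + (k : ℕ))

theorem det_Hm {R : Type*} [CommRing R] (m : ℕ → R) (N : ℕ) : (Hm m N).det = hank m N := rfl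

/-- uniqueness -/
theorem eq_zero_of_orth {m : ℕ → ℝ} {k : ℕ} (hk : hank m k ≠ 0) (p : ℝ[X]) (hp : p.degree < k)
    (h : ∀ i < k, Phi m (X ^ i * p) = 0) : p = 0 := by
  rcases Nat.eq_zero_or_pos k with rfl | hk0
  · simpa using hp
  have hnat : p.natDegree < k := by
    by_cases h0 : p = 0
    · rw [h0]; simpa using hk0
    · exact (Polynomial.natDegree_lt_iff_degree_lt h0).2 hp
  have h1 : (Hm m k).mulVec (fun l : Fin k => p.coeff l) = 0 := by
    funext i
    have h2 := h i i.2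
    rw [Phi_X_pow_mul, Phi_eq_sum _ p hnat,
      ← Fin.sum_univ_eq_sum_range (fun l => p.coeff l • m ((i : ℕ) + l)) k] at h2
    rw [Matrix.mulVec, dotProduct, Pi.zero_apply, ← h2]
    refine Finset.sum_congr rfl fun l _ => ?_
    rw [Hm, Matrix.of_apply, smul_eq_mul, mul_comm]
  have h3 : (fun l : Fin k => p.coeff l) = 0 :=
    Matrix.eq_zero_of_mulVec_eq_zero (by rw [det_Hm]; exact hk) h1
  ext i
  rw [Polynomial.coeff_zero]
  by_cases hi : i < k
  · exact congrFun h3 ⟨i, hi⟩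
  · exact Polynomial.coeff_eq_zero_of_natDegree_lt (by omega)

/-- the coefficients of the lower order part -/
noncomputable def qv (m : ℕ → ℝ) (k : ℕ) : Fin k → ℝ :=
  (Hm m k)⁻¹.mulVec fun i => -m ((i : ℕ) + k)

/-- monic orthogonal polynomials -/
noncomputable def Q (m : ℕ → ℝ) (k : ℕ) : ℝ[X] :=
  X ^ k + ∑ i : Fin k, C (qv m k i) * X ^ (i : ℕ)

theorem coeff_sum_fin {k : ℕ} (q : Fin k → ℝ) (j : ℕ) :
    (∑ i : Fin k, C (q i) * X ^ (i : ℕ) : ℝ[X]).coeff j = if h : j < k then q ⟨j, h⟩ else 0 := by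
  rw [Polynomial.finsetSum_coeff]
  by_cases h : j < k
  · rw [dif_pos h, Finset.sum_eq_single ⟨j, h⟩]
    · simp
    · intro b _ hb
      rw [Polynomial.coeff_C_mul_X_pow, if_neg]
      intro hj
      exact hb (Fin.ext hj.symm)
    · intro h'; exact absurd (Finset.mem_univ _) h'
  · rw [dif_neg h]
    refine Finset.sum_eq_zero fun b _ => ?_
    rw [Polynomial.coeff_C_mul_X_pow, if_neg]
    intro hj
    exact h (hj ▸ b.2)

theorem Q_coeff_lt (m : ℕ → ℝ) (k : ℕ) (j : Fin k) : (Q m k).coeff j = qv m k j := by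
  rw [Q, Polynomial.coeff_add, coeff_sum_fin, dif_pos j.2, Polynomial.coeff_X_pow,
    if_neg (by have := j.2; omega), zero_add]

theorem Q_coeff_self (m : ℕ → ℝ) (k : ℕ) : (Q m k).coeff k = 1 := by
  rw [Q, Polynomial.coeff_add, coeff_sum_fin, dif_neg (lt_irrefl k), Polynomial.coeff_X_pow,
    if_pos rfl, add_zero]

theorem Q_coeff_gt (m : ℕ → ℝ) {k j : ℕ} (h : k < j) : (Q m k).coeff j = 0 := by
  rw [Q, Polynomial.coeff_add, coeff_sum_fin, dif_neg (by omega), Polynomial.coeff_X_pow,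
    if_neg (by omega), add_zero]

theorem Q_natDegree_lt (m : ℕ → ℝ) {k N : ℕ} (h : k < N) : (Q m k).natDegree < N := by
  have : (Q m k).natDegree ≤ k := by
    rw [Polynomial.natDegree_le_iff_coeff_eq_zero]
    intro N hN
    exact Q_coeff_gt m hN
  omega

theorem Q_degree_lt (m : ℕ → ℝ) (k : ℕ) : (Q m k).degree < (k + 1 : ℕ) := by
  rw [Polynomial.degree_lt_iff_coeff_zero]
  intro j hj
  exact Q_coeff_gt m (by omega)

theorem Q_orth {m : ℕ → ℝ} {k : ℕ} (hk : hank m k ≠ 0) {i : ℕ} (hi : i < k) :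
    Phi m (X ^ i * Q m k) = 0 := by
  rw [Q, mul_add, map_add, ← pow_add, Phi_X_pow, Finset.mul_sum, map_sum]
  have h1 : ∀ l : Fin k, Phi m (X ^ i * (C (qv m k l) * X ^ (l : ℕ))) =
      Hm m k ⟨i, hi⟩ l * qv m k l := by
    intro l
    rw [show (X ^ i * (C (qv m k l) * X ^ (l : ℕ)) : ℝ[X]) = qv m k l • X ^ (i + (l : ℕ)) by
      rw [Polynomial.smul_eq_C_mul, pow_add]; ring, map_smul, Phi_X_pow, smul_eq_mul, mul_comm]
    rfl
  rw [Finset.sum_congr rfl fun l _ => h1 l]
  have h2 : (Hm m k).mulVec (qv m k) = fun i : Fin k => -m ((i : ℕ) + k) := by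
    rw [qv, Matrix.mulVec_mulVec, Matrix.mul_nonsing_inv, Matrix.one_mulVec]
    rw [det_Hm]
    exact isUnit_iff_ne_zero.2 hk
  have h3 := congrFun h2 ⟨i, hi⟩
  rw [Matrix.mulVec, dotProduct] at h3
  rw [h3]
  simp

/-- the norms -/
noncomputable def hh (m : ℕ → ℝ) (k : ℕ) : ℝ := Phi m (X ^ k * Q m k)

theorem hh_eq {m : ℕ → ℝ} {k : ℕ} (hk : hank m k ≠ 0) : hh m k * hank m k = hank m (k + 1) := by
  have h1 : (Hm m (k + 1)).mulVec (fun l : Fin (k + 1) => (Q m k).coeff l) =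
      Pi.single (Fin.last k) (hh m k) := by
    funext i
    have h2 : (Hm m (k + 1)).mulVec (fun l : Fin (k + 1) => (Q m k).coeff l) i =
        Phi m (X ^ (i : ℕ) * Q m k) := by
      rw [Phi_X_pow_mul, Phi_eq_sum _ _ (Q_natDegree_lt m (Nat.lt_succ_self k)),
        ← Fin.sum_univ_eq_sum_range (fun l => (Q m k).coeff l • m ((i : ℕ) + l)) (k + 1),
        Matrix.mulVec, dotProduct]
      refine Finset.sum_congr rfl fun l _ => ?_
      rw [Hm, Matrix.of_apply, smul_eq_mul, mul_comm]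
    rw [h2]
    by_cases hi : i = Fin.last k
    · rw [hi, Pi.single_eq_same, Fin.val_last]; rfl
    · rw [Pi.single_eq_of_ne hi]
      refine Q_orth hk ?_
      have := i.2
      have h3 : (i : ℕ) ≠ k := fun h => hi (Fin.ext h)
      omega
  have h4 : (Hm m (k + 1)).adjugate.mulVec ((Hm m (k + 1)).mulVec
      (fun l : Fin (k + 1) => (Q m k).coeff l)) =
      (Hm m (k + 1)).det • (fun l : Fin (k + 1) => (Q m k).coeff l) := by
    rw [Matrix.mulVec_mulVec, Matrix.adjugate_mul, Matrix.smul_mulVec, Matrix.one_mulVec]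
  rw [h1] at h4
  have h5 := congrFun h4 (Fin.last k)
  rw [Matrix.mulVec_single, Pi.smul_apply] at h5
  have h6 : ((Hm m (k + 1)).det • fun l : Fin (k + 1) => (Q m k).coeff (l : ℕ)) (Fin.last k) =
      hank m (k + 1) := by
    rw [Pi.smul_apply, Fin.val_last, Q_coeff_self, smul_eq_mul, mul_one, det_Hm]
  rw [h6] at h5
  rw [← h5]
  simp only [Matrix.col_apply, MulOpposite.smul_eq_mul_unop, MulOpposite.unop_op]
  rw [Matrix.adjugate_fin_succ_eq_det_submatrix]
  simp only [Fin.val_last, ← two_mul, pow_mul, neg_one_sq, one_pow, one_mul]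
  rw [mul_comm]
  congr 1
  rw [Fin.succAbove_last]
  rfl

/-- the subleading coefficient -/
theorem Q_sub {m : ℕ → ℝ} {k : ℕ} (hk : hank m (k + 1) ≠ 0) :
    (Q m (k + 1)).coeff k = -(hank1 m (k + 1) / hank m (k + 1)) := by
  have h1 : (Hm m (k + 1)).mulVec (qv m (k + 1)) =
      fun i : Fin (k + 1) => -m ((i : ℕ) + (k + 1)) := by
    rw [qv, Matrix.mulVec_mulVec, Matrix.mul_nonsing_inv, Matrix.one_mulVec]
    rw [det_Hm]
    exact isUnit_iff_ne_zero.2 hk
  have h2 : (Hm m (k + 1)).cramer (fun i => -m ((i : ℕ) + (k + 1))) =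
      (Hm m (k + 1)).det • qv m (k + 1) := by
    rw [← h1, Matrix.cramer_eq_adjugate_mulVec, Matrix.mulVec_mulVec, Matrix.adjugate_mul,
      Matrix.smul_mulVec, Matrix.one_mulVec]
  have h3 := congrFun h2 (Fin.last k)
  rw [Matrix.cramer_apply, Pi.smul_apply, smul_eq_mul, det_Hm] at h3
  have h4 : (Q m (k + 1)).coeff k = qv m (k + 1) (Fin.last k) := by
    rw [← Q_coeff_lt, Fin.val_last]
  have h5 : ((Hm m (k + 1)).updateCol (Fin.last k) (fun i => -m ((i : ℕ) + (k + 1)))).det =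
      -hank1 m (k + 1) := by
    have h6 : (fun i : Fin (k + 1) => -m ((i : ℕ) + (k + 1))) =
        (-1 : ℝ) • (fun i : Fin (k + 1) => m ((i : ℕ) + (k + 1))) := by
      funext i; simp
    rw [h6, Matrix.det_updateCol_smul, hank1, neg_one_mul]
    congr 2
    ext i j
    rw [Matrix.updateCol_apply]
    by_cases hj : j = Fin.last k
    · rw [if_pos hj, hj, Matrix.of_apply, Fin.val_last, if_pos rfl]
    · rw [if_neg hj, Matrix.of_apply, if_neg]
      · rfl
      · intro h; exact hj (Fin.ext h)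
  rw [h4, eq_neg_iff_add_eq_zero]
  rw [h5] at h3
  field_simp
  linarith

theorem Q_sub' {m : ℕ → ℝ} (hD : ∀ N, hank m N ≠ 0) (k : ℕ) :
    (X * Q m k - Q m (k + 1)).coeff k = -betaOf m k := by
  rw [Polynomial.coeff_sub, Q_sub (hD (k + 1)), betaOf]
  rcases k with _ | k
  · rw [Polynomial.coeff_X_mul_zero]
    simp [hank1]
  · rw [Polynomial.coeff_X_mul, Q_sub (hD (k + 1))]
    ring

theorem hank_zero (m : ℕ → ℝ) : hank m 0 = 1 := by
  rw [hank, Matrix.det_fin_zero]

theorem hh_ne {m : ℕ → ℝ} (hD : ∀ N, hank m N ≠ 0) (k : ℕ) : hh m k ≠ 0 := by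
  intro h
  have := hh_eq (hD k)
  rw [h, zero_mul] at this
  exact hD (k + 1) this.symm

theorem X_mul_Q_zero {m : ℕ → ℝ} (hD : ∀ N, hank m N ≠ 0) :
    X * Q m 0 = Q m 1 - C (betaOf m 0) * Q m 0 := by
  have h := Q_sub' hD 0
  have h1 : (X * Q m 0 - Q m 1 + C (betaOf m 0) * Q m 0) = 0 := by
    ext j
    rw [Polynomial.coeff_zero]
    rcases j with _ | j
    · rw [Polynomial.coeff_add, h, Polynomial.coeff_C_mul, Q_coeff_self]
      ring
    · rw [Polynomial.coeff_add, Polynomial.coeff_sub, Polynomial.coeff_X_mul,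
        Polynomial.coeff_C_mul, Q_coeff_gt m (show 0 < j + 1 by omega)]
      rcases j with _ | j
      · rw [Q_coeff_self, Q_coeff_self]; ring
      · rw [Q_coeff_gt m (show 0 < j + 1 by omega), Q_coeff_gt m (show 1 < j + 1 + 1 by omega)]
        ring
  linear_combination h1

theorem X_mul_Q_succ {m : ℕ → ℝ} (hD : ∀ N, hank m N ≠ 0) (k : ℕ) :
    X * Q m (k + 1) = Q m (k + 2) - C (betaOf m (k + 1)) * Q m (k + 1) +
      C (hh m (k + 1) / hh m k) * Q m k := by
  have h := Q_sub' hD (k + 1)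
  have h1 : (X * Q m (k + 1) - Q m (k + 2) + C (betaOf m (k + 1)) * Q m (k + 1) -
      C (hh m (k + 1) / hh m k) * Q m k) = 0 := by
    refine eq_zero_of_orth (hD (k + 1)) _ ?_ ?_
    · rw [Polynomial.degree_lt_iff_coeff_zero]
      intro j hj
      rw [Polynomial.coeff_sub, Polynomial.coeff_add, Polynomial.coeff_C_mul,
        Polynomial.coeff_C_mul, Q_coeff_gt m (show k < j by omega), mul_zero, sub_zero]
      rcases Nat.eq_or_lt_of_le hj with h2 | h2
      · subst h2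
        rw [h, Q_coeff_self]; ring
      · rw [Q_coeff_gt m h2, mul_zero, add_zero, Polynomial.coeff_sub]
        obtain ⟨i, rfl⟩ : ∃ i, j = i + 1 := ⟨j - 1, by omega⟩
        rw [Polynomial.coeff_X_mul]
        rcases Nat.eq_or_lt_of_le (show k + 1 ≤ i by omega) with h3 | h3
        · subst h3
          rw [Q_coeff_self, Q_coeff_self]; ring
        · rw [Q_coeff_gt m h3, Q_coeff_gt m (show k + 2 < i + 1 by omega)]; ring
    · intro i hi
      have e1 : (X ^ i * (X * Q m (k + 1) - Q m (k + 2) + C (betaOf m (k + 1)) * Q m (k + 1) -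
          C (hh m (k + 1) / hh m k) * Q m k) : ℝ[X]) =
          X ^ (i + 1) * Q m (k + 1) - X ^ i * Q m (k + 2) +
            betaOf m (k + 1) • (X ^ i * Q m (k + 1)) -
            (hh m (k + 1) / hh m k) • (X ^ i * Q m k) := by
        rw [Polynomial.smul_eq_C_mul, Polynomial.smul_eq_C_mul]; ring
      rw [e1, map_sub, map_add, map_sub, map_smul, map_smul,
        Q_orth (hD (k + 2)) (show i < k + 2 by omega), Q_orth (hD (k + 1)) hi]
      rcases Nat.eq_or_lt_of_le (show i ≤ k by omega) with h2 | h2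
      · subst h2
        have h3 : Phi m (X ^ i * Q m i) = hh m i := rfl
        have h4 : Phi m (X ^ (i + 1) * Q m (i + 1)) = hh m (i + 1) := rfl
        rw [h3, h4, smul_eq_mul, smul_eq_mul]
        have := hh_ne hD i
        field_simp
        ring
      · rw [Q_orth (hD k) h2, Q_orth (hD (k + 1)) (show i + 1 < k + 1 by omega)]
        simp
  linear_combination h1

/-- orthogonality against lower degree polynomials -/
theorem Phi_mul_Q_of_lt {m : ℕ → ℝ} (hD : ∀ N, hank m N ≠ 0) {k : ℕ} (p : ℝ[X])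
    (hp : p.natDegree < k) : Phi m (p * Q m k) = 0 := by
  rw [Polynomial.as_sum_range' p k hp, Finset.sum_mul, map_sum]
  refine Finset.sum_eq_zero fun i hi => ?_
  rw [← Polynomial.smul_X_eq_monomial, smul_mul_assoc, map_smul,
    Q_orth (hD k) (Finset.mem_range.1 hi), smul_zero]

theorem Phi_Q_self {m : ℕ → ℝ} (hD : ∀ N, hank m N ≠ 0) (k : ℕ) :
    Phi m (Q m k * Q m k) = hh m k := by
  have h1 : Q m k * Q m k = X ^ k * Q m k + (∑ i : Fin k, C (qv m k i) * X ^ (i : ℕ)) * Q m k := by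
    rw [← add_mul]; rfl
  rw [h1, map_add]
  have h2 : Phi m ((∑ i : Fin k, C (qv m k i) * X ^ (i : ℕ)) * Q m k) = 0 := by
    rw [Finset.sum_mul, map_sum]
    refine Finset.sum_eq_zero fun i _ => ?_
    rw [mul_assoc, ← Polynomial.smul_eq_C_mul, map_smul, Q_orth (hD k) i.2, smul_zero]
  rw [h2, add_zero]; rfl

theorem Phi_Q_ne {m : ℕ → ℝ} (hD : ∀ N, hank m N ≠ 0) {j k : ℕ} (h : j ≠ k) :
    Phi m (Q m j * Q m k) = 0 := by
  rcases Nat.lt_or_gt_of_ne h with h | h
  · exact Phi_mul_Q_of_lt hD _ (Q_natDegree_lt m h)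
  · rw [mul_comm]; exact Phi_mul_Q_of_lt hD _ (Q_natDegree_lt m h)

section sign
variable {m : ℕ → ℝ} (hpos : ∀ N, 0 < sg N * hank m N)
include hpos

theorem hD_of : ∀ N, hank m N ≠ 0 := fun N h => by
  have := hpos N
  rw [h, mul_zero] at this
  exact lt_irrefl _ this

theorem hh_sign (k : ℕ) : 0 < (-1 : ℝ) ^ k * hh m k := by
  have h1 := hpos k
  have h2 := hpos (k + 1)
  rw [sg_succ, ← hh_eq (hD_of hpos k)] at h2
  have h3 : (-1 : ℝ) ^ k * sg k * (hh m k * hank m k) =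
      ((-1 : ℝ) ^ k * hh m k) * (sg k * hank m k) := by ring
  rw [h3] at h2
  exact (mul_pos_iff_of_pos_right h1).1 h2

theorem abs_hh (k : ℕ) : |hh m k| = (-1 : ℝ) ^ k * hh m k := by
  rw [← abs_of_pos (hh_sign hpos k), abs_mul, abs_pow, abs_neg, abs_one, one_pow, one_mul]

theorem aOf_succ (k : ℕ) : aOf m (k + 1) = Real.sqrt |hh m (k + 1)| / Real.sqrt |hh m k| := by
  rw [aOf, if_neg (Nat.succ_ne_zero k), ← Real.sqrt_div (abs_nonneg _)]
  congr 1
  have e1 := hh_eq (hD_of hpos (k + 1))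
  have e2 := hh_eq (hD_of hpos k)
  have hk := hD_of hpos k
  have hk1 := hD_of hpos (k + 1)
  have hh0 := hh_ne (hD_of hpos) k
  rw [abs_hh hpos, abs_hh hpos, pow_succ]
  rw [show k + 1 - 1 = k from rfl, ← e1, ← e2]
  have hp : ((-1 : ℝ) ^ k) ≠ 0 := pow_ne_zero _ (by norm_num)
  field_simp
  rw [pow_succ]
  ring

end sign

/-- normalised polynomials in the variable `-x` -/
noncomputable def R (m : ℕ → ℝ) (k : ℕ) : ℝ[X] := C ((-1) ^ k / Real.sqrt |hh m k|) * Q m k

theorem R_natDegree_lt (m : ℕ → ℝ) {k N : ℕ} (h : k < N) : (R m k).natDegree < N :=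
  lt_of_le_of_lt (Polynomial.natDegree_C_mul_le _ _) (Q_natDegree_lt m h)

section sign
variable {m : ℕ → ℝ} (hpos : ∀ N, 0 < sg N * hank m N)
include hpos

theorem Phi_R (j k : ℕ) : Phi m (R m j * R m k) = if j = k then (-1) ^ j else 0 := by
  have e : R m j * R m k = (((-1) ^ j / Real.sqrt |hh m j|) * ((-1) ^ k / Real.sqrt |hh m k|)) •
      (Q m j * Q m k) := by
    rw [R, R, Polynomial.smul_eq_C_mul, C_mul]; ring
  rw [e, map_smul]
  by_cases h : j = k
  · subst h
    rw [if_pos rfl, Phi_Q_self (hD_of hpos), smul_eq_mul]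
    have h0 : 0 < |hh m j| := abs_pos.2 (hh_ne (hD_of hpos) j)
    have h1 : Real.sqrt |hh m j| * Real.sqrt |hh m j| = |hh m j| := Real.mul_self_sqrt h0.le
    have h2 : ((-1 : ℝ) ^ j / Real.sqrt |hh m j|) * ((-1) ^ j / Real.sqrt |hh m j|) =
        1 / |hh m j| := by
      rw [div_mul_div_comm, h1, ← pow_add, ← two_mul, pow_mul, neg_one_sq, one_pow]
    rw [h2, abs_hh hpos]
    have h3 := hh_ne (hD_of hpos) j
    have hp : ((-1 : ℝ) ^ j) ≠ 0 := pow_ne_zero _ (by norm_num)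
    have h4 : ((-1 : ℝ) ^ j) * (-1) ^ j = 1 := by
      rw [← pow_add, ← two_mul, pow_mul, neg_one_sq, one_pow]
    field_simp
    rw [sq, h4]
  · rw [if_neg h, Phi_Q_ne (hD_of hpos) h, smul_zero]

theorem R_rec_zero : -(X * R m 0) = aOf m 1 • R m 1 + betaOf m 0 • R m 0 := by
  have h := X_mul_Q_zero (hD_of hpos)
  have h0 : 0 < Real.sqrt |hh m 0| := Real.sqrt_pos.2 (abs_pos.2 (hh_ne (hD_of hpos) 0))
  have h1 : 0 < Real.sqrt |hh m 1| := Real.sqrt_pos.2 (abs_pos.2 (hh_ne (hD_of hpos) 1))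
  rw [R, R, aOf_succ hpos, Polynomial.smul_eq_C_mul, Polynomial.smul_eq_C_mul]
  have e1 : -(X * (C ((-1) ^ 0 / Real.sqrt |hh m 0|) * Q m 0)) =
      C (-((-1) ^ 0 / Real.sqrt |hh m 0|)) * (X * Q m 0) := by
    rw [C_neg]; ring
  rw [e1, h]
  have e2 : C (Real.sqrt |hh m (0 + 1)| / Real.sqrt |hh m 0|) *
      (C ((-1) ^ 1 / Real.sqrt |hh m 1|) * Q m 1) = C (-((-1) ^ 0 / Real.sqrt |hh m 0|)) * Q m 1 := by
    rw [← mul_assoc, ← C_mul]
    congr 2
    field_simp
  rw [e2, C_neg]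
  ring

theorem R_rec_succ (k : ℕ) : -(X * R m (k + 1)) = aOf m (k + 2) • R m (k + 2) +
    betaOf m (k + 1) • R m (k + 1) - aOf m (k + 1) • R m k := by
  have h := X_mul_Q_succ (hD_of hpos) k
  have h0 : 0 < Real.sqrt |hh m k| := Real.sqrt_pos.2 (abs_pos.2 (hh_ne (hD_of hpos) k))
  have h1 : 0 < Real.sqrt |hh m (k + 1)| :=
    Real.sqrt_pos.2 (abs_pos.2 (hh_ne (hD_of hpos) (k + 1)))
  have h2 : 0 < Real.sqrt |hh m (k + 2)| :=
    Real.sqrt_pos.2 (abs_pos.2 (hh_ne (hD_of hpos) (k + 2)))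
  rw [R, R, R, aOf_succ hpos, aOf_succ hpos, Polynomial.smul_eq_C_mul, Polynomial.smul_eq_C_mul,
    Polynomial.smul_eq_C_mul]
  have e1 : -(X * (C ((-1) ^ (k + 1) / Real.sqrt |hh m (k + 1)|) * Q m (k + 1))) =
      C (-((-1) ^ (k + 1) / Real.sqrt |hh m (k + 1)|)) * (X * Q m (k + 1)) := by
    rw [C_neg]; ring
  rw [e1, h]
  have e2 : C (Real.sqrt |hh m (k + 1 + 1)| / Real.sqrt |hh m (k + 1)|) *
      (C ((-1) ^ (k + 2) / Real.sqrt |hh m (k + 2)|) * Q m (k + 2)) =
      C (-((-1) ^ (k + 1) / Real.sqrt |hh m (k + 1)|)) * Q m (k + 2) := by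
    rw [← mul_assoc, ← C_mul]
    congr 2
    field_simp
    rw [pow_succ (-1 : ℝ) (k + 1)]
    ring
  have e3 : C (Real.sqrt |hh m (k + 1)| / Real.sqrt |hh m k|) *
      (C ((-1) ^ k / Real.sqrt |hh m k|) * Q m k) =
      -(C (-((-1) ^ (k + 1) / Real.sqrt |hh m (k + 1)|)) *
        (C (hh m (k + 1) / hh m k) * Q m k)) := by
    rw [← mul_assoc, ← mul_assoc, ← C_mul, ← C_mul, ← neg_mul, ← C_neg]
    congr 2
    have s0 : Real.sqrt |hh m k| ^ 2 = (-1) ^ k * hh m k := by
      rw [Real.sq_sqrt (abs_nonneg _), abs_hh hpos]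
    have s1 : Real.sqrt |hh m (k + 1)| ^ 2 = (-1) ^ (k + 1) * hh m (k + 1) := by
      rw [Real.sq_sqrt (abs_nonneg _), abs_hh hpos]
    have n0 := hh_ne (hD_of hpos) k
    have n1 := hh_ne (hD_of hpos) (k + 1)
    have h4 : ((-1 : ℝ) ^ k) * (-1) ^ k = 1 := by
      rw [← pow_add, ← two_mul, pow_mul, neg_one_sq, one_pow]
    field_simp
    rw [s0, s1]
    ring
  rw [e2, e3, C_neg]
  ring

end sign

/-! ### The Gram matrix -/

theorem Phi_cast (m : ℕ → ℝ) (p : ℝ[X]) :
    Phi (fun i => ((m i : ℝ) : ℂ)) p = ((Phi m p : ℝ) : ℂ) := by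
  rw [Phi_eq_sum _ p (Nat.lt_succ_self _), Phi_eq_sum _ p (Nat.lt_succ_self _)]
  push_cast
  refine Finset.sum_congr rfl fun i _ => ?_
  rw [Complex.real_smul]
  simp

theorem iteratedDeriv_add' (f : ℂ → ℂ) (n i : ℕ) :
    iteratedDeriv n (iteratedDeriv i f) = iteratedDeriv (n + i) f := by
  rw [iteratedDeriv_eq_iterate, iteratedDeriv_eq_iterate, iteratedDeriv_eq_iterate,
    Function.iterate_add_apply]

theorem differentiable_iteratedDeriv {f : ℂ → ℂ} (hf : Differentiable ℂ f) (i : ℕ) :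
    Differentiable ℂ (iteratedDeriv i f) := by
  have h : ContDiff ℂ ⊤ f := hf.contDiff
  exact h.differentiable_iteratedDeriv i (by exact_mod_cast WithTop.coe_lt_top _)

theorem hasSum_Phi {f : ℂ → ℂ} (hf : Differentiable ℂ f) (c : ℂ) {m : ℕ → ℂ}
    (hm : ∀ k, iteratedDeriv k f c = m k) (t : ℂ) (p : ℝ[X]) :
    HasSum (fun n : ℕ => t ^ n / (n.factorial : ℂ) * Phi m (X ^ n * p))
      (Phi (fun i => iteratedDeriv i f (c + t)) p) := by
  have h1 : ∀ i : ℕ, HasSum (fun n : ℕ => t ^ n / (n.factorial : ℂ) * m (n + i))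
      (iteratedDeriv i f (c + t)) := by
    intro i
    have h2 := Complex.hasSum_taylorSeries_of_entire (differentiable_iteratedDeriv hf i) c (c + t)
    have h5 : (fun n : ℕ => t ^ n / (n.factorial : ℂ) * m (n + i)) = fun n : ℕ =>
        ((n.factorial : ℂ))⁻¹ • (c + t - c) ^ n • iteratedDeriv n (iteratedDeriv i f) c := by
      funext n
      rw [iteratedDeriv_add', hm, add_sub_cancel_left, smul_eq_mul, smul_eq_mul]
      ring
    rw [h5]
    exact h2
  rw [Phi_eq_sum _ p (Nat.lt_succ_self _)]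
  have h3 : (fun n : ℕ => t ^ n / (n.factorial : ℂ) * Phi m (X ^ n * p)) =
      fun n : ℕ => ∑ i ∈ Finset.range (p.natDegree + 1),
        p.coeff i • (t ^ n / (n.factorial : ℂ) * m (n + i)) := by
    funext n
    rw [Phi_X_pow_mul, Phi_eq_sum _ p (Nat.lt_succ_self _), Finset.mul_sum]
    refine Finset.sum_congr rfl fun i _ => ?_
    rw [mul_smul_comm]
  rw [h3]
  exact hasSum_sum fun i _ => (h1 i).const_smul _

section final
variable {m : ℕ → ℝ} (hpos : ∀ N, 0 < sg N * hank m N)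
include hpos

theorem Jcol_eq (n k j : ℕ) :
    Jcol (betaOf m) (aOf m) n k j =
      (((-1) ^ (j + n) * Phi m (X ^ n * (R m j * R m k)) : ℝ) : ℂ) := by
  induction n generalizing j with
  | zero =>
    rw [pow_zero, one_mul, Phi_R hpos, Jcol, add_zero]
    by_cases h : j = k
    · subst h
      rw [Pi.single_eq_same, if_pos rfl, ← pow_add, ← two_mul, pow_mul, neg_one_sq, one_pow]
      simp
    · rw [Pi.single_eq_of_ne h, if_neg h]
      simp
  | succ n ih =>
    rw [Jcol, Jop, ih j, ih (j + 1)]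
    have e0 : X ^ (n + 1) * (R m j * R m k) = -(X ^ n * (-(X * R m j) * R m k)) := by
      rw [pow_succ]; ring
    rcases j with _ | j
    · rw [if_pos rfl, e0, R_rec_zero hpos]
      have e1 : X ^ n * ((aOf m 1 • R m 1 + betaOf m 0 • R m 0) * R m k) =
          aOf m 1 • (X ^ n * (R m 1 * R m k)) + betaOf m 0 • (X ^ n * (R m 0 * R m k)) := by
        rw [Polynomial.smul_eq_C_mul, Polynomial.smul_eq_C_mul, Polynomial.smul_eq_C_mul,
          Polynomial.smul_eq_C_mul]; ring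
      rw [e1, map_neg, map_add, map_smul, map_smul]
      push_cast
      simp only [smul_eq_mul]
      push_cast
      ring
    · rw [if_neg (Nat.succ_ne_zero j), e0, R_rec_succ hpos, Nat.add_sub_cancel, ih j]
      have e1 : X ^ n * ((aOf m (j + 2) • R m (j + 2) + betaOf m (j + 1) • R m (j + 1) -
          aOf m (j + 1) • R m j) * R m k) =
          aOf m (j + 2) • (X ^ n * (R m (j + 2) * R m k)) +
          betaOf m (j + 1) • (X ^ n * (R m (j + 1) * R m k)) -
          aOf m (j + 1) • (X ^ n * (R m j * R m k)) := by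
        simp only [Polynomial.smul_eq_C_mul]; ring
      rw [e1, map_neg, map_sub, map_add, map_smul, map_smul, map_smul]
      push_cast
      simp only [smul_eq_mul]
      push_cast
      ring

theorem EE_eq {f : ℂ → ℂ} (hf : Differentiable ℂ f) (c : ℂ)
    (hm : ∀ k, iteratedDeriv k f c = (m k : ℂ)) (t : ℂ) (j k : ℕ) :
    EE (betaOf m) (aOf m) t j k =
      (-1) ^ j * Phi (fun i => iteratedDeriv i f (c + t)) (R m j * R m k) := by
  rw [EE]
  refine HasSum.tsum_eq ?_
  have h := (hasSum_Phi hf c hm t (R m j * R m k)).mul_left ((-1) ^ j)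
  have hfun : (fun n : ℕ => (-t) ^ n / (n.factorial : ℂ) * Jcol (betaOf m) (aOf m) n k j) =
      fun n : ℕ => (-1) ^ j * (t ^ n / (n.factorial : ℂ) *
        Phi (fun k => (m k : ℂ)) (X ^ n * (R m j * R m k))) := by
    funext n
    rw [Jcol_eq hpos, Phi_cast, Complex.ofReal_mul, neg_pow, pow_add]
    push_cast
    have h4 : ((-1 : ℂ) ^ n) * (-1) ^ n = 1 := by
      rw [← pow_add, ← two_mul, pow_mul, neg_one_sq, one_pow]
    linear_combination (t ^ n / (n.factorial : ℂ) * (-1) ^ j *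
      ((Phi m (X ^ n * (R m j * R m k)) : ℝ) : ℂ)) * h4
  rw [hfun]
  exact h

end final

/-- the coefficient matrix -/
noncomputable def Cm (m : ℕ → ℝ) (N : ℕ) : Matrix (Fin N) (Fin N) ℂ :=
  Matrix.of fun j i => ((R m j).coeff i : ℂ)

def Sm (N : ℕ) : Matrix (Fin N) (Fin N) ℂ := Matrix.diagonal fun j => (-1) ^ (j : ℕ)

theorem Cm_mul (m : ℕ → ℝ) (N : ℕ) (g : ℕ → ℂ) :
    Cm m N * Hm g N * (Cm m N).transpose = Matrix.of fun j k : Fin N => Phi g (R m j * R m k) := by
  ext j k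
  rw [Matrix.of_apply, Phi_mul g _ _ (R_natDegree_lt m j.2) (R_natDegree_lt m k.2),
    Matrix.mul_apply, Finset.sum_comm]
  refine Finset.sum_congr rfl fun l _ => ?_
  rw [Matrix.mul_apply, Finset.sum_mul]
  refine Finset.sum_congr rfl fun i _ => ?_
  rw [Cm, Matrix.of_apply, Matrix.transpose_apply, Matrix.of_apply, Hm, Matrix.of_apply,
    Complex.real_smul]
  push_cast
  ring

end Gram

open Gram

theorem Gram.mat {f : ℂ → ℂ} (hf : Differentiable ℂ f) {c : ℝ} {m : ℕ → ℝ}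
    (hm : ∀ k, iteratedDeriv k f (c : ℂ) = (m k : ℂ)) (hpos : ∀ N, 0 < sg N * hank m N)
    (N : ℕ) (t : ℂ) :
    Cm m N * Hm (fun i => iteratedDeriv i f ((c : ℂ) + t)) N * (Cm m N).transpose =
      Sm N * Em (betaOf m) (aOf m) t N := by
  rw [Cm_mul]
  ext j k
  rw [Sm, Matrix.diagonal_mul, Em, Matrix.of_apply, Matrix.of_apply, EE_eq hpos hf c hm,
    ← mul_assoc, ← pow_add, ← two_mul, pow_mul, neg_one_sq, one_pow, one_mul]

theorem Gram.mat0 {m : ℕ → ℝ} (hpos : ∀ N, 0 < sg N * hank m N) (N : ℕ) :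
    Cm m N * Hm (fun i => (m i : ℂ)) N * (Cm m N).transpose = Sm N := by
  rw [Cm_mul]
  ext j k
  rw [Matrix.of_apply, Phi_cast, Phi_R hpos, Sm, Matrix.diagonal_apply]
  by_cases h : j = k
  · subst h; simp
  · rw [if_neg h, if_neg (fun h' => h (Fin.ext h'))]; simp

theorem Gram.det_Sm_ne (N : ℕ) : (Sm N).det ≠ 0 := by
  rw [Sm, Matrix.det_diagonal]
  exact Finset.prod_ne_zero_iff.2 fun i _ => pow_ne_zero _ (by norm_num)

theorem Gram.hank_cast (m : ℕ → ℝ) (N : ℕ) :
    hank (fun i => (m i : ℂ)) N = ((hank m N : ℝ) : ℂ) := by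
  have h := (Complex.ofRealHom).map_det (Hm m N)
  rw [det_Hm] at h
  rw [show ((hank m N : ℝ) : ℂ) = Complex.ofRealHom (hank m N) from rfl, h]
  rfl

theorem Gram.det0 {m : ℕ → ℝ} (hpos : ∀ N, 0 < sg N * hank m N) (N : ℕ) :
    (Cm m N).det ^ 2 * ((hank m N : ℝ) : ℂ) = (Sm N).det := by
  have h := congrArg Matrix.det (Gram.mat0 hpos N)
  rw [Matrix.det_mul, Matrix.det_mul, Matrix.det_transpose, det_Hm, Gram.hank_cast] at h
  rw [← h]; ring

theorem gram_det (f : ℂ → ℂ) (hf : Differentiable ℂ f) (c : ℝ) (m : ℕ → ℝ)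
    (hm : ∀ k, iteratedDeriv k f (c : ℂ) = (m k : ℂ)) (hpos : ∀ N, 0 < sg N * hank m N)
    {A B : ℝ} (hJ : JB (betaOf m) (aOf m) A B) (N : ℕ) (t : ℂ) :
    hank (fun k => iteratedDeriv k f ((c : ℂ) + t)) N =
      ((hank m N : ℝ) : ℂ) * (Em (betaOf m) (aOf m) t N).det := by
  have h := congrArg Matrix.det (Gram.mat hf hm hpos N t)
  rw [Matrix.det_mul, Matrix.det_mul, Matrix.det_transpose, det_Hm, Matrix.det_mul] at h
  have h0 := Gram.det0 hpos N
  have hC : (Cm m N).det ≠ 0 := by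
    intro hC
    rw [hC] at h0
    exact Gram.det_Sm_ne N (by rw [← h0]; ring)
  have h2 : (Cm m N).det ^ 2 ≠ 0 := pow_ne_zero _ hC
  apply mul_left_cancel₀ h2
  rw [← h0] at h
  linear_combination h

theorem gram_det_add (f : ℂ → ℂ) (hf : Differentiable ℂ f) (c : ℝ) (m : ℕ → ℝ)
    (hm : ∀ k, iteratedDeriv k f (c : ℂ) = (m k : ℂ)) (hpos : ∀ N, 0 < sg N * hank m N)
    {A B : ℝ} (hJ : JB (betaOf m) (aOf m) A B) (N : ℕ) (t θ : ℂ) :
    hank (fun k => iteratedDeriv k f (c : ℂ) + θ * iteratedDeriv k f ((c : ℂ) + t)) N =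
      ((hank m N : ℝ) : ℂ) * (1 + θ • Em (betaOf m) (aOf m) t N).det := by
  have e1 : Hm (fun k => iteratedDeriv k f (c : ℂ) + θ * iteratedDeriv k f ((c : ℂ) + t)) N =
      Hm (fun i => (m i : ℂ)) N + θ • Hm (fun i => iteratedDeriv i f ((c : ℂ) + t)) N := by
    ext j k
    simp only [Hm, Matrix.of_apply, Matrix.add_apply, Matrix.smul_apply, smul_eq_mul, hm]
  have h1 : Cm m N * Hm (fun k => iteratedDeriv k f (c : ℂ) +
      θ * iteratedDeriv k f ((c : ℂ) + t)) N * (Cm m N).transpose =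
      Sm N * (1 + θ • Em (betaOf m) (aOf m) t N) := by
    rw [e1, mul_add, add_mul, Gram.mat0 hpos, Matrix.mul_smul, Matrix.smul_mul,
      Gram.mat hf hm hpos, mul_add, mul_one, Matrix.mul_smul]
  have h := congrArg Matrix.det h1
  rw [Matrix.det_mul, Matrix.det_mul, Matrix.det_transpose, det_Hm, Matrix.det_mul] at h
  have h0 := Gram.det0 hpos N
  have hC : (Cm m N).det ≠ 0 := by
    intro hC
    rw [hC] at h0
    exact Gram.det_Sm_ne N (by rw [← h0]; ring)
  have h2 : (Cm m N).det ^ 2 ≠ 0 := pow_ne_zero _ hC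
  apply mul_left_cancel₀ h2
  rw [← h0] at h
  linear_combination h

theorem gram_vec (f : ℂ → ℂ) (hf : Differentiable ℂ f) (c : ℝ) (m : ℕ → ℝ)
    (hm : ∀ k, iteratedDeriv k f (c : ℂ) = (m k : ℂ)) (hpos : ∀ N, 0 < sg N * hank m N)
    {A B : ℝ} (hJ : JB (betaOf m) (aOf m) A B) :
    ∃ v : ℕ → ℝ, Jop (betaOf m) (aOf m) (fun j => (((-1) ^ j * v j : ℝ) : ℂ)) = 0 ∧
      ∀ (N : ℕ) (t : ℂ), 1 ≤ N → hank (fun k => iteratedDeriv (k + 2) f ((c : ℂ) + t)) (N - 1) =
        ((hank m N : ℝ) : ℂ) * ∑ j : Fin N, ∑ k : Fin N,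
          (v j : ℂ) * (Em (betaOf m) (aOf m) t N).adjugate j k * (((-1) ^ (k : ℕ) * v k : ℝ) : ℂ) := by
  refine ⟨fun j => (Gram.R m j).coeff 0, ?_, ?_⟩
  · funext j
    rw [Pi.zero_apply, Jop]
    rcases j with _ | j
    · rw [if_pos rfl]
      have h := congrArg (fun p : Polynomial ℝ => p.coeff 0) (Gram.R_rec_zero hpos)
      simp only [Polynomial.coeff_neg, Polynomial.coeff_X_mul_zero, Polynomial.coeff_add,
        Polynomial.coeff_smul, smul_eq_mul, neg_zero] at h
      rw [← Complex.ofReal_mul, ← Complex.ofReal_mul, add_zero, ← Complex.ofReal_sub,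
        ← Complex.ofReal_zero, Complex.ofReal_inj]
      rw [pow_zero, one_mul, zero_add, pow_one]
      linarith
    · rw [if_neg (Nat.succ_ne_zero j), Nat.add_sub_cancel]
      have h := congrArg (fun p : Polynomial ℝ => p.coeff 0) (Gram.R_rec_succ hpos j)
      simp only [Polynomial.coeff_neg, Polynomial.coeff_X_mul_zero, Polynomial.coeff_add,
        Polynomial.coeff_sub, Polynomial.coeff_smul, smul_eq_mul, neg_zero] at h
      rw [← Complex.ofReal_mul, ← Complex.ofReal_mul, ← Complex.ofReal_mul, ← Complex.ofReal_add,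
        ← Complex.ofReal_sub, ← Complex.ofReal_zero, Complex.ofReal_inj]
      rw [pow_succ, pow_succ]
      linear_combination ((-1) ^ j) * h
  · intro N t hN
    obtain ⟨n, rfl⟩ : ∃ n, N = n + 1 := ⟨N - 1, by omega⟩
    set H := Hm (fun i => iteratedDeriv i f ((c : ℂ) + t)) (n + 1) with hH
    set E := Em (betaOf m) (aOf m) t (n + 1) with hE
    set K := Cm m (n + 1) with hK
    set S := Sm (n + 1) with hS
    have h1 : K * H * K.transpose = S * E := Gram.mat hf hm hpos (n + 1) t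
    have h2 := congrArg Matrix.adjugate h1
    rw [Matrix.adjugate_mul_distrib, Matrix.adjugate_mul_distrib, Matrix.adjugate_mul_distrib] at h2
    -- `h2 : adj Kᵀ * (adj H * adj K) = adj E * adj S`
    have h3 : K.transpose * (E.adjugate * S.adjugate) * K = (K.det ^ 2) • H.adjugate := by
      rw [← h2, ← mul_assoc, Matrix.mul_adjugate, mul_assoc, mul_assoc, Matrix.adjugate_mul,
        Matrix.det_transpose]
      simp only [Matrix.smul_mul, Matrix.mul_smul, one_mul, mul_one, smul_smul, sq]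
    have h4 : S.adjugate = S.det • S := by
      have h5 : S * S = 1 := by
        rw [hS, Sm, Matrix.diagonal_mul_diagonal, ← Matrix.diagonal_one]
        congr 1
        funext j
        rw [← pow_add, ← two_mul, pow_mul, neg_one_sq, one_pow]
      calc S.adjugate = S.adjugate * (S * S) := by rw [h5, mul_one]
        _ = S.det • S := by rw [← mul_assoc, Matrix.adjugate_mul, Matrix.smul_mul, one_mul]
    have h0 := Gram.det0 hpos (n + 1)
    rw [← hK, ← hS] at h0
    have hC : K.det ≠ 0 := by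
      intro hC
      rw [hC] at h0
      exact Gram.det_Sm_ne (n + 1) (by rw [← hS, ← h0]; ring)
    have h6 : H.adjugate 0 0 = hank (fun k => iteratedDeriv (k + 2) f ((c : ℂ) + t)) n := by
      rw [Matrix.adjugate_fin_succ_eq_det_submatrix]
      simp only [Fin.val_zero, add_zero, pow_zero, one_mul]
      rw [hank]
      congr 1
      ext i l
      rw [Matrix.submatrix_apply, hH, Hm, Matrix.of_apply, Matrix.of_apply, Fin.zero_succAbove,
        Fin.zero_succAbove, Fin.val_succ, Fin.val_succ]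
      congr 1
      omega
    rw [Nat.add_sub_cancel, ← h6]
    have h7 := congrFun (congrFun h3 0) 0
    rw [h4, Matrix.smul_apply, ← h0, smul_eq_mul] at h7
    apply mul_left_cancel₀ (pow_ne_zero 2 hC)
    rw [← h7]
    have h8 : (K.transpose * (E.adjugate * ((K.det ^ 2 * ((hank m (n + 1) : ℝ) : ℂ)) • S)) * K) 0 0 =
        (K.det ^ 2 * ((hank m (n + 1) : ℝ) : ℂ)) *
          (K.transpose * (E.adjugate * S) * K) 0 0 := by
      rw [Matrix.mul_smul, Matrix.mul_smul, Matrix.smul_mul, Matrix.smul_apply, smul_eq_mul]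
    rw [h8, mul_assoc]
    congr 2
    rw [Matrix.mul_apply, Finset.sum_comm]
    refine Finset.sum_congr rfl fun k _ => ?_
    rw [Matrix.mul_apply, Finset.sum_mul]
    refine Finset.sum_congr rfl fun j _ => ?_
    rw [hS, Sm, Matrix.mul_diagonal, Matrix.transpose_apply, hK, Cm, Matrix.of_apply,
      Matrix.of_apply, Fin.val_zero]
    push_cast
    ring

end Pool.Agent.Helper55.BD
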