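import Mathlib

/-! Auxiliary real analysis for Module K. -/

open Set Filter Topology MeasureTheory

namespace Pool.Agent.Helper55.BD

/-- ultrafilter limit -/
noncomputable def ul (U : Ultrafilter ℕ) (F : ℕ → ℝ) : ℝ := limUnder (U : Filter ℕ) F

theorem ul_tendsto (U : Ultrafilter ℕ) {F : ℕ → ℝ} {K : ℝ}
    (h : ∀ᶠ N in (U : Filter ℕ), |F N| ≤ K) : Tendsto F U (𝓝 (ul U F)) := by
  have h1 : (Icc (-K) K) ∈ (U.map F) := by
    rw [Ultrafilter.mem_map]
    filter_upwards [h] with N hN
    exact abs_le.1 hN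
  obtain ⟨x, _, hx⟩ := (isCompact_Icc (a := -K) (b := K)).ultrafilter_le_nhds' (U.map F) h1
  exact tendsto_nhds_limUnder ⟨x, hx⟩

theorem taylor_bound {F G H : ℝ → ℝ} {x δ K : ℝ}
    (hF : ∀ y, |y - x| < δ → HasDerivAt F (G y) y) (hG : ∀ y, |y - x| < δ → HasDerivAt G (H y) y)
    (hH : ∀ y, |y - x| < δ → |H y| ≤ K) {h : ℝ} (hh : |h| < δ) :
    |F (x + h) - F x - h * G x| ≤ K * h ^ 2 := by
  have hδ : 0 < δ := lt_of_le_of_lt (abs_nonneg h) hh
  have hK : 0 ≤ K := (abs_nonneg _).trans (hH x (by simpa using hδ))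
  set s : Set ℝ := Metric.closedBall x |h| with hs
  have hsδ : ∀ y ∈ s, |y - x| < δ := by
    intro y hy
    rw [hs, Metric.mem_closedBall, Real.dist_eq] at hy
    exact lt_of_le_of_lt hy hh
  have hconv : Convex ℝ s := convex_closedBall x _
  have hxs : x ∈ s := by simp [hs]
  have hxh : x + h ∈ s := by simp [hs]
  have h1 : ∀ y ∈ s, ‖G y - G x‖ ≤ K * |h| := by
    intro y hy
    have h2 := hconv.norm_image_sub_le_of_norm_hasDerivWithin_le (f := G) (f' := H) (C := K)
      (fun z hz => (hG z (hsδ z hz)).hasDerivWithinAt) (fun z hz => hH z (hsδ z hz)) hxs hy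
    refine h2.trans (mul_le_mul_of_nonneg_left ?_ hK)
    rw [hs, Metric.mem_closedBall, Real.dist_eq] at hy
    exact hy
  have h3 := hconv.norm_image_sub_le_of_norm_hasDerivWithin_le (f := fun y => F y - y * G x)
      (f' := fun y => G y - G x) (C := K * |h|)
      (fun z hz => by
        have := (hF z (hsδ z hz)).sub ((hasDerivAt_id z).mul_const (G x))
        simp only [id, one_mul] at this
        exact this.hasDerivWithinAt) h1 hxs hxh
  rw [Real.norm_eq_abs, Real.norm_eq_abs, add_sub_cancel_left] at h3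
  calc |F (x + h) - F x - h * G x| = |F (x + h) - (x + h) * G x - (F x - x * G x)| := by
        congr 1; ring
    _ ≤ K * |h| * |h| := h3
    _ = K * h ^ 2 := by rw [mul_assoc, ← sq, sq_abs]

theorem ul_hasDerivAt (U : Ultrafilter ℕ) (F G H : ℕ → ℝ → ℝ) (f : ℝ → ℝ) (g x δ K : ℝ)
    (hδ : 0 < δ)
    (hF : ∀ᶠ N in (U : Filter ℕ), ∀ y, |y - x| < δ → HasDerivAt (F N) (G N y) y)
    (hG : ∀ᶠ N in (U : Filter ℕ), ∀ y, |y - x| < δ → HasDerivAt (G N) (H N y) y)
    (hH : ∀ᶠ N in (U : Filter ℕ), ∀ y, |y - x| < δ → |H N y| ≤ K)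
    (hf : ∀ y, |y - x| < δ → Tendsto (fun N => F N y) U (𝓝 (f y)))
    (hg : Tendsto (fun N => G N x) U (𝓝 g)) : HasDerivAt f g x := by
  have key : ∀ h : ℝ, |h| < δ → |f (x + h) - f x - h * g| ≤ K * h ^ 2 := by
    intro h hh
    have h1 : Tendsto (fun N => |F N (x + h) - F N x - h * G N x|) U
        (𝓝 |f (x + h) - f x - h * g|) := by
      refine (((hf (x + h) (by simpa using hh)).sub (hf x (by simpa using hδ))).sub
        (hg.const_mul h)).abs
    refine le_of_tendsto h1 ?_
    filter_upwards [hF, hG, hH] with N h2 h3 h4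
    exact taylor_bound h2 h3 h4 hh
  rw [hasDerivAt_iff_isLittleO_nhds_zero]
  have hO : (fun h : ℝ => f (x + h) - f x - h • g) =O[𝓝 0] fun h : ℝ => h ^ 2 := by
    refine Asymptotics.IsBigO.of_bound K ?_
    have : ∀ᶠ h : ℝ in 𝓝 0, |h| < δ := by
      have := Metric.ball_mem_nhds (0 : ℝ) hδ
      filter_upwards [this] with h hh
      simpa [Real.dist_eq] using hh
    filter_upwards [this] with h hh
    rw [Real.norm_eq_abs, Real.norm_eq_abs, abs_of_nonneg (sq_nonneg h), smul_eq_mul]
    exact key h hh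
  exact hO.trans_isLittleO (Asymptotics.isLittleO_pow_id one_lt_two)

theorem affine_bdd {v w : ℝ → ℝ} {K : ℝ} (hv : ∀ c, 2 < c → HasDerivAt v (w c) c)
    (hw : ∀ c, 2 < c → HasDerivAt w 0 c) (hK : ∀ c, 2 < c → |v c| ≤ K) {c d : ℝ} (hc : 2 < c)
    (hd : 2 < d) : v c = v d := by
  wlog hcd : c ≤ d generalizing c d
  · exact (this hd hc (by linarith)).symm
  have hw' : ∀ y, c ≤ y → w y = w c := by
    intro y hy
    refine constant_of_has_deriv_right_zero (a := c) (b := y) ?_ ?_ y ⟨hy, le_refl y⟩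
    · intro z hz
      exact (hw z (lt_of_lt_of_le hc hz.1)).continuousAt.continuousWithinAt
    · intro z hz
      exact (hw z (lt_of_lt_of_le hc hz.1)).hasDerivWithinAt
  have hv' : ∀ y, c ≤ y → v y = v c + w c * (y - c) := by
    intro y hy
    have h1 := constant_of_has_deriv_right_zero (f := fun z => v z - z * w c) (a := c) (b := y)
      (by
        intro z hz
        exact ((hv z (lt_of_lt_of_le hc hz.1)).continuousAt.sub
          (continuousAt_id.mul continuousAt_const)).continuousWithinAt)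
      (by
        intro z hz
        have h2 := (hv z (lt_of_lt_of_le hc hz.1)).sub ((hasDerivAt_id z).mul_const (w c))
        simp only [id, one_mul] at h2
        rw [hw' z hz.1, sub_self] at h2
        exact h2.hasDerivWithinAt) y ⟨hy, le_refl y⟩
    linarith
  have hw0 : w c = 0 := by
    by_contra hne
    have habs : 0 < |w c| := abs_pos.2 hne
    have hK0 : 0 ≤ K := (abs_nonneg _).trans (hK c hc)
    have hy : c ≤ c + (2 * K + 1) / |w c| := by
      have : 0 ≤ (2 * K + 1) / |w c| := by positivity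
      linarith
    have h1 := hv' _ hy
    have h2 := hK _ (lt_of_lt_of_le hc hy)
    have h3 := hK c hc
    have h4 : |w c * (c + (2 * K + 1) / |w c| - c)| = 2 * K + 1 := by
      rw [add_sub_cancel_left, abs_mul, abs_div, abs_abs, abs_of_pos (show 0 < 2 * K + 1 by linarith)]
      field_simp
    have h5 : w c * (c + (2 * K + 1) / |w c| - c) = v (c + (2 * K + 1) / |w c|) - v c := by
      linarith
    rw [h5] at h4
    have h6 := abs_sub (v (c + (2 * K + 1) / |w c|)) (v c)
    linarith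
  have := hv' d hcd
  rw [hw0, zero_mul, add_zero] at this
  exact this.symm

/-- shift by an integer -/
def sgm (i : ℤ) (N : ℕ) : ℕ := ((N : ℤ) + i).toNat

theorem sgm_zero (N : ℕ) : sgm 0 N = N := by unfold sgm; omega

theorem sgm_succ (i : ℤ) {N : ℕ} (h : i.natAbs + 5 ≤ N) : sgm (i + 1) N = sgm i N + 1 := by
  unfold sgm; omega

theorem sgm_pred (i : ℤ) {N : ℕ} (h : i.natAbs + 5 ≤ N) : sgm i N = sgm (i - 1) N + 1 := by
  unfold sgm; omega

theorem sgm_tendsto (i : ℤ) : Tendsto (sgm i) atTop atTop := by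
  rw [tendsto_atTop]
  intro b
  filter_upwards [eventually_ge_atTop (b + i.natAbs)] with N hN
  unfold sgm; omega

end Pool.Agent.Helper55.BD
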