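import Pool.Agent.Helper55.BD.Ratio
import Pool.Agent.Helper55.BD.LimAux

/-! Module K, first part: facts at finite level and independence of `s`. -/

open Set Filter Topology MeasureTheory

namespace Pool.Agent.Helper55.BD

open Pool.Agent.Helper28.Eta (eta sg vdm mup nu)

/-! ### Derivatives at finite level -/

theorem TT_hd (s N : ℕ) {c : ℝ} (hc : 0 < c) : HasDerivAt (TT s N) (deriv (TT s N) c) c :=
  (TT_hasDerivAt s N hc).differentiableAt.hasDerivAt

/-- difference of consecutive `β` -/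
noncomputable def db (s N : ℕ) (c : ℝ) : ℝ := bet s N c - bet s (N - 1) c

noncomputable def ddb (s N : ℕ) (c : ℝ) : ℝ :=
  (nuu s (N + 1) c - nuu s N c) - (nuu s N c - nuu s (N - 1) c)

theorem nuu_zero (s : ℕ) (c : ℝ) : nuu s 0 c = 0 := by simp [nuu]

theorem nuu_hd (s N : ℕ) {c : ℝ} (hc : 0 < c) :
    HasDerivAt (nuu s N) (-(nuu s N c * db s N c)) c := by
  rcases Nat.eq_zero_or_pos N with h | h
  · subst h
    have h1 : nuu s 0 = fun _ => 0 := by funext c; exact nuu_zero s c
    rw [nuu_zero, zero_mul, neg_zero, h1]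
    exact hasDerivAt_const c 0
  · obtain ⟨n, rfl⟩ : ∃ n, N = n + 1 := ⟨N - 1, by omega⟩
    exact nuu_hasDerivAt s n hc

theorem db_hd (s N : ℕ) (hN : 1 ≤ N) {c : ℝ} (hc : 0 < c) :
    HasDerivAt (db s N) (ddb s N c) c := by
  obtain ⟨n, rfl⟩ : ∃ n, N = n + 1 := ⟨N - 1, by omega⟩
  exact (bet_hasDerivAt s (n + 1) hc).sub (bet_hasDerivAt s n hc)

theorem dnu_hd (s N : ℕ) (hN : 1 ≤ N) {c : ℝ} (hc : 0 < c) :
    HasDerivAt (fun c => -(nuu s N c * db s N c))
      (-(-(nuu s N c * db s N c) * db s N c + nuu s N c * ddb s N c)) c :=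
  ((nuu_hd s N hc).mul (db_hd s N hN hc)).neg

theorem ddb_hd (s N : ℕ) {c : ℝ} (hc : 0 < c) :
    HasDerivAt (ddb s N) ((-(nuu s (N + 1) c * db s (N + 1) c) - -(nuu s N c * db s N c)) -
      (-(nuu s N c * db s N c) - -(nuu s (N - 1) c * db s (N - 1) c))) c :=
  ((nuu_hd s (N + 1) hc).sub (nuu_hd s N hc)).sub ((nuu_hd s N hc).sub (nuu_hd s (N - 1) hc))

theorem fin_bounds (s : ℕ) : ∃ K : ℝ, 0 ≤ K ∧ ∀ (N : ℕ) (c : ℝ), 2 ≤ c →
    |nuu s N c| ≤ K ∧ |db s N c| ≤ K := by
  obtain ⟨C, hC⟩ := nuu_le s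
  obtain ⟨B, hB⟩ := bet_log s
  refine ⟨|C| + (2 * |B| + Real.log 2), by have := Real.log_nonneg (one_le_two (α := ℝ)); positivity,
    fun N c hc => ⟨?_, ?_⟩⟩
  · rw [abs_of_nonneg (nuu_nonneg s N (by linarith))]
    have := Real.log_nonneg (one_le_two (α := ℝ))
    have h2 := hC N c hc
    have h3 := le_abs_self C
    have h4 := abs_nonneg B
    linarith
  · have hl2 := Real.log_nonneg (one_le_two (α := ℝ))
    have hC0 := abs_nonneg C
    have hB0 := abs_nonneg B
    have hBa := le_abs_self B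
    rcases Nat.eq_zero_or_pos N with h | h
    · subst h
      simp only [db, Nat.zero_sub, sub_self, abs_zero]
      positivity
    · obtain ⟨n, rfl⟩ : ∃ n, N = n + 1 := ⟨N - 1, by omega⟩
      have h1 := abs_le.1 (hB (n + 1) c hc)
      have h2 := abs_le.1 (hB n c hc)
      have h3 : Real.log (((n + 1 : ℕ) : ℝ) + 1) - Real.log ((n : ℝ) + 1) ≤ Real.log 2 := by
        rw [← Real.log_div (by positivity) (by positivity)]
        refine Real.log_le_log (by positivity) ?_
        rw [div_le_iff₀ (by positivity)]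
        push_cast
        have : (0 : ℝ) ≤ n := Nat.cast_nonneg _
        linarith
      have h4 : Real.log ((n : ℝ) + 1) ≤ Real.log (((n + 1 : ℕ) : ℝ) + 1) := by
        refine Real.log_le_log (by positivity) ?_
        push_cast; linarith
      simp only [db, Nat.add_sub_cancel]
      rw [abs_le]
      constructor <;> linarith

theorem ddb_bound {K : ℝ} {s : ℕ} (hK : ∀ (N : ℕ) (c : ℝ), 2 ≤ c →
    |nuu s N c| ≤ K ∧ |db s N c| ≤ K) (N : ℕ) {c : ℝ} (hc : 2 ≤ c) : |ddb s N c| ≤ 4 * K := by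
  have h1 := abs_le.1 (hK (N + 1) c hc).1
  have h2 := abs_le.1 (hK N c hc).1
  have h3 := abs_le.1 (hK (N - 1) c hc).1
  unfold ddb
  rw [abs_le]
  constructor <;> linarith

theorem abs_mul_le {a b K : ℝ} (hK : 0 ≤ K) (ha : |a| ≤ K) (hb : |b| ≤ K) : |a * b| ≤ K ^ 2 := by
  rw [abs_mul, sq]
  exact mul_le_mul ha hb (abs_nonneg _) hK

/-! ### Independence of `s` -/

noncomputable def rh (s N : ℕ) (c : ℝ) : ℝ :=
  tau (s + 1) (N + 1) (c + 1) * tau s N c / (tau (s + 1) N (c + 1) * tau s (N + 1) c)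

theorem rh_pos (s N : ℕ) {c : ℝ} (hc : 0 < c) : 0 < rh s N c := by
  have h1 := tau_pos (s + 1) (N + 1) (show (0 : ℝ) < c + 1 by linarith)
  have h2 := tau_pos (s + 1) N (show (0 : ℝ) < c + 1 by linarith)
  have h3 := tau_pos s (N + 1) hc
  have h4 := tau_pos s N hc
  unfold rh
  positivity

theorem nuu_ratio (s N : ℕ) {c : ℝ} (hc : 0 < c) :
    nuu (s + 1) (N + 1) (c + 1) = nuu s (N + 1) c * (rh s (N + 1) c / rh s N c) := by
  have h1 := (tau_pos (s + 1) (N + 1) (show (0 : ℝ) < c + 1 by linarith)).ne'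
  have h2 := (tau_pos (s + 1) N (show (0 : ℝ) < c + 1 by linarith)).ne'
  have h3 := (tau_pos s (N + 1) hc).ne'
  have h4 := (tau_pos s N hc).ne'
  have h5 := (tau_pos s (N + 1 + 1) hc).ne'
  unfold nuu rh
  simp only [Nat.add_eq_zero_iff, one_ne_zero, and_false, if_false, Nat.add_sub_cancel]
  field_simp

theorem nuu_indep1 (s : ℕ) {c : ℝ} (hc : 2 ≤ c) :
    Tendsto (fun N : ℕ => nuu (s + 1) N (c + 1) - nuu s N c) atTop (𝓝 0) := by
  have hc0 : 0 < c := by linarith
  obtain ⟨K, hK0, hK⟩ := fin_bounds s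
  rw [← tendsto_add_atTop_iff_nat 1]
  have h1 : Tendsto (fun N => rh s N c) atTop (𝓝 1) := ratio_tau s hc
  have h2 : Tendsto (fun N => rh s (N + 1) c) atTop (𝓝 1) :=
    (tendsto_add_atTop_iff_nat (f := fun N => rh s N c) 1).2 h1
  have h3 : Tendsto (fun N => K * |rh s (N + 1) c / rh s N c - 1|) atTop (𝓝 0) := by
    have := ((h2.div h1 one_ne_zero).sub_const 1).abs.const_mul K
    simpa using this
  refine squeeze_zero_norm (fun N => ?_) h3
  rw [nuu_ratio s N hc0, Real.norm_eq_abs,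
    show nuu s (N + 1) c * (rh s (N + 1) c / rh s N c) - nuu s (N + 1) c =
      nuu s (N + 1) c * (rh s (N + 1) c / rh s N c - 1) by ring, abs_mul]
  exact mul_le_mul_of_nonneg_right (hK (N + 1) c hc).1 (abs_nonneg _)

theorem nuu_indep (s n : ℕ) {c : ℝ} (hc : 2 ≤ c) :
    Tendsto (fun N : ℕ => nuu (s + n) N (c + n) - nuu s N c) atTop (𝓝 0) := by
  induction n with
  | zero => simp
  | succ n ih =>
    have hn : (0 : ℝ) ≤ n := Nat.cast_nonneg _
    have h1 := nuu_indep1 (s + n) (c := c + n) (by linarith)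
    have h2 := h1.add ih
    rw [add_zero] at h2
    refine h2.congr fun N => ?_
    push_cast
    rw [show s + n + 1 = s + (n + 1) by ring, show c + (n : ℝ) + 1 = c + ((n : ℝ) + 1) by ring]
    ring

/-- logarithm of `rh` -/
noncomputable def lr (s N : ℕ) (c : ℝ) : ℝ :=
  (TT (s + 1) (N + 1) (c + 1) - TT (s + 1) N (c + 1)) - (TT s (N + 1) c - TT s N c)

theorem lr_eq (s N : ℕ) {c : ℝ} (hc : 0 < c) : lr s N c = Real.log (rh s N c) := by
  have h1 := (tau_pos (s + 1) (N + 1) (show (0 : ℝ) < c + 1 by linarith)).ne'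
  have h2 := (tau_pos (s + 1) N (show (0 : ℝ) < c + 1 by linarith)).ne'
  have h3 := (tau_pos s (N + 1) hc).ne'
  have h4 := (tau_pos s N hc).ne'
  unfold lr rh TT
  rw [Real.log_div (mul_ne_zero h1 h4) (mul_ne_zero h2 h3), Real.log_mul h1 h4, Real.log_mul h2 h3]
  ring

theorem lr_tendsto (s : ℕ) {c : ℝ} (hc : 2 ≤ c) :
    Tendsto (fun N => lr s N c) atTop (𝓝 0) := by
  have h1 : Tendsto (fun N => rh s N c) atTop (𝓝 1) := ratio_tau s hc
  have h2 := h1.log one_ne_zero
  rw [Real.log_one] at h2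
  exact h2.congr fun N => (lr_eq s N (by linarith)).symm

theorem bet_indep1 (s : ℕ) {c : ℝ} (hc : 2 < c) :
    Tendsto (fun N : ℕ => bet (s + 1) N (c + 1) - bet s N c) atTop (𝓝 0) := by
  obtain ⟨B, hB⟩ := bet_log s
  obtain ⟨B', hB'⟩ := bet_log (s + 1)
  obtain ⟨K, hK0, hK⟩ := fin_bounds s
  obtain ⟨K', hK0', hK'⟩ := fin_bounds (s + 1)
  rw [tendsto_iff_ultrafilter]
  intro U hU
  have hbd : ∀ᶠ N in (U : Filter ℕ), |bet (s + 1) N (c + 1) - bet s N c| ≤ B' + B := by
    refine Eventually.of_forall fun N => ?_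
    have h1 := abs_le.1 (hB N c hc.le)
    have h2 := abs_le.1 (hB' N (c + 1) (by linarith))
    rw [abs_le]; constructor <;> linarith
  have h1 := ul_tendsto U hbd
  set g := ul U (fun N => bet (s + 1) N (c + 1) - bet s N c) with hg
  have h2 : HasDerivAt (fun _ : ℝ => (0 : ℝ)) (-g) c := by
    refine ul_hasDerivAt U (fun N => lr s N) (fun N y => -(bet (s + 1) N (y + 1) - bet s N y))
      (fun N y => -((nuu (s + 1) (N + 1) (y + 1) - nuu (s + 1) N (y + 1)) -
        (nuu s (N + 1) y - nuu s N y))) (fun _ => 0) (-g) c (c - 2) (2 * K' + 2 * K)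
      (by linarith) ?_ ?_ ?_ ?_ h1.neg
    · refine Eventually.of_forall fun N y hy => ?_
      have hy2 : 0 < y := by have := (abs_lt.1 hy).1; linarith
      have e1 := (TT_hd (s + 1) (N + 1) (show (0 : ℝ) < y + 1 by linarith)).comp_add_const y 1
      have e2 := (TT_hd (s + 1) N (show (0 : ℝ) < y + 1 by linarith)).comp_add_const y 1
      have e3 := TT_hd s (N + 1) hy2
      have e4 := TT_hd s N hy2
      have e5 := (e1.sub e2).sub (e3.sub e4)
      refine (e5.congr_deriv ?_)
      unfold bet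
      ring
    · refine Eventually.of_forall fun N y hy => ?_
      have hy2 : 0 < y := by have := (abs_lt.1 hy).1; linarith
      have e1 := (bet_hasDerivAt (s + 1) N (show (0 : ℝ) < y + 1 by linarith)).comp_add_const y 1
      exact (e1.sub (bet_hasDerivAt s N hy2)).neg
    · refine Eventually.of_forall fun N y hy => ?_
      have hy2 : 2 ≤ y := by have := (abs_lt.1 hy).1; linarith
      have e1 := abs_le.1 (hK (N + 1) y hy2).1
      have e2 := abs_le.1 (hK N y hy2).1
      have e3 := abs_le.1 (hK' (N + 1) (y + 1) (by linarith)).1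
      have e4 := abs_le.1 (hK' N (y + 1) (by linarith)).1
      rw [abs_le]
      constructor <;> linarith
    · intro y hy
      have hy2 : 2 ≤ y := by have := (abs_lt.1 hy).1; linarith
      exact (lr_tendsto s hy2).mono_left hU
  have h3 := h2.unique (hasDerivAt_const c (0 : ℝ))
  have h4 : g = 0 := by linarith
  rw [h4] at h1
  exact h1

theorem bet_indep (s n : ℕ) {c : ℝ} (hc : 2 < c) :
    Tendsto (fun N : ℕ => bet (s + n) N (c + n) - bet s N c) atTop (𝓝 0) := by
  induction n with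
  | zero => simp
  | succ n ih =>
    have hn : (0 : ℝ) ≤ n := Nat.cast_nonneg _
    have h1 := bet_indep1 (s + n) (c := c + n) (by linarith)
    have h2 := h1.add ih
    rw [add_zero] at h2
    refine h2.congr fun N => ?_
    push_cast
    rw [show s + n + 1 = s + (n + 1) by ring, show c + (n : ℝ) + 1 = c + ((n : ℝ) + 1) by ring]
    ring

theorem tendsto_pred : Tendsto (fun N : ℕ => N - 1) atTop atTop := by
  rw [tendsto_atTop]
  intro b
  filter_upwards [eventually_ge_atTop (b + 1)] with N hN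
  omega

theorem db_indep (s n : ℕ) {c : ℝ} (hc : 2 < c) :
    Tendsto (fun N : ℕ => db (s + n) N (c + n) - db s N c) atTop (𝓝 0) := by
  have h1 := bet_indep s n hc
  have h2 := h1.comp tendsto_pred
  have h3 := h1.sub h2
  rw [sub_zero] at h3
  refine h3.congr fun N => ?_
  simp only [Function.comp_apply, db]
  ring

/-! ### The functions `V` -/

theorem VV_hd (s N : ℕ) {c : ℝ} (hc : 0 < c) :
    HasDerivAt (VV s N) (deriv (TT (s + 1) N) (c + 1) - deriv (TT s N) c) c := by
  have e1 := (TT_hd (s + 1) N (show (0 : ℝ) < c + 1 by linarith)).comp_add_const c 1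
  exact (e1.sub (TT_hd s N hc)).sub_const _

theorem dVV_hd (s N : ℕ) {c : ℝ} (hc : 0 < c) :
    HasDerivAt (fun c => deriv (TT (s + 1) N) (c + 1) - deriv (TT s N) c)
      (-(nuu (s + 1) N (c + 1)) - -(nuu s N c)) c := by
  have e1 := (TT_deriv_hasDerivAt (s + 1) N (show (0 : ℝ) < c + 1 by linarith)).comp_add_const c 1
  exact e1.sub (TT_deriv_hasDerivAt s N hc)

theorem ddVV_hd (s N : ℕ) {c : ℝ} (hc : 0 < c) :
    HasDerivAt (fun c => -(nuu (s + 1) N (c + 1)) - -(nuu s N c))
      (-(-(nuu (s + 1) N (c + 1) * db (s + 1) N (c + 1))) - -(-(nuu s N c * db s N c))) c := by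
  have e1 := (nuu_hd (s + 1) N (show (0 : ℝ) < c + 1 by linarith)).comp_add_const c 1
  exact e1.neg.sub (nuu_hd s N hc).neg

theorem VV_shift (s : ℕ) {c : ℝ} (hc : 2 ≤ c) :
    Tendsto (fun N : ℕ => VV s (N + 1) c - VV s N c) atTop (𝓝 0) := by
  have h1 := lr_tendsto s hc
  have h2 : Tendsto (fun N : ℕ => ((N : ℝ) + 1 + s) / ((N : ℝ) + 1)) atTop (𝓝 1) := by
    have h3 := (tendsto_one_div_add_atTop_nhds_zero_nat (𝕜 := ℝ)).const_mul (s : ℝ)
    have h4 := h3.const_add 1
    rw [mul_zero, add_zero] at h4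
    refine h4.congr fun N => ?_
    have : (N : ℝ) + 1 ≠ 0 := by positivity
    field_simp
  have h5 := h2.log one_ne_zero
  rw [Real.log_one] at h5
  have h6 := h1.sub h5
  rw [sub_zero] at h6
  refine h6.congr fun N => ?_
  have h7 : ((N + 1 + s).choose s : ℝ) * ((N : ℝ) + 1) = ((N + s).choose s : ℝ) * ((N : ℝ) + 1 + s) := by
    have h8 := Nat.choose_mul_succ_eq (N + s) s
    have h9 : N + s + 1 - s = N + 1 := by omega
    rw [h9] at h8
    have h10 : N + 1 + s = N + s + 1 := by ring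
    rw [h10]
    have h11 : (((N + s).choose s * (N + s + 1) : ℕ) : ℝ) =
      (((N + s + 1).choose s * (N + 1) : ℕ) : ℝ) := by rw [h8]
    push_cast at h11
    linarith
  have hp1 : (0 : ℝ) < ((N + 1 + s).choose s : ℝ) := by
    exact_mod_cast Nat.choose_pos (Nat.le_add_left s (N + 1))
  have hp2 : (0 : ℝ) < ((N + s).choose s : ℝ) := by
    exact_mod_cast Nat.choose_pos (Nat.le_add_left s N)
  have h12 : Real.log (((N : ℝ) + 1 + s) / ((N : ℝ) + 1)) =
      Real.log ((N + 1 + s).choose s : ℝ) - Real.log ((N + s).choose s : ℝ) := by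
    rw [← Real.log_div hp1.ne' hp2.ne']
    congr 1
    rw [div_eq_div_iff (by positivity) hp2.ne']
    linarith
  rw [h12]
  unfold VV lr
  ring

theorem VV_const (s : ℕ) {c d : ℝ} (hc : 2 < c) (hd : 2 < d) :
    Tendsto (fun N : ℕ => VV s N c - VV s N d) atTop (𝓝 0) := by
  obtain ⟨B, hB⟩ := VV_deriv_bdd s
  obtain ⟨K, hK0, hK⟩ := fin_bounds s
  obtain ⟨K', hK0', hK'⟩ := fin_bounds (s + 1)
  rw [tendsto_iff_ultrafilter]
  intro U hU
  have hlog2 := Real.log_nonneg (one_le_two (α := ℝ))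
  have hv : ∀ x, 2 < x → Tendsto (fun N => VV s N x) U (𝓝 (ul U fun N => VV s N x)) := by
    intro x hx
    refine ul_tendsto U (K := s * Real.log 2) (Eventually.of_forall fun N => ?_)
    rw [abs_of_nonneg (VV_nonneg s N (by linarith))]
    exact VV_le s N (by linarith)
  have hBd : ∀ N x, 2 ≤ x → |deriv (TT (s + 1) N) (x + 1) - deriv (TT s N) x| ≤ B := by
    intro N x hx
    rw [← (VV_hd s N (show 0 < x by linarith)).deriv]
    exact hB N x hx
  have hw : ∀ x, 2 < x → Tendsto (fun N => deriv (TT (s + 1) N) (x + 1) - deriv (TT s N) x) U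
      (𝓝 (ul U fun N => deriv (TT (s + 1) N) (x + 1) - deriv (TT s N) x)) := by
    intro x hx
    exact ul_tendsto U (K := B) (Eventually.of_forall fun N => hBd N x hx.le)
  have hz : ∀ x, 2 < x → Tendsto (fun N => -(nuu (s + 1) N (x + 1)) - -(nuu s N x)) U (𝓝 0) := by
    intro x hx
    have h1 := ((nuu_indep1 s hx.le).mono_left hU).neg
    rw [neg_zero] at h1
    refine h1.congr fun N => by ring
  have hpos : ∀ x : ℝ, 2 < x → ∀ y : ℝ, |y - x| < x - 2 → 2 < y := by
    intro x _ y hy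
    have := (abs_lt.1 hy).1
    linarith
  have h1 : (ul U fun N => VV s N c) = ul U fun N => VV s N d := by
    refine affine_bdd (v := fun x => ul U fun N => VV s N x)
      (w := fun x => ul U fun N => deriv (TT (s + 1) N) (x + 1) - deriv (TT s N) x)
      (K := s * Real.log 2) ?_ ?_ ?_ hc hd
    · intro x hx
      refine ul_hasDerivAt U (fun N => VV s N)
        (fun N y => deriv (TT (s + 1) N) (y + 1) - deriv (TT s N) y)
        (fun N y => -(nuu (s + 1) N (y + 1)) - -(nuu s N y)) _ _ x (x - 2) (K' + K)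
        (by linarith) ?_ ?_ ?_ ?_ (hw x hx)
      · refine Eventually.of_forall fun N y hy => VV_hd s N ?_
        have := hpos x hx y hy; linarith
      · refine Eventually.of_forall fun N y hy => dVV_hd s N ?_
        have := hpos x hx y hy; linarith
      · refine Eventually.of_forall fun N y hy => ?_
        have h2 := hpos x hx y hy
        have e1 := abs_le.1 (hK N y h2.le).1
        have e2 := abs_le.1 (hK' N (y + 1) (by linarith)).1
        rw [abs_le]; constructor <;> linarith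
      · intro y hy
        exact hv y (hpos x hx y hy)
    · intro x hx
      refine ul_hasDerivAt U (fun N y => deriv (TT (s + 1) N) (y + 1) - deriv (TT s N) y)
        (fun N y => -(nuu (s + 1) N (y + 1)) - -(nuu s N y))
        (fun N y => (-(-(nuu (s + 1) N (y + 1) * db (s + 1) N (y + 1))) -
          -(-(nuu s N y * db s N y)))) _ _ x (x - 2) (K' ^ 2 + K ^ 2)
        (by linarith) ?_ ?_ ?_ ?_ (hz x hx)
      · refine Eventually.of_forall fun N y hy => dVV_hd s N ?_
        have := hpos x hx y hy; linarith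
      · refine Eventually.of_forall fun N y hy => ddVV_hd s N ?_
        have := hpos x hx y hy; linarith
      · refine Eventually.of_forall fun N y hy => ?_
        have h2 := hpos x hx y hy
        have e1 := abs_le.1 (abs_mul_le hK0 (hK N y h2.le).1 (hK N y h2.le).2)
        have e2 := abs_le.1 (abs_mul_le hK0' (hK' N (y + 1) (by linarith)).1
          (hK' N (y + 1) (by linarith)).2)
        rw [abs_le]; constructor <;> linarith
      · intro y hy
        exact hw y (hpos x hx y hy)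
    · intro x hx
      have h2 := (hv x hx).abs
      refine le_of_tendsto h2 (Eventually.of_forall fun N => ?_)
      rw [abs_of_nonneg (VV_nonneg s N (by linarith))]
      exact VV_le s N (by linarith)
  have h2 := (hv c hc).sub (hv d hd)
  rw [h1, sub_self] at h2
  exact h2

end Pool.Agent.Helper55.BD
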