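import Mathlib

/-! Module J (blueprint J): bounded non-negative Toda solutions on R x Z are constant (logarithmic cut-off). -/

open Set Filter Topology MeasureTheory

namespace Pool.Agent.Helper55.BD

namespace Liou

lemma hasDerivAt_posSq (t : ℝ) : HasDerivAt (fun t : ℝ => (max 0 t) ^ 2) (2 * max 0 t) t := by
  rcases lt_trichotomy t 0 with h | h | h
  · have h1 : (fun t : ℝ => (max 0 t) ^ 2) =ᶠ[𝓝 t] fun _ => 0 := by
      filter_upwards [eventually_lt_nhds h] with s hs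
      rw [max_eq_left hs.le]; simp
    rw [max_eq_left h.le, mul_zero]
    exact (hasDerivAt_const t (0:ℝ)).congr_of_eventuallyEq h1
  · subst h
    simp only [max_self, mul_zero]
    rw [hasDerivAt_iff_isLittleO_nhds_zero]
    simp only [zero_add, max_self, smul_zero, sub_zero]
    refine Asymptotics.IsBigO.trans_isLittleO (g := fun h : ℝ => h ^ 2) ?_ ?_
    · refine Asymptotics.IsBigO.of_bound 1 (Eventually.of_forall fun h => ?_)
      rcases le_total h 0 with hh | hh
      · rw [max_eq_left hh]; simp; positivity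
      · rw [max_eq_right hh]; simp
    · exact Asymptotics.isLittleO_pow_id (by norm_num)
  · have h1 : (fun t : ℝ => (max 0 t) ^ 2) =ᶠ[𝓝 t] fun t => t ^ 2 := by
      filter_upwards [eventually_gt_nhds h] with s hs
      rw [max_eq_right hs.le]
    rw [max_eq_right h.le]
    have := (hasDerivAt_pow 2 t)
    simp only [Nat.cast_ofNat, Nat.add_one_sub_one, pow_one] at this
    exact this.congr_of_eventuallyEq h1

noncomputable def rho (i : ℤ) (x : ℝ) : ℝ := 1 + x ^ 2 + (i : ℝ) ^ 2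

lemma rho_ge (i : ℤ) (x : ℝ) : 1 ≤ rho i x := by
  unfold rho; nlinarith [sq_nonneg x, sq_nonneg (i : ℝ)]

lemma rho_pos (i : ℤ) (x : ℝ) : 0 < rho i x := lt_of_lt_of_le one_pos (rho_ge i x)

noncomputable def gg (ε : ℝ) (i : ℤ) (x : ℝ) : ℝ := max 0 (1 - ε * Real.log (rho i x))

noncomputable def gm (ε : ℝ) (i : ℤ) (x : ℝ) : ℝ := -(ε * (2 * x / rho i x))

lemma rho_hasDerivAt (i : ℤ) (x : ℝ) : HasDerivAt (rho i) (2 * x) x := by
  unfold rho
  have := ((hasDerivAt_pow 2 x).const_add 1).add_const ((i : ℝ) ^ 2)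
  simpa using this

lemma rho_cont (i : ℤ) : Continuous (rho i) := by unfold rho; fun_prop

lemma gg_hasDerivAt (ε : ℝ) (i : ℤ) (x : ℝ) :
    HasDerivAt (fun x => gg ε i x ^ 2) (2 * gg ε i x * gm ε i x) x := by
  have h1 : HasDerivAt (fun x => 1 - ε * Real.log (rho i x)) (gm ε i x) x := by
    unfold gm
    exact (((rho_hasDerivAt i x).log (rho_pos i x).ne').const_mul ε).const_sub 1
  exact (hasDerivAt_posSq _).comp x h1

lemma gg_cont (ε : ℝ) (i : ℤ) : Continuous (gg ε i) := by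
  unfold gg
  refine continuous_const.max (continuous_const.sub (continuous_const.mul ?_))
  exact Continuous.log (rho_cont i) fun x => (rho_pos i x).ne'

lemma gm_cont (ε : ℝ) (i : ℤ) : Continuous (gm ε i) := by
  unfold gm
  refine (continuous_const.mul ?_).neg
  exact Continuous.div (by fun_prop) (rho_cont i) fun x => (rho_pos i x).ne'

lemma gg_nonneg (ε : ℝ) (i : ℤ) (x : ℝ) : 0 ≤ gg ε i x := le_max_left _ _

lemma gm_sq (ε : ℝ) (i : ℤ) (x : ℝ) : gm ε i x ^ 2 ≤ 4 * ε ^ 2 / rho i x := by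
  unfold gm
  rw [neg_sq, mul_pow, div_pow, mul_pow]
  have h := rho_pos i x
  have h2 : x ^ 2 ≤ rho i x := by unfold rho; nlinarith [sq_nonneg (i : ℝ)]
  have : 2 ^ 2 * x ^ 2 / rho i x ^ 2 ≤ 4 / rho i x := by
    rw [div_le_div_iff₀ (by positivity) h]
    nlinarith
  calc ε ^ 2 * (2 ^ 2 * x ^ 2 / rho i x ^ 2) ≤ ε ^ 2 * (4 / rho i x) :=
        mul_le_mul_of_nonneg_left this (sq_nonneg _)
    _ = 4 * ε ^ 2 / rho i x := by ring

/-- difference of logs -/
lemma log_diff {a b : ℝ} (ha : 1 ≤ a) (hab : a ≤ b) {k : ℝ} (hk : 0 ≤ k)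
    (hb : b = a + (2 * k + 1)) (hka : 1 + k ^ 2 ≤ a) :
    (Real.log a - Real.log b) ^ 2 ≤ 8 / a := by
  have ha0 : 0 < a := by linarith
  have hb0 : 0 < b := by linarith
  have h1 : Real.log b - Real.log a ≤ (2 * k + 1) / a := by
    rw [← Real.log_div hb0.ne' ha0.ne']
    have := Real.log_le_sub_one_of_pos (div_pos hb0 ha0)
    refine this.trans (le_of_eq ?_)
    rw [hb]; field_simp; ring
  have h0 : 0 ≤ Real.log b - Real.log a := sub_nonneg.2 (Real.log_le_log ha0 hab)
  have h2 : (Real.log a - Real.log b) ^ 2 ≤ ((2 * k + 1) / a) ^ 2 := by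
    rw [← neg_sq, neg_sub]
    exact pow_le_pow_left₀ h0 h1 2
  refine h2.trans ?_
  rw [div_pow, div_le_div_iff₀ (by positivity) ha0]
  nlinarith [sq_nonneg (k - 1), mul_nonneg ha0.le ha0.le]

lemma gg_diff {ε : ℝ} (i : ℤ) (x : ℝ) :
    (gg ε i x - gg ε (i + 1) x) ^ 2 ≤ 8 * ε ^ 2 * (1 / rho i x + 1 / rho (i + 1) x) := by
  have h1 : |gg ε i x - gg ε (i + 1) x| ≤
      |(1 - ε * Real.log (rho i x)) - (1 - ε * Real.log (rho (i + 1) x))| := by
    unfold gg
    rw [max_comm 0, max_comm 0]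
    exact abs_max_sub_max_le_abs _ _ _
  have h2 : (gg ε i x - gg ε (i + 1) x) ^ 2 ≤
      ε ^ 2 * (Real.log (rho i x) - Real.log (rho (i + 1) x)) ^ 2 := by
    rw [← sq_abs (gg ε i x - _)]
    calc |gg ε i x - gg ε (i + 1) x| ^ 2 ≤ _ := pow_le_pow_left₀ (abs_nonneg _) h1 2
      _ = _ := by rw [sq_abs]; ring
  refine h2.trans ?_
  have p1 := rho_pos i x
  have p2 := rho_pos (i + 1) x
  rcases le_or_gt 0 i with hi | hi
  · have hk : (0 : ℝ) ≤ (i : ℝ) := by exact_mod_cast hi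
    have := log_diff (a := rho i x) (b := rho (i + 1) x) (k := (i : ℝ)) (rho_ge i x)
      (by unfold rho; push_cast; nlinarith) hk (by unfold rho; push_cast; ring)
      (by unfold rho; nlinarith [sq_nonneg x])
    calc _ ≤ ε ^ 2 * (8 / rho i x) := mul_le_mul_of_nonneg_left this (sq_nonneg _)
      _ = 8 * ε ^ 2 * (1 / rho i x) := by ring
      _ ≤ _ := by
        apply mul_le_mul_of_nonneg_left _ (by positivity)
        have : 0 < 1 / rho (i + 1) x := by positivity
        linarith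
  · have hk : (0 : ℝ) ≤ -((i : ℝ) + 1) := by
      have : i + 1 ≤ 0 := hi
      have : ((i + 1 : ℤ) : ℝ) ≤ 0 := by exact_mod_cast this
      push_cast at this; linarith
    have := log_diff (a := rho (i + 1) x) (b := rho i x) (k := -((i : ℝ) + 1)) (rho_ge (i + 1) x)
      (by unfold rho; push_cast; nlinarith) hk (by unfold rho; push_cast; ring)
      (by unfold rho; push_cast; nlinarith [sq_nonneg x])
    calc _ = ε ^ 2 * (Real.log (rho (i + 1) x) - Real.log (rho i x)) ^ 2 := by ring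
      _ ≤ ε ^ 2 * (8 / rho (i + 1) x) := mul_le_mul_of_nonneg_left this (sq_nonneg _)
      _ = 8 * ε ^ 2 * (1 / rho (i + 1) x) := by ring
      _ ≤ _ := by
        apply mul_le_mul_of_nonneg_left _ (by positivity)
        have : 0 < 1 / rho i x := by positivity
        linarith

lemma ptwise {C u w p q : ℝ} (hu : 0 ≤ u) (hw : 0 ≤ w) (huC : u ≤ C) (hwC : w ≤ C) 
    (hp : 0 ≤ p) (hq : 0 ≤ q) :
    (p ^ 2 * u - q ^ 2 * w) * (w - u) ≤ C ^ 2 * (p - q) ^ 2 := by
  have h1 : (u + w) ^ 2 ≤ 4 * C ^ 2 := by nlinarith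
  have h2 : (p ^ 2 * u - q ^ 2 * w) * (w - u) =
      -(1/2) * (p ^ 2 + q ^ 2) * (u - w) ^ 2 + (1/2) * ((p - q) * (u + w)) * ((p + q) * (w - u)) := by
    ring
  have h3 : (1/2) * ((p - q) * (u + w)) * ((p + q) * (w - u)) ≤
      (1/4) * ((p - q) * (u + w)) ^ 2 + (1/4) * ((p + q) * (w - u)) ^ 2 := by
    nlinarith [sq_nonneg ((p - q) * (u + w) - (p + q) * (w - u))]
  have h4 : (1/4) * ((p + q) * (w - u)) ^ 2 ≤ (1/2) * (p ^ 2 + q ^ 2) * (u - w) ^ 2 := by
    nlinarith [mul_nonneg (sq_nonneg (p - q)) (sq_nonneg (u - w))]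
  have h5 : (1/4) * ((p - q) * (u + w)) ^ 2 ≤ C ^ 2 * (p - q) ^ 2 := by
    nlinarith [mul_le_mul_of_nonneg_left h1 (sq_nonneg (p - q))]
  rw [h2]; linarith

lemma ptwise2 {C u b p c : ℝ} (hu : 0 ≤ u) (huC : u ≤ C) :
    2 * p * c * (u * b) ≤ (1/2) * (p ^ 2 * (u * b ^ 2)) + 2 * C * c ^ 2 := by
  have h1 : 2 * p * c * (u * b) ≤ (1/2) * (p ^ 2 * (u * b ^ 2)) + 2 * u * c ^ 2 := by
    nlinarith [mul_nonneg hu (sq_nonneg (p * b - 2 * c))]
  have h2 : 2 * u * c ^ 2 ≤ 2 * C * c ^ 2 := by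
    nlinarith [mul_le_mul_of_nonneg_right huC (sq_nonneg c)]
  linarith

lemma int_rho (i : ℤ) {L : ℝ} (hL : 0 ≤ L) :
    ∫ x in (-L)..L, 1 / rho i x ≤ Real.pi / Real.sqrt (1 + (i : ℝ) ^ 2) := by
  set a := Real.sqrt (1 + (i : ℝ) ^ 2) with ha
  have ha0 : 0 < a := by positivity
  have ha2 : a ^ 2 = 1 + (i : ℝ) ^ 2 := Real.sq_sqrt (by positivity)
  have hd : ∀ x ∈ uIcc (-L) L, HasDerivAt (fun x => (1 / a) * Real.arctan (x / a)) (1 / rho i x) x := by
    intro x _
    have h1 : HasDerivAt (fun x : ℝ => x / a) (1 / a) x := (hasDerivAt_id x).div_const a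
    have h2 := (h1.arctan).const_mul (1 / a)
    refine h2.congr_deriv ?_
    have h5 := rho_pos i x
    have h6 : 1 + (x / a) ^ 2 = rho i x / a ^ 2 := by
      unfold rho
      field_simp
      rw [ha2]; ring
    rw [h6]
    field_simp
  have hc : ContinuousOn (fun x => 1 / rho i x) (uIcc (-L) L) :=
    (continuous_const.div (rho_cont i) fun x => (rho_pos i x).ne').continuousOn
  rw [intervalIntegral.integral_eq_sub_of_hasDerivAt hd hc.intervalIntegrable]
  have h3 : Real.arctan (L / a) ≤ Real.pi / 2 := (Real.arctan_lt_pi_div_two _).le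
  have h4 : -(Real.pi / 2) ≤ Real.arctan (-L / a) := (Real.neg_pi_div_two_lt_arctan _).le
  have h5 : Real.arctan (L / a) - Real.arctan (-L / a) ≤ Real.pi := by linarith
  calc 1 / a * Real.arctan (L / a) - 1 / a * Real.arctan (-L / a)
      = (1 / a) * (Real.arctan (L / a) - Real.arctan (-L / a)) := by ring
    _ ≤ (1 / a) * Real.pi := mul_le_mul_of_nonneg_left h5 (by positivity)
    _ = Real.pi / a := by ring

lemma Icc_succ (M : ℕ) : Finset.Icc (-((M + 1 : ℕ) : ℤ)) ((M + 1 : ℕ) : ℤ) =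
    insert (-((M + 1 : ℕ) : ℤ)) (insert ((M + 1 : ℕ) : ℤ) (Finset.Icc (-(M : ℤ)) M)) := by
  ext i
  simp only [Finset.mem_Icc, Finset.mem_insert]
  push_cast
  omega

lemma sum_sqrt (M : ℕ) :
    ∑ i ∈ Finset.Icc (-(M : ℤ)) M, 1 / Real.sqrt (1 + (i : ℝ) ^ 2) ≤ 1 + 2 * (harmonic M : ℝ) := by
  induction M with
  | zero => simp
  | succ M ih =>
    rw [Icc_succ, Finset.sum_insert, Finset.sum_insert, harmonic_succ]
    · have key : ∀ z : ℝ, z ^ 2 = ((M : ℝ) + 1) ^ 2 →
          1 / Real.sqrt (1 + z ^ 2) ≤ ((M : ℝ) + 1)⁻¹ := by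
        intro z hz
        rw [hz, one_div]
        apply inv_anti₀ (by positivity)
        apply Real.le_sqrt_of_sq_le
        linarith
      have k1 := key ((-((M + 1 : ℕ) : ℤ) : ℤ) : ℝ) (by push_cast; ring)
      have k2 := key (((M + 1 : ℕ) : ℤ) : ℝ) (by push_cast; ring)
      push_cast at k1 k2 ⊢
      linarith
    · simp only [Finset.mem_Icc]; push_cast; omega
    · simp only [Finset.mem_Icc, Finset.mem_insert]; push_cast; omega

section main

variable {ν b : ℤ → ℝ → ℝ} {C : ℝ}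

lemma shift_sum {M : ℕ} (a : ℤ → ℝ) (ha : ∀ i : ℤ, (M : ℤ) ≤ |i| → a i = 0) :
    ∑ i ∈ Finset.Icc (-(M : ℤ)) M, a i = ∑ i ∈ Finset.Icc (-(M : ℤ)) M, a (i + 1) := by
  rw [← tsum_eq_sum (L := SummationFilter.unconditional ℤ) (f := a),
    ← tsum_eq_sum (L := SummationFilter.unconditional ℤ) (f := fun i => a (i + 1))]
  · exact ((Equiv.addRight (1 : ℤ)).tsum_eq a).symm
  · intro i hi
    apply ha
    simp only [Finset.mem_Icc, not_and_or, not_le] at hi
    rcases hi with h | h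
    · rw [abs_of_nonpos (by omega)]; omega
    · rw [abs_of_nonneg (by omega)]; omega
  · intro i hi
    apply ha
    simp only [Finset.mem_Icc, not_and_or, not_le] at hi
    rcases hi with h | h
    · rw [abs_of_nonpos (by omega)]; omega
    · rw [abs_of_nonneg (by omega)]; omega

lemma energy (h0 : ∀ i x, 0 ≤ ν i x) (hC : ∀ i x, ν i x ≤ C)
    (hν : ∀ i x, HasDerivAt (ν i) (-(ν i x * b i x)) x)
    (hb : ∀ i x, HasDerivAt (b i) (ν (i + 1) x + ν (i - 1) x - 2 * ν i x) x)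
    {ε L : ℝ} {M : ℕ} (hL : 0 ≤ L)
    (hM : ∀ (i : ℤ) x, (M : ℤ) ≤ |i| → gg ε i x = 0)
    (hL1 : ∀ i : ℤ, gg ε i L = 0) (hL2 : ∀ i : ℤ, gg ε i (-L) = 0) :
    ∑ i ∈ Finset.Icc (-(M : ℤ)) M, ∫ x in (-L)..L, (1/2) * (gg ε i x ^ 2 * (ν i x * b i x ^ 2)) ≤
    ∑ i ∈ Finset.Icc (-(M : ℤ)) M, ∫ x in (-L)..L,
      (8 * C * ε ^ 2 * (1 / rho i x) + 8 * C ^ 2 * ε ^ 2 * (1 / rho i x + 1 / rho (i + 1) x)) := by
  have cν : ∀ i, Continuous (ν i) := fun i =>
    continuous_iff_continuousAt.2 fun x => (hν i x).continuousAt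
  have cb : ∀ i, Continuous (b i) := fun i =>
    continuous_iff_continuousAt.2 fun x => (hb i x).continuousAt
  have cg : ∀ i, Continuous (gg ε i) := fun i => gg_cont ε i
  have cm : ∀ i, Continuous (gm ε i) := fun i => gm_cont ε i
  have cr : ∀ i, Continuous (fun x => 1 / rho i x) := fun i =>
    continuous_const.div (rho_cont i) fun x => (rho_pos i x).ne'
  set S := Finset.Icc (-(M : ℤ)) M
  set D : ℝ → ℝ := fun x => ∑ i ∈ S, gg ε i x ^ 2 * (ν i x * b i x)
  set D' : ℝ → ℝ := fun x => ∑ i ∈ S, (2 * gg ε i x * gm ε i x * (ν i x * b i x) +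
    gg ε i x ^ 2 * (-(ν i x * b i x) * b i x + ν i x * (ν (i + 1) x + ν (i - 1) x - 2 * ν i x)))
  have hD : ∀ x, HasDerivAt D (D' x) x := by
    intro x
    apply HasDerivAt.fun_sum
    intro i _
    exact (gg_hasDerivAt ε i x).mul ((hν i x).mul (hb i x))
  have hD'c : Continuous D' := by
    apply continuous_finsetSum
    intro i _
    have := cν i; have := cν (i + 1); have := cν (i - 1); have := cb i; have := cg i; have := cm i
    fun_prop
  have hI : ∫ x in (-L)..L, D' x = 0 := by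
    rw [intervalIntegral.integral_eq_sub_of_hasDerivAt (fun x _ => hD x)
      (hD'c.intervalIntegrable _ _)]
    simp only [D, hL1, hL2]
    simp
  have hpt : ∀ x, D' x ≤ ∑ i ∈ S, (-((1/2) * (gg ε i x ^ 2 * (ν i x * b i x ^ 2))) +
      (8 * C * ε ^ 2 * (1 / rho i x) + 8 * C ^ 2 * ε ^ 2 * (1 / rho i x + 1 / rho (i + 1) x))) := by
    intro x
    have hsh := shift_sum (M := M) (fun i => gg ε i x ^ 2 * (ν i x * (ν (i - 1) x - ν i x)))
      (fun i hi => by simp [hM i x hi])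
    have e1 : D' x = ∑ i ∈ S, (2 * gg ε i x * gm ε i x * (ν i x * b i x) -
        gg ε i x ^ 2 * (ν i x * b i x ^ 2) +
        (gg ε i x ^ 2 * ν i x - gg ε (i + 1) x ^ 2 * ν (i + 1) x) * (ν (i + 1) x - ν i x)) := by
      have : D' x = ∑ i ∈ S, (2 * gg ε i x * gm ε i x * (ν i x * b i x) -
          gg ε i x ^ 2 * (ν i x * b i x ^ 2) +
          gg ε i x ^ 2 * (ν i x * (ν (i + 1) x - ν i x))) +
          ∑ i ∈ S, gg ε i x ^ 2 * (ν i x * (ν (i - 1) x - ν i x)) := by
        rw [← Finset.sum_add_distrib]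
        apply Finset.sum_congr rfl
        intro i _
        ring
      rw [this, hsh, ← Finset.sum_add_distrib]
      apply Finset.sum_congr rfl
      intro i _
      have : i + 1 - 1 = i := by ring
      simp only [this]
      ring
    rw [e1]
    apply Finset.sum_le_sum
    intro i _
    have p1 := ptwise2 (C := C) (b := b i x) (p := gg ε i x) (c := gm ε i x) (h0 i x) (hC i x)
    have p2 := ptwise (C := C) (h0 i x) (h0 (i + 1) x) (hC i x) (hC (i + 1) x)
      (gg_nonneg ε i x) (gg_nonneg ε (i + 1) x)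
    have p3 := gm_sq ε i x
    have p4 := gg_diff (ε := ε) i x
    have hC0 : 0 ≤ C := (h0 i x).trans (hC i x)
    have p5 : 2 * C * gm ε i x ^ 2 ≤ 8 * C * ε ^ 2 * (1 / rho i x) := by
      calc 2 * C * gm ε i x ^ 2 ≤ 2 * C * (4 * ε ^ 2 / rho i x) :=
            mul_le_mul_of_nonneg_left p3 (by positivity)
        _ = _ := by ring
    have p6 : C ^ 2 * (gg ε i x - gg ε (i + 1) x) ^ 2 ≤
        8 * C ^ 2 * ε ^ 2 * (1 / rho i x + 1 / rho (i + 1) x) := by
      calc C ^ 2 * (gg ε i x - gg ε (i + 1) x) ^ 2 ≤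
          C ^ 2 * (8 * ε ^ 2 * (1 / rho i x + 1 / rho (i + 1) x)) :=
            mul_le_mul_of_nonneg_left p4 (by positivity)
        _ = _ := by ring
    linarith
  have hR : ∫ x in (-L)..L, D' x ≤ ∫ x in (-L)..L,
      ∑ i ∈ S, (-((1/2) * (gg ε i x ^ 2 * (ν i x * b i x ^ 2))) +
      (8 * C * ε ^ 2 * (1 / rho i x) + 8 * C ^ 2 * ε ^ 2 * (1 / rho i x + 1 / rho (i + 1) x))) := by
    apply intervalIntegral.integral_mono (by linarith) (hD'c.intervalIntegrable _ _)
    · apply Continuous.intervalIntegrable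
      apply continuous_finsetSum
      intro i _
      have := cν i; have := cb i; have := cg i; have := cr i; have := cr (i + 1)
      fun_prop
    · exact hpt
  rw [hI, intervalIntegral.integral_finsetSum] at hR
  · have e2 : ∀ i ∈ S, ∫ x in (-L)..L, (-((1/2) * (gg ε i x ^ 2 * (ν i x * b i x ^ 2))) +
      (8 * C * ε ^ 2 * (1 / rho i x) + 8 * C ^ 2 * ε ^ 2 * (1 / rho i x + 1 / rho (i + 1) x))) =
      -(∫ x in (-L)..L, (1/2) * (gg ε i x ^ 2 * (ν i x * b i x ^ 2))) +
      ∫ x in (-L)..L, (8 * C * ε ^ 2 * (1 / rho i x) +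
        8 * C ^ 2 * ε ^ 2 * (1 / rho i x + 1 / rho (i + 1) x)) := by
      intro i _
      have := cν i; have := cb i; have := cg i; have := cr i; have := cr (i + 1)
      rw [← intervalIntegral.integral_neg, ← intervalIntegral.integral_add]
      · apply Continuous.intervalIntegrable; fun_prop
      · apply Continuous.intervalIntegrable; fun_prop
    rw [Finset.sum_congr rfl e2, Finset.sum_add_distrib, Finset.sum_neg_distrib] at hR
    linarith
  · intro i _
    apply Continuous.intervalIntegrable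
    have := cν i; have := cb i; have := cg i; have := cr i; have := cr (i + 1)
    fun_prop


lemma rhs_bound (C : ℝ) (hC : 0 ≤ C) {ε L : ℝ} (hL : 0 ≤ L) (M : ℕ) :
    ∑ i ∈ Finset.Icc (-(M : ℤ)) M, ∫ x in (-L)..L,
      (8 * C * ε ^ 2 * (1 / rho i x) + 8 * C ^ 2 * ε ^ 2 * (1 / rho i x + 1 / rho (i + 1) x)) ≤
    (8 * C + 16 * C ^ 2) * ε ^ 2 * (Real.pi * (1 + 2 * (1 + Real.log ((M : ℝ) + 1)))) := by
  have cr : ∀ i, Continuous (fun x => 1 / rho i x) := fun i =>
    continuous_const.div (rho_cont i) fun x => (rho_pos i x).ne'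
  set S := Finset.Icc (-(M : ℤ)) M
  set S' := Finset.Icc (-((M + 1 : ℕ) : ℤ)) ((M + 1 : ℕ) : ℤ)
  set I : ℤ → ℝ := fun i => ∫ x in (-L)..L, 1 / rho i x with hI
  have hI0 : ∀ i, 0 ≤ I i := by
    intro i
    apply intervalIntegral.integral_nonneg (by linarith)
    intro x _
    have := rho_pos i x
    positivity
  have e1 : ∀ i ∈ S, ∫ x in (-L)..L,
      (8 * C * ε ^ 2 * (1 / rho i x) + 8 * C ^ 2 * ε ^ 2 * (1 / rho i x + 1 / rho (i + 1) x)) =
      8 * C * ε ^ 2 * I i + 8 * C ^ 2 * ε ^ 2 * (I i + I (i + 1)) := by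
    intro i _
    have c1 := cr i
    have c2 := cr (i + 1)
    rw [intervalIntegral.integral_add, intervalIntegral.integral_const_mul,
      intervalIntegral.integral_const_mul, intervalIntegral.integral_add]
    · exact c1.intervalIntegrable _ _
    · exact c2.intervalIntegrable _ _
    · apply Continuous.intervalIntegrable; fun_prop
    · apply Continuous.intervalIntegrable; fun_prop
  rw [Finset.sum_congr rfl e1]
  have hS1 : ∑ i ∈ S, I i ≤ ∑ i ∈ S', I i := by
    apply Finset.sum_le_sum_of_subset_of_nonneg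
    · intro i hi
      simp only [S, S', Finset.mem_Icc] at hi ⊢
      push_cast; omega
    · intro i _ _; exact hI0 i
  have hS2 : ∑ i ∈ S, I (i + 1) ≤ ∑ i ∈ S', I i := by
    rw [← Finset.sum_image (s := S) (g := fun i => i + 1) (f := I) (by
      intro a _ b _ hab; simpa using hab)]
    apply Finset.sum_le_sum_of_subset_of_nonneg
    · intro i hi
      simp only [S, S', Finset.mem_Icc, Finset.mem_image] at hi ⊢
      obtain ⟨j, hj, rfl⟩ := hi
      push_cast; omega
    · intro i _ _; exact hI0 i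
  have hW : ∑ i ∈ S', I i ≤ Real.pi * (1 + 2 * (1 + Real.log ((M : ℝ) + 1))) := by
    have h1 : ∑ i ∈ S', I i ≤ ∑ i ∈ S', Real.pi * (1 / Real.sqrt (1 + (i : ℝ) ^ 2)) := by
      apply Finset.sum_le_sum
      intro i _
      have := int_rho i hL
      rw [mul_one_div]
      exact this
    refine h1.trans ?_
    rw [← Finset.mul_sum]
    apply mul_le_mul_of_nonneg_left _ Real.pi_pos.le
    have h2 := sum_sqrt (M + 1)
    have h3 := harmonic_le_one_add_log (M + 1)
    have h4 : Real.log ((M + 1 : ℕ) : ℝ) = Real.log ((M : ℝ) + 1) := by push_cast; rfl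
    rw [h4] at h3
    refine h2.trans ?_
    linarith
  have e2 : ∑ i ∈ S, (8 * C * ε ^ 2 * I i + 8 * C ^ 2 * ε ^ 2 * (I i + I (i + 1))) =
      (8 * C * ε ^ 2 + 8 * C ^ 2 * ε ^ 2) * ∑ i ∈ S, I i + 8 * C ^ 2 * ε ^ 2 * ∑ i ∈ S, I (i + 1) := by
    rw [Finset.mul_sum, Finset.mul_sum, ← Finset.sum_add_distrib]
    apply Finset.sum_congr rfl
    intro i _
    ring
  rw [e2]
  have k1 := mul_le_mul_of_nonneg_left (hS1.trans hW)
    (show 0 ≤ 8 * C * ε ^ 2 + 8 * C ^ 2 * ε ^ 2 by positivity)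
  have k2 := mul_le_mul_of_nonneg_left (hS2.trans hW)
    (show 0 ≤ 8 * C ^ 2 * ε ^ 2 by positivity)
  linarith

lemma local_bound (h0 : ∀ i x, 0 ≤ ν i x) (hC : ∀ i x, ν i x ≤ C)
    (hν : ∀ i x, HasDerivAt (ν i) (-(ν i x * b i x)) x)
    (hb : ∀ i x, HasDerivAt (b i) (ν (i + 1) x + ν (i - 1) x - 2 * ν i x) x)
    (i : ℤ) {r : ℝ} (hr : 0 < r) {ε : ℝ} (hε : 0 < ε) (hε1 : ε ≤ 1)
    (hsmall : ε * Real.log (1 + r ^ 2 + (i : ℝ) ^ 2) ≤ 1 / 2) :
    ∫ x in (-r)..r, ν i x * b i x ^ 2 ≤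
      8 * ((8 * C + 16 * C ^ 2) * (8 * Real.pi)) * ε := by
  have hC0 : 0 ≤ C := (h0 0 0).trans (hC 0 0)
  have cν : Continuous (ν i) :=
    continuous_iff_continuousAt.2 fun x => (hν i x).continuousAt
  have cb : Continuous (b i) :=
    continuous_iff_continuousAt.2 fun x => (hb i x).continuousAt
  have cg : Continuous (gg ε i) := gg_cont ε i
  set L := Real.exp (1 / (2 * ε)) with hLdef
  have hL0 : 0 < L := Real.exp_pos _
  have hL2' : L ^ 2 = Real.exp (1 / ε) := by
    rw [hLdef, ← Real.exp_nat_mul]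
    congr 1
    field_simp
    norm_num
  set M := ⌈L⌉₊ with hMdef
  have gzero : ∀ (j : ℤ) (x : ℝ), L ^ 2 ≤ rho j x → gg ε j x = 0 := by
    intro j x h
    unfold gg
    rw [max_eq_left]
    have h1 : 1 / ε ≤ Real.log (rho j x) := by
      rw [Real.le_log_iff_exp_le (rho_pos j x), ← hL2']
      exact h
    have h2 : ε * (1 / ε) ≤ ε * Real.log (rho j x) := mul_le_mul_of_nonneg_left h1 hε.le
    rw [mul_one_div_cancel hε.ne'] at h2
    linarith
  have hM : ∀ (j : ℤ) x, (M : ℤ) ≤ |j| → gg ε j x = 0 := by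
    intro j x hj
    apply gzero
    have h1 : L ≤ |(j : ℝ)| := by
      have h2 : (M : ℝ) ≤ |(j : ℝ)| := by exact_mod_cast hj
      exact (Nat.le_ceil L).trans h2
    have h2 : L ^ 2 ≤ (j : ℝ) ^ 2 := by
      rw [← sq_abs (j : ℝ)]
      exact pow_le_pow_left₀ hL0.le h1 2
    unfold rho
    nlinarith [sq_nonneg x]
  have hL1 : ∀ j : ℤ, gg ε j L = 0 := by
    intro j
    apply gzero
    unfold rho
    nlinarith [sq_nonneg (j : ℝ)]
  have hL2 : ∀ j : ℤ, gg ε j (-L) = 0 := by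
    intro j
    apply gzero
    unfold rho
    nlinarith [sq_nonneg (j : ℝ)]
  have hE := (energy h0 hC hν hb (ε := ε) (L := L) (M := M) hL0.le hM hL1 hL2).trans
    (rhs_bound C hC0 hL0.le M)
  -- log bound
  have hlog : 1 + 2 * (1 + Real.log ((M : ℝ) + 1)) ≤ 8 / ε := by
    have h1 : (M : ℝ) + 1 ≤ 3 * L := by
      have h2 : (M : ℝ) < L + 1 := Nat.ceil_lt_add_one hL0.le
      have h3 : 1 ≤ L := by
        rw [hLdef]; exact Real.one_le_exp (by positivity)
      linarith
    have h4 : Real.log ((M : ℝ) + 1) ≤ Real.log 3 + 1 / (2 * ε) := by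
      calc Real.log ((M : ℝ) + 1) ≤ Real.log (3 * L) := Real.log_le_log (by positivity) h1
        _ = Real.log 3 + 1 / (2 * ε) := by
          rw [Real.log_mul (by norm_num) hL0.ne', hLdef, Real.log_exp]
    have h5 : Real.log 3 ≤ 2 := by
      have := Real.log_le_sub_one_of_pos (show (0 : ℝ) < 3 by norm_num)
      linarith
    have h6 : 1 ≤ 1 / ε := by rw [le_div_iff₀ hε]; linarith
    have h7 : 1 / (2 * ε) = (1 / ε) / 2 := by field_simp
    have h8 : 8 / ε = 8 * (1 / ε) := by ring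
    rw [h8]
    rw [h7] at h4
    linarith
  have hE2 : ∑ j ∈ Finset.Icc (-(M : ℤ)) M,
      ∫ x in (-L)..L, (1/2) * (gg ε j x ^ 2 * (ν j x * b j x ^ 2)) ≤
      (8 * C + 16 * C ^ 2) * (8 * Real.pi) * ε := by
    refine hE.trans ?_
    have := mul_le_mul_of_nonneg_left (mul_le_mul_of_nonneg_left hlog Real.pi_pos.le)
      (show 0 ≤ (8 * C + 16 * C ^ 2) * ε ^ 2 by positivity)
    refine this.trans (le_of_eq ?_)
    field_simp
  have hnn : ∀ (j : ℤ) x, 0 ≤ (1/2) * (gg ε j x ^ 2 * (ν j x * b j x ^ 2)) := by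
    intro j x
    have := h0 j x
    positivity
  have hr1 : ∀ x ∈ Set.Icc (-r) r, 1 / 2 ≤ gg ε i x := by
    intro x hx
    unfold gg
    refine le_trans ?_ (le_max_right _ _)
    have h1 : rho i x ≤ 1 + r ^ 2 + (i : ℝ) ^ 2 := by
      unfold rho
      have : x ^ 2 ≤ r ^ 2 := by
        rw [sq_le_sq, abs_of_pos hr]; exact abs_le.2 hx
      linarith
    have h2 : ε * Real.log (rho i x) ≤ ε * Real.log (1 + r ^ 2 + (i : ℝ) ^ 2) :=
      mul_le_mul_of_nonneg_left (Real.log_le_log (rho_pos i x) h1) hε.le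
    linarith
  have hi : i ∈ Finset.Icc (-(M : ℤ)) M := by
    by_contra hcon
    have h1 : gg ε i r = 0 := by
      apply hM
      simp only [Finset.mem_Icc, not_and_or, not_le] at hcon
      rcases hcon with h | h
      · rw [abs_of_nonpos (by omega)]; omega
      · rw [abs_of_nonneg (by omega)]; omega
    have h2 := hr1 r ⟨by linarith, le_refl r⟩
    linarith
  have hrL : r ≤ L := by
    by_contra hcon
    push Not at hcon
    have h1 : gg ε i r = 0 := by
      apply gzero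
      unfold rho
      nlinarith [sq_nonneg (i : ℝ)]
    have h2 := hr1 r ⟨by linarith, le_refl r⟩
    linarith
  have hE3 : ∫ x in (-L)..L, (1/2) * (gg ε i x ^ 2 * (ν i x * b i x ^ 2)) ≤
      (8 * C + 16 * C ^ 2) * (8 * Real.pi) * ε := by
    refine le_trans ?_ hE2
    exact Finset.single_le_sum (f := fun j => ∫ x in (-L)..L,
      (1/2) * (gg ε j x ^ 2 * (ν j x * b j x ^ 2)))
      (fun j _ => intervalIntegral.integral_nonneg (by linarith) fun x _ => hnn j x) hi
  have hE4 : ∫ x in (-r)..r, (1/2) * (gg ε i x ^ 2 * (ν i x * b i x ^ 2)) ≤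
      ∫ x in (-L)..L, (1/2) * (gg ε i x ^ 2 * (ν i x * b i x ^ 2)) := by
    apply intervalIntegral.integral_mono_interval (by linarith) (by linarith) hrL
    · exact Eventually.of_forall fun x => hnn i x
    · apply Continuous.intervalIntegrable; fun_prop
  have hE5 : ∫ x in (-r)..r, (1/8) * (ν i x * b i x ^ 2) ≤
      ∫ x in (-r)..r, (1/2) * (gg ε i x ^ 2 * (ν i x * b i x ^ 2)) := by
    apply intervalIntegral.integral_mono_on (by linarith)
    · apply Continuous.intervalIntegrable; fun_prop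
    · apply Continuous.intervalIntegrable; fun_prop
    · intro x hx
      have h1 := hr1 x hx
      have h2 : (1 / 4 : ℝ) ≤ gg ε i x ^ 2 := by nlinarith
      have h3 : 0 ≤ ν i x * b i x ^ 2 := mul_nonneg (h0 i x) (sq_nonneg _)
      nlinarith [mul_le_mul_of_nonneg_right h2 h3]
  rw [intervalIntegral.integral_const_mul] at hE5
  linarith

end main

end Liou

theorem toda_liouville (ν b : ℤ → ℝ → ℝ) (C : ℝ) (h0 : ∀ i x, 0 ≤ ν i x) (hC : ∀ i x, ν i x ≤ C)
    (hν : ∀ i x, HasDerivAt (ν i) (-(ν i x * b i x)) x)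
    (hb : ∀ i x, HasDerivAt (b i) (ν (i + 1) x + ν (i - 1) x - 2 * ν i x) x) :
    ∀ i x y, ν i x = ν i y := by
  intro i
  have cν : Continuous (ν i) :=
    continuous_iff_continuousAt.2 fun x => (hν i x).continuousAt
  have cb : Continuous (b i) :=
    continuous_iff_continuousAt.2 fun x => (hb i x).continuousAt
  have hz : ∀ x, ν i x * b i x ^ 2 = 0 := by
    intro x
    by_contra hne
    have hpos : 0 < ν i x * b i x ^ 2 :=
      lt_of_le_of_ne (mul_nonneg (h0 i x) (sq_nonneg _)) (Ne.symm hne)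
    set r := |x| + 1 with hr
    have hr0 : 0 < r := by positivity
    have hI : 0 < ∫ x in (-r)..r, ν i x * b i x ^ 2 := by
      apply intervalIntegral.integral_pos (by linarith)
      · exact (cν.mul (cb.pow 2)).continuousOn
      · intro y _
        exact mul_nonneg (h0 i y) (sq_nonneg _)
      · refine ⟨x, ⟨?_, ?_⟩, hpos⟩
        · have := neg_abs_le x; rw [hr]; linarith
        · have := le_abs_self x; rw [hr]; linarith
    set I := ∫ x in (-r)..r, ν i x * b i x ^ 2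
    set K := 8 * ((8 * C + 16 * C ^ 2) * (8 * Real.pi)) with hK
    have hC0 : 0 ≤ C := (h0 0 0).trans (hC 0 0)
    have hK0 : 0 ≤ K := by positivity
    set ℓ := Real.log (1 + r ^ 2 + (i : ℝ) ^ 2) with hℓ
    have hℓ0 : 0 ≤ ℓ := by
      rw [hℓ]; apply Real.log_nonneg; nlinarith [sq_nonneg r, sq_nonneg (i : ℝ)]
    set ε := min (min 1 (1 / (2 * (ℓ + 1)))) (I / (2 * (K + 1))) with hε
    have hε0 : 0 < ε := by
      rw [hε]; apply lt_min (lt_min one_pos _) _ <;> positivity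
    have hε1 : ε ≤ 1 := (min_le_left _ _).trans (min_le_left _ _)
    have hε2 : ε ≤ 1 / (2 * (ℓ + 1)) := (min_le_left _ _).trans (min_le_right _ _)
    have hε3 : ε ≤ I / (2 * (K + 1)) := min_le_right _ _
    have hsmall : ε * ℓ ≤ 1 / 2 := by
      rw [le_div_iff₀ (by positivity)] at hε2
      nlinarith
    have hb := Liou.local_bound h0 hC hν hb i hr0 hε0 hε1 hsmall
    rw [le_div_iff₀ (by positivity)] at hε3
    have : K * ε < I := by nlinarith
    have hb' : I ≤ K * ε := hb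
    linarith
  have hd : ∀ x, deriv (ν i) x = 0 := by
    intro x
    rw [(hν i x).deriv]
    have := hz x
    rcases mul_eq_zero.1 this with h | h
    · rw [h]; simp
    · rw [pow_eq_zero_iff (by norm_num)] at h
      rw [h]; simp
  intro x y
  exact is_const_of_deriv_eq_zero (fun x => (hν i x).differentiableAt) hd x y

end Pool.Agent.Helper55.BD
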