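import Pool.Agent.Helper55.BD.LimFin
import Pool.Agent.Helper55.BD.Liouville

/-! Module K (blueprint K): asymptotic constancy of `ν_0(N, ·)`. -/

open Set Filter Topology MeasureTheory

namespace Pool.Agent.Helper55.BD

open Pool.Agent.Helper28.Eta (eta sg vdm mup nu)

/-! ### The limit functions -/

/-- a value of `s` for which `a + s ≥ 3` -/
noncomputable def Sa (a : ℝ) : ℕ := ⌈3 - a⌉₊

theorem Sa_spec (a : ℝ) : 3 ≤ a + Sa a := by
  have := Nat.le_ceil (3 - a)
  unfold Sa
  linarith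

noncomputable def nuL (U : Ultrafilter ℕ) (i : ℤ) (a : ℝ) : ℝ :=
  ul U fun N => nuu (Sa a) (sgm i N) (a + Sa a)

noncomputable def bL (U : Ultrafilter ℕ) (i : ℤ) (a : ℝ) : ℝ :=
  ul U fun N => db (Sa a) (sgm i N) (a + Sa a)

theorem nuL_tendsto {U : Ultrafilter ℕ} (hU : (U : Filter ℕ) ≤ atTop) (i : ℤ) (a : ℝ) (s : ℕ)
    (h : 2 ≤ a + s) : Tendsto (fun N => nuu s (sgm i N) (a + s)) U (𝓝 (nuL U i a)) := by
  obtain ⟨K, _, hK⟩ := fin_bounds (Sa a)
  have h0 := Sa_spec a
  have h1 : Tendsto (fun N => nuu (Sa a) (sgm i N) (a + Sa a)) U (𝓝 (nuL U i a)) :=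
    ul_tendsto U (Eventually.of_forall fun N => (hK _ _ (by linarith)).1)
  have h2 := ((nuu_indep s (Sa a) h).comp (sgm_tendsto i)).mono_left hU
  have h3 := ((nuu_indep (Sa a) s (c := a + Sa a) (by linarith)).comp (sgm_tendsto i)).mono_left hU
  have h4 := (h1.add h3).sub h2
  rw [add_zero, sub_zero] at h4
  refine h4.congr fun N => ?_
  simp only [Function.comp_apply]
  rw [show s + Sa a = Sa a + s by ring, show a + (s : ℝ) + (Sa a : ℝ) = a + Sa a + s by ring]
  ring

theorem bL_tendsto {U : Ultrafilter ℕ} (hU : (U : Filter ℕ) ≤ atTop) (i : ℤ) (a : ℝ) (s : ℕ)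
    (h : 2 < a + s) : Tendsto (fun N => db s (sgm i N) (a + s)) U (𝓝 (bL U i a)) := by
  obtain ⟨K, _, hK⟩ := fin_bounds (Sa a)
  have h0 := Sa_spec a
  have h1 : Tendsto (fun N => db (Sa a) (sgm i N) (a + Sa a)) U (𝓝 (bL U i a)) :=
    ul_tendsto U (Eventually.of_forall fun N => (hK _ _ (by linarith)).2)
  have h2 := ((db_indep s (Sa a) h).comp (sgm_tendsto i)).mono_left hU
  have h3 := ((db_indep (Sa a) s (c := a + Sa a) (by linarith)).comp (sgm_tendsto i)).mono_left hU
  have h4 := (h1.add h3).sub h2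
  rw [add_zero, sub_zero] at h4
  refine h4.congr fun N => ?_
  simp only [Function.comp_apply]
  rw [show s + Sa a = Sa a + s by ring, show a + (s : ℝ) + (Sa a : ℝ) = a + Sa a + s by ring]
  ring

theorem sgm_ev {U : Ultrafilter ℕ} (hU : (U : Filter ℕ) ≤ atTop) (i : ℤ) :
    ∀ᶠ N in (U : Filter ℕ), sgm i N + 1 = sgm (i + 1) N ∧ sgm i N - 1 = sgm (i - 1) N ∧
      1 ≤ sgm i N := by
  refine (eventually_ge_atTop (i.natAbs + 5)).filter_mono hU |>.mono fun N hN => ?_
  unfold sgm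
  refine ⟨by omega, by omega, by omega⟩

theorem nuL_hasDerivAt {U : Ultrafilter ℕ} (hU : (U : Filter ℕ) ≤ atTop) (i : ℤ) (a : ℝ) :
    HasDerivAt (nuL U i) (-(nuL U i a * bL U i a)) a := by
  set s := Sa a with hs
  have h0 : 3 ≤ a + s := Sa_spec a
  obtain ⟨K, hK0, hK⟩ := fin_bounds s
  have hy2 : ∀ y : ℝ, |y - a| < 1 → 2 < y + s := by
    intro y hy
    have := (abs_lt.1 hy).1
    linarith
  refine ul_hasDerivAt U (fun N y => nuu s (sgm i N) (y + s))
    (fun N y => -(nuu s (sgm i N) (y + s) * db s (sgm i N) (y + s)))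
    (fun N y => -(-(nuu s (sgm i N) (y + s) * db s (sgm i N) (y + s)) * db s (sgm i N) (y + s) +
      nuu s (sgm i N) (y + s) * ddb s (sgm i N) (y + s))) _ _ a 1 (K ^ 3 + 4 * K ^ 2) one_pos
    ?_ ?_ ?_ ?_ ?_
  · refine Eventually.of_forall fun N y hy => ?_
    have := hy2 y hy
    exact (nuu_hd s (sgm i N) (show (0 : ℝ) < y + s by linarith)).comp_add_const y _
  · filter_upwards [sgm_ev hU i] with N hN y hy
    have := hy2 y hy
    exact (dnu_hd s (sgm i N) hN.2.2 (show (0 : ℝ) < y + s by linarith)).comp_add_const y _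
  · refine Eventually.of_forall fun N y hy => ?_
    have h2 := hy2 y hy
    have e0 := hK (sgm i N) (y + s) h2.le
    have e1 := abs_mul_le hK0 e0.1 e0.2
    have e2 := ddb_bound hK (sgm i N) h2.le
    rw [abs_neg]
    refine (abs_add_le _ _).trans (add_le_add ?_ ?_)
    · rw [abs_mul, abs_neg]
      calc |nuu s (sgm i N) (y + s) * db s (sgm i N) (y + s)| * |db s (sgm i N) (y + s)|
          ≤ K ^ 2 * K := mul_le_mul e1 e0.2 (abs_nonneg _) (by positivity)
        _ = K ^ 3 := by ring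
    · rw [abs_mul]
      calc |nuu s (sgm i N) (y + s)| * |ddb s (sgm i N) (y + s)| ≤ K * (4 * K) :=
            mul_le_mul e0.1 e2 (abs_nonneg _) hK0
        _ = 4 * K ^ 2 := by ring
  · intro y hy
    exact nuL_tendsto hU i y s (hy2 y hy).le
  · exact ((nuL_tendsto hU i a s (by linarith)).mul (bL_tendsto hU i a s (by linarith))).neg

theorem bL_hasDerivAt {U : Ultrafilter ℕ} (hU : (U : Filter ℕ) ≤ atTop) (i : ℤ) (a : ℝ) :
    HasDerivAt (bL U i) (nuL U (i + 1) a + nuL U (i - 1) a - 2 * nuL U i a) a := by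
  set s := Sa a with hs
  have h0 : 3 ≤ a + s := Sa_spec a
  obtain ⟨K, hK0, hK⟩ := fin_bounds s
  have hy2 : ∀ y : ℝ, |y - a| < 1 → 2 < y + s := by
    intro y hy
    have := (abs_lt.1 hy).1
    linarith
  refine ul_hasDerivAt U (fun N y => db s (sgm i N) (y + s))
    (fun N y => ddb s (sgm i N) (y + s))
    (fun N y => (-(nuu s (sgm i N + 1) (y + s) * db s (sgm i N + 1) (y + s)) -
      -(nuu s (sgm i N) (y + s) * db s (sgm i N) (y + s))) -
      (-(nuu s (sgm i N) (y + s) * db s (sgm i N) (y + s)) -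
      -(nuu s (sgm i N - 1) (y + s) * db s (sgm i N - 1) (y + s)))) _ _ a 1 (4 * K ^ 2) one_pos
    ?_ ?_ ?_ ?_ ?_
  · filter_upwards [sgm_ev hU i] with N hN y hy
    have := hy2 y hy
    exact (db_hd s (sgm i N) hN.2.2 (show (0 : ℝ) < y + s by linarith)).comp_add_const y _
  · refine Eventually.of_forall fun N y hy => ?_
    have := hy2 y hy
    exact (ddb_hd s (sgm i N) (show (0 : ℝ) < y + s by linarith)).comp_add_const y _
  · refine Eventually.of_forall fun N y hy => ?_
    have h2 := hy2 y hy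
    have f : ∀ M, |nuu s M (y + s) * db s M (y + s)| ≤ K ^ 2 := fun M =>
      abs_mul_le hK0 (hK M (y + s) h2.le).1 (hK M (y + s) h2.le).2
    have e1 := abs_le.1 (f (sgm i N + 1))
    have e2 := abs_le.1 (f (sgm i N))
    have e3 := abs_le.1 (f (sgm i N - 1))
    rw [abs_le]
    constructor <;> linarith
  · intro y hy
    exact bL_tendsto hU i y s (hy2 y hy)
  · have e1 := nuL_tendsto hU i a s (by linarith)
    have e2 := nuL_tendsto hU (i + 1) a s (by linarith)
    have e3 := nuL_tendsto hU (i - 1) a s (by linarith)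
    have e4 := (e2.sub e1).sub (e1.sub e3)
    rw [show nuL U (i + 1) a - nuL U i a - (nuL U i a - nuL U (i - 1) a) =
      nuL U (i + 1) a + nuL U (i - 1) a - 2 * nuL U i a by ring] at e4
    refine e4.congr' ?_
    filter_upwards [sgm_ev hU i] with N hN
    unfold ddb
    rw [hN.1, hN.2.1]

theorem nuL_nonneg {U : Ultrafilter ℕ} (hU : (U : Filter ℕ) ≤ atTop) (i : ℤ) (a : ℝ) :
    0 ≤ nuL U i a := by
  have h0 := Sa_spec a
  refine ge_of_tendsto (nuL_tendsto hU i a (Sa a) (by linarith))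
    (Eventually.of_forall fun N => nuu_nonneg _ _ (by linarith))

/-! ### The uniform bound -/

noncomputable def Ls (U : Ultrafilter ℕ) (s : ℕ) : ℝ := ul U fun N => VV s N 3

theorem VV_abs (s N : ℕ) {c : ℝ} (hc : 0 < c) : |VV s N c| ≤ s * Real.log 2 := by
  rw [abs_of_nonneg (VV_nonneg s N hc)]
  exact VV_le s N hc

theorem VV_sgm_succ (s : ℕ) (i : ℤ) :
    Tendsto (fun N => VV s (sgm (i + 1) N) 3 - VV s (sgm i N) 3) atTop (𝓝 0) := by
  have h1 := (VV_shift s (c := 3) (by norm_num)).comp (sgm_tendsto i)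
  refine h1.congr' ?_
  filter_upwards [eventually_ge_atTop (i.natAbs + 5)] with N hN
  simp only [Function.comp_apply]
  rw [sgm_succ i hN]

theorem VV_sgm (s : ℕ) (i : ℤ) :
    Tendsto (fun N => VV s (sgm i N) 3 - VV s N 3) atTop (𝓝 0) := by
  induction i using Int.induction_on with
  | zero => simp [sgm_zero]
  | succ i ih =>
    have h1 := (VV_sgm_succ s i).add ih
    rw [add_zero] at h1
    exact h1.congr fun N => by ring
  | pred i ih =>
    have h1 := VV_sgm_succ s (-(i : ℤ) - 1)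
    rw [show -(i : ℤ) - 1 + 1 = -(i : ℤ) by ring] at h1
    have h2 := ih.sub h1
    rw [sub_zero] at h2
    exact h2.congr fun N => by ring

theorem VV_lim {U : Ultrafilter ℕ} (hU : (U : Filter ℕ) ≤ atTop) (s : ℕ) (i : ℤ) {c : ℝ}
    (hc : 2 < c) : Tendsto (fun N => VV s (sgm i N) c) U (𝓝 (Ls U s)) := by
  have h1 : Tendsto (fun N => VV s N 3) U (𝓝 (Ls U s)) :=
    ul_tendsto U (Eventually.of_forall fun N => VV_abs s N (by norm_num))
  have h2 := ((VV_const s hc (d := 3) (by norm_num)).comp (sgm_tendsto i)).mono_left hU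
  have h3 := (VV_sgm s i).mono_left hU
  have h4 := (h1.add h3).add h2
  rw [add_zero, add_zero] at h4
  refine h4.congr fun N => ?_
  simp only [Function.comp_apply]
  ring

theorem Ls_nonneg {U : Ultrafilter ℕ} (hU : (U : Filter ℕ) ≤ atTop) (s : ℕ) : 0 ≤ Ls U s :=
  ge_of_tendsto (VV_lim hU s 0 (c := 3) (by norm_num))
    (Eventually.of_forall fun N => VV_nonneg _ _ (by norm_num))

theorem Ls_le {U : Ultrafilter ℕ} (hU : (U : Filter ℕ) ≤ atTop) (s : ℕ) :
    Ls U s ≤ s * Real.log 2 :=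
  le_of_tendsto (VV_lim hU s 0 (c := 3) (by norm_num))
    (Eventually.of_forall fun N => VV_le _ _ (by norm_num))

theorem exists_good_s {U : Ultrafilter ℕ} (hU : (U : Filter ℕ) ≤ atTop) (S : ℕ) :
    ∃ s, S ≤ s ∧ Ls U (s + 1) - Ls U s ≤ 2 * Real.log 2 := by
  by_contra hcon
  push Not at hcon
  have hl2 : 0 < Real.log 2 := Real.log_pos one_lt_two
  have h1 : ∀ n : ℕ, 2 * Real.log 2 * n ≤ Ls U (S + n) := by
    intro n
    induction n with
    | zero => simpa using Ls_nonneg hU S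
    | succ n ih =>
      have h2 := hcon (S + n) (by omega)
      push_cast
      rw [show S + (n + 1) = S + n + 1 by ring]
      linarith
  have h2 := h1 (S + 1)
  have h3 := Ls_le hU (S + (S + 1))
  push_cast at h2 h3
  have h4 : (0 : ℝ) ≤ S := Nat.cast_nonneg _
  nlinarith

theorem window_le_VV (s N : ℕ) {c : ℝ} (hc : 1 < c) :
    ∫ r in (-1 : ℝ)..1, (1 - |r|) * nuu (s + 1) N (c + r) ≤ VV (s + 1) N (c - 1) - VV s N c := by
  rw [window (s + 1) N hc]
  have := second_diff s N hc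
  linarith

theorem nuL_le {U : Ultrafilter ℕ} (hU : (U : Filter ℕ) ≤ atTop) (i : ℤ) (a : ℝ) :
    nuL U i a ≤ (2 * Real.log 2 + 1) * Real.exp (2 * Real.log 2 + 1) := by
  obtain ⟨s, hs, hL⟩ := exists_good_s hU (Sa a)
  have h0 := Sa_spec a
  have hs' : (Sa a : ℝ) ≤ s := by exact_mod_cast hs
  have hc : 3 ≤ a + s := by linarith
  have hw : ∀ j : ℤ, ∀ᶠ N in (U : Filter ℕ), ∫ r in (-1 : ℝ)..1,
      (1 - |r|) * nuu (s + 1) (sgm j N) (a + s + 1 + r) ≤ 2 * Real.log 2 + 1 := by
    intro j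
    have e1 := VV_lim hU (s + 1) j (c := a + s + 1 - 1) (by linarith)
    have e2 := VV_lim hU s j (c := a + s + 1) (by linarith)
    have e3 := e1.sub e2
    have e4 := e3.eventually_lt_const (show Ls U (s + 1) - Ls U s < 2 * Real.log 2 + 1 by linarith)
    filter_upwards [e4] with N hN
    exact (window_le_VV s (sgm j N) (by linarith)).trans hN.le
  have h1 := nuL_tendsto hU i a (s + 1) (by push_cast; linarith)
  refine le_of_tendsto h1 ?_
  filter_upwards [hw (i - 1), hw i, hw (i + 1), sgm_ev hU i] with N w1 w2 w3 hN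
  obtain ⟨hN1, hN2, hN3⟩ := hN
  have h2 := window_pointwise (s + 1) (sgm (i - 1) N) (c := a + s + 1) (by linarith)
    (A := 2 * Real.log 2 + 1) (by
      intro M hM1 hM2
      have : M = sgm (i - 1) N ∨ M = sgm i N ∨ M = sgm (i + 1) N := by omega
      rcases this with h | h | h <;> rw [h]
      · exact w1
      · exact w2
      · exact w3)
  have h3 : sgm (i - 1) N + 1 = sgm i N := by omega
  rw [h3] at h2
  push_cast
  rw [← add_assoc]
  exact h2

theorem nuu_asymp_const {x y : ℝ} (hx : 2 ≤ x) (hy : 2 ≤ y) :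
    Tendsto (fun N : ℕ => nuu 0 N x - nuu 0 N y) atTop (𝓝 0) := by
  rw [tendsto_iff_ultrafilter]
  intro U hU
  have h1 := nuL_tendsto hU 0 x 0 (by simpa using hx)
  have h2 := nuL_tendsto hU 0 y 0 (by simpa using hy)
  have h3 := toda_liouville (nuL U) (bL U) _ (nuL_nonneg hU) (nuL_le hU)
    (fun i a => nuL_hasDerivAt hU i a) (fun i a => bL_hasDerivAt hU i a) 0 x y
  have h4 := h1.sub h2
  rw [h3, sub_self] at h4
  simpa [sgm_zero] using h4

end Pool.Agent.Helper55.BD
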