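import Pool.Agent.Helper55.BD.Defs

/-! The real point (from helper28's `PositiveReal`): `G_N(c)/H_N(c) → 1` for real `c > 0`. -/

open Set Filter Topology MeasureTheory

namespace Pool.Agent.Helper55.BD

open Pool.Agent.Helper28.Eta (eta sg vdm mup nu)

theorem hank_eta_eq (N : ℕ) (a : ℂ) :
    hank (fun k => iteratedDeriv k eta a) N = (Pool.Agent.Helper28.Eta.EE N a).det := rfl

theorem hank_eta2_eq (n : ℕ) (a : ℂ) : hank (fun k => iteratedDeriv (k + 2) eta a) n =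
    ((Pool.Agent.Helper28.Eta.EE (n + 1) a).submatrix Fin.succ Fin.succ).det := by
  unfold hank
  congr 1
  ext j k
  simp only [Matrix.of_apply, Matrix.submatrix_apply, Pool.Agent.Helper28.Eta.EE, Fin.val_succ]
  rw [show (j : ℕ) + 1 + ((k : ℕ) + 1) = (j : ℕ) + (k : ℕ) + 2 by ring]

theorem HG_formula {s : ℝ} (hs : 0 < s) (n : ℕ) :
    hank (fun k => iteratedDeriv k eta ((s : ℂ) + s)) (n + 1) ≠ 0 ∧
    hank (fun k => iteratedDeriv (k + 2) eta ((s : ℂ) + s)) n =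
      hank (fun k => iteratedDeriv k eta ((s : ℂ) + s)) (n + 1) *
        ((1 - (-1) ^ (n + 1) * Pool.Agent.Helper28.Eta.rho (n + 1) s : ℝ) : ℂ) := by
  have h1 := Pool.Agent.Helper28.Eta.cc_det_EE (n := n + 1) hs
  have h2 := Pool.Agent.Helper28.Eta.cc_det_UU_sub (n := n + 1) hs
  have h3 := Pool.Agent.Helper28.Eta.det_UU_sub
    (Pool.Agent.Helper28.Eta.EE (n + 1) ((s : ℂ) + s))
  have hc := Pool.Agent.Helper28.Eta.cc_ne (n := n + 1) hs
  have hZ0 := Pool.Agent.Helper28.Eta.ZZ_pos (n := n + 1) (le_refl (0 : ℝ)) hs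
  have hsg := Pool.Agent.Helper28.Eta.sg_ne_zero (n + 1)
  rw [← hank_eta2_eq, ← hank_eta_eq] at h3
  rw [← hank_eta_eq] at h1
  set H := hank (fun k => iteratedDeriv k eta ((s : ℂ) + s)) (n + 1) with hH
  set G := hank (fun k => iteratedDeriv (k + 2) eta ((s : ℂ) + s)) n with hG
  have h4 : (Pool.Agent.Helper28.Eta.UU (n + 1) -
      Pool.Agent.Helper28.Eta.EE (n + 1) ((s : ℂ) + s)).det =
      (-1) ^ (n + 1) * (H - G) := by
    rw [← neg_sub, Matrix.det_neg, h3, Fintype.card_fin]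
  rw [h4] at h2
  constructor
  · intro h0
    rw [h0, mul_zero] at h1
    have : Pool.Agent.Helper28.Eta.sg (n + 1) * Pool.Agent.Helper28.Eta.ZZ (n + 1) 0 s = 0 := by
      exact_mod_cast h1.symm
    exact (mul_ne_zero hsg hZ0.ne') this
  · have hZ0' : ((Pool.Agent.Helper28.Eta.ZZ (n + 1) 0 s : ℝ) : ℂ) ≠ 0 := by
      exact_mod_cast hZ0.ne'
    have e : ((-1 : ℂ) ^ (n + 1)) * ((-1 : ℂ) ^ (n + 1)) = 1 := by
      rw [← mul_pow]; simp
    refine mul_left_cancel₀ hc ?_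
    rw [← mul_assoc, h1]
    have h5 : Pool.Agent.Helper28.Eta.cc (n + 1) s * G =
        Pool.Agent.Helper28.Eta.cc (n + 1) s * H -
        (-1) ^ (n + 1) * (Pool.Agent.Helper28.Eta.cc (n + 1) s *
          ((-1) ^ (n + 1) * (H - G))) := by
      linear_combination (Pool.Agent.Helper28.Eta.cc (n + 1) s * (H - G)) * e
    rw [h5, h1, h2]
    unfold Pool.Agent.Helper28.Eta.rho
    push_cast
    field_simp

theorem rho_tendsto {s : ℝ} (hs : 0 < s) :
    Tendsto (fun N : ℕ => Pool.Agent.Helper28.Eta.rho N s) atTop (𝓝 0) := by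
  have hb : ∀ N : ℕ, 1 ≤ N → Pool.Agent.Helper28.Eta.rho N s ≤ ((1 : ℝ) + ((N : ℝ) - 1))⁻¹ := by
    intro N hN
    have hN1 : (1 : ℝ) ≤ (N : ℝ) := by exact_mod_cast hN
    refine (Pool.Agent.Helper28.Eta.rho_le hN hs).trans ?_
    have hn1 : (0 : ℝ) < (N : ℝ) + 1 := by positivity
    have hl0 : 0 < ((N : ℝ) + 3) / ((N : ℝ) + 1) := by positivity
    rw [Real.rpow_neg hl0.le]
    have hbern : 1 + ((N : ℝ) - 1) ≤
        (((N : ℝ) + 3) / ((N : ℝ) + 1)) ^ ((N : ℝ) * ((N : ℝ) - 1 + 2 * s)) := by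
      have h1 : ((N : ℝ) + 3) / ((N : ℝ) + 1) = 1 + 2 / ((N : ℝ) + 1) := by
        field_simp; ring
      have h2 : 1 + (N : ℝ) * (2 / ((N : ℝ) + 1)) ≤ (1 + 2 / ((N : ℝ) + 1)) ^ (N : ℝ) := by
        refine one_add_mul_self_le_rpow_one_add ?_ hN1
        have : 0 ≤ 2 / ((N : ℝ) + 1) := by positivity
        linarith
      have h3 : (2 : ℝ) ≤ 1 + (N : ℝ) * (2 / ((N : ℝ) + 1)) := by
        have : (N : ℝ) * (2 / ((N : ℝ) + 1)) = 2 * (N : ℝ) / ((N : ℝ) + 1) := by ring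
        rw [this]
        have : (1 : ℝ) ≤ 2 * (N : ℝ) / ((N : ℝ) + 1) := by
          rw [le_div_iff₀ hn1]; linarith
        linarith
      have h4 : (2 : ℝ) ≤ (((N : ℝ) + 3) / ((N : ℝ) + 1)) ^ (N : ℝ) := by
        rw [h1]; exact h3.trans h2
      have h5 : (2 : ℝ) ^ ((N : ℝ) - 1 + 2 * s) ≤
          (((N : ℝ) + 3) / ((N : ℝ) + 1)) ^ ((N : ℝ) * ((N : ℝ) - 1 + 2 * s)) := by
        rw [Real.rpow_mul hl0.le]
        exact Real.rpow_le_rpow (by norm_num) h4 (by linarith)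
      have h6 : (2 : ℝ) ^ ((N : ℝ) - 1) ≤ (2 : ℝ) ^ ((N : ℝ) - 1 + 2 * s) :=
        Real.rpow_le_rpow_of_exponent_le (by norm_num) (by linarith)
      have h7 : 1 + ((N : ℝ) - 1) ≤ (2 : ℝ) ^ ((N : ℝ) - 1) := by
        obtain ⟨m, rfl⟩ : ∃ m, N = m + 1 := ⟨N - 1, by omega⟩
        have h8 : (((m + 1 : ℕ) : ℝ) - 1) = (m : ℝ) := by push_cast; ring
        rw [h8, Real.rpow_natCast]
        have h9 : (m + 1 : ℕ) ≤ 2 ^ m := Nat.lt_two_pow_self
        have h10 : ((m + 1 : ℕ) : ℝ) ≤ ((2 ^ m : ℕ) : ℝ) := by exact_mod_cast h9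
        push_cast at h10
        linarith
      linarith
    have hpos : (0 : ℝ) < 1 + ((N : ℝ) - 1) := by linarith
    exact inv_anti₀ hpos hbern
  have h0 : Tendsto (fun N : ℕ => ((1 : ℝ) + ((N : ℝ) - 1))⁻¹) atTop (𝓝 0) := by
    have : (fun N : ℕ => ((1 : ℝ) + ((N : ℝ) - 1))⁻¹) = fun N : ℕ => ((N : ℝ))⁻¹ := by
      funext N; congr 1; ring
    rw [this]
    exact tendsto_inv_atTop_nhds_zero_nat
  refine squeeze_zero' ?_ ?_ h0
  · exact Eventually.of_forall fun N => (Pool.Agent.Helper28.Eta.rho_pos hs).le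
  · filter_upwards [eventually_ge_atTop 1] with N hN
    exact hb N hN

/-- `G_N/H_N = 1 - (-1)^N ρ_N → 1` at `2s`. -/
theorem real_limit {s : ℝ} (hs : 0 < s) :
    Tendsto (fun N : ℕ => (1 - (-1) ^ N * Pool.Agent.Helper28.Eta.rho N s : ℝ)) atTop (𝓝 1) := by
  have hs2 : Tendsto (fun N : ℕ => ((-1 : ℝ)) ^ N * Pool.Agent.Helper28.Eta.rho N s)
      atTop (𝓝 0) := by
    rw [tendsto_zero_iff_norm_tendsto_zero]
    have : (fun N : ℕ => ‖((-1 : ℝ)) ^ N * Pool.Agent.Helper28.Eta.rho N s‖) =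
        fun N : ℕ => Pool.Agent.Helper28.Eta.rho N s := by
      funext N
      rw [norm_mul, norm_pow, norm_neg, norm_one, one_pow, one_mul, Real.norm_eq_abs,
        abs_of_pos (Pool.Agent.Helper28.Eta.rho_pos hs)]
    rw [this]
    exact rho_tendsto hs
  simpa using hs2.const_sub 1

end Pool.Agent.Helper55.BD
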