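import Pool.Agent.Helper55.BD.Limit
import Pool.Agent.Helper55.BD.Cplx
import Pool.Agent.Helper55.BD.RealPart

/-! Main theorem. -/

open Set Filter Topology MeasureTheory

namespace Pool.Agent.Helper55.BD

open Pool.Agent.Helper28.Eta (eta sg vdm mup nu)

theorem dct_step (F G : ℕ → ℝ → ℝ) (h K : ℝ) (hK : 0 ≤ K)
    (hF : ∀ N, ∀ x ∈ Icc 0 h, HasDerivAt (F N) (G N x) x)
    (hGc : ∀ N, ContinuousOn (G N) (Icc 0 h))
    (hG : ∀ N, ∀ x ∈ Icc 0 h, |G N x| ≤ K)
    (hG0 : ∀ x ∈ Icc 0 h, Tendsto (fun N => G N x) atTop (𝓝 0)) (hF0 : ∀ N, F N 0 = 0) :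
    (∀ N, ∀ x ∈ Icc 0 h, |F N x| ≤ K * h) ∧
      (∀ x ∈ Icc 0 h, Tendsto (fun N => F N x) atTop (𝓝 0)) := by
  have key : ∀ N, ∀ x ∈ Icc 0 h, ∫ r in (0 : ℝ)..x, G N r = F N x := by
    intro N x hx
    have hsub : uIcc 0 x ⊆ Icc 0 h := by
      rw [uIcc_of_le hx.1]; exact Icc_subset_Icc le_rfl hx.2
    rw [intervalIntegral.integral_eq_sub_of_hasDerivAt (f := F N)
      (fun y hy => hF N y (hsub hy)) ((hGc N).mono hsub).intervalIntegrable, hF0, sub_zero]
  constructor
  · intro N x hx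
    rw [← key N x hx]
    have h1 := intervalIntegral.norm_integral_le_of_norm_le_const (a := 0) (b := x) (C := K)
      (f := G N) (by
        intro y hy
        rw [uIoc_of_le hx.1] at hy
        exact hG N y ⟨hy.1.le, hy.2.trans hx.2⟩)
    rw [sub_zero, abs_of_nonneg hx.1, Real.norm_eq_abs] at h1
    exact h1.trans (mul_le_mul_of_nonneg_left hx.2 hK)
  · intro x hx
    have hsub : uIoc 0 x ⊆ Icc 0 h := by
      rw [uIoc_of_le hx.1]; exact fun y hy => ⟨hy.1.le, hy.2.trans hx.2⟩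
    have h1 := intervalIntegral.tendsto_integral_filter_of_dominated_convergence
      (μ := volume) (a := 0) (b := x) (l := (atTop : Filter ℕ)) (F := fun N r => G N r)
      (f := fun _ => (0 : ℝ)) (fun _ => K)
      (Eventually.of_forall fun N => by
        refine ((hGc N).mono ?_).aestronglyMeasurable measurableSet_uIoc
        exact hsub)
      (Eventually.of_forall fun N => Eventually.of_forall fun y hy => hG N y (hsub hy))
      intervalIntegrable_const
      (Eventually.of_forall fun y hy => hG0 y (hsub hy))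
    rw [intervalIntegral.integral_zero] at h1
    exact h1.congr fun N => key N x hx

theorem sym_limit {h : ℝ} (hh : h ∈ Icc (0 : ℝ) 1) :
    Tendsto (fun N : ℕ => TT 0 N (3 + h) + TT 0 N (3 - h) - 2 * TT 0 N 3 + nuu 0 N 3 * h ^ 2)
      atTop (𝓝 0) := by
  obtain ⟨K, hK0, hK⟩ := fin_bounds 0
  have hp : ∀ x ∈ Icc (0 : ℝ) 1, 2 ≤ 3 + x ∧ 2 ≤ 3 - x := fun x hx =>
    ⟨by linarith [hx.1], by linarith [hx.2]⟩
  have hd1 : ∀ (f : ℝ → ℝ) (f' x : ℝ), HasDerivAt f f' (3 + x) →
      HasDerivAt (fun y => f (3 + y)) f' x := by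
    intro f f' x hf
    have := hf.comp_const_add 3 x
    exact this
  have hd2 : ∀ (f : ℝ → ℝ) (f' x : ℝ), HasDerivAt f f' (3 - x) →
      HasDerivAt (fun y => f (3 - y)) (-f') x := by
    intro f f' x hf
    have := hf.comp_const_sub 3 x
    exact this
  have step1 := dct_step
    (fun N x => deriv (TT 0 N) (3 + x) - deriv (TT 0 N) (3 - x) + 2 * nuu 0 N 3 * x)
    (fun N x => -(nuu 0 N (3 + x)) - -(-(nuu 0 N (3 - x))) + 2 * nuu 0 N 3) 1 (4 * K)
    (by positivity) ?_ ?_ ?_ ?_ ?_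
  · obtain ⟨s1, s2⟩ := step1
    have step2 := dct_step
      (fun N x => TT 0 N (3 + x) + TT 0 N (3 - x) - 2 * TT 0 N 3 + nuu 0 N 3 * x ^ 2)
      (fun N x => deriv (TT 0 N) (3 + x) - deriv (TT 0 N) (3 - x) + 2 * nuu 0 N 3 * x) 1 (4 * K * 1)
      (by positivity) ?_ ?_ s1 s2 ?_
    · exact step2.2 h hh
    · intro N x hx
      have e1 := hd1 _ _ x (TT_hd 0 N (show 0 < 3 + x by linarith [(hp x hx).1]))
      have e2 := hd2 _ _ x (TT_hd 0 N (show 0 < 3 - x by linarith [(hp x hx).2]))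
      have e3 := (hasDerivAt_pow 2 x).const_mul (nuu 0 N 3)
      have e4 := ((e1.add e2).sub_const (2 * TT 0 N 3)).add e3
      refine e4.congr_deriv ?_
      push_cast
      ring
    · intro N x hx
      have e1 := hd1 _ _ x (TT_deriv_hasDerivAt 0 N (show 0 < 3 + x by linarith [(hp x hx).1]))
      have e2 := hd2 _ _ x (TT_deriv_hasDerivAt 0 N (show 0 < 3 - x by linarith [(hp x hx).2]))
      exact (((e1.sub e2).add ((hasDerivAt_id x).const_mul (2 * nuu 0 N 3))).continuousAt).continuousWithinAt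
    · intro N
      simp only [add_zero, sub_zero]
      ring
  · intro N x hx
    have e1 := hd1 _ _ x (TT_deriv_hasDerivAt 0 N (show 0 < 3 + x by linarith [(hp x hx).1]))
    have e2 := hd2 _ _ x (TT_deriv_hasDerivAt 0 N (show 0 < 3 - x by linarith [(hp x hx).2]))
    have e3 := (e1.sub e2).add ((hasDerivAt_id x).const_mul (2 * nuu 0 N 3))
    refine e3.congr_deriv ?_
    ring
  · intro N x hx
    have e1 := hd1 _ _ x (nuu_hd 0 N (show 0 < 3 + x by linarith [(hp x hx).1]))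
    have e2 := hd2 _ _ x (nuu_hd 0 N (show 0 < 3 - x by linarith [(hp x hx).2]))
    exact ((e1.neg.sub e2.neg.neg).add_const (2 * nuu 0 N 3)).continuousAt.continuousWithinAt
  · intro N x hx
    have e1 := abs_le.1 (hK N (3 + x) (hp x hx).1).1
    have e2 := abs_le.1 (hK N (3 - x) (hp x hx).2).1
    have e3 := abs_le.1 (hK N 3 (by norm_num)).1
    rw [abs_le]
    constructor <;> linarith
  · intro x hx
    have e1 := nuu_asymp_const (hp x hx).1 (show (2 : ℝ) ≤ 3 by norm_num)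
    have e2 := nuu_asymp_const (hp x hx).2 (show (2 : ℝ) ≤ 3 by norm_num)
    have e3 := (e1.add e2).neg
    rw [add_zero, neg_zero] at e3
    exact e3.congr fun N => by ring
  · intro N
    simp

/-- determinant of `E(t)` at real points -/
theorem det_Em_real {A B : ℝ} (hJ : JB (betaOf (mm 0 3)) (aOf (mm 0 3)) A B) (N : ℕ) {t : ℝ}
    (ht : -3 < t) : (Em (betaOf (mm 0 3)) (aOf (mm 0 3)) (t : ℂ) N).det =
      ((Real.exp (TT 0 N (3 + t) - TT 0 N 3) : ℝ) : ℂ) := by
  have h3 : (0 : ℝ) < 3 := by norm_num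
  have h1 := gram_det (ff 0) (ff_differentiable 0) 3 (mm 0 3) (fun k => iteratedDeriv_ff k h3)
    (fun N => tau_pos 0 N h3) hJ N (t : ℂ)
  have h2 : (fun k => iteratedDeriv k (ff 0) (((3 : ℝ) : ℂ) + (t : ℂ))) =
      fun k => ((mm 0 (3 + t) k : ℝ) : ℂ) := by
    funext k
    rw [← Complex.ofReal_add, iteratedDeriv_ff k (show (0 : ℝ) < 3 + t by linarith)]
  rw [h2, hank_ofReal] at h1
  have hp1 := tau_pos 0 N (show (0 : ℝ) < 3 + t by linarith)
  have hp2 := tau_pos 0 N h3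
  have hne : ((hank (mm 0 3) N : ℝ) : ℂ) ≠ 0 := by
    intro h0
    have : hank (mm 0 3) N = 0 := by exact_mod_cast h0
    unfold tau at hp2
    rw [this, mul_zero] at hp2
    exact lt_irrefl _ hp2
  have h4 : Real.exp (TT 0 N (3 + t) - TT 0 N 3) = tau 0 N (3 + t) / tau 0 N 3 := by
    unfold TT
    rw [Real.exp_sub, Real.exp_log hp1, Real.exp_log hp2]
  rw [h4]
  refine mul_left_cancel₀ hne ?_
  rw [← h1]
  unfold tau
  have hs : ((sg N : ℝ) : ℂ) ≠ 0 := by
    exact_mod_cast Pool.Agent.Helper28.Eta.sg_ne_zero N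
  push_cast
  field_simp

theorem main (a : ℂ) :
    (∀ᶠ N : ℕ in atTop, hank (fun k => iteratedDeriv (k + 2) eta a) (N - 1) ≠ 0) ∧
    Tendsto (fun N : ℕ => hank (fun k => iteratedDeriv k eta a) N /
      hank (fun k => iteratedDeriv (k + 2) eta a) (N - 1)) atTop (𝓝 1) := by
  have h3 : (0 : ℝ) < 3 := by norm_num
  obtain ⟨A, B, hAB⟩ := JB_mm 0
  have hJ := hAB 3 (by norm_num)
  obtain ⟨K, hK0, hK⟩ := fin_bounds 0
  set β := betaOf (mm 0 3) with hβ
  set α := aOf (mm 0 3) with hα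
  have hm : ∀ k, iteratedDeriv k (ff 0) (((3 : ℝ) : ℝ) : ℂ) = (mm 0 3 k : ℂ) :=
    fun k => iteratedDeriv_ff k h3
  have hpos : ∀ N, 0 < sg N * hank (mm 0 3) N := fun N => tau_pos 0 N h3
  have hne : ∀ N, ((hank (mm 0 3) N : ℝ) : ℂ) ≠ 0 := by
    intro N h0
    have h1 : hank (mm 0 3) N = 0 := by exact_mod_cast h0
    have h2 := hpos N
    rw [h1, mul_zero] at h2
    exact lt_irrefl _ h2
  obtain ⟨v, hv, hvG⟩ := gram_vec (ff 0) (ff_differentiable 0) 3 (mm 0 3) hm hpos hJ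
  -- value at `t = 0`
  have hE0 : ∀ N, Em β α 0 N = 1 := by
    intro N
    ext i j
    simp only [Em, Matrix.of_apply, EE_zero, Matrix.one_apply, Fin.ext_iff]
  have hv1 : Tendsto (fun N : ℕ => ∑ j ∈ Finset.range N, (-1 : ℝ) ^ j * v j ^ 2) atTop (𝓝 1) := by
    refine (real_limit (s := 3 / 2) (by norm_num)).congr' ?_
    filter_upwards [eventually_ge_atTop 1] with N hN
    obtain ⟨n, rfl⟩ : ∃ n, N = n + 1 := ⟨N - 1, by omega⟩
    have e1 := hvG (n + 1) 0 hN
    rw [hE0] at e1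
    simp only [Nat.add_sub_cancel, add_zero, Matrix.adjugate_one] at e1
    have e2 : ∑ j : Fin (n + 1), ∑ k : Fin (n + 1), (v j : ℂ) *
        (1 : Matrix (Fin (n + 1)) (Fin (n + 1)) ℂ) j k * (((-1) ^ (k : ℕ) * v k : ℝ) : ℂ) =
        ((∑ j ∈ Finset.range (n + 1), (-1 : ℝ) ^ j * v j ^ 2 : ℝ) : ℂ) := by
      rw [← Fin.sum_univ_eq_sum_range (fun j => (-1 : ℝ) ^ j * v j ^ 2), Complex.ofReal_sum]
      refine Finset.sum_congr rfl fun j _ => ?_
      rw [Finset.sum_eq_single j]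
      · rw [Matrix.one_apply_eq]
        push_cast; ring
      · intro k _ hk
        rw [Matrix.one_apply_ne hk.symm]; simp
      · simp
    rw [e2] at e1
    obtain ⟨_, e3⟩ := HG_formula (s := 3 / 2) (by norm_num) n
    have e4 : (((3 / 2 : ℝ) : ℂ) + ((3 / 2 : ℝ) : ℂ)) = ((3 : ℝ) : ℂ) := by
      rw [← Complex.ofReal_add]; norm_num
    rw [e4] at e3
    have e5 : hank (fun k => iteratedDeriv k eta ((3 : ℝ) : ℂ)) (n + 1) =
        ((hank (mm 0 3) (n + 1) : ℝ) : ℂ) := by
      rw [← hank_ofReal]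
      congr 1
      funext k
      exact hm k
    rw [e5] at e3
    have e6 := mul_left_cancel₀ (hne (n + 1)) (e3.symm.trans e1)
    exact_mod_cast e6
  -- products of determinants at real points
  have hP : ∀ t : ℝ, |t| ≤ 1 → Tendsto (fun N : ℕ => (Em β α (t : ℂ) N).det *
      (Em β α (-(t : ℂ)) N).det - (Real.exp (-(nuu 0 N 3 * t ^ 2)) : ℂ)) atTop (𝓝 0) := by
    intro t ht
    have ht' := abs_le.1 ht
    have hsym : Tendsto (fun N : ℕ => TT 0 N (3 + t) + TT 0 N (3 - t) - 2 * TT 0 N 3 +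
        nuu 0 N 3 * t ^ 2) atTop (𝓝 0) := by
      rcases le_total 0 t with h0 | h0
      · exact sym_limit ⟨h0, ht'.2⟩
      · have := sym_limit (h := -t) ⟨by linarith, by linarith⟩
        refine this.congr fun N => ?_
        rw [show (3 : ℝ) + -t = 3 - t by ring, show (3 : ℝ) - -t = 3 + t by ring, neg_sq]
        ring
    have hreal : Tendsto (fun N : ℕ => Real.exp (-(nuu 0 N 3 * t ^ 2)) *
        (Real.exp (TT 0 N (3 + t) + TT 0 N (3 - t) - 2 * TT 0 N 3 +
        nuu 0 N 3 * t ^ 2) - 1)) atTop (𝓝 0) := by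
      have e1 : Tendsto (fun N : ℕ => Real.exp (TT 0 N (3 + t) + TT 0 N (3 - t) - 2 * TT 0 N 3 +
          nuu 0 N 3 * t ^ 2) - 1) atTop (𝓝 0) := by
        have := ((Real.continuous_exp.tendsto 0).comp hsym).sub_const 1
        simpa using this
      refine squeeze_zero_norm (a := fun N : ℕ => |Real.exp (TT 0 N (3 + t) + TT 0 N (3 - t) -
        2 * TT 0 N 3 + nuu 0 N 3 * t ^ 2) - 1|) (fun N => ?_) (by simpa using e1.abs)
      rw [norm_mul, Real.norm_eq_abs, Real.norm_eq_abs, abs_of_pos (Real.exp_pos _)]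
      have : Real.exp (-(nuu 0 N 3 * t ^ 2)) ≤ 1 := by
        rw [Real.exp_le_one_iff]
        have := nuu_nonneg 0 N h3
        have := mul_nonneg this (sq_nonneg t)
        linarith
      exact mul_le_of_le_one_left (abs_nonneg _) this
    have hc := (Complex.continuous_ofReal.tendsto 0).comp hreal
    rw [Complex.ofReal_zero] at hc
    refine hc.congr fun N => ?_
    have e1 := det_Em_real hJ N (t := t) (by linarith)
    have e2 := det_Em_real hJ N (t := -t) (by linarith)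
    rw [Complex.ofReal_neg] at e2
    rw [← hβ, ← hα] at e1 e2
    rw [e1, e2, ← Complex.ofReal_mul, ← Complex.ofReal_sub, ← Real.exp_add]
    simp only [Function.comp_apply]
    congr 1
    rw [mul_sub, mul_one, ← Real.exp_add]
    congr 2
    ring_nf
  obtain ⟨hfin1, hfin2⟩ := complex_final hJ v hv hv1 (fun N => nuu 0 N 3) K
    (fun N => (hK N 3 (by norm_num)).1) hP (a - 3)
  have ha : ((3 : ℝ) : ℂ) + (a - 3) = a := by push_cast; ring
  set Q : ℕ → ℂ := fun N : ℕ => (∑ j : Fin N, ∑ k : Fin N,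
          (v j : ℂ) * (Em β α (a - 3) N).adjugate j k * (((-1) ^ (k : ℕ) * v k : ℝ) : ℂ)) /
        (Em β α (a - 3) N).det with hQ
  have hQ0 : ∀ᶠ N in atTop, Q N ≠ 0 := hfin2.eventually_ne one_ne_zero
  have hH : ∀ N, hank (fun k => iteratedDeriv k eta a) N =
      ((hank (mm 0 3) N : ℝ) : ℂ) * (Em β α (a - 3) N).det := by
    intro N
    have := gram_det (ff 0) (ff_differentiable 0) 3 (mm 0 3) hm hpos hJ N (a - 3)
    rw [ha] at this
    exact this
  have hG : ∀ᶠ N in atTop, hank (fun k => iteratedDeriv (k + 2) eta a) (N - 1) =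
      ((hank (mm 0 3) N : ℝ) : ℂ) * (Em β α (a - 3) N).det * Q N := by
    filter_upwards [eventually_ge_atTop 1, hfin1] with N hN hd
    have := hvG N (a - 3) hN
    rw [ha] at this
    rw [hQ]
    simp only
    rw [mul_assoc, mul_div_cancel₀ _ hd]
    exact this
  constructor
  · filter_upwards [hG, hQ0, hfin1] with N h1 h2 h4
    rw [h1]
    exact mul_ne_zero (mul_ne_zero (hne N) h4) h2
  · have h5 : Tendsto (fun N => 1 / Q N) atTop (𝓝 1) := by
      have := (tendsto_const_nhds (x := (1 : ℂ)) (f := (atTop : Filter ℕ))).div hfin2 one_ne_zero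
      rw [div_one] at this
      exact this
    refine h5.congr' ?_
    filter_upwards [hG, hQ0, hfin1] with N h1 h2 h4
    rw [h1, hH N]
    have := hne N
    field_simp

end Pool.Agent.Helper55.BD
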