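import Pool.Agent.Helper55.BD.Defs
import Pool.Agent.Helper68.BD.Moments

/-! Module A (blueprint A): Mellin representation and Andreief. -/

open Set Filter Topology MeasureTheory

namespace Pool.Agent.Helper55.BD

open Pool.Agent.Helper28.Eta (eta sg vdm mup nu eta_differentiable eta_hasSum eta_of_ne)
open Pool.Agent.Helper68.BD (Ker ka HH sint' Ker.mellin_one Ker.hankel Ker.integrable_sint
  iter_differentiable)

theorem ff_differentiable (s : ℕ) : Differentiable ℂ (ff s) := by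
  induction s with
  | zero => exact eta_differentiable
  | succ s ih =>
    have h1 : Differentiable ℂ (fun z => ff s (z - 1) + (s : ℂ) * ff s z) :=
      (ih.comp (differentiable_id.sub_const 1)).add (ih.const_mul _)
    exact h1

theorem ff_hasSum (s : ℕ) : ∀ {z : ℂ}, (s : ℝ) + 1 < z.re →
    HasSum (fun n : ℕ => (((-1 : ℝ) ^ n * ((n + 1).ascFactorial s : ℝ) : ℝ) : ℂ) /
      ((n : ℂ) + 1) ^ z) (ff s z) := by
  induction s with
  | zero =>
    intro z hz
    have h := eta_hasSum (s := z) (by simpa using hz)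
    refine h.congr_fun fun n => ?_
    simp
  | succ s ih =>
    intro z hz
    push_cast at hz
    have h1 := ih (z := z - 1) (by simp; linarith)
    have h2 := (ih (z := z) (by linarith)).mul_left (s : ℂ)
    have h3 := h1.add h2
    have h4 : ff (s + 1) z = ff s (z - 1) + (s : ℂ) * ff s z := rfl
    rw [h4]
    refine h3.congr_fun fun n => ?_
    have hn : ((n : ℂ) + 1) ≠ 0 := by exact_mod_cast Nat.succ_ne_zero n
    have hz0 : ((n : ℂ) + 1) ^ z ≠ 0 := by
      rw [Ne, Complex.cpow_eq_zero_iff]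
      exact fun h => hn h.1
    rw [Complex.cpow_sub _ _ hn, Complex.cpow_one, Nat.ascFactorial_succ]
    push_cast
    field_simp

theorem asc_le (s n : ℕ) : (((n + 1).ascFactorial s : ℕ) : ℝ) ≤
    ((s : ℝ) + 1) ^ s * ((n : ℝ) + 1) ^ s := by
  have h1 : (((n + 1).ascFactorial s : ℕ) : ℝ) ≤ (((n + s) ^ s : ℕ) : ℝ) := by
    exact_mod_cast Nat.ascFactorial_le_pow_add n s
  refine h1.trans ?_
  rw [← mul_pow]
  push_cast
  refine pow_le_pow_left₀ (by positivity) ?_ s
  have hn : (0 : ℝ) ≤ n := Nat.cast_nonneg n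
  have hs : (0 : ℝ) ≤ s := Nat.cast_nonneg s
  nlinarith

theorem hasSum_asc (s : ℕ) {w : ℝ} (hw0 : 0 < w) (hw1 : w < 1) :
    HasSum (fun n : ℕ => (-1 : ℝ) ^ n * ((n + 1).ascFactorial s : ℝ) * w ^ n)
      ((s.factorial : ℝ) * (1 / (1 + w) ^ (s + 1))) := by
  have hr : ‖(-w)‖ < 1 := by
    rw [norm_neg, Real.norm_eq_abs, abs_of_pos hw0]; exact hw1
  have h := (hasSum_choose_mul_geometric_of_norm_lt_one s hr).mul_left (s.factorial : ℝ)
  rw [sub_neg_eq_add] at h
  refine h.congr_fun fun n => ?_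
  rw [Nat.ascFactorial_eq_factorial_mul_choose, neg_pow w n]
  push_cast
  ring

theorem ker_kk (s : ℕ) : Ker (kk s) (ff s) s
    (fun n => (-1 : ℝ) ^ n * ((n + 1).ascFactorial s : ℝ))
    ((s.factorial : ℝ) + ((s : ℝ) + 1) ^ s) where
  hF := ff_differentiable s
  hm := by unfold kk; fun_prop
  hC := by positivity
  hb := by
    intro w hw
    unfold kk
    have h1 : (1 : ℝ) ≤ (1 + w) ^ (s + 1) := one_le_pow₀ (by linarith)
    rw [abs_of_nonneg (by positivity)]
    calc (s.factorial : ℝ) * w / (1 + w) ^ (s + 1) ≤ (s.factorial : ℝ) * w :=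
          div_le_self (by positivity) h1
      _ ≤ _ := by
          refine mul_le_mul_of_nonneg_right ?_ hw.le
          have : (0 : ℝ) ≤ ((s : ℝ) + 1) ^ s := by positivity
          linarith
  ha := by
    intro n
    rw [abs_mul, abs_pow, abs_neg, abs_one, one_pow, one_mul, Nat.abs_cast]
    refine (asc_le s n).trans ?_
    refine mul_le_mul_of_nonneg_right ?_ (by positivity)
    have : (0 : ℝ) ≤ (s.factorial : ℝ) := by positivity
    linarith
  hs := by
    intro w hw0 hw1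
    have h := (hasSum_asc s hw0 hw1).mul_left w
    have e : kk s w = w * ((s.factorial : ℝ) * (1 / (1 + w) ^ (s + 1))) := by
      unfold kk; ring
    rw [e]
    refine h.congr_fun fun n => ?_
    rw [pow_succ]; ring
  hFs := fun z hz => ff_hasSum s hz

theorem bern (s : ℕ) {w : ℝ} (hw : 0 < w) :
    |kb s w| ≤ (s.factorial : ℝ) * ((s : ℝ) + 1) * w := by
  unfold kb
  have h0 : 0 < 1 / (1 + w) := by positivity
  have h1 : 1 / (1 + w) ≤ 1 := by
    rw [div_le_one (by linarith)]; linarith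
  have h2 : (1 / (1 + w)) ^ (s + 1) ≤ 1 := pow_le_one₀ h0.le h1
  have h3 : 1 + ((s + 1 : ℕ) : ℝ) * (1 / (1 + w) - 1) ≤ (1 + (1 / (1 + w) - 1)) ^ (s + 1) :=
    one_add_mul_le_pow (by linarith) _
  have h4 : 1 + (1 / (1 + w) - 1) = 1 / (1 + w) := by ring
  rw [h4] at h3
  have h5 : 1 - 1 / (1 + w) ≤ w := by
    have : 1 - 1 / (1 + w) = w / (1 + w) := by field_simp; ring
    rw [this]
    exact div_le_self hw.le (by linarith)
  rw [abs_mul, Nat.abs_cast, abs_of_nonneg (by linarith), mul_assoc]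
  refine mul_le_mul_of_nonneg_left ?_ (by positivity)
  push_cast at h3
  have hs : (0 : ℝ) ≤ s := Nat.cast_nonneg s
  nlinarith

theorem ker_kb (s : ℕ) : Ker (kb s) (fun z => ff (s + 1) (z + 1)) s
    (fun n => (-1 : ℝ) ^ n * ((n + 2).ascFactorial s : ℝ))
    ((s.factorial : ℝ) * ((s : ℝ) + 1) + ((s : ℝ) + 1) ^ s * 2 ^ s) where
  hF := (ff_differentiable (s + 1)).comp (differentiable_id.add_const 1)
  hm := by unfold kb; fun_prop
  hC := by positivity
  hb := by
    intro w hw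
    refine (bern s hw).trans ?_
    refine mul_le_mul_of_nonneg_right ?_ hw.le
    have : (0 : ℝ) ≤ ((s : ℝ) + 1) ^ s * 2 ^ s := by positivity
    linarith
  ha := by
    intro n
    rw [abs_mul, abs_pow, abs_neg, abs_one, one_pow, one_mul, Nat.abs_cast]
    refine (asc_le s (n + 1)).trans ?_
    have h1 : ((((n + 1 : ℕ) : ℝ)) + 1) ^ s ≤ 2 ^ s * ((n : ℝ) + 1) ^ s := by
      rw [← mul_pow]
      refine pow_le_pow_left₀ (by positivity) ?_ s
      push_cast
      have hn : (0 : ℝ) ≤ n := Nat.cast_nonneg n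
      linarith
    have h2 : (0 : ℝ) ≤ (s.factorial : ℝ) * ((s : ℝ) + 1) * ((n : ℝ) + 1) ^ s := by positivity
    calc ((s : ℝ) + 1) ^ s * ((((n + 1 : ℕ) : ℝ)) + 1) ^ s
        ≤ ((s : ℝ) + 1) ^ s * (2 ^ s * ((n : ℝ) + 1) ^ s) := by gcongr
      _ ≤ _ := by linarith
  hs := by
    intro w hw0 hw1
    have h := hasSum_asc s hw0 hw1
    have h1 := (hasSum_nat_add_iff' 1).mpr h
    simp only [Finset.range_one, Finset.sum_singleton, pow_zero, one_mul, zero_add,
      Nat.one_ascFactorial, mul_one] at h1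
    have h2 := h1.neg
    have e : kb s w = -((s.factorial : ℝ) * (1 / (1 + w) ^ (s + 1)) - (s.factorial : ℝ)) := by
      unfold kb
      rw [one_div, one_div, inv_pow]
      ring
    rw [e]
    refine h2.congr_fun fun n => ?_
    rw [pow_succ (-1 : ℝ) n]
    ring
  hFs := by
    intro z hz
    have h := ff_hasSum (s + 1) (z := z + 1) (by push_cast; simp; linarith)
    refine h.congr_fun fun n => ?_
    have hn : ((n : ℂ) + 1) ≠ 0 := by exact_mod_cast Nat.succ_ne_zero n
    have hz0 : ((n : ℂ) + 1) ^ z ≠ 0 := by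
      rw [Ne, Complex.cpow_eq_zero_iff]
      exact fun h => hn h.1
    have hasc : (n + 1).ascFactorial (s + 1) = (n + 1) * (n + 2).ascFactorial s := by
      rw [Nat.ascFactorial_succ, ← Nat.succ_ascFactorial]
    rw [Complex.cpow_add _ _ hn, Complex.cpow_one, hasc]
    push_cast
    field_simp

theorem mellin_kk (s : ℕ) {z : ℂ} (hz : 0 < z.re) :
    mellin (fun u : ℝ => ((kk s (Real.exp (-u)) : ℝ) : ℂ)) z = Complex.Gamma z * ff s z :=
  (ker_kk s).mellin_one hz

theorem mellin_kb (s : ℕ) {z : ℂ} (hz : 0 < z.re) :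
    mellin (fun u : ℝ => ((kb s (Real.exp (-u)) : ℝ) : ℂ)) z =
      Complex.Gamma z * ff (s + 1) (z + 1) :=
  (ker_kb s).mellin_one hz

open ComplexConjugate in
theorem eta_conj (z : ℂ) : eta (conj z) = conj (eta z) := by
  by_cases hz : z = 1
  · subst hz
    rw [map_one, eta, if_pos rfl, Complex.conj_ofReal]
  · have hz' : conj z ≠ 1 := by
      intro h
      apply hz
      have := congrArg conj h
      simpa using this
    rw [eta_of_ne hz, eta_of_ne hz', riemannZeta_conj, map_mul, map_sub, map_one]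
    congr 2
    have h2 : (1 - conj z) = conj (1 - z) := by simp
    have h3 : ((2 : ℝ) : ℂ) ^ (conj (1 - z)) = conj (((2 : ℝ) : ℂ) ^ (1 - z)) := by
      rw [Complex.cpow_conj _ _ (by
        rw [Complex.arg_ofReal_of_nonneg (by norm_num)]
        exact Real.pi_ne_zero.symm), Complex.conj_ofReal]
    rw [h2]
    exact_mod_cast h3

open ComplexConjugate in
theorem ff_conj (s : ℕ) : ∀ z : ℂ, ff s (conj z) = conj (ff s z) := by
  induction s with
  | zero => exact eta_conj
  | succ s ih =>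
    intro z
    have h1 : ff (s + 1) (conj z) = ff s (conj z - 1) + (s : ℂ) * ff s (conj z) := rfl
    have h2 : ff (s + 1) z = ff s (z - 1) + (s : ℂ) * ff s z := rfl
    have h3 : conj z - 1 = conj (z - 1) := by simp
    rw [h1, h2, h3, ih, ih]
    simp

open ComplexConjugate in
theorem iter_ff_conj (s k : ℕ) : ∀ z : ℂ,
    iteratedDeriv k (ff s) (conj z) = conj (iteratedDeriv k (ff s) z) := by
  induction k with
  | zero =>
    intro z
    simp [iteratedDeriv_zero, ff_conj]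
  | succ k ih =>
    intro z
    have h1 : (conj ∘ iteratedDeriv k (ff s) ∘ conj) = iteratedDeriv k (ff s) := by
      funext w
      simp only [Function.comp_apply]
      rw [ih]; simp
    have h2 := deriv_conj_conj (f := iteratedDeriv k (ff s))
    rw [h1] at h2
    rw [iteratedDeriv_succ]
    have h3 := congrFun h2 (conj z)
    simp only [Function.comp_apply, Complex.conj_conj] at h3
    exact h3

/-- the derivatives of `f_s` are real at all real points -/
theorem iteratedDeriv_ff' {s : ℕ} (k : ℕ) (c : ℝ) :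
    iteratedDeriv k (ff s) (c : ℂ) = (mm s c k : ℂ) := by
  have h := iter_ff_conj s k (c : ℂ)
  rw [Complex.conj_ofReal] at h
  unfold mm
  exact (Complex.conj_eq_iff_re.mp h.symm).symm

theorem iteratedDeriv_ff {s : ℕ} (k : ℕ) {c : ℝ} (_hc : 0 < c) :
    iteratedDeriv k (ff s) (c : ℂ) = (mm s c k : ℂ) := iteratedDeriv_ff' k c

/-- the signed integrand -/
noncomputable def sint (κ : ℝ → ℝ) (c₁ c₂ : ℝ) {N : ℕ} (u v : Fin N → ℝ) : ℝ :=
  vdm (fun i => Real.log (u i)) * vdm (fun i => Real.log (v i)) *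
    (∏ i, u i ^ (c₁ - 1)) * (∏ i, v i ^ (c₂ - 1)) *
    (Matrix.of fun i j => κ (em u i * em v j)).det

theorem sint_eq (κ : ℝ → ℝ) (c₁ c₂ : ℝ) {N : ℕ} (u v : Fin N → ℝ) :
    sint κ c₁ c₂ u v = sint' κ c₁ c₂ u v := rfl

theorem integrable_kk (s N : ℕ) {c₁ c₂ : ℝ} (h₁ : 0 < c₁) (h₂ : 0 < c₂) :
    Integrable (fun p : (Fin N → ℝ) × (Fin N → ℝ) => sint (kk s) c₁ c₂ p.1 p.2)
      ((nu N).prod (nu N)) := (ker_kk s).integrable_sint h₁ h₂

theorem integrable_kb (s N : ℕ) {c₁ c₂ : ℝ} (h₁ : 0 < c₁) (h₂ : 0 < c₂) :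
    Integrable (fun p : (Fin N → ℝ) × (Fin N → ℝ) => sint (kb s) c₁ c₂ p.1 p.2)
      ((nu N).prod (nu N)) := (ker_kb s).integrable_sint h₁ h₂

theorem hank_cast (m : ℕ → ℝ) (N : ℕ) : ((hank m N : ℝ) : ℂ) = hank (fun k => (m k : ℂ)) N := by
  unfold hank
  exact Pool.Agent.Helper28.Eta.det_cast (fun j k : Fin N => m ((j : ℕ) + (k : ℕ)))

theorem HH_ff (s N : ℕ) (c : ℝ) : (HH (ff s) N (c : ℂ)).det = ((hank (mm s c) N : ℝ) : ℂ) := by
  rw [hank_cast]
  unfold hank HH
  congr 1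
  ext j k
  simp only [Matrix.of_apply]
  exact iteratedDeriv_ff' _ c

theorem hank_kk (s N : ℕ) {c₁ c₂ : ℝ} (h₁ : 0 < c₁) (h₂ : 0 < c₂) :
    hank (mm s (c₁ + c₂)) N * ((Real.Gamma c₁ * Real.Gamma c₂) ^ N * (N.factorial : ℝ) ^ 2) =
      ∫ p, sint (kk s) c₁ c₂ p.1 p.2 ∂((nu N).prod (nu N)) := by
  have h := (ker_kk s).hankel (n := N) h₁ h₂
  rw [← Complex.ofReal_add, HH_ff, Complex.Gamma_ofReal, Complex.Gamma_ofReal] at h
  exact_mod_cast h

theorem hank_kb (s N : ℕ) {c₁ c₂ : ℝ} (h₁ : 0 < c₁) (h₂ : 0 < c₂) :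
    hank (mm (s + 1) (c₁ + c₂ + 1)) N *
        ((Real.Gamma c₁ * Real.Gamma c₂) ^ N * (N.factorial : ℝ) ^ 2) =
      ∫ p, sint (kb s) c₁ c₂ p.1 p.2 ∂((nu N).prod (nu N)) := by
  have h := (ker_kb s).hankel (n := N) h₁ h₂
  have h2 : (HH (fun z => ff (s + 1) (z + 1)) N ((c₁ : ℂ) + c₂)).det =
      ((hank (mm (s + 1) (c₁ + c₂ + 1)) N : ℝ) : ℂ) := by
    rw [← HH_ff]
    congr 1
    ext j k
    unfold HH
    simp only [Matrix.of_apply]
    rw [iteratedDeriv_comp_add_const]
    push_cast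
    rfl
  rw [h2, Complex.Gamma_ofReal, Complex.Gamma_ofReal] at h
  exact_mod_cast h

end Pool.Agent.Helper55.BD
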