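import Pool.Agent.Helper55.BD.RatioAux

open Set Filter Topology

namespace Pool.Agent.Helper55.BD

/-- the matrix `1 + σ E` -/
noncomputable def AM (E : ℕ → ℕ → ℂ) (σ : ℂ) (N : ℕ) : Matrix (Fin N) (Fin N) ℂ :=
  1 + σ • (Matrix.of fun j k : Fin N => E j k)

theorem AM_apply (E : ℕ → ℕ → ℂ) (σ : ℂ) (N : ℕ) (i j : Fin N) :
    AM E σ N i j = (if i = j then 1 else 0) + σ * E i j := by
  simp [AM, Matrix.one_apply]

theorem AM_castSucc (E : ℕ → ℕ → ℂ) (σ : ℂ) (N : ℕ) (i j : Fin N) :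
    AM E σ (N + 1) i.castSucc j.castSucc = AM E σ N i j := by
  simp [AM_apply]

theorem AM_last (E : ℕ → ℕ → ℂ) (σ : ℂ) (N : ℕ) (i : Fin N) :
    AM E σ (N + 1) i.castSucc (Fin.last N) = σ * E i N := by
  rw [AM_apply, if_neg (Fin.castSucc_lt_last i).ne]
  simp

theorem AM_last' (E : ℕ → ℕ → ℂ) (σ : ℂ) (N : ℕ) (i : Fin N) :
    AM E σ (N + 1) (Fin.last N) i.castSucc = σ * E N i := by
  rw [AM_apply, if_neg (Fin.castSucc_lt_last i).ne']
  simp

theorem AM_last_last (E : ℕ → ℕ → ℂ) (σ : ℂ) (N : ℕ) :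
    AM E σ (N + 1) (Fin.last N) (Fin.last N) = 1 + σ * E N N := by
  rw [AM_apply]
  simp

/-- the solution and its a priori bound -/
theorem exists_sol (E : ℕ → ℕ → ℂ) (σ : ℂ) (D r : ℝ) (hD : 0 ≤ D) (hr : 0 < r) (hr1 : r < 1)
    (hE : ∀ j k : ℕ, ‖E j k‖ ≤ D / ((k : ℝ) + 1) * (r ^ 2) ^ nd j k)
    (P : ℕ) (hP : ‖σ‖ * D * (2 / (1 - r ^ 2)) ≤ P) (N : ℕ) (hdet : 1 ≤ ‖(AM E σ N).det‖) :
    ∃ x : Fin N → ℂ, (∀ i, ∑ j, AM E σ N i j * x j = σ * E i N) ∧
      ∀ i, ‖x i‖ ≤ ((P : ℝ) + 1) * ((N : ℝ) + 1) ^ P := by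
  classical
  have hq0 : 0 ≤ r ^ 2 := by positivity
  have hq1 : r ^ 2 < 1 := by nlinarith
  set b : Fin N → ℂ := fun i => σ * E i N with hb
  have hne : (AM E σ N).det ≠ 0 := by
    intro h; rw [h, norm_zero] at hdet; linarith
  refine ⟨fun i => ((AM E σ N).det)⁻¹ * (AM E σ N).cramer b i, ?_, ?_⟩
  · intro i
    have h1 := congrFun (Matrix.mulVec_cramer (AM E σ N) b) i
    simp only [Matrix.mulVec, dotProduct, Pi.smul_apply, smul_eq_mul] at h1
    calc ∑ j, AM E σ N i j * (((AM E σ N).det)⁻¹ * (AM E σ N).cramer b j)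
        = ((AM E σ N).det)⁻¹ * ∑ j, AM E σ N i j * (AM E σ N).cramer b j := by
          rw [Finset.mul_sum]; refine Finset.sum_congr rfl fun j _ => by ring
      _ = b i := by rw [h1, ← mul_assoc, inv_mul_cancel₀ hne, one_mul]
  · intro i
    rw [norm_mul, norm_inv]
    have h2 : ‖(AM E σ N).cramer b i‖ ≤ ((P : ℝ) + 1) * ((N : ℝ) + 1) ^ P := by
      rw [Matrix.cramer_apply]
      refine (norm_det_le_prod_col _).trans ?_
      have hsum : ∀ k : ℕ, ∑ j : Fin N, ‖σ * E j k‖ ≤ P / ((k : ℝ) + 1) := by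
        intro k
        calc ∑ j : Fin N, ‖σ * E j k‖
            ≤ ∑ j : Fin N, ‖σ‖ * (D / ((k : ℝ) + 1)) * (r ^ 2) ^ nd k j := by
              refine Finset.sum_le_sum fun j _ => ?_
              rw [norm_mul, mul_assoc]
              rw [nd_comm]
              exact mul_le_mul_of_nonneg_left (hE j k) (norm_nonneg _)
          _ = ‖σ‖ * (D / ((k : ℝ) + 1)) * ∑ j ∈ Finset.range N, (r ^ 2) ^ nd k j := by
              rw [← Finset.mul_sum, ← Fin.sum_univ_eq_sum_range (fun j => (r ^ 2) ^ nd k j) N]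
          _ ≤ ‖σ‖ * (D / ((k : ℝ) + 1)) * (2 / (1 - r ^ 2)) := by
              refine mul_le_mul_of_nonneg_left (sum_pow_nd hq0 hq1 k N) (by positivity)
          _ = (‖σ‖ * D * (2 / (1 - r ^ 2))) / ((k : ℝ) + 1) := by ring
          _ ≤ P / ((k : ℝ) + 1) := by gcongr
      have hcol : ∀ k : Fin N, ∑ j, ‖((AM E σ N).updateCol i b) j k‖ ≤
          if k = i then (P : ℝ) + 1 else 1 + (P : ℝ) / (((k : ℕ) : ℝ) + 1) := by
        intro k
        split_ifs with hk
        · subst hk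
          simp only [Matrix.updateCol_self]
          refine (hsum N).trans ?_
          rw [div_le_iff₀ (by positivity)]
          have : (0 : ℝ) ≤ N := Nat.cast_nonneg _
          have : (0 : ℝ) ≤ P := Nat.cast_nonneg _
          nlinarith
        · have : ∀ j, ((AM E σ N).updateCol i b) j k = AM E σ N j k := fun j => by
            rw [Matrix.updateCol_ne hk]
          simp only [this, AM_apply]
          calc ∑ j : Fin N, ‖(if j = k then (1 : ℂ) else 0) + σ * E j k‖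
              ≤ ∑ j : Fin N, (‖(if j = k then (1 : ℂ) else 0)‖ + ‖σ * E j k‖) :=
                Finset.sum_le_sum fun j _ => norm_add_le _ _
            _ = 1 + ∑ j : Fin N, ‖σ * E j k‖ := by
                rw [Finset.sum_add_distrib]
                congr 1
                have : ∀ j : Fin N, ‖(if j = k then (1 : ℂ) else 0)‖ = if j = k then 1 else 0 := by
                  intro j; split_ifs <;> simp
                simp [this]
            _ ≤ 1 + (P : ℝ) / (((k : ℕ) : ℝ) + 1) := by linarith [hsum k]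
      calc ∏ k, ∑ j, ‖((AM E σ N).updateCol i b) j k‖
          ≤ ∏ k : Fin N, (if k = i then (P : ℝ) + 1 else 1 + (P : ℝ) / (((k : ℕ) : ℝ) + 1)) :=
            Finset.prod_le_prod (fun _ _ => Finset.sum_nonneg fun _ _ => norm_nonneg _)
              fun k _ => hcol k
        _ ≤ ∏ k : Fin N, ((if k = i then (P : ℝ) + 1 else 1) *
              (1 + (P : ℝ) / (((k : ℕ) : ℝ) + 1))) := by
            refine Finset.prod_le_prod (fun k _ => by split_ifs <;> positivity) fun k _ => ?_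
            have h5 : 0 ≤ (P : ℝ) / (((k : ℕ) : ℝ) + 1) := by positivity
            have h6 : (0 : ℝ) ≤ P := Nat.cast_nonneg _
            split_ifs <;> nlinarith
        _ = ((P : ℝ) + 1) * ∏ k : Fin N, (1 + (P : ℝ) / (((k : ℕ) : ℝ) + 1)) := by
            rw [Finset.prod_mul_distrib]
            congr 1
            rw [Finset.prod_ite_eq' Finset.univ i (fun _ => (P : ℝ) + 1)]
            simp
        _ ≤ ((P : ℝ) + 1) * ((N : ℝ) + 1) ^ P := by
            refine mul_le_mul_of_nonneg_left (prod_one_add_le P N) (by positivity)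
    calc ‖(AM E σ N).det‖⁻¹ * ‖(AM E σ N).cramer b i‖ ≤ 1 * (((P : ℝ) + 1) * ((N : ℝ) + 1) ^ P) := by
          refine mul_le_mul ?_ h2 (norm_nonneg _) zero_le_one
          exact inv_le_one_of_one_le₀ hdet
      _ = _ := one_mul _

theorem sol_bound (E : ℕ → ℕ → ℂ) (σ : ℂ) (D r : ℝ) (hD : 0 ≤ D) (hr : 0 < r) (hr1 : r < 1)
    (hE : ∀ j k : ℕ, ‖E j k‖ ≤ D / ((k : ℝ) + 1) * (r ^ 2) ^ nd j k)
    (hE' : ∀ j k : ℕ, ‖E j k‖ ≤ D / ((j : ℝ) + 1) * (r ^ 2) ^ nd j k)
    (j0 : ℕ) (hj0 : ∀ i : ℕ, j0 ≤ i → ‖σ‖ * D / ((i : ℝ) + 1) * (2 / (1 - r)) ≤ 1 / 4)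
    (N : ℕ) (x : Fin N → ℂ) (hx : ∀ i, ∑ j, AM E σ N i j * x j = σ * E i N)
    (U : ℝ) (hU : 0 < U) (hxU : ∀ i, ‖x i‖ ≤ U) (i : Fin N) :
    ‖x i‖ ≤ 2 * (‖σ‖ * D / ((N : ℝ) + 1)) + U / r ^ j0 * r ^ (i : ℕ) := by
  classical
  set γ : ℝ := ‖σ‖ * D / ((N : ℝ) + 1) with hγ
  have hγ0 : 0 ≤ γ := by positivity
  set w : Fin N → ℝ := fun i => 2 * γ + U / r ^ j0 * r ^ (i : ℕ) with hw
  have hw0 : ∀ i, 0 < w i := fun i => by
    have : 0 < U / r ^ j0 * r ^ (i : ℕ) := by positivity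
    simp only [hw]; linarith
  obtain ⟨m, _, hm⟩ := Finset.exists_max_image Finset.univ (fun i => ‖x i‖ / w i) ⟨i, Finset.mem_univ i⟩
  set M := ‖x m‖ / w m with hM
  have hM0 : 0 ≤ M := by positivity
  have hMx : ∀ j, ‖x j‖ ≤ M * w j := by
    intro j
    have := hm j (Finset.mem_univ j)
    rwa [div_le_iff₀ (hw0 j)] at this
  have hM1 : M ≤ 1 := by
    rcases lt_or_ge (m : ℕ) j0 with hlt | hge
    · rw [hM, div_le_one (hw0 m)]
      refine (hxU m).trans ?_
      have h1 : U ≤ U / r ^ j0 * r ^ (m : ℕ) := by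
        rw [div_mul_eq_mul_div, le_div_iff₀ (by positivity)]
        refine mul_le_mul_of_nonneg_left ?_ hU.le
        exact pow_le_pow_of_le_one hr.le hr1.le hlt.le
      simp only [hw]; linarith
    · have h1 : x m = σ * E m N - σ * ∑ j : Fin N, E m j * x j := by
        have h2 := hx m
        simp only [AM_apply, add_mul, ite_mul, one_mul, zero_mul] at h2
        rw [Finset.sum_add_distrib, Finset.sum_ite_eq Finset.univ m] at h2
        simp only [Finset.mem_univ, if_true] at h2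
        rw [Finset.mul_sum, ← h2]
        simp only [mul_assoc]
        ring
      have h3 : ‖σ * E m N‖ ≤ γ := by
        rw [norm_mul]
        calc ‖σ‖ * ‖E m N‖ ≤ ‖σ‖ * (D / ((N : ℝ) + 1) * 1) := by
              refine mul_le_mul_of_nonneg_left ((hE m N).trans ?_) (norm_nonneg _)
              refine mul_le_mul_of_nonneg_left ?_ (by positivity)
              exact pow_le_one₀ (by positivity) (by nlinarith)
          _ = γ := by rw [hγ]; ring
      have h4 : ‖σ * ∑ j : Fin N, E m j * x j‖ ≤ M / 4 * w m := by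
        have hs1 : ∑ j : Fin N, (r ^ 2) ^ nd m j ≤ 2 / (1 - r) := by
          rw [Fin.sum_univ_eq_sum_range (fun j => (r ^ 2) ^ nd m j) N]
          refine le_trans (Finset.sum_le_sum fun j _ => ?_) (sum_pow_nd hr.le hr1 m N)
          rw [← pow_mul]
          exact pow_le_pow_of_le_one hr.le hr1.le (by omega)
        have hs2 : ∑ j : Fin N, (r ^ 2) ^ nd m j * r ^ (j : ℕ) ≤ r ^ (m : ℕ) * (2 / (1 - r)) := by
          rw [Fin.sum_univ_eq_sum_range (fun j => (r ^ 2) ^ nd m j * r ^ j) N]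
          exact sum_pow_nd_weight hr hr1 m N
        rw [norm_mul]
        calc ‖σ‖ * ‖∑ j : Fin N, E m j * x j‖
            ≤ ‖σ‖ * ∑ j : Fin N, (D / (((m : ℕ) : ℝ) + 1) * (r ^ 2) ^ nd m j) * (M * w j) := by
              refine mul_le_mul_of_nonneg_left ?_ (norm_nonneg _)
              refine (norm_sum_le _ _).trans (Finset.sum_le_sum fun j _ => ?_)
              rw [norm_mul]
              exact mul_le_mul (hE' m j) (hMx j) (norm_nonneg _) (by positivity)
          _ = M * (‖σ‖ * D / (((m : ℕ) : ℝ) + 1)) * (2 * γ * ∑ j : Fin N, (r ^ 2) ^ nd m j +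
                U / r ^ j0 * ∑ j : Fin N, (r ^ 2) ^ nd m j * r ^ (j : ℕ)) := by
              rw [Finset.mul_sum, Finset.mul_sum, Finset.mul_sum, ← Finset.sum_add_distrib,
                Finset.mul_sum]
              refine Finset.sum_congr rfl fun j _ => ?_
              simp only [hw]
              ring
          _ ≤ M * (‖σ‖ * D / (((m : ℕ) : ℝ) + 1)) * (2 * γ * (2 / (1 - r)) +
                U / r ^ j0 * (r ^ (m : ℕ) * (2 / (1 - r)))) := by
              refine mul_le_mul_of_nonneg_left ?_ (by positivity)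
              refine add_le_add ?_ ?_
              · exact mul_le_mul_of_nonneg_left hs1 (by positivity)
              · exact mul_le_mul_of_nonneg_left hs2 (by positivity)
          _ = M * w m * (‖σ‖ * D / (((m : ℕ) : ℝ) + 1) * (2 / (1 - r))) := by
              simp only [hw]; ring
          _ ≤ M * w m * (1 / 4) := by
              refine mul_le_mul_of_nonneg_left (hj0 m hge) (by have := hw0 m; positivity)
          _ = M / 4 * w m := by ring
      have h5 : ‖x m‖ ≤ γ + M / 4 * w m := by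
        calc ‖x m‖ = ‖σ * E m N - σ * ∑ j : Fin N, E m j * x j‖ := by rw [← h1]
          _ ≤ ‖σ * E m N‖ + ‖σ * ∑ j : Fin N, E m j * x j‖ := norm_sub_le _ _
          _ ≤ _ := add_le_add h3 h4
      have h6 : M * w m = ‖x m‖ := by rw [hM]; field_simp [(hw0 m).ne']
      have h7 : γ ≤ 1 / 2 * w m := by
        have : 0 < U / r ^ j0 * r ^ (m : ℕ) := by positivity
        simp only [hw]; linarith
      have h8 : M * w m ≤ (1 / 2 + M / 4) * w m := by rw [h6]; linarith
      have h9 := le_of_mul_le_mul_right h8 (hw0 m)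
      linarith
  calc ‖x i‖ ≤ M * w i := hMx i
    _ ≤ 1 * w i := mul_le_mul_of_nonneg_right hM1 (hw0 i).le
    _ = _ := one_mul _

theorem ratio_abstract (E : ℕ → ℕ → ℂ) (σ : ℂ) (C θ : ℝ) (hC : 0 ≤ C) (hθ : 0 < θ) (hθ1 : θ < 1)
    (hE : ∀ j k : ℕ, ‖E j k‖ ≤ C / ((k : ℝ) + 1) * θ ^ ((j : ℤ) - k).natAbs)
    (hdet : ∀ N : ℕ, 1 ≤ ‖(1 + σ • (Matrix.of fun j k : Fin N => E j k)).det‖) :
    Tendsto (fun N : ℕ => (1 + σ • (Matrix.of fun j k : Fin (N + 1) => E j k)).det /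
      (1 + σ • (Matrix.of fun j k : Fin N => E j k)).det) atTop (𝓝 1) := by
  obtain ⟨D, r, hD, hr, hr1, hE1, hE2⟩ := two_sided E C θ hC hθ hθ1 hE
  change Tendsto (fun N : ℕ => (AM E σ (N + 1)).det / (AM E σ N).det) atTop (𝓝 1)
  have hdet' : ∀ N : ℕ, 1 ≤ ‖(AM E σ N).det‖ := hdet
  obtain ⟨P, hP⟩ := exists_nat_ge (‖σ‖ * D * (2 / (1 - r ^ 2)))
  have h1r : 0 < 1 - r := by linarith
  obtain ⟨j0, hj0⟩ := exists_nat_ge (4 * (‖σ‖ * D * (2 / (1 - r))))
  have hj0' : ∀ i : ℕ, j0 ≤ i → ‖σ‖ * D / ((i : ℝ) + 1) * (2 / (1 - r)) ≤ 1 / 4 := by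
    intro i hi
    have h1 : (j0 : ℝ) ≤ i := by exact_mod_cast hi
    have h2 : (0 : ℝ) ≤ i := Nat.cast_nonneg _
    rw [show ‖σ‖ * D / ((i : ℝ) + 1) * (2 / (1 - r)) = (‖σ‖ * D * (2 / (1 - r))) / ((i : ℝ) + 1) by
      ring, div_le_iff₀ (by positivity)]
    linarith
  have key : ∀ N : ℕ, ‖(AM E σ (N + 1)).det / (AM E σ N).det - 1‖ ≤
      ‖σ‖ * D / ((N : ℝ) + 1) * (1 + (2 * (‖σ‖ * D / ((N : ℝ) + 1)) +
        ((P : ℝ) + 1) * ((N : ℝ) + 1) ^ P / r ^ j0 * r ^ N) * (2 / (1 - r))) := by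
    intro N
    obtain ⟨x, hx, hxU⟩ := exists_sol E σ D r hD hr hr1 hE1 P hP N (hdet' N)
    have hU : 0 < ((P : ℝ) + 1) * ((N : ℝ) + 1) ^ P := by positivity
    have hb := sol_bound E σ D r hD hr hr1 hE1 hE2 j0 hj0' N x hx _ hU hxU
    set U := ((P : ℝ) + 1) * ((N : ℝ) + 1) ^ P with hUdef
    set γ : ℝ := ‖σ‖ * D / ((N : ℝ) + 1) with hγ
    have hγ0 : 0 ≤ γ := by positivity
    have hne : (AM E σ N).det ≠ 0 := by
      intro h; have := hdet' N; rw [h, norm_zero] at this; linarith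
    have hs := det_succ_of_solution (AM E σ (N + 1)) x (by
      intro i
      simp only [AM_castSucc, AM_last]
      exact hx i)
    have hsub : (AM E σ (N + 1)).submatrix Fin.castSucc Fin.castSucc = AM E σ N := by
      ext i j; simp [AM_castSucc]
    rw [hsub, AM_last_last] at hs
    simp only [AM_last'] at hs
    rw [hs, mul_div_assoc, mul_comm, div_mul_cancel₀ _ hne]
    have h1 : 1 + σ * E N N - ∑ j : Fin N, σ * E N j * x j - 1 =
        σ * E N N - σ * ∑ j : Fin N, E N j * x j := by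
      rw [Finset.mul_sum]; simp only [mul_assoc]; ring
    rw [h1]
    have h2 : ‖σ * E N N‖ ≤ γ := by
      rw [norm_mul]
      calc ‖σ‖ * ‖E N N‖ ≤ ‖σ‖ * (D / ((N : ℝ) + 1) * (r ^ 2) ^ nd N N) :=
            mul_le_mul_of_nonneg_left (hE1 N N) (norm_nonneg _)
        _ = γ := by rw [nd_self, pow_zero, hγ]; ring
    have h3 : ‖σ * ∑ j : Fin N, E N j * x j‖ ≤ γ * ((2 * γ + U / r ^ j0 * r ^ N) * (2 / (1 - r))) := by
      have hs1 : ∑ j : Fin N, (r ^ 2) ^ nd N j ≤ 2 / (1 - r) := by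
        rw [Fin.sum_univ_eq_sum_range (fun j => (r ^ 2) ^ nd N j) N]
        refine le_trans (Finset.sum_le_sum fun j _ => ?_) (sum_pow_nd hr.le hr1 N N)
        rw [← pow_mul]
        exact pow_le_pow_of_le_one hr.le hr1.le (by omega)
      have hs2 : ∑ j : Fin N, (r ^ 2) ^ nd N j * r ^ (j : ℕ) ≤ r ^ N * (2 / (1 - r)) := by
        rw [Fin.sum_univ_eq_sum_range (fun j => (r ^ 2) ^ nd N j * r ^ j) N]
        exact sum_pow_nd_weight hr hr1 N N
      rw [norm_mul]
      calc ‖σ‖ * ‖∑ j : Fin N, E N j * x j‖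
          ≤ ‖σ‖ * ∑ j : Fin N, (D / ((N : ℝ) + 1) * (r ^ 2) ^ nd N j) *
              (2 * γ + U / r ^ j0 * r ^ (j : ℕ)) := by
            refine mul_le_mul_of_nonneg_left ?_ (norm_nonneg _)
            refine (norm_sum_le _ _).trans (Finset.sum_le_sum fun j _ => ?_)
            rw [norm_mul]
            exact mul_le_mul (hE2 N j) (hb j) (norm_nonneg _) (by positivity)
        _ = γ * (2 * γ * ∑ j : Fin N, (r ^ 2) ^ nd N j +
              U / r ^ j0 * ∑ j : Fin N, (r ^ 2) ^ nd N j * r ^ (j : ℕ)) := by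
            rw [Finset.mul_sum, Finset.mul_sum, Finset.mul_sum, ← Finset.sum_add_distrib,
              Finset.mul_sum]
            refine Finset.sum_congr rfl fun j _ => ?_
            rw [hγ]
            ring
        _ ≤ γ * (2 * γ * (2 / (1 - r)) + U / r ^ j0 * (r ^ N * (2 / (1 - r)))) := by
            refine mul_le_mul_of_nonneg_left ?_ hγ0
            refine add_le_add ?_ ?_
            · exact mul_le_mul_of_nonneg_left hs1 (by positivity)
            · exact mul_le_mul_of_nonneg_left hs2 (by positivity)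
        _ = _ := by ring
    calc ‖σ * E N N - σ * ∑ j : Fin N, E N j * x j‖
        ≤ ‖σ * E N N‖ + ‖σ * ∑ j : Fin N, E N j * x j‖ := norm_sub_le _ _
      _ ≤ γ + γ * ((2 * γ + U / r ^ j0 * r ^ N) * (2 / (1 - r))) := add_le_add h2 h3
      _ = _ := by ring
  have h1N : Tendsto (fun N : ℕ => ‖σ‖ * D / ((N : ℝ) + 1)) atTop (𝓝 0) := by
    have := (tendsto_one_div_add_atTop_nhds_zero_nat (𝕜 := ℝ)).const_mul (‖σ‖ * D)
    simpa [mul_one_div, div_eq_mul_inv] using this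
  have h2N : Tendsto (fun N : ℕ => ((P : ℝ) + 1) * ((N : ℝ) + 1) ^ P / r ^ j0 * r ^ N) atTop
      (𝓝 0) := by
    have h3 : Tendsto (fun N : ℕ => ((N + 1 : ℕ) : ℝ) ^ P * r ^ (N + 1)) atTop (𝓝 0) :=
      (tendsto_pow_const_mul_const_pow_of_abs_lt_one P (by rw [abs_of_pos hr]; exact hr1)).comp
        (tendsto_add_atTop_nat 1)
    have h4 := h3.const_mul (((P : ℝ) + 1) / r ^ j0 / r)
    rw [mul_zero] at h4
    refine h4.congr fun N => ?_
    push_cast
    rw [pow_succ]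
    field_simp
  have h3N : Tendsto (fun N : ℕ => ‖σ‖ * D / ((N : ℝ) + 1) * (1 + (2 * (‖σ‖ * D / ((N : ℝ) + 1)) +
        ((P : ℝ) + 1) * ((N : ℝ) + 1) ^ P / r ^ j0 * r ^ N) * (2 / (1 - r)))) atTop (𝓝 0) := by
    have h5 := h1N.mul ((((h1N.const_mul 2).add h2N).mul_const (2 / (1 - r))).const_add 1)
    simpa using h5
  rw [tendsto_iff_norm_sub_tendsto_zero]
  exact squeeze_zero (fun N => norm_nonneg _) key h3N

end Pool.Agent.Helper55.BD
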