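import Pool.Agent.Helper61.BD.TriExp

/-! Module G (blueprint G): exponential of the tridiagonal matrix `J`; proved in
`Pool.Agent.Helper61.BD.TriExp` (namespace `Pool.Agent.Helper55.BD`). -/
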