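import Pool.Agent.Helper55.BD.Real1
import Pool.Agent.Helper55.BD.Gram
import Pool.Agent.Helper55.BD.TriExp
import Pool.Agent.Helper55.BD.RatioDet

/-! Module I (blueprint I): consecutive ratios of `det (1 + σ E)` tend to one. -/

open Set Filter Topology MeasureTheory

namespace Pool.Agent.Helper55.BD

open Pool.Agent.Helper28.Eta (eta sg vdm mup nu)

theorem hank_ofReal (m : ℕ → ℝ) (N : ℕ) :
    hank (fun k => (m k : ℂ)) N = ((hank m N : ℝ) : ℂ) := by
  unfold hank
  have h := RingHom.map_det (Complex.ofRealHom)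
    (Matrix.of fun j k : Fin N => m ((j : ℕ) + (k : ℕ)))
  simp only [Complex.ofRealHom_eq_coe] at h
  rw [h]
  congr 1

theorem iteratedDeriv_ff_succ (s k : ℕ) (z : ℂ) :
    iteratedDeriv k (ff (s + 1)) z =
      iteratedDeriv k (ff s) (z - 1) + (s : ℂ) * iteratedDeriv k (ff s) z := by
  have hd := ff_differentiable s
  have hc1 : ContDiffAt ℂ k (fun z => ff s (z - 1)) z :=
    (Differentiable.contDiff (hd.comp (differentiable_id.sub_const 1))).contDiffAt
  have hc2 : ContDiffAt ℂ k (fun z => (s : ℂ) * ff s z) z :=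
    (Differentiable.contDiff (hd.const_mul (s : ℂ))).contDiffAt
  change iteratedDeriv k (fun z => ff s (z - 1) + (s : ℂ) * ff s z) z = _
  rw [iteratedDeriv_fun_add hc1 hc2, iteratedDeriv_comp_sub_const, iteratedDeriv_const_mul_field]

theorem sg_sq (N : ℕ) : sg N ^ 2 = 1 := by
  rw [sq]; exact Pool.Agent.Helper28.Eta.sg_mul_sg N

theorem sg_rel (N : ℕ) : sg (N + 2) * sg N = -1 := by
  rw [sg_succ (N + 1), sg_succ N]
  have h := sg_sq N
  have e : ((-1 : ℝ)) ^ N * (-1) ^ N = 1 := by rw [← mul_pow]; simp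
  rw [pow_succ]
  linear_combination (-(((-1 : ℝ)) ^ N * (-1) ^ N)) * h - e

theorem betaOf_mm (s k : ℕ) {c : ℝ} (hc : 0 < c) : betaOf (mm s c) k = bet s k c := by
  unfold betaOf bet
  rw [(TT_hasDerivAt s k hc).deriv, (TT_hasDerivAt s (k + 1) hc).deriv]

theorem aOf_mm (s k : ℕ) {c : ℝ} (_hc : 0 < c) : aOf (mm s c) k = Real.sqrt (nuu s k c) := by
  unfold aOf nuu
  rcases Nat.eq_zero_or_pos k with hk | hk
  · simp [hk]
  · rw [if_neg hk.ne', if_neg hk.ne']
    obtain ⟨n, rfl⟩ : ∃ n, k = n + 1 := ⟨k - 1, by omega⟩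
    congr 1
    have h1 := sg_rel n
    have h2 := sg_sq (n + 1)
    simp only [Nat.add_sub_cancel, tau]
    rw [show n + 1 + 1 = n + 2 from rfl, mul_pow, h2, one_mul]
    congr 1
    linear_combination (-(hank (mm s c) (n + 2) * hank (mm s c) n)) * h1

theorem JB_mm (s : ℕ) : ∃ A B : ℝ, ∀ c : ℝ, 2 ≤ c → JB (betaOf (mm s c)) (aOf (mm s c)) A B := by
  obtain ⟨C, hC⟩ := nuu_le s
  obtain ⟨B, hB⟩ := bet_log s
  refine ⟨Real.sqrt |C|, |B|, fun c hc => ⟨Real.sqrt_nonneg _, abs_nonneg _, fun k => ?_, fun k => ?_⟩⟩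
  · rw [aOf_mm s k (by linarith), abs_of_nonneg (Real.sqrt_nonneg _)]
    exact Real.sqrt_le_sqrt ((hC k c hc).trans (le_abs_self C))
  · rw [betaOf_mm s k (by linarith)]
    exact (hB k c hc).trans (le_abs_self B)

/-- the ratio `τ_{s+1}(N,c+1)/τ_s(N,c)` as a determinant -/
theorem tau_ratio_det (s N : ℕ) {c : ℝ} (hc : 2 ≤ c) :
    ((tau (s + 1) N (c + 1) : ℝ) : ℂ) = ((tau s N c : ℝ) : ℂ) *
      (1 + (s : ℂ) • Em (betaOf (mm s c)) (aOf (mm s c)) 1 N).det := by
  obtain ⟨A, B, hAB⟩ := JB_mm s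
  have hc0 : 0 < c := by linarith
  have h1 := gram_det_add (ff s) (ff_differentiable s) c (mm s c) (fun k => iteratedDeriv_ff k hc0)
    (fun N => tau_pos s N hc0) (hAB c hc) N 1 (s : ℂ)
  have h2 : (fun k => iteratedDeriv k (ff s) (c : ℂ) +
      (s : ℂ) * iteratedDeriv k (ff s) ((c : ℂ) + 1)) = fun k => ((mm (s + 1) (c + 1) k : ℝ) : ℂ) := by
    funext k
    rw [← iteratedDeriv_ff k (show (0 : ℝ) < c + 1 by linarith), iteratedDeriv_ff_succ]
    push_cast
    rw [add_sub_cancel_right]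
  rw [h2, hank_ofReal] at h1
  unfold tau
  push_cast
  rw [h1]
  ring

theorem ratio_tau (s : ℕ) {c : ℝ} (hc : 2 ≤ c) :
    Tendsto (fun N : ℕ => tau (s + 1) (N + 1) (c + 1) * tau s N c /
      (tau (s + 1) N (c + 1) * tau s (N + 1) c)) atTop (𝓝 1) := by
  have hc0 : 0 < c := by linarith
  obtain ⟨A, B, hAB⟩ := JB_mm s
  have hJ := hAB c hc
  obtain ⟨K, hK0, hK⟩ := EE_bound hJ 1 (1 / 2) (by norm_num) (by norm_num)
  have hdet : ∀ N : ℕ, (1 + (s : ℂ) • (Matrix.of fun j k : Fin N =>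
      EE (betaOf (mm s c)) (aOf (mm s c)) 1 j k)).det =
      ((tau (s + 1) N (c + 1) / tau s N c : ℝ) : ℂ) := by
    intro N
    have h := tau_ratio_det s N hc
    have hne : ((tau s N c : ℝ) : ℂ) ≠ 0 := by exact_mod_cast (tau_pos s N hc0).ne'
    rw [Complex.ofReal_div, eq_div_iff hne, mul_comm, h]
    rfl
  have h1 := ratio_abstract (EE (betaOf (mm s c)) (aOf (mm s c)) 1) (s : ℂ) K (1 / 2) hK0
    (by norm_num) (by norm_num) (by
      intro j k
      have := hK 1 (by simp) j k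
      refine this.trans (le_of_eq ?_)
      rw [Complex.one_re, Real.rpow_neg_one, ← div_eq_mul_inv])
    (by
      intro N
      rw [hdet N, Complex.norm_real, Real.norm_eq_abs]
      refine le_trans ?_ (le_abs_self _)
      rw [one_le_div (tau_pos s N hc0)]
      have h2 := tau_L s N hc0
      have h3 : (1 : ℝ) ≤ ((N + s).choose s : ℝ) := by
        exact_mod_cast Nat.choose_pos (Nat.le_add_left s N)
      have h4 := tau_pos s N hc0
      nlinarith)
  simp only [hdet] at h1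
  have h2 : Tendsto (fun N : ℕ => (((tau (s + 1) (N + 1) (c + 1) / tau s (N + 1) c) /
      (tau (s + 1) N (c + 1) / tau s N c) : ℝ) : ℂ)) atTop (𝓝 ((1 : ℝ) : ℂ)) := by
    simpa using h1
  have h3 := (Complex.continuous_re.tendsto _).comp h2
  simp only [Function.comp_def, Complex.ofReal_re] at h3
  refine h3.congr fun N => ?_
  have h4 := (tau_pos s N hc0).ne'
  have h5 := (tau_pos s (N + 1) hc0).ne'
  have h6 := (tau_pos (s + 1) N (show (0 : ℝ) < c + 1 by linarith)).ne'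
  field_simp

end Pool.Agent.Helper55.BD
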