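import Pool.Agent.Helper55.BD.Ens
import Pool.Agent.Helper55.BD.Toda
import Pool.Agent.Helper55.BD.Beta

/-! Module F (blueprint F): real analysis of `tau`. -/

open Set Filter Topology MeasureTheory

namespace Pool.Agent.Helper55.BD

open Pool.Agent.Helper28.Eta (eta sg vdm mup nu)

theorem sg_zero : sg 0 = 1 := by
  unfold sg
  simp

theorem sg_add_two_mul (n : ℕ) : sg (n + 2) * sg n = -1 := by
  rw [show n + 2 = (n + 1) + 1 from rfl, sg_succ, sg_succ]
  have h := Pool.Agent.Helper28.Eta.sg_mul_sg n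
  have h2 : (-1 : ℝ) ^ n * (-1) ^ n = 1 := by
    rw [← mul_pow]; simp
  calc (-1 : ℝ) ^ (n + 1) * ((-1) ^ n * sg n) * sg n
      = -(((-1) ^ n * (-1) ^ n) * (sg n * sg n)) := by ring
    _ = -1 := by rw [h, h2]; ring

theorem sg_ne_zero (n : ℕ) : sg n ≠ 0 := by
  intro h
  have := Pool.Agent.Helper28.Eta.sg_mul_sg n
  rw [h] at this
  norm_num at this

theorem mm_hasDerivAt (s k : ℕ) (c : ℝ) : HasDerivAt (fun c => mm s c k) (mm s c (k + 1)) c := by
  have hcd : ContDiff ℂ ⊤ (ff s) := (ff_differentiable s).contDiff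
  have hd : Differentiable ℂ (iteratedDeriv k (ff s)) :=
    hcd.differentiable_iteratedDeriv k (WithTop.coe_lt_top _)
  have h1 : HasDerivAt (iteratedDeriv k (ff s)) (iteratedDeriv (k + 1) (ff s) (c : ℂ)) (c : ℂ) := by
    rw [iteratedDeriv_succ]
    exact (hd _).hasDerivAt
  exact h1.real_of_complex

theorem hank_hasDerivAt (s N : ℕ) (c : ℝ) :
    HasDerivAt (fun c => hank (mm s c) N) (hank1 (mm s c) N) c :=
  hasDerivAt_hank (fun k c => mm s c k) (fun k c => mm_hasDerivAt s k c) N c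

theorem hank_ne_zero (s N : ℕ) {c : ℝ} (hc : 0 < c) : hank (mm s c) N ≠ 0 := by
  intro h
  have := tau_pos s N hc
  rw [tau, h, mul_zero] at this
  exact lt_irrefl _ this

theorem hank_eq_tau (s N : ℕ) (c : ℝ) : hank (mm s c) N = sg N * tau s N c := by
  rw [tau, ← mul_assoc, Pool.Agent.Helper28.Eta.sg_mul_sg, one_mul]

/-- `T` is differentiable and `T' = hank1 / hank` -/
theorem TT_hasDerivAt (s N : ℕ) {c : ℝ} (hc : 0 < c) :
    HasDerivAt (TT s N) (hank1 (mm s c) N / hank (mm s c) N) c := by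
  have h1 : HasDerivAt (fun c => tau s N c) (sg N * hank1 (mm s c) N) c :=
    (hank_hasDerivAt s N c).const_mul (sg N)
  have h2 := h1.log (tau_pos s N hc).ne'
  have e : sg N * hank1 (mm s c) N / tau s N c = hank1 (mm s c) N / hank (mm s c) N := by
    rw [tau, mul_div_mul_left _ _ (sg_ne_zero N)]
  rw [e] at h2
  exact h2

theorem TT_zero (s : ℕ) : TT s 0 = fun _ => 0 := by
  funext c
  rw [TT, tau_zero, Real.log_one]

theorem TT_deriv_hasDerivAt (s N : ℕ) {c : ℝ} (hc : 0 < c) :
    HasDerivAt (deriv (TT s N)) (-(nuu s N c)) c := by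
  rcases N with _ | N
  · rw [TT_zero]
    simp only [nuu, if_true, neg_zero]
    have : deriv (fun _ : ℝ => (0 : ℝ)) = fun _ => 0 := by
      funext x; simp
    rw [this]
    exact hasDerivAt_const c 0
  · have hev : deriv (TT s (N + 1)) =ᶠ[𝓝 c]
        fun c => hank1 (mm s c) (N + 1) / hank (mm s c) (N + 1) := by
      filter_upwards [Ioi_mem_nhds hc] with x hx
      exact (TT_hasDerivAt s (N + 1) hx).deriv
    obtain ⟨d, hd, hd2⟩ := hasDerivAt_hank1 (fun k c => mm s c k) (fun k c => mm_hasDerivAt s k c) N c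
    have h1 := hank_hasDerivAt s (N + 1) c
    have h2 := hd.div h1 (hank_ne_zero s (N + 1) hc)
    refine (h2.congr_deriv ?_).congr_of_eventuallyEq hev
    have hne := hank_ne_zero s (N + 1) hc
    have hn : nuu s (N + 1) c = tau s (N + 2) c * tau s N c / tau s (N + 1) c ^ 2 := by
      simp [nuu]
    have e2 : d * hank (mm s c) (N + 1) - hank1 (mm s c) (N + 1) * hank1 (mm s c) (N + 1) =
        hank (mm s c) (N + 2) * hank (mm s c) N := by
      linarith
    have e3 : hank (mm s c) (N + 2) * hank (mm s c) N = -(tau s (N + 2) c * tau s N c) := by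
      rw [hank_eq_tau, hank_eq_tau]
      have := sg_add_two_mul N
      calc sg (N + 2) * tau s (N + 2) c * (sg N * tau s N c)
          = (sg (N + 2) * sg N) * (tau s (N + 2) c * tau s N c) := by ring
        _ = _ := by rw [this]; ring
    have e4 : hank (mm s c) (N + 1) ^ 2 = tau s (N + 1) c ^ 2 := by
      rw [hank_eq_tau, mul_pow, pow_two, Pool.Agent.Helper28.Eta.sg_mul_sg, one_mul]
    rw [e2, e3, e4, hn, neg_div]

theorem nuu_pos (s N : ℕ) {c : ℝ} (hc : 0 < c) : 0 < nuu s (N + 1) c := by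
  have h1 := tau_pos s (N + 1) hc
  have h2 := tau_pos s (N + 2) hc
  have h3 := tau_pos s N hc
  have hn : nuu s (N + 1) c = tau s (N + 2) c * tau s N c / tau s (N + 1) c ^ 2 := by
    simp [nuu]
  rw [hn]
  positivity

theorem nuu_nonneg (s N : ℕ) {c : ℝ} (hc : 0 < c) : 0 ≤ nuu s N c := by
  rcases N with _ | N
  · simp [nuu]
  · exact (nuu_pos s N hc).le

theorem bet_hasDerivAt (s N : ℕ) {c : ℝ} (hc : 0 < c) :
    HasDerivAt (bet s N) (nuu s (N + 1) c - nuu s N c) c := by
  have h := (TT_deriv_hasDerivAt s N hc).sub (TT_deriv_hasDerivAt s (N + 1) hc)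
  refine h.congr_deriv ?_
  ring

theorem exp_TT (s N : ℕ) {c : ℝ} (hc : 0 < c) : Real.exp (TT s N c) = tau s N c :=
  Real.exp_log (tau_pos s N hc)

theorem log_nuu (s N : ℕ) {c : ℝ} (hc : 0 < c) :
    Real.log (nuu s (N + 1) c) = TT s (N + 2) c + TT s N c - 2 * TT s (N + 1) c := by
  have h1 := tau_pos s (N + 1) hc
  have h2 := tau_pos s (N + 2) hc
  have h3 := tau_pos s N hc
  have hn : nuu s (N + 1) c = tau s (N + 2) c * tau s N c / tau s (N + 1) c ^ 2 := by
    simp [nuu]
  rw [hn, Real.log_div (by positivity) (by positivity), Real.log_mul h2.ne' h3.ne', Real.log_pow]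
  simp [TT]

theorem nuu_eq_exp (s N : ℕ) {c : ℝ} (hc : 0 < c) :
    nuu s (N + 1) c = Real.exp (TT s (N + 2) c + TT s N c - 2 * TT s (N + 1) c) := by
  rw [← log_nuu s N hc, Real.exp_log (nuu_pos s N hc)]

theorem TT_deriv (s N : ℕ) {c : ℝ} (hc : 0 < c) : HasDerivAt (TT s N) (deriv (TT s N) c) c :=
  (TT_hasDerivAt s N hc).differentiableAt.hasDerivAt

theorem nuu_hasDerivAt (s N : ℕ) {c : ℝ} (hc : 0 < c) :
    HasDerivAt (nuu s (N + 1)) (-(nuu s (N + 1) c * (bet s (N + 1) c - bet s N c))) c := by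
  have h1 := (((TT_deriv s (N + 2) hc).add (TT_deriv s N hc)).sub
    ((TT_deriv s (N + 1) hc).const_mul 2)).exp
  have hev : nuu s (N + 1) =ᶠ[𝓝 c]
      fun c => Real.exp ((TT s (N + 2) + TT s N - fun y => 2 * TT s (N + 1) y) c) := by
    filter_upwards [Ioi_mem_nhds hc] with x hx
    exact nuu_eq_exp s N hx
  refine (h1.congr_deriv ?_).congr_of_eventuallyEq hev
  rw [nuu_eq_exp s N hc]
  simp only [bet, Pi.sub_apply, Pi.add_apply]
  ring

/-- `w(h) = T(c+h) + T(c-h)` is nonincreasing for `h ≥ 0`. -/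
theorem TT_sym_antitone (s N : ℕ) {c a b : ℝ} (ha : 0 ≤ a) (hab : a ≤ b) (hc : b < c) :
    TT s N (c + b) + TT s N (c - b) ≤ TT s N (c + a) + TT s N (c - a) := by
  have hD : ∀ h : ℝ, 0 ≤ h → h ≤ b → HasDerivAt (fun h => TT s N (c + h) + TT s N (c - h))
      (deriv (TT s N) (c + h) - deriv (TT s N) (c - h)) h := by
    intro h h0 hb
    have e1 : HasDerivAt (fun h => TT s N (c + h)) (deriv (TT s N) (c + h)) h := by
      have := (TT_deriv s N (show 0 < c + h by linarith)).comp_const_add c h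
      exact this
    have e2 : HasDerivAt (fun h => TT s N (c - h)) (-(deriv (TT s N) (c - h))) h := by
      have := (TT_deriv s N (show 0 < c - h by linarith)).comp_const_sub c h
      exact this
    exact (e1.add e2).congr_deriv (by ring)
  have hle : ∀ h : ℝ, 0 ≤ h → h ≤ b → deriv (TT s N) (c + h) - deriv (TT s N) (c - h) ≤ 0 := by
    intro h h0 hb
    have hanti : AntitoneOn (deriv (TT s N)) (Set.Ioi 0) := by
      refine antitoneOn_of_deriv_nonpos (convex_Ioi 0) ?_ ?_ ?_
      · intro x hx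
        exact (TT_deriv_hasDerivAt s N hx).continuousAt.continuousWithinAt
      · intro x hx
        rw [interior_Ioi] at hx
        exact (TT_deriv_hasDerivAt s N hx).differentiableAt.differentiableWithinAt
      · intro x hx
        rw [interior_Ioi] at hx
        rw [(TT_deriv_hasDerivAt s N hx).deriv]
        have := nuu_nonneg s N hx
        linarith
    have := hanti (a := c - h) (b := c + h) (show (0 : ℝ) < c - h by linarith)
      (show (0 : ℝ) < c + h by linarith) (by linarith)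
    linarith
  have hanti : AntitoneOn (fun h => TT s N (c + h) + TT s N (c - h)) (Set.Icc 0 b) := by
    refine antitoneOn_of_deriv_nonpos (convex_Icc 0 b) ?_ ?_ ?_
    · intro x hx
      exact (hD x hx.1 hx.2).continuousAt.continuousWithinAt
    · intro x hx
      rw [interior_Icc] at hx
      exact (hD x hx.1.le hx.2.le).differentiableAt.differentiableWithinAt
    · intro x hx
      rw [interior_Icc] at hx
      rw [(hD x hx.1.le hx.2.le).deriv]
      exact hle x hx.1.le hx.2.le
  exact hanti ⟨ha, hab⟩ ⟨ha.trans hab, le_refl b⟩ hab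

theorem tau_conc (s N : ℕ) {c h : ℝ} (hh : 0 ≤ h) (hc : h < c) :
    tau s N (c - h) * tau s N (c + h) ≤ tau s N c ^ 2 := by
  have h1 := TT_sym_antitone s N (le_refl 0) hh hc
  simp only [add_zero, sub_zero] at h1
  have h2 := Real.exp_le_exp.2 h1
  rw [Real.exp_add, Real.exp_add, exp_TT s N (show 0 < c + h by linarith),
    exp_TT s N (show 0 < c - h by linarith), exp_TT s N (show 0 < c by linarith)] at h2
  calc tau s N (c - h) * tau s N (c + h) = tau s N (c + h) * tau s N (c - h) := mul_comm _ _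
    _ ≤ tau s N c * tau s N c := h2
    _ = tau s N c ^ 2 := by ring

theorem tau_L (s N : ℕ) {c : ℝ} (hc : 0 < c) :
    ((N + s).choose s : ℝ) * tau s N c ≤ tau (s + 1) N (c + 1) := by
  induction s generalizing c with
  | zero => simp [tau_base]
  | succ s ih =>
    have t0 := tau_pos s N (show 0 < c + 1 by linarith)
    have t1 := tau_pos (s + 1) N hc
    have t2 := tau_pos (s + 1) N (show 0 < c + 1 by linarith)
    have t3 := tau_pos (s + 1) N (show 0 < c + 2 by linarith)
    have hI := tau_I1 s N (show 0 < c + 1 by linarith)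
    have hIH := ih (show 0 < c + 1 by linarith)
    rw [show c + 1 + 1 = c + 2 by ring] at hIH
    have hconc := tau_conc (s + 1) N (c := c + 1) (h := 1) (by norm_num) (by linarith)
    rw [show c + 1 + 1 = c + 2 by ring, show c + 1 - 1 = c by ring] at hconc
    have hch : (((N + (s + 1)).choose (s + 1) : ℕ) : ℝ) * ((s : ℝ) + 1) =
        ((N : ℝ) + s + 1) * ((N + s).choose s : ℝ) := by
      have := Nat.add_one_mul_choose_eq (N + s) s
      have h2 : ((N + s + 1 : ℕ) : ℝ) * ((N + s).choose s : ℝ) =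
          ((N + s + 1).choose (s + 1) : ℝ) * ((s + 1 : ℕ) : ℝ) := by
        exact_mod_cast this
      push_cast at h2
      rw [show N + (s + 1) = N + s + 1 by ring]
      linarith
    have hs : (0 : ℝ) < (s : ℝ) + 1 := by positivity
    have hNs : (0 : ℝ) < (N : ℝ) + s + 1 := by positivity
    have hC : (0 : ℝ) < ((N + s).choose s : ℝ) := by
      exact_mod_cast Nat.choose_pos (Nat.le_add_left s N)
    have k1 : (((N : ℝ) + s + 1) / ((s : ℝ) + 1)) * (tau (s + 1) N c * tau (s + 1) N (c + 2)) ≤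
        tau s N (c + 1) * tau (s + 2) N (c + 1) :=
      le_trans (mul_le_mul_of_nonneg_left hconc (by positivity)) hI
    have k2 : (((N : ℝ) + s + 1) / ((s : ℝ) + 1)) *
        (tau (s + 1) N c * (((N + s).choose s : ℝ) * tau s N (c + 1))) ≤
        tau s N (c + 1) * tau (s + 2) N (c + 1) := by
      refine le_trans (mul_le_mul_of_nonneg_left ?_ (by positivity)) k1
      exact mul_le_mul_of_nonneg_left hIH t1.le
    have e : (((N : ℝ) + s + 1) / ((s : ℝ) + 1)) *
        (tau (s + 1) N c * (((N + s).choose s : ℝ) * tau s N (c + 1))) =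
        tau s N (c + 1) * ((((N + (s + 1)).choose (s + 1) : ℕ) : ℝ) * tau (s + 1) N c) := by
      have : (((N + (s + 1)).choose (s + 1) : ℕ) : ℝ) =
          ((N : ℝ) + s + 1) * ((N + s).choose s : ℝ) / ((s : ℝ) + 1) := by
        rw [eq_div_iff hs.ne']
        exact hch
      rw [this]
      field_simp
    rw [e] at k2
    exact le_of_mul_le_mul_left k2 t0

noncomputable def VV (s N : ℕ) (c : ℝ) : ℝ :=
  TT (s + 1) N (c + 1) - TT s N c - Real.log ((N + s).choose s)

theorem choose_pos' (N s : ℕ) : (0 : ℝ) < ((N + s).choose s : ℝ) := by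
  exact_mod_cast Nat.choose_pos (Nat.le_add_left s N)

theorem VV_nonneg (s N : ℕ) {c : ℝ} (hc : 0 < c) : 0 ≤ VV s N c := by
  have h1 := tau_L s N hc
  have h2 := tau_pos s N hc
  have h3 := Real.log_le_log (mul_pos (choose_pos' N s) h2) h1
  rw [Real.log_mul (choose_pos' N s).ne' h2.ne'] at h3
  rw [VV, TT, TT]
  linarith

theorem VV_le (s N : ℕ) {c : ℝ} (hc : 0 < c) : VV s N c ≤ s * Real.log 2 := by
  have h1 := tau_I2 s N hc
  have h2 := tau_pos s N hc
  have h3 := tau_pos (s + 1) N (show 0 < c + 1 by linarith)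
  have h4 := Real.log_le_log h3 h1
  have h5 : (0 : ℝ) < 2 ^ s := by positivity
  rw [Real.log_mul (mul_pos h5 (choose_pos' N s)).ne' h2.ne', Real.log_mul h5.ne'
    (choose_pos' N s).ne', Real.log_pow] at h4
  rw [VV, TT, TT]
  linarith

theorem second_diff (s N : ℕ) {c : ℝ} (hc : 1 < c) :
    VV s N c - VV (s + 1) N (c - 1) ≤
      TT (s + 1) N (c - 1) + TT (s + 1) N (c + 1) - 2 * TT (s + 1) N c := by
  have hc0 : 0 < c := by linarith
  have t0 := tau_pos s N hc0
  have t1 := tau_pos (s + 1) N hc0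
  have t2 := tau_pos (s + 2) N hc0
  have hI := tau_I1 s N hc0
  have hs : (0 : ℝ) < (s : ℝ) + 1 := by positivity
  have hNs : (0 : ℝ) < (N : ℝ) + s + 1 := by positivity
  have hq : (0 : ℝ) < ((N : ℝ) + s + 1) / ((s : ℝ) + 1) := by positivity
  have hlog := Real.log_le_log (by positivity) hI
  rw [Real.log_mul hq.ne' (by positivity), Real.log_mul t0.ne' t2.ne', Real.log_pow] at hlog
  have hch : (((N + (s + 1)).choose (s + 1) : ℕ) : ℝ) =
      ((N : ℝ) + s + 1) / ((s : ℝ) + 1) * ((N + s).choose s : ℝ) := by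
    have := Nat.add_one_mul_choose_eq (N + s) s
    have h2 : ((N + s + 1 : ℕ) : ℝ) * ((N + s).choose s : ℝ) =
        ((N + s + 1).choose (s + 1) : ℝ) * ((s + 1 : ℕ) : ℝ) := by
      exact_mod_cast this
    push_cast at h2
    rw [show N + (s + 1) = N + s + 1 by ring]
    rw [div_mul_eq_mul_div, eq_div_iff hs.ne']
    linarith
  have hl2 : Real.log ((N + (s + 1)).choose (s + 1) : ℝ) =
      Real.log (((N : ℝ) + s + 1) / ((s : ℝ) + 1)) + Real.log ((N + s).choose s : ℝ) := by
    rw [hch, Real.log_mul hq.ne' (choose_pos' N s).ne']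
  rw [VV, VV, hl2, show c - 1 + 1 = c by ring]
  simp only [TT] at *
  push_cast at hlog
  linarith

theorem nuu_continuousAt (s N : ℕ) {c : ℝ} (hc : 0 < c) : ContinuousAt (nuu s N) c := by
  rcases N with _ | N
  · have : nuu s 0 = fun _ => 0 := by funext x; simp [nuu]
    rw [this]
    exact continuousAt_const
  · exact (nuu_hasDerivAt s N hc).continuousAt

theorem window_integrable (s N : ℕ) {c : ℝ} (hc : 1 < c) (a b : ℝ) (ha : a ∈ Set.Icc (-1 : ℝ) 1)
    (hb : b ∈ Set.Icc (-1 : ℝ) 1) :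
    IntervalIntegrable (fun r => (1 - |r|) * nuu s N (c + r)) volume a b := by
  refine ContinuousOn.intervalIntegrable ?_
  intro x hx
  have hx1 : -1 ≤ x := by
    rcases Set.mem_uIcc.1 hx with h | h
    · exact ha.1.trans h.1
    · exact hb.1.trans h.1
  have hp : 0 < c + x := by linarith
  have h1 : ContinuousAt (fun r => nuu s N (c + r)) x := by
    have h2 : ContinuousAt (fun r : ℝ => c + r) x := by fun_prop
    exact ContinuousAt.comp (g := nuu s N) (nuu_continuousAt s N hp) h2
  have h3 : ContinuousAt (fun r : ℝ => 1 - |r|) x := by fun_prop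
  exact (h3.mul h1).continuousWithinAt

theorem window (s N : ℕ) {c : ℝ} (hc : 1 < c) :
    ∫ r in (-1 : ℝ)..1, (1 - |r|) * nuu s N (c + r) =
      2 * TT s N c - TT s N (c - 1) - TT s N (c + 1) := by
  have hT : ∀ r : ℝ, -1 ≤ r → HasDerivAt (fun r => TT s N (c + r)) (deriv (TT s N) (c + r)) r := by
    intro r hr
    exact (TT_deriv s N (show 0 < c + r by linarith)).comp_const_add c r
  have hT' : ∀ r : ℝ, -1 ≤ r → HasDerivAt (fun r => deriv (TT s N) (c + r))
      (-(nuu s N (c + r))) r := by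
    intro r hr
    exact (TT_deriv_hasDerivAt s N (show 0 < c + r by linarith)).comp_const_add c r
  have e0 : ∫ r in (0 : ℝ)..1, (1 - |r|) * nuu s N (c + r) =
      -TT s N (c + 1) + deriv (TT s N) c + TT s N c := by
    have h1 : ∫ r in (0 : ℝ)..1, (1 - |r|) * nuu s N (c + r) =
        ∫ r in (0 : ℝ)..1, (1 - r) * nuu s N (c + r) := by
      refine intervalIntegral.integral_congr fun r hr => ?_
      rw [Set.uIcc_of_le (by norm_num)] at hr
      simp only [abs_of_nonneg hr.1]
    rw [h1, intervalIntegral.integral_eq_sub_of_hasDerivAt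
      (f := fun r => -((1 - r) * deriv (TT s N) (c + r)) - TT s N (c + r))]
    · simp only [sub_self, zero_mul, sub_zero, one_mul, add_zero]
      ring
    · intro r hr
      rw [Set.uIcc_of_le (by norm_num)] at hr
      have h2 : HasDerivAt (fun r : ℝ => 1 - r) (-1) r := by
        simpa using (hasDerivAt_id r).const_sub 1
      have h3 := ((h2.mul (hT' r (by linarith [hr.1]))).neg.sub (hT r (by linarith [hr.1])))
      refine h3.congr_deriv ?_
      ring
    · refine (window_integrable s N hc 0 1 (by norm_num) (by norm_num)).congr ?_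
      intro r hr
      rw [Set.uIoc_of_le (by norm_num)] at hr
      simp only [abs_of_nonneg hr.1.le]
  have e1 : ∫ r in (-1 : ℝ)..0, (1 - |r|) * nuu s N (c + r) =
      -deriv (TT s N) c + TT s N c - TT s N (c - 1) := by
    have h1 : ∫ r in (-1 : ℝ)..0, (1 - |r|) * nuu s N (c + r) =
        ∫ r in (-1 : ℝ)..0, (1 + r) * nuu s N (c + r) := by
      refine intervalIntegral.integral_congr fun r hr => ?_
      rw [Set.uIcc_of_le (by norm_num)] at hr
      simp only [abs_of_nonpos hr.2, sub_neg_eq_add]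
    rw [h1, intervalIntegral.integral_eq_sub_of_hasDerivAt
      (f := fun r => -((1 + r) * deriv (TT s N) (c + r)) + TT s N (c + r))]
    · simp only [add_zero, one_mul, add_neg_cancel, zero_mul, neg_zero, zero_add]
      rw [← sub_eq_add_neg c 1]
    · intro r hr
      rw [Set.uIcc_of_le (by norm_num)] at hr
      have h2 : HasDerivAt (fun r : ℝ => 1 + r) 1 r := by
        simpa using (hasDerivAt_id r).const_add 1
      have h3 := ((h2.mul (hT' r hr.1)).neg.add (hT r hr.1))
      refine h3.congr_deriv ?_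
      ring
    · refine (window_integrable s N hc (-1) 0 (by norm_num) (by norm_num)).congr ?_
      intro r hr
      rw [Set.uIoc_of_le (by norm_num)] at hr
      simp only [abs_of_nonpos hr.2, sub_neg_eq_add]
  rw [← intervalIntegral.integral_add_adjacent_intervals
    (window_integrable s N hc (-1) 0 (by norm_num) (by norm_num))
    (window_integrable s N hc 0 1 (by norm_num) (by norm_num)), e0, e1]
  ring

theorem window_pointwise (s N : ℕ) {c A : ℝ} (hc : 1 < c)
    (h : ∀ M, N ≤ M → M ≤ N + 2 → ∫ r in (-1 : ℝ)..1, (1 - |r|) * nuu s M (c + r) ≤ A) :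
    nuu s (N + 1) c ≤ A * Real.exp A := by
  have hc0 : 0 < c := by linarith
  have hpt : ∀ r : ℝ, 0 ≤ r → r < 1 → 2 * nuu s (N + 1) c * Real.exp (-A) ≤
      nuu s (N + 1) (c + r) + nuu s (N + 1) (c - r) := by
    intro r h0 h1
    have hw0 := h N le_rfl (by omega)
    have hw2 := h (N + 2) (by omega) le_rfl
    rw [window s _ hc] at hw0 hw2
    have m0 := TT_sym_antitone s N h0 h1.le hc
    have m2 := TT_sym_antitone s (N + 2) h0 h1.le hc
    have m1 := TT_sym_antitone s (N + 1) (le_refl 0) h0 (show r < c by linarith)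
    simp only [add_zero, sub_zero] at m1
    have p1 : 0 < c + r := by linarith
    have p2 : 0 < c - r := by linarith
    have q0 := nuu_pos s N hc0
    have q1 := nuu_pos s N p1
    have q2 := nuu_pos s N p2
    have hlog : 2 * Real.log (nuu s (N + 1) c) - 2 * A ≤
        Real.log (nuu s (N + 1) (c + r)) + Real.log (nuu s (N + 1) (c - r)) := by
      rw [log_nuu s N hc0, log_nuu s N p1, log_nuu s N p2]
      linarith
    have hexp := Real.exp_le_exp.2 hlog
    rw [Real.exp_add, Real.exp_log q1, Real.exp_log q2] at hexp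
    have e1 : Real.exp (2 * Real.log (nuu s (N + 1) c) - 2 * A) =
        (nuu s (N + 1) c * Real.exp (-A)) ^ 2 := by
      rw [show 2 * Real.log (nuu s (N + 1) c) - 2 * A =
        Real.log (nuu s (N + 1) c) + Real.log (nuu s (N + 1) c) + (-A + -A) by ring,
        Real.exp_add, Real.exp_add, Real.exp_log q0, Real.exp_add]
      ring
    rw [e1] at hexp
    have q3 : 0 < nuu s (N + 1) c * Real.exp (-A) := mul_pos q0 (Real.exp_pos _)
    nlinarith [sq_nonneg (nuu s (N + 1) (c + r) - nuu s (N + 1) (c - r)),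
      abs_le_of_sq_le_sq' (a := 2 * (nuu s (N + 1) c * Real.exp (-A)))
        (b := nuu s (N + 1) (c + r) + nuu s (N + 1) (c - r))
        (by nlinarith [sq_nonneg (nuu s (N + 1) (c + r) - nuu s (N + 1) (c - r))])
        (by linarith)]
  have hI := h (N + 1) (by omega) (by omega)
  have hint : ∀ a b : ℝ, a ∈ Set.Icc (-1 : ℝ) 1 → b ∈ Set.Icc (-1 : ℝ) 1 →
      IntervalIntegrable (fun r => (1 - |r|) * nuu s (N + 1) (c + r)) volume a b :=
    fun a b ha hb => window_integrable s (N + 1) hc a b ha hb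
  have hneg : ∫ r in (-1 : ℝ)..0, (1 - |r|) * nuu s (N + 1) (c + r) =
      ∫ r in (0 : ℝ)..1, (1 - |r|) * nuu s (N + 1) (c - r) := by
    have := intervalIntegral.integral_comp_neg (a := (0 : ℝ)) (b := 1)
      (fun r => (1 - |r|) * nuu s (N + 1) (c + r))
    simp only [abs_neg, neg_zero, ← sub_eq_add_neg] at this
    exact this.symm
  have hint2 : IntervalIntegrable (fun r => (1 - |r|) * nuu s (N + 1) (c - r)) volume 0 1 := by
    refine ContinuousOn.intervalIntegrable ?_
    intro x hx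
    rw [Set.uIcc_of_le (by norm_num)] at hx
    have hp : 0 < c - x := by linarith [hx.2]
    have h1 : ContinuousAt (fun r => nuu s (N + 1) (c - r)) x := by
      have h2 : ContinuousAt (fun r : ℝ => c - r) x := by fun_prop
      exact ContinuousAt.comp (g := nuu s (N + 1)) (nuu_continuousAt s (N + 1) hp) h2
    have h3 : ContinuousAt (fun r : ℝ => 1 - |r|) x := by fun_prop
    exact (h3.mul h1).continuousWithinAt
  have hsum : ∫ r in (-1 : ℝ)..1, (1 - |r|) * nuu s (N + 1) (c + r) =
      ∫ r in (0 : ℝ)..1, (1 - |r|) * (nuu s (N + 1) (c + r) + nuu s (N + 1) (c - r)) := by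
    rw [← intervalIntegral.integral_add_adjacent_intervals
      (hint (-1) 0 (by norm_num) (by norm_num)) (hint 0 1 (by norm_num) (by norm_num)), hneg,
      add_comm, ← intervalIntegral.integral_add (hint 0 1 (by norm_num) (by norm_num)) hint2]
    refine intervalIntegral.integral_congr fun r _ => ?_
    ring
  have hlow : ∫ r in (0 : ℝ)..1, (1 - r) * (2 * nuu s (N + 1) c * Real.exp (-A)) ≤
      ∫ r in (0 : ℝ)..1, (1 - |r|) * (nuu s (N + 1) (c + r) + nuu s (N + 1) (c - r)) := by
    refine intervalIntegral.integral_mono_on (by norm_num) ?_ ?_ ?_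
    · exact Continuous.intervalIntegrable (by fun_prop) _ _
    · refine ((hint 0 1 (by norm_num) (by norm_num)).add hint2).congr ?_
      intro r _
      simp only
      ring
    · intro r hr
      rw [abs_of_nonneg hr.1]
      rcases eq_or_lt_of_le hr.2 with h1 | h1
      · rw [h1]; simp
      · exact mul_le_mul_of_nonneg_left (hpt r hr.1 h1) (by linarith)
  have hval : ∫ r in (0 : ℝ)..1, (1 - r) * (2 * nuu s (N + 1) c * Real.exp (-A)) =
      nuu s (N + 1) c * Real.exp (-A) := by
    rw [intervalIntegral.integral_mul_const, intervalIntegral.integral_sub (by simp) (by simp)]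
    simp
    ring
  rw [hval, ← hsum] at hlow
  have h5 : nuu s (N + 1) c * Real.exp (-A) ≤ A := hlow.trans hI
  have h6 := mul_le_mul_of_nonneg_right h5 (Real.exp_pos A).le
  rwa [mul_assoc, ← Real.exp_add, neg_add_cancel, Real.exp_zero, mul_one] at h6

theorem TT_base (N : ℕ) (c : ℝ) : TT 1 N (c + 1) = TT 0 N c := by
  rw [TT, TT, tau_base]

theorem nuu_base (N : ℕ) (c : ℝ) : nuu 1 N (c + 1) = nuu 0 N c := by
  simp only [nuu, tau_base]

theorem deriv_TT_base (N : ℕ) (c : ℝ) : deriv (TT 1 N) (c + 1) = deriv (TT 0 N) c := by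
  have h : TT 0 N = fun c => TT 1 N (c + 1) := by
    funext c; exact (TT_base N c).symm
  rw [h, deriv_comp_add_const]

theorem bet_base (N : ℕ) (c : ℝ) : bet 1 N (c + 1) = bet 0 N c := by
  rw [bet, bet, deriv_TT_base, deriv_TT_base]

theorem window_le (s N : ℕ) {c : ℝ} (hc : 1 < c) :
    ∫ r in (-1 : ℝ)..1, (1 - |r|) * nuu (s + 1) N (c + r) ≤
      VV (s + 1) N (c - 1) - VV s N c := by
  rw [window (s + 1) N hc]
  have := second_diff s N hc
  linarith

theorem window_le' (s N : ℕ) {c : ℝ} (hc : 1 < c) :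
    ∫ r in (-1 : ℝ)..1, (1 - |r|) * nuu (s + 1) N (c + r) ≤ ((s : ℝ) + 1) * Real.log 2 := by
  have h1 := window_le s N hc
  have h2 := VV_nonneg s N (show 0 < c by linarith)
  have h3 := VV_le (s + 1) N (show 0 < c - 1 by linarith)
  push_cast at h3
  linarith

theorem nuu_succ_le (s N : ℕ) {c : ℝ} (hc : 1 < c) :
    nuu (s + 1) N c ≤
      (((s : ℝ) + 1) * Real.log 2) * Real.exp (((s : ℝ) + 1) * Real.log 2) := by
  rcases N with _ | N
  · simp only [nuu, if_true]
    have := Real.log_nonneg (show (1 : ℝ) ≤ 2 by norm_num)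
    positivity
  · exact window_pointwise (s + 1) N hc fun M _ _ => window_le' s M hc

theorem nuu_le' (s : ℕ) : ∃ C : ℝ, 0 ≤ C ∧ ∀ (N : ℕ) (c : ℝ), 1 < c → nuu s N c ≤ C := by
  have hl := Real.log_nonneg (show (1 : ℝ) ≤ 2 by norm_num)
  rcases s with _ | s
  · refine ⟨(((0 : ℕ) : ℝ) + 1) * Real.log 2 * Real.exp ((((0 : ℕ) : ℝ) + 1) * Real.log 2),
      by positivity, fun N c hc => ?_⟩
    rw [← nuu_base]
    exact nuu_succ_le 0 N (by linarith)
  · exact ⟨_, by positivity, fun N c hc => nuu_succ_le s N hc⟩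

theorem nuu_le (s : ℕ) : ∃ C : ℝ, ∀ (N : ℕ) (c : ℝ), 2 ≤ c → nuu s N c ≤ C := by
  obtain ⟨C, _, h⟩ := nuu_le' s
  exact ⟨C, fun N c hc => h N c (by linarith)⟩

/-- a function with bounded values and bounded second derivative has bounded derivative -/
theorem deriv_bdd_of {f f' f'' : ℝ → ℝ} {c M K : ℝ}
    (h1 : ∀ x ∈ Set.Icc c (c + 1), HasDerivAt f (f' x) x)
    (h2 : ∀ x ∈ Set.Icc c (c + 1), HasDerivAt f' (f'' x) x)
    (hf : ∀ x ∈ Set.Icc c (c + 1), 0 ≤ f x) (hf' : ∀ x ∈ Set.Icc c (c + 1), f x ≤ M)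
    (hK : ∀ x ∈ Set.Icc c (c + 1), |f'' x| ≤ K) : |f' c| ≤ M + K := by
  obtain ⟨x, hx, hxe⟩ := exists_hasDerivAt_eq_slope f f' (show c < c + 1 by linarith)
    (fun x hx => (h1 x hx).continuousAt.continuousWithinAt)
    (fun x hx => h1 x ⟨hx.1.le, hx.2.le⟩)
  obtain ⟨y, hy, hye⟩ := exists_hasDerivAt_eq_slope f' f'' hx.1
    (fun y hy => (h2 y ⟨hy.1, hy.2.trans hx.2.le⟩).continuousAt.continuousWithinAt)
    (fun y hy => h2 y ⟨hy.1.le, (hy.2.trans hx.2).le⟩)
  have hc : c ∈ Set.Icc c (c + 1) := ⟨le_rfl, by linarith⟩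
  have hc1 : c + 1 ∈ Set.Icc c (c + 1) := ⟨by linarith, le_rfl⟩
  have hyk := hK y ⟨hy.1.le, (hy.2.trans hx.2).le⟩
  have a1 : f' x = f (c + 1) - f c := by
    rw [hxe]; simp
  have hxc : 0 < x - c := by linarith [hx.1]
  have a2 : f' x - f' c = f'' y * (x - c) := by
    rw [hye]; field_simp
  have b1 : |f' x| ≤ M := by
    rw [a1, abs_le]
    constructor
    · linarith [hf _ hc1, hf' _ hc]
    · linarith [hf _ hc, hf' _ hc1]
  have b2 : |f'' y * (x - c)| ≤ K := by
    rw [abs_mul, abs_of_pos hxc]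
    calc |f'' y| * (x - c) ≤ K * 1 :=
          mul_le_mul hyk (by linarith [hx.2]) hxc.le ((abs_nonneg _).trans hyk)
      _ = K := mul_one K
  have e : f' c = f' x - f'' y * (x - c) := by rw [← a2]; ring
  rw [e]
  calc |f' x - f'' y * (x - c)| ≤ |f' x| + |f'' y * (x - c)| := abs_sub _ _
    _ ≤ M + K := add_le_add b1 b2

theorem VV_hasDerivAt (s N : ℕ) {c : ℝ} (hc : 0 < c) :
    HasDerivAt (VV s N) (deriv (TT (s + 1) N) (c + 1) - deriv (TT s N) c) c := by
  have h1 : HasDerivAt (fun c => TT (s + 1) N (c + 1)) (deriv (TT (s + 1) N) (c + 1)) c :=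
    (TT_deriv (s + 1) N (show 0 < c + 1 by linarith)).comp_add_const c 1
  exact (h1.sub (TT_deriv s N hc)).sub_const _

theorem VV_deriv_hasDerivAt (s N : ℕ) {c : ℝ} (hc : 0 < c) :
    HasDerivAt (fun c => deriv (TT (s + 1) N) (c + 1) - deriv (TT s N) c)
      (nuu s N c - nuu (s + 1) N (c + 1)) c := by
  have h1 : HasDerivAt (fun c => deriv (TT (s + 1) N) (c + 1)) (-(nuu (s + 1) N (c + 1))) c :=
    (TT_deriv_hasDerivAt (s + 1) N (show 0 < c + 1 by linarith)).comp_add_const c 1
  exact (h1.sub (TT_deriv_hasDerivAt s N hc)).congr_deriv (by ring)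

theorem VV_deriv_bdd (s : ℕ) : ∃ B : ℝ, ∀ (N : ℕ) (c : ℝ), 2 ≤ c → |deriv (VV s N) c| ≤ B := by
  obtain ⟨C1, hC1, h1⟩ := nuu_le' s
  obtain ⟨C2, hC2, h2⟩ := nuu_le' (s + 1)
  refine ⟨s * Real.log 2 + (C1 + C2), fun N c hc => ?_⟩
  rw [(VV_hasDerivAt s N (show 0 < c by linarith)).deriv]
  refine deriv_bdd_of (f := VV s N) (c := c)
    (f' := fun c => deriv (TT (s + 1) N) (c + 1) - deriv (TT s N) c)
    (f'' := fun c => nuu s N c - nuu (s + 1) N (c + 1)) ?_ ?_ ?_ ?_ ?_
  · intro x hx
    exact VV_hasDerivAt s N (by linarith [hx.1])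
  · intro x hx
    exact VV_deriv_hasDerivAt s N (by linarith [hx.1])
  · intro x hx
    exact VV_nonneg s N (by linarith [hx.1])
  · intro x hx
    exact VV_le s N (by linarith [hx.1])
  · intro x hx
    have p1 := nuu_nonneg s N (show 0 < x by linarith [hx.1])
    have p2 := nuu_nonneg (s + 1) N (show 0 < x + 1 by linarith [hx.1])
    have q1 := h1 N x (by linarith [hx.1])
    have q2 := h2 N (x + 1) (by linarith [hx.1])
    rw [abs_le]
    constructor <;> linarith

theorem bet_lip {s : ℕ} {C : ℝ} (h : ∀ (N : ℕ) (c : ℝ), 1 < c → nuu s N c ≤ C) (N : ℕ)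
    {a b : ℝ} (ha : 1 < a) (hab : a ≤ b) : |bet s N b - bet s N a| ≤ C * (b - a) := by
  have := Convex.norm_image_sub_le_of_norm_hasDerivWithin_le (f := bet s N) (C := C)
    (s := Set.Icc a b) (x := a) (y := b) (f' := fun c => nuu s (N + 1) c - nuu s N c)
    (fun x hx => (bet_hasDerivAt s N (show 0 < x by linarith [hx.1])).hasDerivWithinAt)
    (fun x hx => ?_) (convex_Icc a b) ⟨le_rfl, hab⟩ ⟨hab, le_rfl⟩
  · rw [Real.norm_eq_abs, Real.norm_eq_abs, abs_of_nonneg (by linarith : (0 : ℝ) ≤ b - a)] at this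
    exact this
  · have p1 := nuu_nonneg s N (show 0 < x by linarith [hx.1])
    have p2 := nuu_nonneg s (N + 1) (show 0 < x by linarith [hx.1])
    have q1 := h N x (by linarith [hx.1])
    have q2 := h (N + 1) x (by linarith [hx.1])
    rw [Real.norm_eq_abs, abs_le]
    constructor <;> linarith

theorem bet_log_one : ∃ B : ℝ, ∀ (N : ℕ) (c : ℝ), 2 ≤ c →
    |bet 1 N c - Real.log ((N : ℝ) + 1)| ≤ B := by
  obtain ⟨C, hC, h⟩ := nuu_le' 1
  refine ⟨C + Real.log 4, fun N c hc => ?_⟩
  have hc0 : 0 < c := by linarith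
  -- the discrete derivative
  have hD : ∀ x : ℝ, 0 < x → HasDerivAt (fun x => TT 1 N x - TT 1 (N + 1) x) (bet 1 N x) x := by
    intro x hx
    exact (TT_deriv 1 N hx).sub (TT_deriv 1 (N + 1) hx)
  obtain ⟨x, hx, hxe⟩ := exists_hasDerivAt_eq_slope (fun x => TT 1 N x - TT 1 (N + 1) x)
    (bet 1 N) (show c < c + 1 by linarith)
    (fun x hx => (hD x (by linarith [hx.1])).continuousAt.continuousWithinAt)
    (fun x hx => hD x (by linarith [hx.1]))
  have hQ := tau_Q N hc0
  have t1 := tau_pos 1 N hc0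
  have t2 := tau_pos 1 (N + 1) hc0
  have t3 := tau_pos 0 N hc0
  have t4 := tau_pos 0 (N + 1) hc0
  have hN : (0 : ℝ) < (N : ℝ) + 1 := by positivity
  have l1 := Real.log_le_log (by positivity) hQ.1
  have l2 := Real.log_le_log (by positivity) hQ.2
  rw [Real.log_mul (by positivity) (by positivity), Real.log_mul t1.ne' t4.ne',
    Real.log_mul t2.ne' t3.ne'] at l1
  rw [Real.log_mul t2.ne' t3.ne', Real.log_mul (by positivity) (by positivity),
    Real.log_mul t1.ne' t4.ne'] at l2
  have hsl : bet 1 N x = TT 1 (N + 1) c + TT 0 N c - (TT 1 N c + TT 0 (N + 1) c) := by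
    rw [hxe, TT_base, TT_base]
    ring
  have k1 : Real.log ((N : ℝ) + 1) - Real.log 4 ≤ Real.log (((N : ℝ) + 2) / 4) := by
    rw [← Real.log_div hN.ne' (by norm_num)]
    apply Real.log_le_log (by positivity)
    apply div_le_div_of_nonneg_right _ (by norm_num)
    linarith
  have k2 : Real.log (4 * (N : ℝ) + 2) ≤ Real.log ((N : ℝ) + 1) + Real.log 4 := by
    rw [← Real.log_mul hN.ne' (by norm_num)]
    apply Real.log_le_log (by positivity)
    linarith
  have b1 : |bet 1 N x - Real.log ((N : ℝ) + 1)| ≤ Real.log 4 := by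
    rw [hsl, abs_le]
    simp only [TT]
    constructor <;> linarith
  have b2 := bet_lip h N (show 1 < c by linarith) hx.1.le
  have b3 : |bet 1 N c - bet 1 N x| ≤ C := by
    rw [abs_sub_comm]
    refine b2.trans ?_
    calc C * (x - c) ≤ C * 1 := mul_le_mul_of_nonneg_left (by linarith [hx.2]) hC
      _ = C := mul_one C
  calc |bet 1 N c - Real.log ((N : ℝ) + 1)|
      = |(bet 1 N c - bet 1 N x) + (bet 1 N x - Real.log ((N : ℝ) + 1))| := by ring_nf
    _ ≤ |bet 1 N c - bet 1 N x| + |bet 1 N x - Real.log ((N : ℝ) + 1)| := abs_add_le _ _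
    _ ≤ C + Real.log 4 := add_le_add b3 b1

theorem bet_step (s N : ℕ) {c : ℝ} (hc : 0 < c) :
    bet (s + 1) N (c + 1) = bet s N c + deriv (VV s N) c - deriv (VV s (N + 1)) c := by
  rw [(VV_hasDerivAt s N hc).deriv, (VV_hasDerivAt s (N + 1) hc).deriv, bet, bet]
  ring

theorem bet_log_succ (s : ℕ) : ∃ B : ℝ, ∀ (N : ℕ) (c : ℝ), 2 ≤ c →
    |bet (s + 1) N c - Real.log ((N : ℝ) + 1)| ≤ B := by
  induction s with
  | zero => exact bet_log_one
  | succ s ih =>
    obtain ⟨B, hB⟩ := ih
    obtain ⟨V, hV⟩ := VV_deriv_bdd (s + 1)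
    obtain ⟨C, hC, h⟩ := nuu_le' (s + 2)
    refine ⟨C + (B + 2 * V), fun N c hc => ?_⟩
    have b1 : |bet (s + 2) N (c + 1) - Real.log ((N : ℝ) + 1)| ≤ B + 2 * V := by
      rw [bet_step (s + 1) N (show 0 < c by linarith)]
      have v1 := hV N c hc
      have v2 := hV (N + 1) c hc
      have v3 := hB N c hc
      rw [abs_le] at *
      constructor <;> linarith
    have b2 := bet_lip h N (show 1 < c by linarith) (show c ≤ c + 1 by linarith)
    rw [add_sub_cancel_left, mul_one, abs_sub_comm] at b2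
    calc |bet (s + 2) N c - Real.log ((N : ℝ) + 1)|
        = |(bet (s + 2) N c - bet (s + 2) N (c + 1)) +
            (bet (s + 2) N (c + 1) - Real.log ((N : ℝ) + 1))| := by ring_nf
      _ ≤ |bet (s + 2) N c - bet (s + 2) N (c + 1)| +
            |bet (s + 2) N (c + 1) - Real.log ((N : ℝ) + 1)| := abs_add_le _ _
      _ ≤ C + (B + 2 * V) := add_le_add b2 b1

theorem bet_log (s : ℕ) : ∃ B : ℝ, ∀ (N : ℕ) (c : ℝ), 2 ≤ c →
    |bet s N c - Real.log ((N : ℝ) + 1)| ≤ B := by
  rcases s with _ | s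
  · obtain ⟨B, hB⟩ := bet_log_one
    refine ⟨B, fun N c hc => ?_⟩
    rw [← bet_base]
    exact hB N (c + 1) (by linarith)
  · exact bet_log_succ s

end Pool.Agent.Helper55.BD
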